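import Pool.Agent.FDX.Targets

set_option autoImplicit false

/-!
# FDX: a function field is finite over `L(z)` for every transcendental `z`
-/

namespace Pool.Agent.FDX

open Pool.Agent.FD IntermediateField

theorem p_ALG : T_ALG := by
  intro L K _ _ _ hK z hz
  obtain ⟨x, hx, hfin⟩ := hK
  have halgz : IsAlgebraic (adjoin L {x}) z := Algebra.IsAlgebraic.isAlgebraic z
  have hxz : IsAlgebraic (adjoin L {z}) x :=
    isAlgebraic_adjoin_iff.mpr (.adjoin_singleton hx hz (isAlgebraic_adjoin_iff.mp halgz))
  have h1 : Algebra.EssFiniteType L (adjoin L {x}) :=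
    essFiniteType_iff.mpr ⟨{x}, by simp⟩
  have h2 : Algebra.EssFiniteType (adjoin L {x}) K := inferInstance
  have h3 : Algebra.EssFiniteType L K := .comp L (adjoin L {x}) K
  have h4 : Algebra.EssFiniteType (adjoin L {z}) K := .of_comp L (adjoin L {z}) K
  let Fz := adjoin L {z}
  have h6 : Algebra.IsAlgebraic (adjoin (adjoin L {z}) {x}) K := by
    constructor
    intro y
    have hy : IsAlgebraic (adjoin L {x}) y := Algebra.IsAlgebraic.isAlgebraic y
    have hle : (adjoin L {x} : Set K) ⊆ (adjoin (adjoin L {z}) {x} : Set K) := by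
      have : adjoin L {x} ≤ restrictScalars L (adjoin (adjoin L {z}) {x}) := by
        rw [adjoin_le_iff]
        intro w hw
        exact subset_adjoin _ _ hw
      exact this
    obtain ⟨P, hP0, hP⟩ := hy
    refine ⟨P.map (Subfield.inclusion (S := (adjoin L {x}).toSubfield)
      (T := (adjoin (adjoin L {z}) {x}).toSubfield) hle), ?_, ?_⟩
    · rw [Ne, Polynomial.map_eq_zero_iff (RingHom.injective _)]
      exact hP0
    · rw [Polynomial.aeval_def, Polynomial.eval₂_map]
      rw [Polynomial.aeval_def] at hP
      exact hP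
  have h5 : Algebra.IsAlgebraic (adjoin L {z}) (adjoin (adjoin L {z}) {x}) := by
    apply isAlgebraic_adjoin
    intro w hw
    rw [Set.mem_singleton_iff.mp hw]
    exact hxz.isIntegral
  have h7 : Algebra.IsAlgebraic (adjoin L {z}) K :=
    Algebra.IsAlgebraic.trans (adjoin L {z}) (adjoin (adjoin L {z}) {x}) K
  exact Algebra.finite_of_essFiniteType_of_isAlgebraic

end Pool.Agent.FDX
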