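import Pool.Agent.FDX.Targets
import Pool.Agent.FD.Basic

/-!
# FDX, target APX: weak approximation for finitely many places
-/

namespace Pool.Agent.FDX

open Pool.Agent.FD

namespace APX_

variable {L K : Type} [Field L] [Field K] [Algebra L K]

theorem ord_one (v : Place L K) : v.ord 1 = 0 := v.toDV.ord_one

theorem ord_pow (v : Place L K) (f : K) (n : ℕ) : v.ord (f ^ n) = n * v.ord f :=
  v.toDV.ord_pow f n

theorem ord_inv (v : Place L K) (f : K) : v.ord f⁻¹ = -v.ord f := v.toDV.ord_inv f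

theorem ord_neg (v : Place L K) (f : K) : v.ord (-f) = v.ord f := v.toDV.ord_neg f

theorem ord_zpow (v : Place L K) (f : K) (n : ℤ) : v.ord (f ^ n) = n * v.ord f := by
  rcases n with n | n
  · rw [Int.ofNat_eq_natCast, zpow_natCast, ord_pow]
  · rw [zpow_negSucc, ord_inv, ord_pow, Int.negSucc_eq]
    push_cast
    ring

/-- an element of order one -/
noncomputable def uz (v : Place L K) : K := v.exists_ord_one.choose

theorem uz_ord (v : Place L K) : v.ord (uz v) = 1 := v.exists_ord_one.choose_spec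

theorem uz_ne (v : Place L K) : uz v ≠ 0 := by
  intro h
  have h1 := uz_ord v
  rw [h, v.ord_zero] at h1
  exact absurd h1 (by norm_num)

open Classical in
/-- the absolute value of a place -/
noncomputable def av (v : Place L K) : AbsoluteValue K ℝ where
  toFun f := if f = 0 then 0 else (2 : ℝ) ^ (-v.ord f)
  map_mul' f g := by
    by_cases hf : f = 0
    · simp [hf]
    by_cases hg : g = 0
    · simp [hg]
    rw [if_neg hf, if_neg hg, if_neg (mul_ne_zero hf hg), v.ord_mul f g hf hg,
      ← zpow_add₀ (two_ne_zero)]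
    congr 1
    ring
  nonneg' f := by
    split_ifs
    · exact le_rfl
    · positivity
  eq_zero' f := by
    split_ifs with h
    · simp [h]
    · have h1 : (2 : ℝ) ^ (-v.ord f) ≠ 0 := by positivity
      exact iff_of_false h1 h
  add_le' f g := by
    by_cases hf : f = 0
    · simp [hf]
    by_cases hg : g = 0
    · simp [hg]
    by_cases hfg : f + g = 0
    · rw [if_pos hfg]
      positivity
    rw [if_neg hf, if_neg hg, if_neg hfg]
    have h1 := v.ord_add f g hf hg hfg
    have p1 : (0 : ℝ) < (2 : ℝ) ^ (-v.ord f) := by positivity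
    have p2 : (0 : ℝ) < (2 : ℝ) ^ (-v.ord g) := by positivity
    rcases min_le_iff.1 h1 with h2 | h2
    · have h3 : (2 : ℝ) ^ (-v.ord (f + g)) ≤ (2 : ℝ) ^ (-v.ord f) :=
        zpow_le_zpow_right₀ one_le_two (by omega)
      linarith
    · have h3 : (2 : ℝ) ^ (-v.ord (f + g)) ≤ (2 : ℝ) ^ (-v.ord g) :=
        zpow_le_zpow_right₀ one_le_two (by omega)
      linarith

theorem av_apply (v : Place L K) {f : K} (hf : f ≠ 0) : av v f = (2 : ℝ) ^ (-v.ord f) := by
  exact if_neg hf

theorem av_le (v : Place L K) {f g : K} (hf : f ≠ 0) (hg : g ≠ 0) :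
    av v f ≤ av v g ↔ v.ord g ≤ v.ord f := by
  rw [av_apply v hf, av_apply v hg, zpow_le_zpow_iff_right₀ one_lt_two]
  omega

theorem av_lt (v : Place L K) {f g : K} (hf : f ≠ 0) (hg : g ≠ 0) :
    av v f < av v g ↔ v.ord g < v.ord f := by
  rw [← not_le, av_le v hg hf, not_le]

theorem av_nontriv (v : Place L K) : (av v).IsNontrivial := by
  refine ⟨uz v, uz_ne v, ?_⟩
  rw [av_apply v (uz_ne v), uz_ord]
  norm_num

theorem av_inj {v w : Place L K} (h : (av v).IsEquiv (av w)) : v = w := by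
  have key : ∀ f g : K, f ≠ 0 → g ≠ 0 → (v.ord g ≤ v.ord f ↔ w.ord g ≤ w.ord f) := by
    intro f g hf hg
    rw [← av_le v hf hg, ← av_le w hf hg]
    exact h f g
  have keq : ∀ f g : K, f ≠ 0 → g ≠ 0 → v.ord f = v.ord g → w.ord f = w.ord g := by
    intro f g hf hg hfg
    exact le_antisymm ((key g f hg hf).1 hfg.le) ((key f g hf hg).1 hfg.ge)
  have hmul : ∀ f : K, f ≠ 0 → w.ord f = v.ord f * w.ord (uz v) := by
    intro f hf
    rw [← ord_zpow]
    refine keq f _ hf (zpow_ne_zero _ (uz_ne v)) ?_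
    rw [ord_zpow, uz_ord, mul_one]
  have h1 := hmul (uz w) (uz_ne w)
  rw [uz_ord] at h1
  have hpos : 0 ≤ w.ord (uz v) := by
    have h2 := (key (uz v) 1 (uz_ne v) one_ne_zero).1 (by rw [uz_ord, ord_one]; norm_num)
    rwa [ord_one] at h2
  have hu : w.ord (uz v) = 1 := by
    rcases Int.eq_one_or_neg_one_of_mul_eq_one (by rw [mul_comm]; exact h1.symm) with h2 | h2
    · exact h2
    · omega
  ext f
  by_cases hf : f = 0
  · rw [hf, v.ord_zero, w.ord_zero]
  · rw [hmul f hf, hu, mul_one]

theorem ord_eq_of_close (v : Place L K) {z y : K} (hz : z ≠ 0) (h : av v (z - y) < av v z) :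
    v.ord y = v.ord z := by
  have h1 : y = z + -(z - y) := by ring
  rw [h1]
  refine v.toDV.ord_add_eq hz ?_
  by_cases h2 : z - y = 0
  · left
    rw [h2, neg_zero]
  · right
    show v.ord z < v.ord (-(z - y))
    rw [ord_neg]
    exact (av_lt v h2 hz).1 h

end APX_

open APX_ in
theorem p_APX : T_APX := by
  classical
  intro L K _ _ _ S n
  by_cases hS : S.Nonempty
  swap
  · rw [Finset.not_nonempty_iff_eq_empty] at hS
    refine ⟨1, one_ne_zero, ?_⟩
    intro v hv
    rw [hS] at hv
    exact absurd hv (Finset.notMem_empty v)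
  have hdense := AbsoluteValue.denseRange_algebraMap_pi (F := K)
    (v := fun v : {v : Place L K // v ∈ S} => av v.1) (fun v => av_nontriv v.1)
    (fun v w hvw h => hvw (Subtype.ext (av_inj h)))
  set z : {v : Place L K // v ∈ S} → K := fun v => uz v.1 ^ n v.1 with hz
  have hz0 : ∀ v, z v ≠ 0 := fun v => zpow_ne_zero _ (uz_ne v.1)
  have hzo : ∀ v : {v : Place L K // v ∈ S}, v.1.ord (z v) = n v.1 := by
    intro v
    rw [hz, ord_zpow, uz_ord, mul_one]
  obtain ⟨v0, hv0⟩ := hS
  have hne : (Finset.univ : Finset {v : Place L K // v ∈ S}).Nonempty :=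
    ⟨⟨v0, hv0⟩, Finset.mem_univ _⟩
  set r : ℝ := Finset.univ.inf' hne (fun v => av v.1 (z v)) with hr
  have hr0 : 0 < r := by
    rw [hr, Finset.lt_inf'_iff]
    intro v _
    exact (av v.1).pos (hz0 v)
  obtain ⟨y, hy⟩ := Metric.denseRange_iff.1 hdense
    (fun v => WithAbs.toAbs (av v.1) (z v)) r hr0
  rw [dist_pi_lt_iff hr0] at hy
  have hord : ∀ v : {v : Place L K // v ∈ S}, v.1.ord y = n v.1 := by
    intro v
    rw [← hzo v]
    refine ord_eq_of_close v.1 (hz0 v) ?_
    have h1 := hy v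
    have h2 : dist (WithAbs.toAbs (av v.1) (z v))
        ((algebraMap K ((i : {v : Place L K // v ∈ S}) → WithAbs (av i.1))) y v) =
        av v.1 (z v - y) := by
      rw [dist_eq_norm]
      rfl
    rw [h2] at h1
    exact lt_of_lt_of_le h1 (Finset.inf'_le _ (Finset.mem_univ v))
  by_cases hy0 : y = 0
  · refine ⟨1, one_ne_zero, fun v hv => ?_⟩
    have h1 := hord ⟨v, hv⟩
    rw [hy0, v.ord_zero] at h1
    rw [ord_one]
    exact h1
  · exact ⟨y, hy0, fun v hv => hord ⟨v, hv⟩⟩

end Pool.Agent.FDX
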