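import Pool.Agent.FDX.Targets2
import Pool.Agent.FD.MainC

/-!
# FDX: target AUX, the common part of the two main theorems
-/

set_option autoImplicit false

open MvPolynomial

namespace Pool.Agent.FDX

open Pool.Agent.FD

theorem p_AUX (hEmp : T_EMPTY) (hIrr : FD.T_IRR) (hSel : FD.T_SELM2) (hRes : FD.T_RES)
    (hLoc : FD.T_LOC) (hSEL : FD.T_SEL2) (hHC : FD.T_HC) (hAr : FD.T_ARITH2) (hH : FD.T_H2) :
    T_AUX := by
  intro r m ν c Q G hr hm hν q hq hQ hG P hP hPB hqP k hk2 hk3 hk4
  obtain ⟨δ, hδ, hδ0, hδN⟩ := hG (fun i => q i ^ k i)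
    (fun i => le_trans (by omega) (hk2 i))
    (fun i j hij => le_trans (by
      change q i ^ k i + G ≤ q i ^ k i + (G + 2 * r * (Gam P).divisors.card ^ 2 + 2)
      omega) (hk3 i j hij)) hk4
  obtain ⟨l, hl, g, hg⟩ := hSEL m r P hP (fun i => q i ^ k i) (6 * Q) (by omega)
    (by
      intro a
      rw [(hP.prime a).coprime_iff_not_dvd]
      intro h
      have hB := hPB a
      have h6 : 6 * Q = 2 * (3 * Q) := by ring
      rw [h6] at h
      rcases (hP.prime a).dvd_mul.mp h with h2 | h2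
      · have := Nat.le_of_dvd (by norm_num) h2
        omega
      · rcases (hP.prime a).dvd_mul.mp h2 with h3 | h3
        · have := Nat.le_of_dvd (by norm_num) h3
          omega
        · have := Nat.le_of_dvd (by omega) h3
          omega)
    (by
      intro i a
      apply Nat.Coprime.pow_left
      rw [Nat.coprime_primes (hq i) (hP.prime a)]
      exact hqP i a)
    (by
      intro i
      have := hk2 i
      change 2 * r * (Gam P).divisors.card ^ 2 < q i ^ k i
      omega)
  have hm0 : 0 < m := by omega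
  obtain ⟨c0, hc1, hmon, hdeg, hsep, hnr⟩ := hHC m r P (fun i => q i ^ k i) l hP hl
  have hg0 : g ≠ 0 := by
    rintro rfl
    apply hg ⟨0, hm0⟩ 2 (by norm_num) (Dvd.intro (3 * Q) (by ring)) 0
    rw [zero_pow (by norm_num), Int.cast_zero]
  have hdeg0 : 0 < (f0 P * hc P c0).natDegree := by rw [hdeg]; omega
  obtain ⟨A, hA⟩ : ∃ A : Arr (Fin (3 * r + 1)),
    A = MainB.arr hH P Q ν (3 * r) hQ (by omega) δ hδ hδ0 g c0 hg0 hmon hdeg0 hsep l
      hl.prime := ⟨_, rfl⟩
  have hAf : ∀ p, A.f p = MainB.fB P Q ν g c0 p := by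
    intro p
    rw [hA]
    rfl
  have hAc : A.c = ∏ a, (l a : ℤ) := by rw [hA]; rfl
  have hAh : ∀ p, A.h p = hD δ p := by
    intro p
    rw [hA]
    rfl
  have hAm : ∀ p, A.m p = mass Q ν p := by
    intro p
    unfold Arr.m
    rw [hAf]
    unfold MainB.fB
    split_ifs with h
    · rw [hdeg, MainB.mass_host h, hν]
    · exact Polynomial.natDegree_X_pow_sub_C
  have hAN : ∀ p, A.N p = NM Q ν δ p := by
    intro p
    unfold Arr.N NM
    refine Finset.sum_congr rfl fun j hj => ?_
    rw [hAm]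
    congr 1
    unfold Arr.w
    rw [hAh, hAh]
    exact (hH _ δ hδ hδ0 p j (Finset.ne_of_mem_erase hj).symm).2.1
  have hAP : ∀ i, A.N (pos r i) = q i ^ k i := by
    intro i
    rw [hAN]
    exact hδN i
  have hpos : ∀ i : Fin r, (pos r i).val % 3 = 1 := by
    intro i
    unfold pos
    simp only
    omega
  have hAfpos : ∀ i, A.f (pos r i) = f0 P * hc P c0 := by
    intro i
    rw [hAf]
    unfold MainB.fB
    rw [if_pos (hpos i)]
  have hfill : ∀ p : Fin (3 * r + 1), (∀ t, pos r t ≠ p) → ∀ a, ∀ z : ZMod (l a),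
      Polynomial.aeval z (A.f p) ≠ 0 := by
    intro p hp a z
    have h3 : ¬ p.val % 3 = 1 := by
      intro h
      apply hp ⟨p.val / 3, by have := p.isLt; omega⟩
      apply Fin.ext
      unfold pos
      simp only
      omega
    rw [hAf]
    unfold MainB.fB
    rw [if_neg h3, map_sub, map_pow, Polynomial.aeval_X, Polynomial.aeval_C, sub_ne_zero]
    exact hg a _ (MainB.mass_ge hQ h3) (MainB.mass_dvd h3) z
  have hlen : Fintype.card (Fin (3 * r + 1)) = 3 * r + 1 := Fintype.card_fin _
  have hmass : ∀ p : Fin (3 * r + 1), mass Q ν p ≤ Q + ν + 3 := by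
    intro p
    unfold mass
    split_ifs <;> omega
  have hinj : Function.Injective (pos r) := by
    intro i j hij
    have := congrArg Fin.val hij
    unfold pos at this
    simp only at this
    apply Fin.ext
    omega
  have hgL : GoodL P (fun i : Fin r => A.N (pos r i)) l := by
    have h2 : (fun i : Fin r => A.N (pos r i)) = fun i : Fin r => q i ^ k i := by
      funext i
      exact hAP i
    rw [h2]
    exact hl
  have h2le : ∀ i : Fin r, 2 ≤ A.N (pos r i) := by
    intro i
    rw [hAP]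
    have := hk2 i
    omega
  have hhost : ∀ i : Fin r, ∃ hh : Polynomial ℤ, A.f (pos r i) = f0 P * hh ∧ f0 P ∣ hh - 1 ∧
      ∀ a, ∀ z : ZMod (l a), Polynomial.aeval z hh ≠ 0 := by
    intro i
    refine ⟨hc P c0, hAfpos i, ?_, hc1⟩
    refine ⟨Polynomial.X + Polynomial.C c0, ?_⟩
    unfold hc
    ring
  refine ⟨⟨A.F, fun L _ _ _ => hIrr _ A L⟩, ?_, ?_, ?_, ?_, ?_⟩
  · -- no rational points
    intro hpt
    rcases hRes _ A ⟨A.F, fun L _ _ _ => hIrr _ A L⟩ rfl hpt with ⟨i, θ, hθ⟩ | ⟨α, β, h⟩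
    · by_cases hi : ∀ t, pos r t ≠ i
      · exact MainB.no_root (A.f i) (A.monic i) (l ⟨0, hm0⟩) (hfill i hi ⟨0, hm0⟩) ⟨θ, hθ⟩
      · push Not at hi
        obtain ⟨t, rfl⟩ := hi
        rw [hAfpos] at hθ
        exact hnr ⟨θ, hθ⟩
    · exact hAr _ A m r (pos r) P l hinj hP hgL h2le hhost hfill hAc (by omega) ⟨α, β, h⟩
  · -- Selmer sets
    rintro n hn ⟨i, hi⟩
    have hroot := hLoc m P hP
    refine hSel _ A ⟨A.F, fun L _ _ _ => hIrr _ A L⟩ rfl (pos r i)
      (dd P (some ⟨0, hm0⟩)) ?_ ?_ ?_ ?_ n ?_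
    · rw [hAfpos]
      have hd : (Polynomial.X ^ 2 - Polynomial.C (dd P (some (⟨0, hm0⟩ : Fin m)))) ∣ f0 P :=
        Finset.dvd_prod_of_mem (fun k => Polynomial.X ^ 2 - Polynomial.C (dd P k))
          (Finset.mem_univ (some (⟨0, hm0⟩ : Fin m)))
      exact hd.mul_right _
    · rw [hAm, MainB.mass_host (hpos i), hν]
      exact ⟨2 * (m + 1), by ring⟩
    · obtain ⟨x, hx⟩ := hroot.1
      refine ⟨x, ?_⟩
      rw [hAfpos, map_mul, hx, zero_mul]
    · intro p _
      obtain ⟨x, hx⟩ := hroot.2 p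
      refine ⟨x, ?_⟩
      rw [hAfpos, map_mul, hx, zero_mul]
    · rw [hAP]
      apply Nat.Coprime.pow_right
      rw [Nat.coprime_comm, (hq i).coprime_iff_not_dvd]
      exact hi
  · -- empty Selmer sets
    intro n hn hdvd
    exact hEmp _ A ⟨A.F, fun L _ _ _ => hIrr _ A L⟩ rfl m r (pos r) P l
      ⟨hinj, hP, hgL, h2le, hhost, hfill, hAc, by omega⟩ n hn
      fun t => by
        rw [hAP]
        exact hdvd t
  · -- degree in `y`
    refine (A.degreeOf_one_le).trans ?_
    calc ∑ i, A.m i ≤ ∑ i : Fin (3 * r + 1), (Q + ν + 3) :=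
          Finset.sum_le_sum fun i _ => by rw [hAm]; exact hmass i
      _ = (3 * r + 1) * (Q + ν + 3) := by
          rw [Finset.sum_const, Finset.card_univ, hlen, smul_eq_mul]
  · -- degree in `x`
    intro t
    refine (A.degreeOf_zero_le).trans ?_
    have hlast : δ (Fin.last (3 * r)) ≤ q t ^ k t := by
      rw [← hδN t]
      unfold NM
      have hne : Fin.last (3 * r) ≠ pos r t := by
        intro h
        have h1 := congrArg Fin.val h
        unfold pos at h1
        simp only [Fin.val_last] at h1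
        omega
      refine le_trans ?_ (Finset.single_le_sum
        (f := fun j => mass Q ν j * max (δ (pos r t)) (δ j)) (fun _ _ => Nat.zero_le _)
        (Finset.mem_erase.mpr ⟨hne, Finset.mem_univ (Fin.last (3 * r))⟩))
      have h1 : 1 ≤ mass Q ν (Fin.last (3 * r)) := MainB.mass_pos hQ (by omega) _
      calc δ (Fin.last (3 * r)) ≤ max (δ (pos r t)) (δ (Fin.last (3 * r))) := le_max_right _ _
        _ = 1 * max (δ (pos r t)) (δ (Fin.last (3 * r))) := (one_mul _).symm
        _ ≤ _ := Nat.mul_le_mul_right _ h1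
    have hdegh : ∀ i, (A.h i).natDegree ≤ q t ^ k t := by
      intro i
      rw [hAh]
      unfold hD
      split_ifs with h
      · rw [Polynomial.natDegree_zero]
        exact Nat.zero_le _
      · rw [Polynomial.natDegree_X_pow]
        exact (hδ.monotone (Fin.le_last i)).trans hlast
    calc ∑ i, A.m i * (A.h i).natDegree
        ≤ ∑ i : Fin (3 * r + 1), (Q + ν + 3) * q t ^ k t :=
          Finset.sum_le_sum fun i _ => Nat.mul_le_mul (by rw [hAm]; exact hmass i) (hdegh i)
      _ = (3 * r + 1) * (Q + ν + 3) * q t ^ k t := by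
          rw [Finset.sum_const, Finset.card_univ, hlen, smul_eq_mul, mul_assoc]

end Pool.Agent.FDX
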