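import Pool.Agent.FDX.Targets
import Pool.Agent.FD.Basic

/-!
# FDX, GC1: the choices exist
-/

set_option autoImplicit false

open MvPolynomial

namespace Pool.Agent.FDX

open Pool.Agent.FD

namespace CHO_

theorem push_add {C : Curve} {L L' : Type} [Field L] [CharZero L] [IsAlgClosed L] [Field L']
    [CharZero L'] [IsAlgClosed L'] (j : L →+* L') (A B : C.Pt L → ℤ) :
    C.push j (A + B) = C.push j A + C.push j B := by
  funext w
  unfold Curve.push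
  simp only [Pi.add_apply]
  split_ifs <;> simp

theorem ord_inv {L K : Type} [Field L] [Field K] [Algebra L K] (v : Place L K) (f : K) :
    v.ord f⁻¹ = -v.ord f := v.toDV.ord_inv f

theorem ord_pow {L K : Type} [Field L] [Field K] [Algebra L K] (v : Place L K) (f : K) (n : ℕ) :
    v.ord (f ^ n) = n * v.ord f := v.toDV.ord_pow f n

theorem nsmul_ap {α : Type} (n : ℕ) (f : α → ℤ) (v : α) : (n • f) v = (n : ℤ) * f v := by
  rw [Pi.smul_apply, nsmul_eq_mul]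

/-- moving a divisor off a finite set -/
theorem move (h_FIN : T_FIN) (h_MOVE : T_MOVE) (h_PR : T_PR) {L K : Type} [Field L] [CharZero L]
    [IsAlgClosed L] [Field K] [Algebra L K] (hK : FF L K) (A : Place L K → ℤ) (d : ℤ)
    (hf : (Function.support A).Finite) (hd : ∑ᶠ v, A v = d) (S : Set (Place L K))
    (hS : S.Finite) : ∃ ψ : K, ψ ≠ 0 ∧ (Function.support (A + dv (L := L) ψ)).Finite ∧
      ∑ᶠ v, (A + dv (L := L) ψ) v = d ∧ ∀ v ∈ S, (A + dv (L := L) ψ) v = 0 := by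
  obtain ⟨ψ, h1, h2, h3⟩ := h_MOVE L K hK A hf S hS
  refine ⟨ψ, h1, h2, ?_, h3⟩
  have h4 : (Function.support (fun v : Place L K => v.ord ψ)).Finite := h_FIN L K hK ψ h1
  have h5 := (h_PR L K hK ψ h1).1
  have e : ∑ᶠ v, (A + dv (L := L) ψ) v = ∑ᶠ v, (A v + v.ord ψ) := rfl
  rw [e, finsum_add_distrib hf h4, hd, h5, add_zero]

end CHO_

open CHO_ in
theorem p_CHO (h_FF : T_FF) (h_FIN : T_FIN) (h_MOVE : T_MOVE) (h_PR : T_PR)
    (h_PUSHX : T_PUSHX) : T_CHO := by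
  intro C n X h u hh hu ih iu
  have hK : FF Curve.Qbar (C.FunField Curve.Qbar) := h_FF C Curve.Qbar
  obtain ⟨S, hSd⟩ : ∃ S : Set (C.Pt Curve.Qbar), S = {v | v.ord h ≠ 0} ∪ {v | v.ord u ≠ 0} :=
    ⟨_, rfl⟩
  have hS : S.Finite := by
    rw [hSd]
    exact (h_FIN _ _ hK h hh).union (h_FIN _ _ hK u hu)
  obtain ⟨ψ, hψ, hψf, hψd, hψS⟩ := move h_FIN h_MOVE h_PR hK X.D 1 X.hD.1 X.hD.2 S hS
  have hm := fun σ => move h_FIN h_MOVE h_PR hK (X.ξ σ) 0 (X.hξ σ).1 (X.hξ σ).2 S hS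
  choose χ hχ hχf hχd hχS using hm
  have hg := X.compat
  unfold Curve.IsCompatible Curve.IsPrin at hg
  choose g hg0 hg1 using hg
  obtain ⟨D, hD⟩ : ∃ D, D = X.D + dv (L := Curve.Qbar) ψ := ⟨_, rfl⟩
  obtain ⟨ξ, hξ⟩ : ∃ ξ : (Curve.Qbar ≃ₐ[ℚ] Curve.Qbar) → C.Pt Curve.Qbar → ℤ,
    ∀ σ, ξ σ = X.ξ σ + dv (L := Curve.Qbar) (χ σ) := ⟨_, fun σ => rfl⟩
  have hDS : ∀ v ∈ S, D v = 0 := by rw [hD]; exact hψS
  have hξS : ∀ σ, ∀ v ∈ S, ξ σ v = 0 := by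
    intro σ
    rw [hξ]
    exact hχS σ
  have off1 : ∀ A : C.Pt Curve.Qbar → ℤ, (∀ v ∈ S, A v = 0) → Off A h ∧ Off A u := by
    intro A hA
    constructor
    · intro v hv
      by_contra hc
      exact hv (hA v (by rw [hSd]; exact Or.inl hc))
    · intro v hv
      by_contra hc
      exact hv (hA v (by rw [hSd]; exact Or.inr hc))
  have hmap : ∀ σ : Curve.Qbar ≃ₐ[ℚ] Curve.Qbar,
      C.mapFun (σ : Curve.Qbar →+* Curve.Qbar) ψ ≠ 0 := fun σ => (map_ne_zero _).mpr hψ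
  obtain ⟨φ, hφ⟩ : ∃ φ : (Curve.Qbar ≃ₐ[ℚ] Curve.Qbar) → C.FunField Curve.Qbar,
    ∀ σ, φ σ = (g σ)⁻¹ * (C.mapFun (σ : Curve.Qbar →+* Curve.Qbar) ψ *
      (ψ⁻¹ * ((χ σ) ^ n)⁻¹)) := ⟨_, fun σ => rfl⟩
  have hφ0 : ∀ σ, φ σ ≠ 0 := by
    intro σ
    rw [hφ]
    exact mul_ne_zero (inv_ne_zero (hg0 σ)) (mul_ne_zero (hmap σ)
      (mul_ne_zero (inv_ne_zero hψ) (inv_ne_zero (pow_ne_zero _ (hχ σ)))))
  have hord : ∀ σ (v : C.Pt Curve.Qbar), v.ord (φ σ) = - v.ord (g σ) +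
      (v.ord (C.mapFun (σ : Curve.Qbar →+* Curve.Qbar) ψ) + (- v.ord ψ - n * v.ord (χ σ))) := by
    intro σ v
    rw [hφ, v.ord_mul _ _ (inv_ne_zero (hg0 σ)) (mul_ne_zero (hmap σ)
      (mul_ne_zero (inv_ne_zero hψ) (inv_ne_zero (pow_ne_zero _ (hχ σ))))),
      v.ord_mul _ _ (hmap σ) (mul_ne_zero (inv_ne_zero hψ) (inv_ne_zero (pow_ne_zero _ (hχ σ)))),
      v.ord_mul _ _ (inv_ne_zero hψ) (inv_ne_zero (pow_ne_zero _ (hχ σ))), ord_inv, ord_inv,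
      ord_inv, ord_pow]
    ring
  have rel : ∀ σ : Curve.Qbar ≃ₐ[ℚ] Curve.Qbar,
      C.push (σ : Curve.Qbar →+* Curve.Qbar) D - D = n • ξ σ + dv (L := Curve.Qbar) (φ σ) := by
    intro σ
    funext v
    have e1 := hg1 σ v
    have e2 : C.push (σ : Curve.Qbar →+* Curve.Qbar) D =
        C.push (σ : Curve.Qbar →+* Curve.Qbar) X.D +
          dv (L := Curve.Qbar) (C.mapFun (σ : Curve.Qbar →+* Curve.Qbar) ψ) := by
      rw [hD, push_add, (h_PUSHX C _ _ _).1 ψ hψ]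
    have e3 := hord σ v
    rw [e2, hξ, hD]
    simp only [Pi.sub_apply, Pi.add_apply, nsmul_ap, dv] at e1 ⊢
    rw [e3]
    linarith
  have hpS : ∀ σ : Curve.Qbar ≃ₐ[ℚ] Curve.Qbar, ∀ v ∈ S,
      C.push (σ : Curve.Qbar →+* Curve.Qbar) D v = 0 := by
    intro σ v hv
    by_contra hc
    have o := off1 D hDS
    have o1 := (h_PUSHX C _ _ (σ : Curve.Qbar →+* Curve.Qbar)).2.2.2 D h o.1
    have o2 := (h_PUSHX C _ _ (σ : Curve.Qbar →+* Curve.Qbar)).2.2.2 D u o.2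
    rw [ih σ] at o1
    rw [iu σ] at o2
    rw [hSd] at hv
    rcases hv with hv | hv
    · exact hv (o1 v hc)
    · exact hv (o2 v hc)
  have hφS : ∀ σ, ∀ v ∈ S, v.ord (φ σ) = 0 := by
    intro σ v hv
    have e := congrFun (rel σ) v
    simp only [Pi.sub_apply, Pi.add_apply, nsmul_ap, dv] at e
    rw [hpS σ v hv, hDS v hv, hξS σ v hv] at e
    linarith
  refine ⟨⟨D, ξ, φ, ?_, ?_, ?_, ?_, hφ0, rel, off1 D hDS, fun σ => off1 _ (hξS σ), ?_⟩⟩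
  · rw [hD]
    exact ⟨hψf, hψd⟩
  · refine ⟨ψ, hψ, fun v => ?_⟩
    rw [hD]
    simp [dv]
  · intro σ
    rw [hξ]
    exact ⟨hχf σ, hχd σ⟩
  · intro σ
    refine ⟨χ σ, hχ σ, fun v => ?_⟩
    rw [hξ]
    simp [dv]
  · intro σ
    constructor
    · intro v hv
      exact hφS σ v (by rw [hSd]; exact Or.inl hv)
    · intro v hv
      exact hφS σ v (by rw [hSd]; exact Or.inr hv)

end Pool.Agent.FDX
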