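import Pool.Agent.FDX.Targets
import Pool.Agent.FD.CritB

set_option autoImplicit false

/-!
# FDX-COC: the continuous cocycle `b`
-/

open MvPolynomial

namespace Pool.Agent.FDX

open Pool.Agent.FD

namespace COC_

section prin

variable {C : Curve} {L : Type} [Field L] [CharZero L] [IsAlgClosed L]

theorem dv_mul {f g : C.FunField L} (hf : f ≠ 0) (hg : g ≠ 0) :
    dv (L := L) (f * g) = dv (L := L) f + dv (L := L) g := by
  funext v
  exact v.ord_mul f g hf hg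

theorem dv_inv (f : C.FunField L) : dv (L := L) f⁻¹ = - dv (L := L) f := by
  funext v
  exact v.toDV.ord_inv f

theorem dv_div {f g : C.FunField L} (hf : f ≠ 0) (hg : g ≠ 0) :
    dv (L := L) (f / g) = dv (L := L) f - dv (L := L) g := by
  rw [div_eq_mul_inv, dv_mul hf (inv_ne_zero hg), dv_inv, sub_eq_add_neg]

theorem prin_iff {A : C.Pt L → ℤ} :
    Curve.IsPrin A ↔ ∃ f : C.FunField L, f ≠ 0 ∧ A = dv (L := L) f :=
  ⟨fun ⟨f, hf, h⟩ => ⟨f, hf, funext h⟩, fun ⟨f, hf, h⟩ => ⟨f, hf, fun v => congrFun h v⟩⟩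

theorem prin_sub {A A' : C.Pt L → ℤ} (h : Curve.IsPrin A) (h' : Curve.IsPrin A') :
    Curve.IsPrin (A - A') := by
  rw [prin_iff] at *
  obtain ⟨f, hf, rfl⟩ := h
  obtain ⟨g, hg, rfl⟩ := h'
  exact ⟨f / g, div_ne_zero hf hg, (dv_div hf hg).symm⟩

theorem prin_add {A A' : C.Pt L → ℤ} (h : Curve.IsPrin A) (h' : Curve.IsPrin A') :
    Curve.IsPrin (A + A') := by
  rw [prin_iff] at *
  obtain ⟨f, hf, rfl⟩ := h
  obtain ⟨g, hg, rfl⟩ := h'
  exact ⟨f * g, mul_ne_zero hf hg, (dv_mul hf hg).symm⟩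

theorem prin_push (h_PUSHX : T_PUSHX) {L' : Type} [Field L'] [CharZero L'] [IsAlgClosed L']
    (j : L →+* L') {A : C.Pt L → ℤ} (h : Curve.IsPrin A) : Curve.IsPrin (C.push j A) := by
  rw [prin_iff] at *
  obtain ⟨f, hf, rfl⟩ := h
  exact ⟨C.mapFun j f, (map_ne_zero _).2 hf, (h_PUSHX C L L' j).1 f hf⟩

end prin

theorem push_sub {L L' : Type} [Field L] [CharZero L] [IsAlgClosed L] [Field L']
    [CharZero L'] [IsAlgClosed L'] {C : Curve} (j : L →+* L') (D E : C.Pt L → ℤ) :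
    C.push j (D - E) = C.push j D - C.push j E := by
  funext w
  simp only [Curve.push, Pi.sub_apply]
  split_ifs with h
  · rfl
  · ring

theorem push_zsmul {L L' : Type} [Field L] [CharZero L] [IsAlgClosed L] [Field L']
    [CharZero L'] [IsAlgClosed L'] {C : Curve} (j : L →+* L') (m : ℤ) (D : C.Pt L → ℤ) :
    C.push j (m • D) = m • C.push j D := by
  funext w
  simp only [Curve.push, Pi.smul_apply, smul_eq_mul]
  split_ifs with h
  · rfl
  · ring

end COC_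

theorem p_COC (h_FF : T_FF) (h_WEIL : T_WEIL) (h_EV : T_EV) (h_KEY : T_KEY)
    (h_PUSHX : T_PUSHX) (h_FOD : T_FOD) (h_FIN : T_FIN) : T_COC := by
  intro C n N m X h u B c hh hinv hN hn hB
  have hFF := h_FF C Curve.Qbar
  obtain ⟨E1, E2, E3, E4, E5, E6, E7, E8, E9⟩ :=
    h_EV Curve.Qbar (C.FunField Curve.Qbar) hFF
  have hN0 : (N : ℤ) ≠ 0 := by
    have : N ≠ 0 := by omega
    exact_mod_cast this
  have hBeq : (N : ℤ) • B = dv (L := Curve.Qbar) h := by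
    funext v
    exact hB v
  have fdv : ∀ f : C.FunField Curve.Qbar, f ≠ 0 →
      (Function.support (dv (L := Curve.Qbar) f)).Finite := fun f hf =>
    h_FIN Curve.Qbar (C.FunField Curve.Qbar) hFF f hf
  have hBord : ∀ v, B v ≠ 0 → dv (L := Curve.Qbar) h v ≠ 0 := by
    intro v hv
    rw [← hBeq]
    exact mul_ne_zero hN0 hv
  have fB : (Function.support B).Finite := (fdv h hh).subset fun v hv => hBord v hv
  have offB : ∀ f : C.FunField Curve.Qbar, Off (dv (L := Curve.Qbar) h) f → Off B f :=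
    fun f hf v hv => hf v (hBord v hv)
  have fξ : ∀ σ, (Function.support (c.ξ σ)).Finite := fun σ => (c.hξ σ).1
  have fD : (Function.support c.D).Finite := c.hD.1
  have pdv : ∀ σ : Curve.Qbar ≃ₐ[ℚ] Curve.Qbar,
      C.push (σ : Curve.Qbar →+* Curve.Qbar) (dv (L := Curve.Qbar) h) =
        dv (L := Curve.Qbar) h := by
    intro σ
    rw [(h_PUSHX C _ _ _).1 h hh, hinv σ]
  have pB : ∀ σ : Curve.Qbar ≃ₐ[ℚ] Curve.Qbar,
      C.push (σ : Curve.Qbar →+* Curve.Qbar) B = B := by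
    intro σ
    have h1 := pdv σ
    rw [← hBeq, COC_.push_zsmul] at h1
    funext v
    exact mul_left_cancel₀ hN0 (congrFun h1 v)
  have fpush : ∀ (σ : Curve.Qbar ≃ₐ[ℚ] Curve.Qbar) (A : C.Pt Curve.Qbar → ℤ),
      (Function.support A).Finite →
      (Function.support (C.push (σ : Curve.Qbar →+* Curve.Qbar) A)).Finite := fun σ A hA =>
    ((h_PUSHX C _ _ _).2.1 A (∑ᶠ v, A v) ⟨hA, rfl⟩).1
  have evpush : ∀ (σ : Curve.Qbar ≃ₐ[ℚ] Curve.Qbar) (A : C.Pt Curve.Qbar → ℤ)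
      (f : C.FunField Curve.Qbar), (Function.support A).Finite → f ≠ 0 →
      ev (C.mapFun (σ : Curve.Qbar →+* Curve.Qbar) f)
        (C.push (σ : Curve.Qbar →+* Curve.Qbar) A) = σ (ev f A) := fun σ A f hA hf =>
    (h_PUSHX C _ _ (σ : Curve.Qbar →+* Curve.Qbar)).2.2.1 A f hA hf
  have offpush : ∀ (σ : Curve.Qbar ≃ₐ[ℚ] Curve.Qbar) (A : C.Pt Curve.Qbar → ℤ)
      (f : C.FunField Curve.Qbar), Off A f →
      Off (C.push (σ : Curve.Qbar →+* Curve.Qbar) A)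
        (C.mapFun (σ : Curve.Qbar →+* Curve.Qbar) f) := fun σ A f hA =>
    (h_PUSHX C _ _ (σ : Curve.Qbar →+* Curve.Qbar)).2.2.2 A f hA
  have pp : ∀ (σ τ : Curve.Qbar ≃ₐ[ℚ] Curve.Qbar) (A : C.Pt Curve.Qbar → ℤ),
      C.push (σ : Curve.Qbar →+* Curve.Qbar) (C.push (τ : Curve.Qbar →+* Curve.Qbar) A) =
        C.push ((σ * τ : Curve.Qbar ≃ₐ[ℚ] Curve.Qbar) : Curve.Qbar →+* Curve.Qbar) A := by
    intro σ τ A
    rw [CritB.push_comp]
    rfl
  have key : ∀ (A : C.Pt Curve.Qbar → ℤ) (φ : C.FunField Curve.Qbar), φ ≠ 0 →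
      Curve.IsPrin A → Off A h → Off (dv (L := Curve.Qbar) h) φ →
      n • A + dv (L := Curve.Qbar) φ = 0 → ev h A ^ m * ev φ B = 1 := by
    intro A φ hφ hA hAh hφh hrel
    obtain ⟨ψ, hψ, hAψ⟩ := hA
    refine h_KEY Curve.Qbar (C.FunField Curve.Qbar) hFF h N m B hh hN hB A φ ψ hφ hψ hAψ hAh
      hφh ?_
    intro v
    have h1 := congrFun hrel v
    have h2 : (n : ℤ) * A v + v.ord φ = 0 := by
      simp only [Pi.add_apply, Pi.zero_apply, nsmul_eq_mul, dv] at h1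
      exact h1
    rw [← h2, hn]
    push_cast
    ring
  have fnsmul : ∀ (A : C.Pt Curve.Qbar → ℤ), (Function.support A).Finite →
      (Function.support (n • A)).Finite := by
    intro A hA
    refine hA.subset fun v hv h0 => hv ?_
    show n • A v = 0
    rw [h0, smul_zero]
  have fadd : ∀ (A A' : C.Pt Curve.Qbar → ℤ), (Function.support A).Finite →
      (Function.support A').Finite → (Function.support (A + A')).Finite := fun A A' hA hA' =>
    (hA.union hA').subset (Function.support_add _ _)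
  have fsub : ∀ (A A' : C.Pt Curve.Qbar → ℤ), (Function.support A).Finite →
      (Function.support A').Finite → (Function.support (A - A')).Finite := fun A A' hA hA' =>
    (hA.union hA').subset (Function.support_sub _ _)
  have hmn : m * N = n := by rw [hn, mul_comm]
  have offz : ∀ (A : C.Pt Curve.Qbar → ℤ) (f : C.FunField Curve.Qbar), Off A f →
      ∀ v : C.Pt Curve.Qbar, v.ord f ≠ 0 → A v = 0 := by
    intro A f hA v hv
    by_contra h0
    exact hv (hA v h0)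
  have evσ : ∀ (σ : Curve.Qbar ≃ₐ[ℚ] Curve.Qbar) (A : C.Pt Curve.Qbar → ℤ),
      (Function.support A).Finite →
      ev h (C.push (σ : Curve.Qbar →+* Curve.Qbar) A) = σ (ev h A) := by
    intro σ A hA
    have h1 := evpush σ A h hA hh
    rwa [hinv σ] at h1
  refine ⟨?_, ?_, ?_, ?_⟩
  · intro σ
    exact mul_ne_zero (pow_ne_zero _ (E4 _ _)) (E4 _ _)
  · intro σ
    have hφ := c.hφ σ
    have e1 : bb c m B σ ^ N =
        ev h (n • c.ξ σ) * ev (c.φ σ) (dv (L := Curve.Qbar) h) := by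
      unfold bb
      rw [mul_pow, ← pow_mul, ← hBeq, E6 _ _ _ fB, zpow_natCast, ← natCast_zsmul,
        E6 _ _ _ (fξ σ), zpow_natCast, hmn]
    have e2 : ev (c.φ σ) (dv (L := Curve.Qbar) h) = ev h (dv (L := Curve.Qbar) (c.φ σ)) :=
      (h_WEIL Curve.Qbar (C.FunField Curve.Qbar) hFF h (c.φ σ) hh hφ (c.offφ σ).1).symm
    have e3 : σ (ev h c.D) =
        ev h (n • c.ξ σ) * ev h (dv (L := Curve.Qbar) (c.φ σ)) * ev h c.D := by
      rw [← evσ σ _ fD, sub_eq_iff_eq_add.1 (c.rel σ),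
        E5 _ _ _ (fadd _ _ (fnsmul _ (fξ σ)) (fdv _ hφ)) fD,
        E5 _ _ _ (fnsmul _ (fξ σ)) (fdv _ hφ)]
    rw [e1, e2, e3, mul_div_assoc, div_self (E4 _ _), mul_one]
  · intro σ τ
    set g := C.mapFun (σ : Curve.Qbar →+* Curve.Qbar) (c.φ τ) with hg
    have hg0 : g ≠ 0 := (map_ne_zero _).2 (c.hφ τ)
    have hden : c.φ σ * g ≠ 0 := mul_ne_zero (c.hφ σ) hg0
    have hA : Curve.IsPrin (c.ξ (σ * τ) - c.ξ σ -
        C.push (σ : Curve.Qbar →+* Curve.Qbar) (c.ξ τ)) := by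
      have h3 := COC_.prin_add (COC_.prin_sub (COC_.prin_sub (c.hξX (σ * τ)) (c.hξX σ))
        (COC_.prin_push h_PUSHX (σ : Curve.Qbar →+* Curve.Qbar) (c.hξX τ))) (X.cocycle σ τ)
      rw [COC_.push_sub] at h3
      have e : c.ξ (σ * τ) - X.ξ (σ * τ) - (c.ξ σ - X.ξ σ) -
          (C.push (σ : Curve.Qbar →+* Curve.Qbar) (c.ξ τ) -
            C.push (σ : Curve.Qbar →+* Curve.Qbar) (X.ξ τ)) +
          (X.ξ (σ * τ) - X.ξ σ - C.push (σ : Curve.Qbar →+* Curve.Qbar) (X.ξ τ)) =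
          c.ξ (σ * τ) - c.ξ σ - C.push (σ : Curve.Qbar →+* Curve.Qbar) (c.ξ τ) := by abel
      rwa [e] at h3
    have hoff : Off (C.push (σ : Curve.Qbar →+* Curve.Qbar) (c.ξ τ)) h := by
      have h1 := offpush σ (c.ξ τ) h (c.offξ τ).1
      rwa [hinv σ] at h1
    have hoffg : Off (dv (L := Curve.Qbar) h) g := by
      have h1 := offpush σ _ (c.φ τ) (c.offφ τ).1
      rwa [pdv σ] at h1
    have hoffq : Off (dv (L := Curve.Qbar) h) (c.φ (σ * τ) / (c.φ σ * g)) := by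
      intro v hv
      have h1 : v.ord (c.φ (σ * τ) / (c.φ σ * g)) =
          v.ord (c.φ (σ * τ)) - v.ord (c.φ σ * g) := congrFun (COC_.dv_div (c.hφ _) hden) v
      have h2 : v.ord (c.φ σ * g) = v.ord (c.φ σ) + v.ord g := v.ord_mul _ _ (c.hφ σ) hg0
      rw [h1, h2, (c.offφ _).1 v hv, (c.offφ _).1 v hv, hoffg v hv]
      rfl
    have hk := key _ (c.φ (σ * τ) / (c.φ σ * g)) (div_ne_zero (c.hφ _) hden) hA ?_ hoffq ?_
    · have e1 : ev h (c.ξ (σ * τ)) = ev h (c.ξ (σ * τ) - c.ξ σ -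
          C.push (σ : Curve.Qbar →+* Curve.Qbar) (c.ξ τ)) * ev h (c.ξ σ) * σ (ev h (c.ξ τ)) := by
        rw [← evσ σ _ (fξ τ), ← E5 _ _ _ (fsub _ _ (fsub _ _ (fξ _) (fξ σ))
          (fpush σ _ (fξ τ))) (fξ σ), ← E5 _ _ _ (fadd _ _ (fsub _ _ (fsub _ _ (fξ _) (fξ σ))
          (fpush σ _ (fξ τ))) (fξ σ)) (fpush σ _ (fξ τ))]
        congr 1
        abel
      have e3 : ev g B = σ (ev (c.φ τ) B) := by
        rw [← evpush σ B (c.φ τ) fB (c.hφ τ), pB σ]
      have hoB : Off B (c.φ (σ * τ) / (c.φ σ * g)) := offB _ hoffq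
      have e2 : ev (c.φ (σ * τ)) B = ev (c.φ (σ * τ) / (c.φ σ * g)) B *
          (ev (c.φ σ) B * σ (ev (c.φ τ) B)) := by
        have h1 : Off B (c.φ σ * g) := by
          intro v hv
          have h2 : v.ord (c.φ σ * g) = v.ord (c.φ σ) + v.ord g := v.ord_mul _ _ (c.hφ σ) hg0
          rw [h2, offB _ (c.offφ σ).1 v hv, offB _ hoffg v hv, add_zero]
        rw [← e3, ← E7 _ _ _ fB (c.hφ σ) hg0 (offB _ (c.offφ σ).1) (offB _ hoffg),
          ← E7 _ _ _ fB (div_ne_zero (c.hφ _) hden) hden hoB h1, div_mul_cancel₀ _ hden]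
      unfold bb
      rw [e1, e2, map_mul, map_pow]
      calc _ = (ev h (c.ξ (σ * τ) - c.ξ σ -
            C.push (σ : Curve.Qbar →+* Curve.Qbar) (c.ξ τ)) ^ m *
              ev (c.φ (σ * τ) / (c.φ σ * g)) B) *
            ((ev h (c.ξ σ) ^ m * ev (c.φ σ) B) *
              (σ (ev h (c.ξ τ)) ^ m * σ (ev (c.φ τ) B))) := by ring
        _ = _ := by rw [hk, one_mul]
    · intro v hv
      by_contra h0
      apply hv
      show c.ξ (σ * τ) v - c.ξ σ v - C.push (σ : Curve.Qbar →+* Curve.Qbar) (c.ξ τ) v = 0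
      rw [offz _ _ (c.offξ _).1 v h0, offz _ _ (c.offξ _).1 v h0, offz _ _ hoff v h0]
      rfl
    · have r1 : ∀ σ : Curve.Qbar ≃ₐ[ℚ] Curve.Qbar, dv (L := Curve.Qbar) (c.φ σ) =
          C.push (σ : Curve.Qbar →+* Curve.Qbar) c.D - c.D - n • c.ξ σ := by
        intro σ
        rw [c.rel σ]
        abel
      have r3 : dv (L := Curve.Qbar) g = C.push ((σ * τ : Curve.Qbar ≃ₐ[ℚ] Curve.Qbar) :
          Curve.Qbar →+* Curve.Qbar) c.D - C.push (σ : Curve.Qbar →+* Curve.Qbar) c.D -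
          n • C.push (σ : Curve.Qbar →+* Curve.Qbar) (c.ξ τ) := by
        rw [hg, ← (h_PUSHX C _ _ (σ : Curve.Qbar →+* Curve.Qbar)).1 _ (c.hφ τ), r1 τ,
          COC_.push_sub, COC_.push_sub, pp σ τ, ← natCast_zsmul, COC_.push_zsmul, natCast_zsmul]
      rw [COC_.dv_div (c.hφ _) hden, COC_.dv_mul (c.hφ σ) hg0, r1, r1, r3, smul_sub, smul_sub]
      abel
  · obtain ⟨F1, hF1, hF1'⟩ := X.continuous
    obtain ⟨F2, hF2, hF2'⟩ := h_FOD C c.D fD
    have := hF1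
    have := hF2
    refine ⟨F1 ⊔ F2, IntermediateField.finiteDimensional_sup F1 F2, ?_⟩
    intro σ τ hστ
    have h1 : Curve.IsPrin (X.ξ σ - X.ξ τ) :=
      hF1' σ τ fun z hz => hστ z (SetLike.le_def.1 le_sup_left hz)
    have h2 : C.push (σ : Curve.Qbar →+* Curve.Qbar) c.D =
        C.push (τ : Curve.Qbar →+* Curve.Qbar) c.D :=
      hF2' σ τ fun z hz => hστ z (SetLike.le_def.1 le_sup_right hz)
    have hA : Curve.IsPrin (c.ξ σ - c.ξ τ) := by
      have h3 := COC_.prin_add (COC_.prin_sub (c.hξX σ) (c.hξX τ)) h1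
      have e : c.ξ σ - X.ξ σ - (c.ξ τ - X.ξ τ) + (X.ξ σ - X.ξ τ) = c.ξ σ - c.ξ τ := by abel
      rwa [e] at h3
    have hoff : Off (dv (L := Curve.Qbar) h) (c.φ σ / c.φ τ) := by
      intro v hv
      have h1 : v.ord (c.φ σ / c.φ τ) = v.ord (c.φ σ) - v.ord (c.φ τ) :=
        congrFun (COC_.dv_div (c.hφ σ) (c.hφ τ)) v
      rw [h1, (c.offφ _).1 v hv, (c.offφ _).1 v hv]
      rfl
    have hk := key (c.ξ σ - c.ξ τ) (c.φ σ / c.φ τ) (div_ne_zero (c.hφ σ) (c.hφ τ)) hA ?_ hoff ?_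
    · have e1 : ev h (c.ξ σ) = ev h (c.ξ σ - c.ξ τ) * ev h (c.ξ τ) := by
        rw [← E5 _ _ _ (fsub _ _ (fξ σ) (fξ τ)) (fξ τ), sub_add_cancel]
      have e2 : ev (c.φ σ) B = ev (c.φ σ / c.φ τ) B * ev (c.φ τ) B := by
        rw [← E7 _ _ _ fB (div_ne_zero (c.hφ σ) (c.hφ τ)) (c.hφ τ) (offB _ hoff)
          (offB _ (c.offφ τ).1), div_mul_cancel₀ _ (c.hφ τ)]
      unfold bb
      rw [e1, e2, mul_pow]
      calc _ = (ev h (c.ξ σ - c.ξ τ) ^ m * ev (c.φ σ / c.φ τ) B) *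
            (ev h (c.ξ τ) ^ m * ev (c.φ τ) B) := by ring
        _ = _ := by rw [hk, one_mul]
    · intro v hv
      by_contra h0
      apply hv
      show c.ξ σ v - c.ξ τ v = 0
      rw [offz _ _ (c.offξ _).1 v h0, offz _ _ (c.offξ _).1 v h0]
      rfl
    · have r1 : ∀ σ : Curve.Qbar ≃ₐ[ℚ] Curve.Qbar, dv (L := Curve.Qbar) (c.φ σ) =
          C.push (σ : Curve.Qbar →+* Curve.Qbar) c.D - c.D - n • c.ξ σ := by
        intro σ
        rw [c.rel σ]
        abel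
      rw [COC_.dv_div (c.hφ σ) (c.hφ τ), r1, r1, smul_sub, h2]
      abel

end Pool.Agent.FDX
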