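import Pool.Agent.FDX.Targets2
import Pool.Agent.FD.Arr

/-!
# FDX: A9, the Selmer set is empty
-/

namespace Pool.Agent.FDX

open Pool.Agent.FD

namespace EMPTY_

theorem emb (k L : Type) [Field k] [Field L] [IsAlgClosed L] [Algebra k L] :
    Nonempty (AlgebraicClosure k →+* L) :=
  ⟨(IsAlgClosed.lift : AlgebraicClosure k →ₐ[k] L).toRingHom⟩

theorem emb_p (p : ℕ) [Fact p.Prime] :
    Nonempty (Curve.Qbar →+* AlgebraicClosure ℚ_[p]) :=
  emb ℚ (AlgebraicClosure ℚ_[p])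

/-- the local values are the global class times an `N`-th power -/
theorem loc (h_GC : T_GC) (h_HDIV : T_HDIV) (h_LOCV : T_LOCV)
    {ι : Type} [Fintype ι] [DecidableEq ι] (A : Arr ι) (C : Curve) (hC : C.F = A.F)
    {m R : ℕ} (e : Fin R → ι) (P : Fin m → ℕ) (l : Fin m → ℕ) (H : Hyp A e P l)
    {n : ℕ} (hn : ∀ t, A.N (e t) ∣ n) (X : C.Covering n)
    (hX : ∀ (p : ℕ) [Fact p.Prime], X.HasPointOver ℚ_[p]) :
    ∃ δ : Fin R → Fin m → ℚ, (∀ t b, δ t b ≠ 0) ∧ ∀ (p : ℕ) [Fact p.Prime],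
      ∃ κ : Fin R → Fin m → ℚ_[p], LocOK (fun t : Fin R => A.N (e t)) P l p κ ∧
        ∀ t b, ∃ s : ℚ_[p], s ≠ 0 ∧ κ t b = (δ t b : ℚ_[p]) * s ^ A.N (e t) := by
  have hdvd : ∀ t, f0 P ∣ A.f (e t) := by
    intro t
    obtain ⟨hh, h1, _⟩ := H.host t
    exact ⟨hh, h1⟩
  have hgc : ∀ t b, ∃ δ : ℚ, δ ≠ 0 ∧ ∀ (K : Type) [Field K] [CharZero K]
      (j : Curve.Qbar →+* AlgebraicClosure K)
      (Q : C.Pt (AlgebraicClosure K)) (a : C.Pt (AlgebraicClosure K) → ℤ),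
      Curve.IsRational K Q → Curve.IsDivOfDegree a 0 →
      Curve.IsPrin (Curve.single Q - n • a - C.push j X.D) → Curve.IsTwistFixed X.ξ K j a →
      ∀ k : ℤ, Q.ord (C.mapFun j (hf A C P (e t) b Curve.Qbar *
          C.xF Curve.Qbar ^ ((A.N (e t) : ℤ) * k))) = 0 →
        ∃ s : K, s ≠ 0 ∧ val Q (C.mapFun j (hf A C P (e t) b Curve.Qbar *
          C.xF Curve.Qbar ^ ((A.N (e t) : ℤ) * k))) =
          algebraMap K (AlgebraicClosure K) ((δ : K) * s ^ A.N (e t)) := by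
    intro t b
    obtain ⟨h1, h2⟩ := h_HDIV ι A C hC m P H.goodP (e t) (hdvd t) b
    obtain ⟨h3, h4, h5⟩ := h1 Curve.Qbar
    refine h_GC C n (A.N (e t)) X (hf A C P (e t) b Curve.Qbar) (C.xF Curve.Qbar) h3 h4 ?_ ?_ ?_
      (hn t) h5
    · intro σ
      exact h2 Curve.Qbar Curve.Qbar (σ : Curve.Qbar →+* Curve.Qbar)
    · intro σ
      exact C.mapFun_xF _
    · have := H.two_le t
      omega
  choose δ hδ0 hδ using hgc
  refine ⟨δ, hδ0, ?_⟩
  intro p hp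
  obtain ⟨j⟩ := emb_p p
  obtain ⟨Q, hQ, a, ha0, ha1, ha2⟩ := hX p j
  obtain ⟨κ, hκ, hκv⟩ := h_LOCV ι A C hC m R e P l H p Q hQ
  refine ⟨κ, hκ, ?_⟩
  intro t b
  obtain ⟨k, hk1, hk2⟩ := hκv t b
  obtain ⟨_, h2⟩ := h_HDIV ι A C hC m P H.goodP (e t) (hdvd t) b
  have hmap : C.mapFun j (hf A C P (e t) b Curve.Qbar *
      C.xF Curve.Qbar ^ ((A.N (e t) : ℤ) * k)) =
      hf A C P (e t) b (AlgebraicClosure ℚ_[p]) *
        C.xF (AlgebraicClosure ℚ_[p]) ^ ((A.N (e t) : ℤ) * k) := by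
    rw [map_mul, map_zpow₀, C.mapFun_xF, h2 Curve.Qbar (AlgebraicClosure ℚ_[p]) j]
  obtain ⟨s, hs0, hs⟩ := hδ t b ℚ_[p] j Q a hQ ha0 ha1 ha2 k (by rw [hmap]; exact hk1)
  refine ⟨s, hs0, ?_⟩
  rw [hmap, hk2] at hs
  exact (algebraMap ℚ_[p] (AlgebraicClosure ℚ_[p])).injective hs

end EMPTY_

theorem p_EMPTY (h_GC : T_GC) (h_HDIV : T_HDIV) (h_LOCV : T_LOCV) (h_SIDEA : T_SIDEA) :
    T_EMPTY := by
  intro ι _ _ A C hC m R e P l H n hn1 hn hsel
  obtain ⟨X, _, hX⟩ := hsel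
  obtain ⟨δ, hδ0, hδ⟩ := EMPTY_.loc h_GC h_HDIV h_LOCV A C hC e P l H hn X hX
  have hl := H.goodL
  -- valuations
  have hval : ∀ (p : ℕ) [Fact p.Prime] (κ : ℚ_[p]) (d : ℚ) (s : ℚ_[p]) (N : ℕ), d ≠ 0 → s ≠ 0 →
      κ = (d : ℚ_[p]) * s ^ N → κ.valuation = padicValRat p d + N * s.valuation := by
    intro p _ κ d s N hd hs h
    have hd' : (d : ℚ_[p]) ≠ 0 := by exact_mod_cast hd
    rw [h, Padic.valuation_mul hd' (pow_ne_zero _ hs), Padic.valuation_pow,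
      Padic.valuation_ratCast]
  have hshift : ∀ (p : ℕ) [Fact p.Prime] (κ : ℚ_[p]) (d : ℚ) (s : ℚ_[p]) (N : ℕ) (c : ℤ), d ≠ 0 →
      s ≠ 0 → κ = (d : ℚ_[p]) * s ^ N → (N : ℤ) ∣ κ.valuation - c →
      (N : ℤ) ∣ padicValRat p d - c := by
    intro p _ κ d s N c hd hs h hdiv
    rw [hval p κ d s N hd hs h] at hdiv
    have h1 : padicValRat p d - c = (padicValRat p d + N * s.valuation - c) -
        N * s.valuation := by ring
    rw [h1]
    exact dvd_sub hdiv (dvd_mul_right _ _)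
  -- the special classes
  have hsp : ∀ a : Fin m, ∃ t₀ : Fin R, ∀ t b,
      ((A.N (e t) : ℤ) ∣ padicValRat (l a) (δ t b) - (if t = t₀ ∧ a = b then 1 else 0)) ∧
      (t = t₀ → a ≠ b → ∀ [Fact (l a).Prime], ∃ s : ℚ_[l a], s ≠ 0 ∧ ∃ z : ℤ_[l a],
        (z : ℚ_[l a]) = (δ t b : ℚ_[l a]) * s ^ (A.N (e t)) ∧
        PadicInt.toZMod z * ((dd P (some a) - dd P none : ℤ) : ZMod (l a)) =
          ((dd P (some a) - dd P (some b) : ℤ) : ZMod (l a))) := by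
    intro a
    have hp : Fact (l a).Prime := ⟨hl.prime a⟩
    obtain ⟨κ, hκ, hκδ⟩ := hδ (l a)
    obtain ⟨t₀, ht₀⟩ := hκ.2.2 a rfl
    refine ⟨t₀, fun t b => ?_⟩
    obtain ⟨h1, h2, h3⟩ := ht₀ t b
    obtain ⟨s, hs0, hs⟩ := hκδ t b
    refine ⟨?_, ?_⟩
    · by_cases ht : t = t₀
      · have h4 := h1 ht
        have h5 : (if t = t₀ ∧ a = b then (1 : ℤ) else 0) = if a = b then 1 else 0 := by
          by_cases hab : a = b
          · rw [if_pos ⟨ht, hab⟩, if_pos hab]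
          · rw [if_neg (fun h => hab h.2), if_neg hab]
        rw [h5]
        exact hshift (l a) _ _ _ _ _ (hδ0 t b) hs0 hs h4
      · have h4 := h2 ht
        rw [if_neg (fun h => ht h.1)]
        apply hshift (l a) _ _ _ _ _ (hδ0 t b) hs0 hs
        rw [sub_zero]
        exact h4
    · intro ht hab _
      obtain ⟨z, hz1, hz2⟩ := h3 ht hab
      exact ⟨s, hs0, z, hz1.trans hs, hz2⟩
  choose τ hτ using hsp
  have hinj : Function.Injective τ := by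
    intro a a' haa'
    have hcard := h_SIDEA m R P (fun t : Fin R => A.N (e t)) l H.goodP hl (τ a) (H.two_le _)
      (Finset.univ.filter (fun b => τ b = τ a)) (δ (τ a)) (hδ0 _) (by
        intro p hp hpl b
        have : Fact p.Prime := ⟨hp⟩
        obtain ⟨κ, hκ, hκδ⟩ := hδ p
        obtain ⟨e₀, he1, he2⟩ := hκ.2.1 hpl (τ a) b
        obtain ⟨s, hs0, hs⟩ := hκδ (τ a) b
        exact ⟨e₀, he1, hshift p _ _ _ _ _ (hδ0 _ b) hs0 hs he2⟩) (by
        intro c b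
        have h1 := (hτ c (τ a) b).1
        have h2 : (if c = b ∧ c ∈ Finset.univ.filter (fun b => τ b = τ a) then (1 : ℤ) else 0) =
            if τ a = τ c ∧ c = b then 1 else 0 := by
          by_cases h : τ a = τ c ∧ c = b
          · rw [if_pos h, if_pos ⟨h.2, by simp [h.1]⟩]
          · rw [if_neg h, if_neg]
            rintro ⟨h3, h4⟩
            exact h ⟨((Finset.mem_filter.1 h4).2).symm, h3⟩
        rw [h2]
        exact h1) (by
        intro c hc b hbc _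
        exact (hτ c (τ a) b).2 ((Finset.mem_filter.1 hc).2).symm hbc.symm)
    exact Finset.card_le_one.1 hcard a (by simp) a' (by simp [haa'])
  have h1 := Fintype.card_le_of_injective τ hinj
  rw [Fintype.card_fin, Fintype.card_fin] at h1
  have h2 := H.lt
  omega

end Pool.Agent.FDX
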