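import Pool.Agent.FDX.Targets

/-!
# FDX: rules for values of functions at divisors (G14)
-/

set_option autoImplicit false

namespace Pool.Agent.FDX

open Pool.Agent.FD

namespace EV_

variable {L K : Type} [Field L] [Field K] [Algebra L K]

/-- `x` vanishes at `v`. -/
def Pos (v : Place L K) (x : K) : Prop := x = 0 ∨ 0 < v.ord x

theorem ord_neg (v : Place L K) (x : K) : v.ord (-x) = v.ord x := by
  rcases eq_or_ne x 0 with h | h
  · rw [h, neg_zero]
  · have hm1 : v.ord (-1 : K) = 0 := by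
      have := v.ord_const (-1 : L)
      rwa [map_neg, map_one] at this
    have h1 : (-1 : K) ≠ 0 := neg_ne_zero.mpr one_ne_zero
    have h2 := v.ord_mul (-1) x h1 h
    rw [neg_one_mul, hm1, zero_add] at h2
    exact h2

theorem Pos.add {v : Place L K} {x y : K} (hx : Pos v x) (hy : Pos v y) : Pos v (x + y) := by
  rcases eq_or_ne x 0 with hx0 | hx0
  · rw [hx0, zero_add]
    exact hy
  rcases eq_or_ne y 0 with hy0 | hy0
  · rw [hy0, add_zero]
    exact hx
  rcases eq_or_ne (x + y) 0 with hs | hs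
  · exact Or.inl hs
  have h1 : 0 < v.ord x := hx.resolve_left hx0
  have h2 : 0 < v.ord y := hy.resolve_left hy0
  exact Or.inr (lt_of_lt_of_le (lt_min h1 h2) (v.ord_add x y hx0 hy0 hs))

theorem Pos.neg {v : Place L K} {x : K} (hx : Pos v x) : Pos v (-x) := by
  rcases hx with h | h
  · left
    rw [h, neg_zero]
  · right
    rw [ord_neg]
    exact h

theorem Pos.mul_left {v : Place L K} {x y : K} (hx : 0 ≤ v.ord x) (hy : Pos v y) :
    Pos v (x * y) := by
  rcases eq_or_ne x 0 with hx0 | hx0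
  · left
    rw [hx0, zero_mul]
  rcases eq_or_ne y 0 with hy0 | hy0
  · left
    rw [hy0, mul_zero]
  · right
    rw [v.ord_mul x y hx0 hy0]
    have h2 : 0 < v.ord y := hy.resolve_left hy0
    omega

/-- The element `c` is the value of `f` at `v`. -/
def IsV (v : Place L K) (f : K) (c : L) : Prop :=
  f = algebraMap L K c ∨ 0 < v.ord (f - algebraMap L K c)

theorem isV_iff (v : Place L K) (f : K) (c : L) :
    IsV v f c ↔ Pos v (f - algebraMap L K c) := by
  unfold IsV Pos
  rw [sub_eq_zero]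

theorem IsV.unique {v : Place L K} {f : K} {c d : L} (hc : IsV v f c) (hd : IsV v f d) :
    c = d := by
  rw [isV_iff] at hc hd
  have h := hd.add hc.neg
  have e : f - algebraMap L K d + -(f - algebraMap L K c) = algebraMap L K (c - d) := by
    rw [map_sub]
    ring
  rw [e] at h
  rcases h with h | h
  · rw [map_eq_zero] at h
    exact sub_eq_zero.mp h
  · rw [v.ord_const] at h
    exact absurd h (lt_irrefl _)

theorem IsV.mul {v : Place L K} {f g : K} {c d : L} (hf : 0 ≤ v.ord f) (hc : IsV v f c)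
    (hd : IsV v g d) : IsV v (f * g) (c * d) := by
  rw [isV_iff] at hc hd ⊢
  have e : f * g - algebraMap L K (c * d) =
      f * (g - algebraMap L K d) + algebraMap L K d * (f - algebraMap L K c) := by
    rw [map_mul]
    ring
  rw [e]
  exact (hd.mul_left hf).add (hc.mul_left (le_of_eq (v.ord_const d).symm))

theorem val_ne_zero (v : Place L K) (f : K) : val v f ≠ 0 := by
  unfold val
  split_ifs with h
  · exact h.choose_spec.1
  · exact one_ne_zero

theorem val_eq {v : Place L K} {f : K} {c : L} (hc0 : c ≠ 0) (hc : IsV v f c) :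
    val v f = c := by
  have hex : ∃ c : L, c ≠ 0 ∧ (f = algebraMap L K c ∨ 0 < v.ord (f - algebraMap L K c)) :=
    ⟨c, hc0, hc⟩
  unfold val
  rw [dif_pos hex]
  exact IsV.unique (f := f) hex.choose_spec.2 hc

theorem val_const (v : Place L K) {c : L} (hc : c ≠ 0) : val v (algebraMap L K c) = c :=
  val_eq hc (Or.inl rfl)

theorem val_one (v : Place L K) : val v (1 : K) = 1 := by
  have := val_const v (one_ne_zero : (1 : L) ≠ 0)
  rwa [map_one] at this

theorem ord_one (v : Place L K) : v.ord 1 = 0 := by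
  have := v.ord_const 1
  rwa [map_one] at this

theorem ord_inv (v : Place L K) {f : K} (hf : f ≠ 0) : v.ord f⁻¹ = -v.ord f := by
  have h := v.ord_mul f f⁻¹ hf (inv_ne_zero hf)
  rw [mul_inv_cancel₀ hf, ord_one] at h
  omega

section

variable (hV : ∀ (v : Place L K) (f : K), f ≠ 0 → v.ord f = 0 →
    ∃ c : L, c ≠ 0 ∧ (f = algebraMap L K c ∨ 0 < v.ord (f - algebraMap L K c)))

include hV

theorem val_mul (v : Place L K) {f g : K} (hf : f ≠ 0) (hg : g ≠ 0) (hfo : v.ord f = 0)
    (hgo : v.ord g = 0) : val v (f * g) = val v f * val v g := by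
  obtain ⟨c, hc0, hc⟩ := hV v f hf hfo
  obtain ⟨d, hd0, hd⟩ := hV v g hg hgo
  rw [val_eq hc0 hc, val_eq hd0 hd]
  exact val_eq (mul_ne_zero hc0 hd0) (IsV.mul (le_of_eq hfo.symm) hc hd)

theorem val_inv (v : Place L K) {f : K} (hf : f ≠ 0) (hfo : v.ord f = 0) :
    val v f⁻¹ = (val v f)⁻¹ := by
  have ho : v.ord f⁻¹ = 0 := by rw [ord_inv v hf, hfo, neg_zero]
  have h := val_mul hV v hf (inv_ne_zero hf) hfo ho
  rw [mul_inv_cancel₀ hf, val_one] at h
  exact (inv_eq_of_mul_eq_one_right h.symm).symm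

theorem val_pow (v : Place L K) {f : K} (hf : f ≠ 0) (hfo : v.ord f = 0) (n : ℕ) :
    v.ord (f ^ n) = 0 ∧ val v (f ^ n) = val v f ^ n := by
  induction n with
  | zero =>
    rw [pow_zero, pow_zero]
    exact ⟨ord_one v, val_one v⟩
  | succ n ih =>
    rw [pow_succ, pow_succ]
    refine ⟨?_, ?_⟩
    · rw [v.ord_mul _ _ (pow_ne_zero n hf) hf, ih.1, hfo, add_zero]
    · rw [val_mul hV v (pow_ne_zero n hf) hf ih.1 hfo, ih.2]

theorem val_zpow (v : Place L K) {f : K} (hf : f ≠ 0) (hfo : v.ord f = 0) (k : ℤ) :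
    val v (f ^ k) = val v f ^ k := by
  obtain ⟨n, rfl | rfl⟩ := k.eq_nat_or_neg
  · rw [zpow_natCast, zpow_natCast]
    exact (val_pow hV v hf hfo n).2
  · rw [zpow_neg, zpow_neg, zpow_natCast, zpow_natCast,
      val_inv hV v (pow_ne_zero n hf) (val_pow hV v hf hfo n).1, (val_pow hV v hf hfo n).2]

end

theorem ev_eq_prod (f : K) (A : Place L K → ℤ) (S : Finset (Place L K))
    (hS : ∀ v, A v ≠ 0 → v ∈ S) : ev f A = ∏ v ∈ S, val v f ^ A v := by
  unfold ev
  refine finprod_eq_prod_of_mulSupport_subset _ ?_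
  intro v hv
  rw [Function.mem_mulSupport] at hv
  refine hS v fun h0 => hv ?_
  rw [h0, zpow_zero]

theorem ev_ne_zero (f : K) (A : Place L K → ℤ) : ev f A ≠ 0 := by
  unfold ev
  exact finprod_induction (fun x : L => x ≠ 0) one_ne_zero (fun x y hx hy => mul_ne_zero hx hy)
    (fun v => zpow_ne_zero _ (val_ne_zero v f))

theorem prod_zpow_const (c : L) (hc : c ≠ 0) (A : Place L K → ℤ) (S : Finset (Place L K)) :
    ∏ v ∈ S, c ^ A v = c ^ (∑ v ∈ S, A v) := by
  classical
  induction S using Finset.induction_on with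
  | empty => simp
  | insert a s ha ih => rw [Finset.prod_insert ha, Finset.sum_insert ha, ih, zpow_add₀ hc]

end EV_

open EV_

theorem p_EV (h_VAL : T_VAL) : T_EV := by
  classical
  intro L K _ _ _ _ _ hFF
  have hV := h_VAL L K hFF
  refine ⟨val_ne_zero, fun v f c hc0 hc => val_eq hc0 hc,
    fun v f g hf hg hfo hgo => val_mul hV v hf hg hfo hgo, ev_ne_zero, ?_, ?_, ?_, ?_, ?_⟩
  · intro f A A' hA hA'
    have h0 : ∀ v, A v ≠ 0 → v ∈ hA.toFinset ∪ hA'.toFinset := fun v hv =>
      Finset.mem_union_left _ (hA.mem_toFinset.mpr hv)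
    have h1 : ∀ v, A' v ≠ 0 → v ∈ hA.toFinset ∪ hA'.toFinset := fun v hv =>
      Finset.mem_union_right _ (hA'.mem_toFinset.mpr hv)
    have h2 : ∀ v, (A + A') v ≠ 0 → v ∈ hA.toFinset ∪ hA'.toFinset := by
      intro v hv
      by_cases hv0 : A v = 0
      · refine h1 v fun hv1 => hv ?_
        rw [Pi.add_apply, hv0, hv1, add_zero]
      · exact h0 v hv0
    rw [ev_eq_prod f _ _ h0, ev_eq_prod f _ _ h1, ev_eq_prod f _ _ h2,
      ← Finset.prod_mul_distrib]
    refine Finset.prod_congr rfl fun v _ => ?_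
    rw [Pi.add_apply, zpow_add₀ (val_ne_zero v f)]
  · intro f A k hA
    have h0 : ∀ v, A v ≠ 0 → v ∈ hA.toFinset := fun v hv => hA.mem_toFinset.mpr hv
    have h2 : ∀ v, (k • A) v ≠ 0 → v ∈ hA.toFinset := by
      intro v hv
      refine h0 v fun hv0 => hv ?_
      rw [Pi.smul_apply, hv0, smul_zero]
    rw [ev_eq_prod f _ _ h0, ev_eq_prod f _ _ h2, ← Finset.prod_zpow]
    refine Finset.prod_congr rfl fun v _ => ?_
    rw [Pi.smul_apply, smul_eq_mul, mul_comm, zpow_mul]
  · intro f g A hA hf hg hof hog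
    have h0 : ∀ v, A v ≠ 0 → v ∈ hA.toFinset := fun v hv => hA.mem_toFinset.mpr hv
    rw [ev_eq_prod f _ _ h0, ev_eq_prod g _ _ h0, ev_eq_prod (f * g) _ _ h0,
      ← Finset.prod_mul_distrib]
    refine Finset.prod_congr rfl fun v hv => ?_
    have hv' : A v ≠ 0 := hA.mem_toFinset.mp hv
    rw [val_mul hV v hf hg (hof v hv') (hog v hv'), mul_zpow]
  · intro f A k hA hf hof
    have h0 : ∀ v, A v ≠ 0 → v ∈ hA.toFinset := fun v hv => hA.mem_toFinset.mpr hv
    rw [ev_eq_prod f _ _ h0, ev_eq_prod (f ^ k) _ _ h0, ← Finset.prod_zpow]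
    refine Finset.prod_congr rfl fun v hv => ?_
    have hv' : A v ≠ 0 := hA.mem_toFinset.mp hv
    rw [val_zpow hV v hf (hof v hv'), ← zpow_mul, ← zpow_mul, mul_comm]
  · intro c A hA hc
    have h0 : ∀ v, A v ≠ 0 → v ∈ hA.toFinset := fun v hv => hA.mem_toFinset.mpr hv
    have hsum : ∑ᶠ v, A v = ∑ v ∈ hA.toFinset, A v := by
      refine finsum_eq_sum_of_support_subset _ ?_
      intro v hv
      exact h0 v hv
    rw [ev_eq_prod _ _ _ h0, hsum, ← prod_zpow_const c hc A hA.toFinset]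
    refine Finset.prod_congr rfl fun v _ => ?_
    rw [val_const v hc]

end Pool.Agent.FDX
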