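import Pool.Agent.FDX.Targets

/-!
# FDX, target `T_EXI`: a nonconstant function has a zero
-/

set_option autoImplicit false

open MvPolynomial

namespace Pool.Agent.FDX

open Pool.Agent.FD

namespace EXI_

theorem not_unit (L B : Type) [Field L] [CommRing B] [IsDomain B] [Algebra (Polynomial L) B]
    [Module.Finite (Polynomial L) B] [Module.Free (Polynomial L) B] :
    ¬ IsUnit (algebraMap (Polynomial L) B Polynomial.X) := by
  intro hu
  have h1 : IsUnit (Algebra.norm (Polynomial L) (algebraMap (Polynomial L) B Polynomial.X)) :=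
    hu.map (Algebra.norm (Polynomial L))
  let b := Module.Free.chooseBasis (Polynomial L) B
  rw [Algebra.norm_algebraMap_of_basis b] at h1
  have hne : Nonempty (Module.Free.ChooseBasisIndex (Polynomial L) B) := by
    by_contra hcon
    rw [not_nonempty_iff] at hcon
    have : Subsingleton B := b.repr.toEquiv.subsingleton
    exact not_subsingleton B this
  have hcard : Fintype.card (Module.Free.ChooseBasisIndex (Polynomial L) B) ≠ 0 :=
    Fintype.card_ne_zero
  have h2 : IsUnit (Polynomial.X : Polynomial L) := (isUnit_pow_iff hcard).1 h1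
  exact Polynomial.not_isUnit_X h2

end EXI_

open EXI_ in
theorem p_EXI (h_MODEL : T_MODEL) (h_PRB : T_PRB) : T_EXI := by
  intro L K _ _ _ _ _ hFF z hz
  obtain ⟨B, i1, i2, i3, i4, i5, i6, i7, i8, i9, i10, i11, hB, -, -⟩ := h_MODEL L K hFF z hz
  have hu := not_unit L B
  set x : B := algebraMap (Polynomial L) B Polynomial.X with hx
  have hxz : algebraMap B K x = z := by
    rw [hx, hB, Polynomial.aeval_X]
  have hz0 : z ≠ 0 := by
    rintro rfl
    exact hz (isAlgebraic_zero)
  obtain ⟨P, hP, hPx⟩ := exists_max_ideal_of_mem_nonunits (mem_nonunits_iff.2 hu)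
  have hP0 : P ≠ ⊥ := by
    rintro rfl
    rw [Ideal.mem_bot] at hPx
    rw [hPx, map_zero] at hxz
    exact hz0 hxz.symm
  let Q : IsDedekindDomain.HeightOneSpectrum B := ⟨P, hP.isPrime, hP0⟩
  obtain ⟨v, hv⟩ := (h_PRB L K B).1 Q
  refine ⟨v, ?_⟩
  rw [hv z hz0]
  have h1 : Q.valuation K z < 1 := by
    rw [← hxz]
    exact (Q.valuation_lt_one_iff_mem (K := K) x).2 hPx
  have h2 : Q.valuation K z ≠ 0 := (Valuation.ne_zero_iff _).2 hz0
  have h3 := (WithZero.log_lt_log h2 one_ne_zero).2 h1
  rw [WithZero.log_one] at h3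
  omega

end Pool.Agent.FDX
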