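import Pool.Agent.FDX.Targets
import Pool.Agent.FD.Res

/-!
# FDX: target EXT1, places of `L'(C)` over `L(C)`
-/

set_option autoImplicit false

open MvPolynomial

namespace Pool.Agent.FDX

open Pool.Agent.FD Pool.Agent.FD.Res_

namespace EXT1_

variable {C : Curve} {L L' : Type} [Field L] [CharZero L] [IsAlgClosed L]
  [Field L'] [CharZero L'] [IsAlgClosed L'] (j : L →+* L')

/-- the restriction of a place, if not trivial, is a multiple of a place -/
theorem place_of (w : C.Pt L') (hne : ∃ f : C.FunField L, w.ord (C.mapFun j f) ≠ 0) :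
    ∃ (e : ℤ) (v : C.Pt L), 0 < e ∧ ∀ f : C.FunField L, w.ord (C.mapFun j f) = e * v.ord f := by
  have hM : ∀ {f : C.FunField L}, f ≠ 0 → C.mapFun j f ≠ 0 := fun hf => (map_ne_zero _).mpr hf
  let H : AddSubgroup ℤ :=
    { carrier := {k | ∃ f : C.FunField L, f ≠ 0 ∧ w.ord (C.mapFun j f) = k}
      zero_mem' := ⟨1, one_ne_zero, by rw [map_one]; exact w.toDV.ord_one⟩
      add_mem' := by
        rintro a b ⟨f, hf, rfl⟩ ⟨g, hg, rfl⟩
        exact ⟨f * g, mul_ne_zero hf hg, by rw [map_mul, w.ord_mul _ _ (hM hf) (hM hg)]⟩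
      neg_mem' := by
        rintro a ⟨f, hf, rfl⟩
        refine ⟨f⁻¹, inv_ne_zero hf, ?_⟩
        rw [map_inv₀]
        exact w.toDV.ord_inv _ }
  obtain ⟨a, ha⟩ := Int.subgroup_cyclic H
  have hmem : ∀ k : ℤ, k ∈ H ↔ ∃ n : ℤ, n * a = k := by
    intro k
    rw [ha, AddSubgroup.mem_closure_singleton]
    simp only [smul_eq_mul]
  obtain ⟨f₀, hf₀⟩ := hne
  have hf₀0 : f₀ ≠ 0 := by
    rintro rfl
    rw [map_zero] at hf₀
    exact hf₀ w.ord_zero
  have ha0 : a ≠ 0 := by
    rintro rfl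
    obtain ⟨n, hn⟩ := (hmem _).1 (⟨f₀, hf₀0, rfl⟩ : w.ord (C.mapFun j f₀) ∈ H)
    rw [mul_zero] at hn
    exact hf₀ hn.symm
  have he : 0 < |a| := abs_pos.2 ha0
  have hdvd : ∀ f : C.FunField L, |a| ∣ w.ord (C.mapFun j f) := by
    intro f
    rw [abs_dvd]
    rcases eq_or_ne f 0 with rfl | hf
    · rw [map_zero, w.ord_zero]
      exact dvd_zero _
    · obtain ⟨n, hn⟩ := (hmem _).1 (⟨f, hf, rfl⟩ : w.ord (C.mapFun j f) ∈ H)
      exact ⟨n, by rw [← hn, mul_comm]⟩
  have hone : ∃ f : C.FunField L, w.ord (C.mapFun j f) = |a| := by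
    have h1 : a ∈ H := (hmem a).2 ⟨1, one_mul a⟩
    have h2 : |a| ∈ H := by
      rcases abs_choice a with h | h
      · rw [h]; exact h1
      · rw [h]; exact H.neg_mem h1
    obtain ⟨f, -, hf⟩ := h2
    exact ⟨f, hf⟩
  refine ⟨|a|,
    { ord := fun f => w.ord (C.mapFun j f) / |a|
      ord_zero := by
        rw [map_zero, w.ord_zero, Int.zero_ediv]
      ord_mul := fun f g hf hg => by
        rw [map_mul, w.ord_mul _ _ (hM hf) (hM hg), Int.add_ediv_of_dvd_left (hdvd f)]
      ord_add := fun f g hf hg hfg => by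
        have h1 := w.ord_add _ _ (hM hf) (hM hg) (by rw [← map_add]; exact hM hfg)
        rw [← map_add] at h1
        rcases min_le_iff.1 h1 with h2 | h2
        · exact min_le_of_left_le (Int.ediv_le_ediv he h2)
        · exact min_le_of_right_le (Int.ediv_le_ediv he h2)
      ord_const := fun a' => by
        rw [C.mapFun_const, w.ord_const, Int.zero_ediv]
      exists_ord_one := by
        obtain ⟨f, hf⟩ := hone
        exact ⟨f, by rw [hf, Int.ediv_self he.ne']⟩ }, he, fun f => ?_⟩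
  exact (Int.mul_ediv_cancel' (hdvd f)).symm

theorem sum_Sm {K ι : Type} [Field K] {v : DV K} (s : Finset ι) (f : ι → K)
    (h : ∀ i ∈ s, Sm v (f i)) : Sm v (∑ i ∈ s, f i) := by
  classical
  induction s using Finset.induction_on with
  | empty => exact Or.inl Finset.sum_empty
  | insert a s ha ih =>
    rw [Finset.sum_insert ha]
    exact (h a (Finset.mem_insert_self a s)).add
      (ih fun i hi => h i (Finset.mem_insert_of_mem hi))

/-- orders of sums with independent constant coefficients -/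
theorem sum_ord (h_FF : T_FF) (h_VAL : T_VAL) (w : C.Pt L')
    (hne : ∃ f : C.FunField L, w.ord (C.mapFun j f) ≠ 0) {ι : Type} (s : Finset ι) (c : ι → L')
    (hc : ∀ a : ι → L, ∑ i ∈ s, j (a i) * c i = 0 → ∀ i ∈ s, a i = 0)
    (f : ι → C.FunField L) (i₀ : ι) (hi₀ : i₀ ∈ s) (hf₀ : f i₀ ≠ 0)
    (hmin : ∀ i ∈ s, f i ≠ 0 → w.ord (C.mapFun j (f i₀)) ≤ w.ord (C.mapFun j (f i))) :
    w.ord (∑ i ∈ s, algebraMap L' (C.FunField L') (c i) * C.mapFun j (f i)) =
      w.ord (C.mapFun j (f i₀)) := by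
  obtain ⟨e, v, he, hv⟩ := place_of j w hne
  have hex : ∀ i ∈ s, ∃ a : L, Sm v.toDV (f i / f i₀ - algebraMap L (C.FunField L) a) := by
    intro i hi
    rcases eq_or_ne (f i) 0 with h0 | h0
    · exact ⟨0, Or.inl (by rw [h0, zero_div, map_zero, sub_zero])⟩
    · have h1 := hmin i hi h0
      rw [hv, hv] at h1
      have h2 : v.ord (f i₀) ≤ v.ord (f i) := le_of_mul_le_mul_left h1 he
      have h3 : v.ord (f i / f i₀) = v.ord (f i) - v.ord (f i₀) := by
        rw [div_eq_mul_inv, v.ord_mul _ _ h0 (inv_ne_zero hf₀)]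
        have := v.toDV.ord_inv (f i₀)
        change v.ord (f i₀)⁻¹ = -v.ord (f i₀) at this
        rw [this]
        ring
      have h4 : f i / f i₀ ≠ 0 := div_ne_zero h0 hf₀
      rcases (show 0 ≤ v.ord (f i / f i₀) by omega).eq_or_lt with h5 | h5
      · obtain ⟨a, -, ha⟩ := h_VAL L (C.FunField L) (h_FF C L) v (f i / f i₀) h4 h5.symm
        refine ⟨a, ?_⟩
        rcases ha with ha | ha
        · exact Or.inl (sub_eq_zero.2 ha)
        · exact Or.inr ha
      · refine ⟨0, Or.inr ?_⟩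
        rw [map_zero, sub_zero]
        exact h5
  choose! a ha using hex
  have ha₀ : a i₀ = 1 := by
    refine const_unique v (ha i₀ hi₀) (Or.inl ?_)
    rw [div_self hf₀, map_one, sub_self]
  set M := C.mapFun j with hMdef
  set κ : L' := ∑ i ∈ s, j (a i) * c i with hκ
  have hκ0 : κ ≠ 0 := by
    intro h
    have := hc a h i₀ hi₀
    rw [ha₀] at this
    exact one_ne_zero this
  set ρ : C.FunField L' := ∑ i ∈ s, M (f i / f i₀ - algebraMap L (C.FunField L) (a i)) *
    algebraMap L' (C.FunField L') (c i) with hρ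
  have hρS : Sm w.toDV ρ := by
    refine sum_Sm s _ fun i hi => Sm.mul ?_ (w.ord_const _).ge
    rcases ha i hi with h | h
    · exact Or.inl (by rw [h, map_zero])
    · right
      change 0 < w.ord (M _)
      rw [hMdef, hv]
      exact mul_pos he h
  have hMf : M (f i₀) ≠ 0 := (map_ne_zero _).mpr hf₀
  have hsum : ∑ i ∈ s, algebraMap L' (C.FunField L') (c i) * M (f i) =
      M (f i₀) * (algebraMap L' (C.FunField L') κ + ρ) := by
    rw [hκ, hρ, map_sum, ← Finset.sum_add_distrib]
    refine Eq.trans ?_ (Finset.mul_sum _ _ _).symm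
    refine Finset.sum_congr rfl fun i _ => ?_
    rw [map_sub, map_div₀, hMdef, C.mapFun_const, map_mul]
    rw [← hMdef]
    field_simp
    ring
  have hκ1 : algebraMap L' (C.FunField L') κ ≠ 0 := (map_ne_zero _).mpr hκ0
  have hord : w.ord (algebraMap L' (C.FunField L') κ + ρ) = 0 := by
    have := w.toDV.ord_add_eq hκ1 (g := ρ) (hρS.imp id fun h => by
      change w.ord _ < w.ord ρ
      rw [w.ord_const]
      exact h)
    exact this.trans (w.ord_const κ)
  have hne0 : algebraMap L' (C.FunField L') κ + ρ ≠ 0 := by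
    intro h
    rcases hρS with h1 | h1
    · rw [h1, add_zero] at h
      exact hκ1 h
    · have h2 : ρ = -algebraMap L' (C.FunField L') κ := (neg_eq_of_add_eq_zero_right h).symm
      rw [h2, w.toDV.ord_neg] at h1
      have h3 := w.ord_const κ
      change 0 < w.ord _ at h1
      omega
  rw [hsum, w.ord_mul _ _ hMf hne0, hord, add_zero]

/-- every polynomial function is a sum with independent constant coefficients -/
theorem expand (P : MvPolynomial (Fin 2) L') :
    ∃ (ι : Type) (s : Finset ι) (c : ι → L') (f : ι → C.FunField L),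
      (∀ a : ι → L, ∑ i ∈ s, j (a i) * c i = 0 → ∀ i ∈ s, a i = 0) ∧ (∀ i ∈ s, f i ≠ 0) ∧
      MvPolynomial.aeval ![C.xF L', C.yF L'] P =
        ∑ i ∈ s, algebraMap L' (C.FunField L') (c i) * C.mapFun j (f i) := by
  let _ : Algebra L L' := j.toAlgebra
  let _ : Algebra (C.FunField L) (C.FunField L') := (C.mapFun j).toAlgebra
  let b := Module.Basis.ofVectorSpace L L'
  have hsm : ∀ (x : C.FunField L) (y : C.FunField L'), x • y = C.mapFun j x * y :=
    fun x y => rfl
  have hsm' : ∀ (x : L) (y : L'), x • y = j x * y := fun x y => rfl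
  have hmem : MvPolynomial.aeval ![C.xF L', C.yF L'] P ∈ Submodule.span (C.FunField L)
      (Set.range fun k => algebraMap L' (C.FunField L') (b k)) := by
    induction P using MvPolynomial.induction_on with
    | C a =>
      rw [MvPolynomial.aeval_C, ← b.linearCombination_repr a, Finsupp.linearCombination_apply,
        Finsupp.sum, map_sum]
      refine Submodule.sum_mem _ fun k _ => ?_
      rw [hsm', map_mul, ← C.mapFun_const, ← hsm]
      exact Submodule.smul_mem _ _ (Submodule.subset_span ⟨k, rfl⟩)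
    | add p q hp hq =>
      rw [map_add]
      exact Submodule.add_mem _ hp hq
    | mul_X p i hp =>
      rw [map_mul, MvPolynomial.aeval_X]
      have h : ∃ x : C.FunField L, ![C.xF L', C.yF L'] i = C.mapFun j x := by
        fin_cases i
        · exact ⟨C.xF L, (C.mapFun_xF j).symm⟩
        · exact ⟨C.yF L, (C.mapFun_yF j).symm⟩
      obtain ⟨x, hx⟩ := h
      rw [hx, mul_comm, ← hsm]
      exact Submodule.smul_mem _ _ hp
  obtain ⟨f, hf⟩ := Finsupp.mem_span_range_iff_exists_finsupp.1 hmem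
  refine ⟨_, f.support, fun k => b k, f, fun a ha i hi => ?_,
    fun i hi => Finsupp.mem_support_iff.1 hi, ?_⟩
  · exact (linearIndependent_iff'.1 b.linearIndependent) f.support a ha i hi
  · rw [← hf, Finsupp.sum]
    refine Finset.sum_congr rfl fun i _ => ?_
    rw [hsm, mul_comm]

end EXT1_

open EXT1_ in
theorem p_EXT1 (h_FF : T_FF) (h_VAL : T_VAL) : T_EXT1 := by
  intro C L L' _ _ _ _ _ _ j
  have hmain : ∀ (P : MvPolynomial (Fin 2) L'), MvPolynomial.aeval ![C.xF L', C.yF L'] P ≠ 0 →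
      ∀ w : C.Pt L', (∃ f : C.FunField L, w.ord (C.mapFun j f) ≠ 0) →
      ∃ f : C.FunField L, f ≠ 0 ∧
        w.ord (MvPolynomial.aeval ![C.xF L', C.yF L'] P) = w.ord (C.mapFun j f) ∧
        ∀ w' : C.Pt L', (∀ g : C.FunField L, w.ord (C.mapFun j g) = w'.ord (C.mapFun j g)) →
          w'.ord (MvPolynomial.aeval ![C.xF L', C.yF L'] P) = w'.ord (C.mapFun j f) := by
    intro P hP w hne
    obtain ⟨ι, s, c, f, hc, hf, he⟩ := expand (C := C) j P
    have hs : s.Nonempty := by
      rw [Finset.nonempty_iff_ne_empty]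
      rintro rfl
      rw [Finset.sum_empty] at he
      exact hP he
    obtain ⟨i₀, hi₀, hmin⟩ := s.exists_min_image (fun i => w.ord (C.mapFun j (f i))) hs
    refine ⟨f i₀, hf i₀ hi₀, ?_, fun w' hw' => ?_⟩
    · rw [he]
      exact sum_ord j h_FF h_VAL w hne s c hc f i₀ hi₀ (hf i₀ hi₀) fun i hi _ => hmin i hi
    · rw [he]
      obtain ⟨g, hg⟩ := hne
      refine sum_ord j h_FF h_VAL w' ⟨g, by rwa [← hw']⟩ s c hc f i₀ hi₀ (hf i₀ hi₀)
        fun i hi _ => ?_
      rw [← hw', ← hw']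
      exact hmin i hi
  have hdiv : ∀ (w : C.Pt L') (F x y : C.FunField L'), F ≠ 0 → x ≠ 0 → F * x = y →
      w.ord F = w.ord y - w.ord x := by
    intro w F x y hF hx h
    rw [← h, w.ord_mul _ _ hF hx]
    ring
  refine ⟨fun w => ?_, fun w w' h1 h2 => ?_⟩
  · by_cases hne : ∃ f : C.FunField L, w.ord (C.mapFun j f) ≠ 0
    · left
      obtain ⟨F, hF⟩ := w.exists_ord_one
      have hF0 : F ≠ 0 := by
        rintro rfl
        rw [w.ord_zero] at hF
        omega
      obtain ⟨a, b, hb, hab⟩ := C.exists_ratio L' F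
      have ha : MvPolynomial.aeval ![C.xF L', C.yF L'] a ≠ 0 := by
        rw [← hab]
        exact mul_ne_zero hF0 hb
      obtain ⟨f, hf, hf1, -⟩ := hmain a ha w hne
      obtain ⟨g, hg, hg1, -⟩ := hmain b hb w hne
      refine ⟨f / g, ?_⟩
      have h3 := hdiv w F _ _ hF0 hb hab
      have h4 := hdiv w (C.mapFun j (f / g)) (C.mapFun j g) (C.mapFun j f)
        ((map_ne_zero _).mpr (div_ne_zero hf hg)) ((map_ne_zero _).mpr hg)
        (by rw [← map_mul, div_mul_cancel₀ _ hg])
      rw [h4, ← hf1, ← hg1, ← h3, hF]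
    · right
      intro f
      by_contra h
      exact hne ⟨f, h⟩
  · obtain ⟨g₀, hg₀⟩ := h1
    have hne : ∃ f : C.FunField L, w.ord (C.mapFun j f) ≠ 0 := ⟨g₀, by rw [hg₀]; exact one_ne_zero⟩
    refine Place.ext (funext fun F => ?_)
    rcases eq_or_ne F 0 with rfl | hF
    · rw [w.ord_zero, w'.ord_zero]
    obtain ⟨a, b, hb, hab⟩ := C.exists_ratio L' F
    have ha : MvPolynomial.aeval ![C.xF L', C.yF L'] a ≠ 0 := by
      rw [← hab]
      exact mul_ne_zero hF hb
    obtain ⟨f, hf, hf1, hf2⟩ := hmain a ha w hne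
    obtain ⟨g, hg, hg1, hg2⟩ := hmain b hb w hne
    rw [hdiv w F _ _ hF hb hab, hdiv w' F _ _ hF hb hab, hf1, hg1, hf2 w' h2, hg2 w' h2, h2, h2]

end Pool.Agent.FDX
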