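import Pool.Agent.FDX.Targets
import Pool.Agent.FD.Arr

/-!
# FDX, T_EXT2: places extend to `L'(C)`

`Fil k` is the group of sums `∑ c_i f_i` with `c_i` in `L'` and `f_i` of order at least `k`.
The order of a nonzero element of the ring of all such sums is the largest `k` with
`z` in `Fil k`; it is multiplicative, because `Fil 0 / Fil 1 = L'`.
-/

set_option autoImplicit false

open MvPolynomial

namespace Pool.Agent.FDX

open Pool.Agent.FD

namespace EXT2_

section abs

variable {L K : Type} [Field L] [Field K] [Algebra L K]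
  (L' : Type) {K' : Type} [Field L'] [Field K'] [Algebra L' K']
  (φ : K →+* K') (v : Place L K)

/-- sums of elements `c f` with `f` of order at least `k` -/
def Fil (k : ℤ) : AddSubgroup K' :=
  AddSubgroup.closure {z | ∃ (c : L') (f : K), (f = 0 ∨ k ≤ v.ord f) ∧
    z = algebraMap L' K' c * φ f}

theorem ord_one (v : Place L K) : v.ord 1 = 0 := v.toDV.ord_one

theorem ord_inv (v : Place L K) (f : K) : v.ord f⁻¹ = - v.ord f := v.toDV.ord_inv f

theorem ord_neg (v : Place L K) (f : K) : v.ord (-f) = v.ord f := v.toDV.ord_neg f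

theorem ord_pow (v : Place L K) (f : K) (n : ℕ) : v.ord (f ^ n) = n * v.ord f :=
  v.toDV.ord_pow f n

/-- the elements of order at least `k` -/
theorem O_add {v : Place L K} {k : ℤ} {f g : K} (hf : f = 0 ∨ k ≤ v.ord f)
    (hg : g = 0 ∨ k ≤ v.ord g) : f + g = 0 ∨ k ≤ v.ord (f + g) := by
  rcases hf with rfl | hf
  · rwa [zero_add]
  rcases hg with rfl | hg
  · rw [add_zero]; exact Or.inr hf
  by_cases h0 : f + g = 0
  · exact Or.inl h0
  by_cases hf0 : f = 0
  · rw [hf0, zero_add]; exact Or.inr hg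
  by_cases hg0 : g = 0
  · rw [hg0, add_zero]; exact Or.inr hf
  exact Or.inr (le_trans (le_min hf hg) (v.ord_add f g hf0 hg0 h0))

theorem O_mul {v : Place L K} {k l : ℤ} {f g : K} (hf : f = 0 ∨ k ≤ v.ord f)
    (hg : g = 0 ∨ l ≤ v.ord g) : f * g = 0 ∨ k + l ≤ v.ord (f * g) := by
  by_cases hf0 : f = 0
  · left; rw [hf0, zero_mul]
  by_cases hg0 : g = 0
  · left; rw [hg0, mul_zero]
  right
  rw [v.ord_mul f g hf0 hg0]
  rcases hf with h | hf
  · exact absurd h hf0
  rcases hg with h | hg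
  · exact absurd h hg0
  exact add_le_add hf hg

theorem Fil_mono {k l : ℤ} (h : k ≤ l) : Fil L' φ v l ≤ Fil L' φ v k := by
  refine AddSubgroup.closure_mono ?_
  rintro z ⟨c, f, hf, rfl⟩
  exact ⟨c, f, hf.imp_right (fun h' => h.trans h'), rfl⟩

theorem Fil_gen {k : ℤ} (c : L') {f : K} (hf : f = 0 ∨ k ≤ v.ord f) :
    algebraMap L' K' c * φ f ∈ Fil L' φ v k :=
  AddSubgroup.subset_closure ⟨c, f, hf, rfl⟩

theorem Fil_phi {k : ℤ} {f : K} (hf : f = 0 ∨ k ≤ v.ord f) : φ f ∈ Fil L' φ v k := by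
  have := Fil_gen L' φ v (1 : L') hf
  rwa [map_one, one_mul] at this

theorem Fil_const (c : L') : algebraMap L' K' c ∈ Fil L' φ v 0 := by
  have := Fil_gen L' φ v (k := 0) c (f := 1) (Or.inr (ord_one v).ge)
  rwa [map_one, mul_one] at this

theorem Fil_mul {k l : ℤ} {x y : K'} (hx : x ∈ Fil L' φ v k) (hy : y ∈ Fil L' φ v l) :
    x * y ∈ Fil L' φ v (k + l) := by
  unfold Fil at hx
  induction hx using AddSubgroup.closure_induction with
  | mem x hx =>
    obtain ⟨c, f, hf, rfl⟩ := hx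
    unfold Fil at hy
    induction hy using AddSubgroup.closure_induction with
    | mem y hy =>
      obtain ⟨d, g, hg, rfl⟩ := hy
      have e : algebraMap L' K' c * φ f * (algebraMap L' K' d * φ g) =
          algebraMap L' K' (c * d) * φ (f * g) := by
        rw [map_mul, map_mul]; ring
      rw [e]
      exact Fil_gen L' φ v _ (O_mul hf hg)
    | zero => rw [mul_zero]; exact AddSubgroup.zero_mem _
    | add y z _ _ h1 h2 => rw [mul_add]; exact AddSubgroup.add_mem _ h1 h2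
    | neg y _ h1 => rw [mul_neg]; exact AddSubgroup.neg_mem _ h1
  | zero => rw [zero_mul]; exact AddSubgroup.zero_mem _
  | add y z _ _ h1 h2 => rw [add_mul]; exact AddSubgroup.add_mem _ h1 h2
  | neg y _ h1 => rw [neg_mul]; exact AddSubgroup.neg_mem _ h1

theorem Fil_res (j : L →+* L') (hφ : ∀ a : L, φ (algebraMap L K a) = algebraMap L' K' (j a))
    (hval : ∀ f : K, f ≠ 0 → v.ord f = 0 →
      ∃ c : L, c ≠ 0 ∧ (f = algebraMap L K c ∨ 0 < v.ord (f - algebraMap L K c)))
    {z : K'} (hz : z ∈ Fil L' φ v 0) : ∃ c : L', z - algebraMap L' K' c ∈ Fil L' φ v 1 := by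
  unfold Fil at hz
  induction hz using AddSubgroup.closure_induction with
  | mem x hx =>
    obtain ⟨c, f, hf, rfl⟩ := hx
    by_cases h1 : f = 0 ∨ 1 ≤ v.ord f
    · refine ⟨0, ?_⟩
      rw [map_zero, sub_zero]
      exact Fil_gen L' φ v c h1
    · push Not at h1
      obtain ⟨hf0, hf1⟩ := h1
      have hf2 : v.ord f = 0 := by
        rcases hf with h | h
        · exact absurd h hf0
        · omega
      obtain ⟨a, _, ha⟩ := hval f hf0 hf2
      refine ⟨c * j a, ?_⟩
      have e : algebraMap L' K' c * φ f - algebraMap L' K' (c * j a) =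
          algebraMap L' K' c * φ (f - algebraMap L K a) := by
        rw [map_mul, map_sub, hφ]; ring
      rw [e]
      refine Fil_gen L' φ v c ?_
      rcases ha with h | h
      · left; rw [← h, sub_self]
      · right; omega
  | zero => exact ⟨0, by rw [map_zero, sub_zero]; exact AddSubgroup.zero_mem _⟩
  | add y z _ _ h1 h2 =>
    obtain ⟨c, h1⟩ := h1
    obtain ⟨d, h2⟩ := h2
    refine ⟨c + d, ?_⟩
    have e : y + z - algebraMap L' K' (c + d) =
        (y - algebraMap L' K' c) + (z - algebraMap L' K' d) := by rw [map_add]; ring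
    rw [e]
    exact AddSubgroup.add_mem _ h1 h2
  | neg y _ h1 =>
    obtain ⟨c, h1⟩ := h1
    refine ⟨-c, ?_⟩
    have e : -y - algebraMap L' K' (-c) = -(y - algebraMap L' K' c) := by rw [map_neg]; ring
    rw [e]
    exact AddSubgroup.neg_mem _ h1

end abs

section coords

variable {L K : Type} [Field L] [Field K] [Algebra L K]
  {L' : Type} {K' : Type} [Field L'] [Field K'] [Algebra L' K']
  (φ : K →+* K') (v : Place L K) {ι : Type} (b : ι → L')

/-- the element with coordinates `g` -/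
noncomputable def ev (g : ι →₀ K) : K' := g.sum fun i x => algebraMap L' K' (b i) * φ x

theorem ev_add (g h : ι →₀ K) : ev φ b (g + h) = ev φ b g + ev φ b h := by
  unfold ev
  refine Finsupp.sum_add_index' ?_ ?_
  · intro i; rw [map_zero, mul_zero]
  · intro i x y; rw [map_add, mul_add]

theorem ev_zero : ev φ b (0 : ι →₀ K) = 0 := Finsupp.sum_zero_index

theorem ev_neg (g : ι →₀ K) : ev φ b (-g) = -ev φ b g := by
  have h := ev_add φ b g (-g)
  rw [add_neg_cancel, ev_zero] at h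
  exact eq_neg_of_add_eq_zero_right h.symm

theorem ev_const (j : L →+* L')
    (hφ : ∀ a : L, φ (algebraMap L K a) = algebraMap L' K' (j a)) (a : ι →₀ L) (f : K) :
    ev φ b (a.mapRange (fun x => algebraMap L K x * f) (by rw [map_zero, zero_mul])) =
      algebraMap L' K' (a.sum fun i x => b i * j x) * φ f := by
  unfold ev
  rw [Finsupp.sum_mapRange_index (by intro i; rw [map_zero, mul_zero]), Finsupp.sum,
    Finsupp.sum, map_sum, Finset.sum_mul]
  refine Finset.sum_congr rfl fun i _ => ?_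
  rw [map_mul, map_mul, hφ]
  ring

theorem Fil_coords (j : L →+* L')
    (hφ : ∀ a : L, φ (algebraMap L K a) = algebraMap L' K' (j a))
    (hspan : ∀ c : L', ∃ a : ι →₀ L, (a.sum fun i x => b i * j x) = c)
    {k : ℤ} {z : K'} (hz : z ∈ Fil L' φ v k) :
    ∃ g : ι →₀ K, (∀ i, g i = 0 ∨ k ≤ v.ord (g i)) ∧ ev φ b g = z := by
  unfold Fil at hz
  induction hz using AddSubgroup.closure_induction with
  | mem x hx =>
    obtain ⟨c, f, hf, rfl⟩ := hx
    obtain ⟨a, rfl⟩ := hspan c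
    refine ⟨_, ?_, ev_const φ b j hφ a f⟩
    intro i
    rw [Finsupp.mapRange_apply]
    have h0 : algebraMap L K (a i) = 0 ∨ 0 ≤ v.ord (algebraMap L K (a i)) :=
      Or.inr (v.ord_const _).ge
    have := O_mul h0 hf
    rwa [zero_add] at this
  | zero => exact ⟨0, fun i => Or.inl rfl, ev_zero φ b⟩
  | add y z _ _ h1 h2 =>
    obtain ⟨g, hg, rfl⟩ := h1
    obtain ⟨h, hh, rfl⟩ := h2
    exact ⟨g + h, fun i => O_add (hg i) (hh i), ev_add φ b g h⟩
  | neg y _ h1 =>
    obtain ⟨g, hg, rfl⟩ := h1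
    refine ⟨-g, fun i => ?_, ev_neg φ b g⟩
    rw [Finsupp.neg_apply, neg_eq_zero, ord_neg]
    exact hg i

end coords

section main

variable {L K : Type} [Field L] [Field K] [Algebra L K]
  {L' : Type} {K' : Type} [Field L'] [Field K'] [Algebra L' K']
  (φ : K →+* K') (v : Place L K)

/-- `z` has order exactly `k` -/
def Ex (L' : Type) {K' : Type} [Field L'] [Field K'] [Algebra L' K'] (φ : K →+* K')
    (v : Place L K) (z : K') (k : ℤ) : Prop :=
  z ∈ Fil L' φ v k ∧ z ∉ Fil L' φ v (k + 1)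

theorem Ex.ne_zero {z : K'} {k : ℤ} (h : Ex L' φ v z k) : z ≠ 0 := by
  rintro rfl
  exact h.2 (AddSubgroup.zero_mem _)

theorem Ex.le {z : K'} {k l : ℤ} (h : Ex L' φ v z k) (h' : z ∈ Fil L' φ v l) : l ≤ k := by
  by_contra hlt
  push Not at hlt
  exact h.2 (Fil_mono L' φ v (by omega) h')

theorem Ex.unique {z : K'} {k l : ℤ} (h : Ex L' φ v z k) (h' : Ex L' φ v z l) : k = l :=
  le_antisymm (h'.le φ v h.1) (h.le φ v h'.1)

theorem exists_t (v : Place L K) (k : ℤ) : ∃ f : K, f ≠ 0 ∧ v.ord f = k := by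
  obtain ⟨t, ht⟩ := v.exists_ord_one
  have ht0 : t ≠ 0 := v.toDV.ne_zero_of_ord_ne (by
    change v.ord t ≠ 0
    rw [ht]; exact one_ne_zero)
  rcases Int.le_total 0 k with hk | hk
  · obtain ⟨n, rfl⟩ := Int.eq_ofNat_of_zero_le hk
    refine ⟨t ^ n, pow_ne_zero n ht0, ?_⟩
    rw [ord_pow, ht, mul_one]
  · obtain ⟨n, hn⟩ := Int.eq_ofNat_of_zero_le (neg_nonneg.mpr hk)
    refine ⟨(t ^ n)⁻¹, inv_ne_zero (pow_ne_zero n ht0), ?_⟩
    rw [ord_inv, ord_pow, ht, mul_one]
    omega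

/-- the hypotheses on the situation -/
structure Hyp (L' : Type) {K' : Type} [Field L'] [Field K'] [Algebra L' K'] (φ : K →+* K')
    (v : Place L K) : Prop where
  res : ∀ z : K', z ∈ Fil L' φ v 0 → ∃ c : L', z - algebraMap L' K' c ∈ Fil L' φ v 1
  ind : ∀ c : L', algebraMap L' K' c ∈ Fil L' φ v 1 → c = 0
  bdd : ∀ (z : K'), z ≠ 0 → ∀ m : ℤ, z ∈ Fil L' φ v m → ∃ k₀ : ℤ, ∀ k, z ∈ Fil L' φ v k → k ≤ k₀
  quot : ∀ z : K', ∃ x y : K', x ∈ Fil L' φ v 0 ∧ y ∈ Fil L' φ v 0 ∧ y ≠ 0 ∧ z * y = x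

theorem exists_Ex (H : Hyp L' φ v) {z : K'} (hz : z ≠ 0) {m : ℤ} (hm : z ∈ Fil L' φ v m) :
    ∃ k, Ex L' φ v z k := by
  classical
  obtain ⟨k₀, hk₀⟩ := H.bdd z hz m hm
  obtain ⟨k, hk, hk'⟩ := Int.exists_greatest_of_bdd (P := fun k => z ∈ Fil L' φ v k)
    ⟨k₀, hk₀⟩ ⟨m, hm⟩
  refine ⟨k, hk, fun h => ?_⟩
  have := hk' _ h
  omega

theorem Ex_one (H : Hyp L' φ v) : Ex L' φ v (1 : K') 0 := by
  refine ⟨?_, fun h => ?_⟩
  · have := Fil_const L' φ v (1 : L')
    rwa [map_one] at this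
  · have h1 := H.ind 1 (by rw [map_one]; exact h)
    exact one_ne_zero h1

theorem Ex_const (H : Hyp L' φ v) {c : L'} (hc : c ≠ 0) : Ex L' φ v (algebraMap L' K' c) 0 :=
  ⟨Fil_const L' φ v c, fun h => hc (H.ind c h)⟩

theorem Ex_phi (H : Hyp L' φ v) {f : K} (hf : f ≠ 0) : Ex L' φ v (φ f) (v.ord f) := by
  refine ⟨Fil_phi L' φ v (Or.inr le_rfl), fun h => ?_⟩
  have h1 : φ f⁻¹ ∈ Fil L' φ v (-v.ord f) := Fil_phi L' φ v (Or.inr (ord_inv v f).ge)
  have h2 := Fil_mul L' φ v h h1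
  rw [← map_mul, mul_inv_cancel₀ hf, map_one] at h2
  have e : v.ord f + 1 + -v.ord f = 0 + 1 := by ring
  rw [e] at h2
  exact (Ex_one φ v H).2 h2

theorem Ex_scale (H : Hyp L' φ v) {z : K'} {k : ℤ} (h : Ex L' φ v z k) {f : K}
    (hf : f ≠ 0) (hk : v.ord f = -k) :
    ∃ c : L', c ≠ 0 ∧ z * φ f - algebraMap L' K' c ∈ Fil L' φ v 1 := by
  have h1 : φ f ∈ Fil L' φ v (-k) := Fil_phi L' φ v (Or.inr hk.ge)
  have h2 := Fil_mul L' φ v h.1 h1
  rw [add_neg_cancel] at h2
  obtain ⟨c, hc⟩ := H.res _ h2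
  refine ⟨c, ?_, hc⟩
  rintro rfl
  rw [map_zero, sub_zero] at hc
  have h3 : φ f⁻¹ ∈ Fil L' φ v k := Fil_phi L' φ v (Or.inr (by rw [ord_inv, hk, neg_neg]))
  have h4 := Fil_mul L' φ v hc h3
  rw [mul_assoc, ← map_mul, mul_inv_cancel₀ hf, map_one, mul_one, add_comm] at h4
  exact h.2 h4

theorem Ex_mul (H : Hyp L' φ v) {z z' : K'} {k l : ℤ} (h : Ex L' φ v z k)
    (h' : Ex L' φ v z' l) : Ex L' φ v (z * z') (k + l) := by
  refine ⟨Fil_mul L' φ v h.1 h'.1, fun hcon => ?_⟩
  obtain ⟨f, hf0, hf⟩ := exists_t v (-k)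
  obtain ⟨g, hg0, hg⟩ := exists_t v (-l)
  obtain ⟨c, hc0, hc⟩ := Ex_scale φ v H h hf0 hf
  obtain ⟨d, hd0, hd⟩ := Ex_scale φ v H h' hg0 hg
  have h1 : φ (f * g) ∈ Fil L' φ v (-(k + l)) := Fil_phi L' φ v (Or.inr (by
    rw [v.ord_mul f g hf0 hg0, hf, hg]; omega))
  have h2 := Fil_mul L' φ v hcon h1
  have e : k + l + 1 + -(k + l) = 1 := by ring
  rw [e] at h2
  have hz : z * φ f ∈ Fil L' φ v 0 := by
    have := Fil_mul L' φ v h.1 (Fil_phi L' φ v (Or.inr hf.ge))
    rwa [add_neg_cancel] at this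
  have hz' : z' * φ g ∈ Fil L' φ v 0 := by
    have := Fil_mul L' φ v h'.1 (Fil_phi L' φ v (Or.inr hg.ge))
    rwa [add_neg_cancel] at this
  have h3 := Fil_mul L' φ v hc hz'
  have h4 := Fil_mul L' φ v (Fil_const L' φ v c) hd
  rw [add_zero] at h3
  rw [zero_add] at h4
  have h5 : algebraMap L' K' (c * d) ∈ Fil L' φ v 1 := by
    have e2 : algebraMap L' K' (c * d) = z * z' * φ (f * g) -
        (z * φ f - algebraMap L' K' c) * (z' * φ g) -
        algebraMap L' K' c * (z' * φ g - algebraMap L' K' d) := by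
      rw [map_mul, map_mul]; ring
    rw [e2]
    exact AddSubgroup.sub_mem _ (AddSubgroup.sub_mem _ h2 h3) h4
  exact mul_ne_zero hc0 hd0 (H.ind _ h5)

/-- the quotient `z` has order `m` -/
def W (L' : Type) {K' : Type} [Field L'] [Field K'] [Algebra L' K'] (φ : K →+* K')
    (v : Place L K) (z : K') (m : ℤ) : Prop :=
  ∃ (x y : K') (k l : ℤ), Ex L' φ v x k ∧ Ex L' φ v y l ∧ z * y = x ∧ m = k - l

theorem W_unique (H : Hyp L' φ v) {z : K'} {m m' : ℤ} (h : W L' φ v z m)
    (h' : W L' φ v z m') : m = m' := by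
  obtain ⟨x, y, k, l, hx, hy, e, rfl⟩ := h
  obtain ⟨x', y', k', l', hx', hy', e', rfl⟩ := h'
  have h1 := Ex_mul φ v H hx hy'
  have h2 := Ex_mul φ v H hx' hy
  have e2 : x * y' = x' * y := by rw [← e, ← e']; ring
  rw [e2] at h1
  have := h1.unique φ v h2
  omega

theorem W_exists (H : Hyp L' φ v) {z : K'} (hz : z ≠ 0) : ∃ m, W L' φ v z m := by
  obtain ⟨x, y, hx, hy, hy0, e⟩ := H.quot z
  have hx0 : x ≠ 0 := by rw [← e]; exact mul_ne_zero hz hy0
  obtain ⟨k, hk⟩ := exists_Ex φ v H hx0 hx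
  obtain ⟨l, hl⟩ := exists_Ex φ v H hy0 hy
  exact ⟨k - l, x, y, k, l, hk, hl, e, rfl⟩

theorem W_ne_zero {z : K'} {m : ℤ} (h : W L' φ v z m) : z ≠ 0 := by
  obtain ⟨x, y, k, l, hx, hy, e, rfl⟩ := h
  rintro rfl
  rw [zero_mul] at e
  exact hx.ne_zero φ v e.symm

theorem W_mul (H : Hyp L' φ v) {z z' : K'} {m m' : ℤ} (h : W L' φ v z m)
    (h' : W L' φ v z' m') : W L' φ v (z * z') (m + m') := by
  obtain ⟨x, y, k, l, hx, hy, e, rfl⟩ := h
  obtain ⟨x', y', k', l', hx', hy', e', rfl⟩ := h'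
  refine ⟨_, _, _, _, Ex_mul φ v H hx hx', Ex_mul φ v H hy hy', ?_, by ring⟩
  rw [← e, ← e']; ring

theorem W_of_Ex (H : Hyp L' φ v) {z : K'} {k : ℤ} (h : Ex L' φ v z k) : W L' φ v z k :=
  ⟨z, 1, k, 0, h, Ex_one φ v H, mul_one z, by ring⟩

theorem W_add (H : Hyp L' φ v) {z z' : K'} {m m' m'' : ℤ} (h : W L' φ v z m)
    (h' : W L' φ v z' m') (h'' : W L' φ v (z + z') m'') : min m m' ≤ m'' := by
  have hne := W_ne_zero φ v h''
  obtain ⟨x, y, k, l, hx, hy, e, rfl⟩ := h
  obtain ⟨x', y', k', l', hx', hy', e', rfl⟩ := h'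
  have h1 := (Ex_mul φ v H hx hy').1
  have h2 := (Ex_mul φ v H hx' hy).1
  have h3 : x * y' + x' * y ∈ Fil L' φ v (min (k + l') (k' + l)) :=
    AddSubgroup.add_mem _ (Fil_mono L' φ v (min_le_left _ _) h1)
      (Fil_mono L' φ v (min_le_right _ _) h2)
  have e2 : (z + z') * (y * y') = x * y' + x' * y := by rw [← e, ← e']; ring
  have hyy := Ex_mul φ v H hy hy'
  have hs0 : x * y' + x' * y ≠ 0 := by
    rw [← e2]
    exact mul_ne_zero hne (hyy.ne_zero φ v)
  obtain ⟨n, hn⟩ := exists_Ex φ v H hs0 h3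
  have h4 : W L' φ v (z + z') (n - (l + l')) := ⟨_, _, n, _, hn, hyy, e2, rfl⟩
  have h5 := W_unique φ v H h'' h4
  have h6 := hn.le φ v h3
  rw [h5]
  rcases le_total (k + l') (k' + l) with h | h
  · rw [min_eq_left h] at h6
    exact le_trans (min_le_left _ _) (by omega)
  · rw [min_eq_right h] at h6
    exact le_trans (min_le_right _ _) (by omega)

open Classical in
/-- the order on `K'` -/
noncomputable def ordW (L' : Type) {K' : Type} [Field L'] [Field K'] [Algebra L' K']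
    (φ : K →+* K') (v : Place L K) (z : K') : ℤ :=
  if h : ∃ m, W L' φ v z m then h.choose else 0

theorem ordW_eq (H : Hyp L' φ v) {z : K'} {m : ℤ} (h : W L' φ v z m) : ordW L' φ v z = m := by
  have h1 : ∃ m, W L' φ v z m := ⟨m, h⟩
  unfold ordW
  rw [dif_pos h1]
  exact W_unique φ v H h1.choose_spec h

theorem ordW_zero : ordW L' φ v (0 : K') = 0 := by
  unfold ordW
  rw [dif_neg]
  rintro ⟨m, hm⟩
  exact W_ne_zero φ v hm rfl

theorem ordW_W (H : Hyp L' φ v) {z : K'} (hz : z ≠ 0) : W L' φ v z (ordW L' φ v z) := by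
  obtain ⟨m, hm⟩ := W_exists φ v H hz
  rw [ordW_eq φ v H hm]
  exact hm

theorem ordW_phi (H : Hyp L' φ v) (f : K) : ordW L' φ v (φ f) = v.ord f := by
  by_cases hf : f = 0
  · rw [hf, map_zero, ordW_zero, v.ord_zero]
  · exact ordW_eq φ v H (W_of_Ex φ v H (Ex_phi φ v H hf))

/-- the place of `K'` over `v` -/
noncomputable def ext (H : Hyp L' φ v) : Place L' K' where
  ord := ordW L' φ v
  ord_zero := ordW_zero φ v
  ord_mul f g hf hg := ordW_eq φ v H (W_mul φ v H (ordW_W φ v H hf) (ordW_W φ v H hg))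
  ord_add f g hf hg hfg :=
    W_add φ v H (ordW_W φ v H hf) (ordW_W φ v H hg) (ordW_W φ v H hfg)
  ord_const a := by
    by_cases ha : a = 0
    · rw [ha, map_zero, ordW_zero]
    · exact ordW_eq φ v H (W_of_Ex φ v H (Ex_const φ v H ha))
  exists_ord_one := by
    obtain ⟨f, hf⟩ := v.exists_ord_one
    exact ⟨φ f, by rw [ordW_phi φ v H, hf]⟩

theorem hyp_of (j : L →+* L') (hφ : ∀ a : L, φ (algebraMap L K a) = algebraMap L' K' (j a))
    (hval : ∀ f : K, f ≠ 0 → v.ord f = 0 →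
      ∃ c : L, c ≠ 0 ∧ (f = algebraMap L K c ∨ 0 < v.ord (f - algebraMap L K c)))
    {ι : Type} (b : ι → L') (hspan : ∀ c : L', ∃ a : ι →₀ L, (a.sum fun i x => b i * j x) = c)
    (hind : ∀ g : ι →₀ K, ev φ b g = 0 → g = 0)
    (hquot : ∀ z : K', ∃ x y : K', x ∈ Fil L' φ v 0 ∧ y ∈ Fil L' φ v 0 ∧ y ≠ 0 ∧ z * y = x) :
    Hyp L' φ v where
  res z hz := Fil_res L' φ v j hφ hval hz
  ind c hc := by
    obtain ⟨g, hg, hgc⟩ := Fil_coords φ v b j hφ hspan hc
    obtain ⟨a, rfl⟩ := hspan c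
    have h1 := ev_const φ b j hφ a (1 : K)
    rw [map_one φ, mul_one (algebraMap L' K' _)] at h1
    set a' : ι →₀ K := a.mapRange (fun x => algebraMap L K x * 1) (by rw [map_zero, zero_mul])
      with ha'
    have h2 : ev φ b (a' + -g) = 0 := by rw [ev_add, ev_neg, h1, hgc, add_neg_cancel]
    have h3 : a' = g := by
      have := hind _ h2
      exact eq_of_sub_eq_zero (by rw [sub_eq_add_neg]; exact this)
    have h4 : a = 0 := by
      ext i
      have h5 := hg i
      rw [← h3, ha', Finsupp.mapRange_apply, mul_one] at h5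
      rcases h5 with h5 | h5
      · rwa [FaithfulSMul.algebraMap_eq_zero_iff] at h5
      · rw [v.ord_const] at h5
        omega
    rw [h4, Finsupp.sum_zero_index]
  bdd z hz m hm := by
    obtain ⟨g, hg, rfl⟩ := Fil_coords φ v b j hφ hspan hm
    have hg0 : g ≠ 0 := by
      rintro rfl
      exact hz (ev_zero φ b)
    obtain ⟨i, hi⟩ := Finsupp.ne_iff.mp hg0
    rw [Finsupp.zero_apply] at hi
    refine ⟨v.ord (g i), fun k hk => ?_⟩
    obtain ⟨g', hg', e⟩ := Fil_coords φ v b j hφ hspan hk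
    have h2 : ev φ b (g' + -g) = 0 := by rw [ev_add, ev_neg, e, add_neg_cancel]
    have h3 : g' = g := by
      have := hind _ h2
      exact eq_of_sub_eq_zero (by rw [sub_eq_add_neg]; exact this)
    rw [h3] at hg'
    rcases hg' i with h | h
    · exact absurd h hi
    · exact h
  quot := hquot

end main

section curve

/-- the coefficientwise image of a polynomial under an additive map -/
noncomputable def cmap {L L' : Type} [Field L] [Field L'] (π : L' →+ L)
    (Q : MvPolynomial (Fin 2) L') : MvPolynomial (Fin 2) L :=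
  ∑ m ∈ Q.support, monomial m (π (coeff m Q))

theorem coeff_cmap {L L' : Type} [Field L] [Field L'] (π : L' →+ L)
    (Q : MvPolynomial (Fin 2) L') (m : Fin 2 →₀ ℕ) : coeff m (cmap π Q) = π (coeff m Q) := by
  unfold cmap
  rw [coeff_sum]
  simp only [coeff_monomial]
  rw [Finset.sum_ite_eq' Q.support m (fun m => π (coeff m Q))]
  split_ifs with hm
  · rfl
  · rw [notMem_support_iff.mp hm, map_zero]

theorem cmap_mul {L L' : Type} [Field L] [Field L'] (j : L →+* L') (π : L' →+ L)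
    (hπ : ∀ (a : L) (b : L'), π (j a * b) = a * π b)
    (F : MvPolynomial (Fin 2) L) (Q : MvPolynomial (Fin 2) L') :
    cmap π (MvPolynomial.map j F * Q) = F * cmap π Q := by
  ext n
  rw [coeff_cmap, coeff_mul, coeff_mul, map_sum]
  refine Finset.sum_congr rfl fun x _ => ?_
  rw [coeff_map, hπ, coeff_cmap]

theorem cmap_sum {L L' : Type} [Field L] [Field L'] (j : L →+* L') (π : L' →+ L)
    (hπ : ∀ (a : L) (b : L'), π (j a * b) = a * π b)
    {ι : Type} [DecidableEq ι] (s : Finset ι) (b : ι → L') (P : ι → MvPolynomial (Fin 2) L)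
    (i : ι) (hi : i ∈ s) (hb : ∀ k, π (b k) = if k = i then 1 else 0) :
    cmap π (∑ k ∈ s, MvPolynomial.C (b k) * MvPolynomial.map j (P k)) = P i := by
  ext n
  rw [coeff_cmap, coeff_sum, map_sum]
  rw [Finset.sum_eq_single i]
  · rw [coeff_C_mul, coeff_map, mul_comm, hπ, hb, if_pos rfl, mul_one]
  · intro k _ hk
    rw [coeff_C_mul, coeff_map, mul_comm, hπ, hb, if_neg hk, mul_zero]
  · intro h
    exact absurd hi h

theorem fil_aeval {K' L L' K : Type} [Field L] [Field K] [Algebra L K] [Field L'] [Field K']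
    [Algebra L' K'] (φ : K →+* K') (v : Place L K) (x : Fin 2 → K)
    (P : MvPolynomial (Fin 2) L') :
    ∃ k : ℤ, MvPolynomial.aeval (fun i => φ (x i)) P ∈ Fil L' φ v k := by
  induction P using MvPolynomial.induction_on with
  | C a =>
    rw [MvPolynomial.aeval_C]
    exact ⟨0, Fil_const L' φ v a⟩
  | add p q hp hq =>
    obtain ⟨k, hk⟩ := hp
    obtain ⟨l, hl⟩ := hq
    rw [map_add]
    exact ⟨min k l, AddSubgroup.add_mem _ (Fil_mono L' φ v (min_le_left _ _) hk)
      (Fil_mono L' φ v (min_le_right _ _) hl)⟩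
  | mul_X p i hp =>
    obtain ⟨k, hk⟩ := hp
    rw [map_mul, MvPolynomial.aeval_X]
    exact ⟨k + v.ord (x i), Fil_mul L' φ v hk (Fil_phi L' φ v (Or.inr le_rfl))⟩

theorem quot_of (C : Curve) (L L' : Type) [Field L] [CharZero L] [IsAlgClosed L]
    [Field L'] [CharZero L'] [IsAlgClosed L'] (j : L →+* L') (v : C.Pt L)
    (z : C.FunField L') : ∃ x y : C.FunField L', x ∈ Fil L' (C.mapFun j) v 0 ∧
      y ∈ Fil L' (C.mapFun j) v 0 ∧ y ≠ 0 ∧ z * y = x := by
  obtain ⟨a, b, hb, hab⟩ := C.exists_ratio L' z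
  have e : (![C.xF L', C.yF L'] : Fin 2 → C.FunField L') =
      fun i => C.mapFun j ((![C.xF L, C.yF L] : Fin 2 → C.FunField L) i) := by
    funext i
    fin_cases i
    · exact (C.mapFun_xF j).symm
    · exact (C.mapFun_yF j).symm
  obtain ⟨k, hk⟩ := fil_aeval (C.mapFun j) v ![C.xF L, C.yF L] a
  obtain ⟨l, hl⟩ := fil_aeval (C.mapFun j) v ![C.xF L, C.yF L] b
  rw [← e] at hk hl
  obtain ⟨f, hf0, hf⟩ := exists_t v (-min k l)
  have h1 : C.mapFun j f ∈ Fil L' (C.mapFun j) v (-min k l) :=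
    Fil_phi L' _ v (Or.inr hf.ge)
  have h2 := Fil_mul L' _ v (Fil_mono L' _ v (min_le_left k l) hk) h1
  have h3 := Fil_mul L' _ v (Fil_mono L' _ v (min_le_right k l) hl) h1
  rw [add_neg_cancel] at h2 h3
  refine ⟨_, _, h2, h3, mul_ne_zero hb ((map_ne_zero _).mpr hf0), ?_⟩
  rw [← mul_assoc, hab]

theorem ind_of (C : Curve) (L L' : Type) [Field L] [CharZero L] [IsAlgClosed L]
    [Field L'] [CharZero L'] [IsAlgClosed L'] (j : L →+* L') {ι : Type} (b : ι → L')
    (π : ι → L' →+ L) (hπ : ∀ (i : ι) (a : L) (b : L'), π i (j a * b) = a * π i b)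
    (hπb : ∀ i k, i ≠ k → π i (b k) = 0) (hπ1 : ∀ i, π i (b i) = 1)
    (g : ι →₀ C.FunField L) (hg : ev (C.mapFun j) b g = 0) : g = 0 := by
  classical
  obtain ⟨d, hd⟩ := IsLocalization.exist_integer_multiples
    (nonZeroDivisors (C.CoordRing L)) g.support (fun i => g i)
  have hd' : ∀ i : ι, ∃ P : MvPolynomial (Fin 2) L, i ∈ g.support →
      algebraMap (C.CoordRing L) (C.FunField L) (C.mkCoord L P) =
        algebraMap (C.CoordRing L) (C.FunField L) d * g i := by
    intro i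
    by_cases hi : i ∈ g.support
    · obtain ⟨r, hr⟩ := hd i hi
      obtain ⟨P, rfl⟩ := C.mkCoord_surjective r
      refine ⟨P, fun _ => ?_⟩
      rw [hr]
      exact Algebra.smul_def _ _
    · exact ⟨0, fun h => absurd h hi⟩
  choose P hP using hd'
  have h1 : C.mapFun j (algebraMap (C.CoordRing L) (C.FunField L) d) *
      ev (C.mapFun j) b g = 0 := by rw [hg, mul_zero]
  unfold ev at h1
  rw [Finsupp.sum] at h1
  replace h1 := (Finset.mul_sum g.support
    (fun i => algebraMap L' (C.FunField L') (b i) * C.mapFun j (g i))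
    (C.mapFun j (algebraMap (C.CoordRing L) (C.FunField L) d))).symm.trans h1
  have h2 : ∀ i ∈ g.support, C.mapFun j (algebraMap (C.CoordRing L) (C.FunField L) d) *
      (algebraMap L' (C.FunField L') (b i) * C.mapFun j (g i)) =
      algebraMap (C.CoordRing L') (C.FunField L')
        (C.mkCoord L' (MvPolynomial.C (b i) * MvPolynomial.map j (P i))) := by
    intro i hi
    have e1 : C.mapFun j (algebraMap (C.CoordRing L) (C.FunField L) d) *
        (algebraMap L' (C.FunField L') (b i) * C.mapFun j (g i)) =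
        algebraMap L' (C.FunField L') (b i) *
        C.mapFun j (algebraMap (C.CoordRing L) (C.FunField L) d * g i) := by
      rw [map_mul]; ring
    rw [e1, ← hP i hi, Curve.mapFun_algebraMap, Curve.mapCoord_mk, map_mul, map_mul,
      IsScalarTower.algebraMap_apply L' (C.CoordRing L') (C.FunField L')]
    rfl
  have h3 : C.mkCoord L' (∑ i ∈ g.support,
      MvPolynomial.C (b i) * MvPolynomial.map j (P i)) = 0 := by
    refine IsFractionRing.injective (C.CoordRing L') (C.FunField L') ?_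
    rw [map_sum, map_sum, map_zero]
    exact (Finset.sum_congr rfl h2).symm.trans h1
  rw [Curve.mkCoord_eq_zero, ← map_polyOver j] at h3
  obtain ⟨Q, hQ⟩ := h3
  ext i
  rw [Finsupp.zero_apply]
  by_contra hi
  have hi' : i ∈ g.support := Finsupp.mem_support_iff.mpr hi
  have h4 := cmap_sum j (π i) (hπ i) g.support b P i hi' (by
    intro k
    by_cases hk : k = i
    · rw [if_pos hk, hk, hπ1]
    · rw [if_neg hk, hπb i k (Ne.symm hk)])
  rw [hQ, cmap_mul j (π i) (hπ i)] at h4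
  have h5 : C.mkCoord L (P i) = 0 := by
    rw [Curve.mkCoord_eq_zero, ← h4]
    exact Dvd.intro _ rfl
  have h6 := hP i hi'
  rw [h5, map_zero] at h6
  rcases mul_eq_zero.mp h6.symm with h7 | h7
  · exact IsFractionRing.to_map_ne_zero_of_mem_nonZeroDivisors d.2 h7
  · exact hi h7

end curve

end EXT2_

open EXT2_ in
/-- E2: every place of `L(C)` extends to `L'(C)`. -/
theorem p_EXT2 (h_FF : T_FF) (h_VAL : T_VAL) : T_EXT2 := by
  classical
  intro C L L' _ _ _ _ _ _ j v
  let _ : Algebra L L' := j.toAlgebra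
  let B := Module.Basis.ofVectorSpace L L'
  have H : Hyp L' (C.mapFun j) v := by
    refine hyp_of (C.mapFun j) v j (C.mapFun_const j)
      (h_VAL L (C.FunField L) (h_FF C L) v) (fun i => B i) ?_ ?_ (quot_of C L L' j v)
    · intro c
      refine ⟨B.repr c, ?_⟩
      have h := B.linearCombination_repr c
      rw [Finsupp.linearCombination_apply] at h
      rw [Finsupp.sum] at h ⊢
      conv_rhs => rw [← h]
      refine Finset.sum_congr rfl fun i _ => ?_
      rw [Algebra.smul_def, mul_comm]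
      rfl
    · intro g hg
      refine ind_of C L L' j (fun i => B i) (fun i => (B.coord i).toAddMonoidHom) ?_ ?_ ?_ g hg
      · intro i a c
        have h := (B.coord i).map_smul a c
        rw [Algebra.smul_def] at h
        exact h
      · intro i k hik
        change B.coord i (B k) = 0
        rw [Module.Basis.coord_apply, Module.Basis.repr_self_apply, if_neg (Ne.symm hik)]
      · intro i
        change B.coord i (B i) = 1
        rw [Module.Basis.coord_apply, Module.Basis.repr_self_apply, if_pos rfl]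
  exact ⟨ext (C.mapFun j) v H, ordW_phi (C.mapFun j) v H⟩

end Pool.Agent.FDX
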