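import Pool.Agent.FDX.Targets
import Pool.Agent.FD.Arr

/-!
# FDX: the function field of a curve is a function field in one variable
-/

open MvPolynomial

namespace Pool.Agent.FDX

open Pool.Agent.FD

open IntermediateField in
/-- A nonzero polynomial relation between `w` and a transcendental `z`. -/
theorem FF_alg {L K : Type} [Field L] [Field K] [Algebra L K] (P : MvPolynomial (Fin 2) L)
    (hP : P ≠ 0) (w z : K) (hz : Transcendental L z) (h : aeval ![w, z] P = 0) :
    IsAlgebraic (L⟮z⟯) w := by
  set φ : MvPolynomial (Fin 1) L →ₐ[L] L⟮z⟯ := aeval (fun _ => AdjoinSimple.gen L z) with hφ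
  have hinj : Function.Injective φ := by
    have h1 : AlgebraicIndependent L (fun _ : Fin 1 => z) :=
      algebraicIndependent_unique_type_iff.mpr hz
    have h2 := algebraicIndependent_iff_injective_aeval.mp h1
    have h3 : ((L⟮z⟯).val).comp φ = aeval (fun _ : Fin 1 => z) := by
      apply MvPolynomial.algHom_ext
      intro i
      rw [AlgHom.comp_apply, hφ, aeval_X, aeval_X]
      exact AdjoinSimple.coe_gen L z
    intro a b hab
    apply h2
    rw [← h3, AlgHom.comp_apply, AlgHom.comp_apply, hab]
  set ψ : MvPolynomial (Fin 2) L →ₐ[L] K :=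
    ((Polynomial.aeval w : Polynomial (L⟮z⟯) →ₐ[L⟮z⟯] K).restrictScalars L).comp
      ((Polynomial.mapAlgHom φ).comp (finSuccEquiv L 1 : MvPolynomial (Fin 2) L →ₐ[L] _)) with hψ
  have e : ψ = aeval ![w, z] := by
    apply MvPolynomial.algHom_ext
    intro i
    refine Fin.cases ?_ (fun j => ?_) i
    · rw [aeval_X]
      change Polynomial.aeval w (Polynomial.map (φ : MvPolynomial (Fin 1) L →+* L⟮z⟯)
        (finSuccEquiv L 1 (X 0))) = w
      rw [finSuccEquiv_X_zero, Polynomial.map_X, Polynomial.aeval_X]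
    · have hj : j = 0 := Subsingleton.elim _ _
      subst hj
      rw [aeval_X]
      change Polynomial.aeval w (Polynomial.map (φ : MvPolynomial (Fin 1) L →+* L⟮z⟯)
        (finSuccEquiv L 1 (X (Fin.succ 0)))) = z
      rw [finSuccEquiv_X_succ, Polynomial.map_C, Polynomial.aeval_C, RingHom.coe_coe, hφ, aeval_X]
      exact AdjoinSimple.algebraMap_gen L z
  refine ⟨(finSuccEquiv L 1 P).map (φ : MvPolynomial (Fin 1) L →+* L⟮z⟯), ?_, ?_⟩
  · intro h0
    have h1 := (Polynomial.map_eq_zero_iff
      (f := (φ : MvPolynomial (Fin 1) L →+* L⟮z⟯)) hinj).mp h0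
    exact hP ((finSuccEquiv L 1).injective (h1.trans (map_zero _).symm))
  · have h1 : ψ P = 0 := by rw [e, h]
    rw [hψ] at h1
    exact h1

/-- An algebraic element over an algebraically closed field is a constant. -/
theorem FF_const {L K : Type} [Field L] [IsAlgClosed L] [Field K] [Algebra L K] (x : K)
    (h : IsAlgebraic L x) : ∃ a : L, x = algebraMap L K a := by
  have h1 := IsAlgClosed.degree_eq_one_of_irreducible L (minpoly.irreducible h.isIntegral)
  obtain ⟨a, ha⟩ := minpoly.mem_range_of_degree_eq_one L x h1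
  exact ⟨a, ha.symm⟩

/-- A divisor of `X i - a` has degree `0` in the other variable. -/
theorem FF_deg {L : Type} [Field L] (F : MvPolynomial (Fin 2) L) (i j : Fin 2) (hij : i ≠ j)
    (a : L) (h : F ∣ X i - C a) : degreeOf j F = 0 := by
  obtain ⟨G, hG⟩ := h
  have hne : (X i - C a : MvPolynomial (Fin 2) L) ≠ 0 := by
    intro h0
    have h1 := congrArg (MvPolynomial.eval (fun _ => a + 1)) h0
    rw [map_sub, eval_X, eval_C, map_zero] at h1
    have : (1 : L) = 0 := by linear_combination h1
    exact one_ne_zero this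
  have hF : F ≠ 0 := by
    rintro rfl
    rw [zero_mul] at hG
    exact hne hG
  have hG0 : G ≠ 0 := by
    rintro rfl
    rw [mul_zero] at hG
    exact hne hG
  have h1 : degreeOf j (X i - C a : MvPolynomial (Fin 2) L) = 0 := by
    have h2 := degreeOf_sub_le j (X i : MvPolynomial (Fin 2) L) (C a)
    rw [degreeOf_C, degreeOf_X, if_neg (Ne.symm hij)] at h2
    simpa using h2
  rw [hG, degreeOf_mul_eq hF hG0] at h1
  omega

/-- A polynomial of degree `0` in both variables is constant. -/
theorem FF_cst {L : Type} [Field L] (F : MvPolynomial (Fin 2) L) (h0 : degreeOf 0 F = 0)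
    (h1 : degreeOf 1 F = 0) : ∃ c : L, F = C c := by
  refine ⟨coeff 0 F, ?_⟩
  ext m
  rw [coeff_C]
  split_ifs with hm
  · rw [← hm]
  · by_contra hne
    have hmem : m ∈ F.support := mem_support_iff.mpr hne
    have a0 := degreeOf_le_iff.mp h0.le m hmem
    have a1 := degreeOf_le_iff.mp h1.le m hmem
    apply hm
    ext i
    fin_cases i
    · exact (Nat.le_zero.mp a0).symm
    · exact (Nat.le_zero.mp a1).symm

/-- `x` or `y` is transcendental. -/
theorem FF_tr (C : Curve) (L : Type) [Field L] [CharZero L] [IsAlgClosed L] :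
    Transcendental L (C.xF L) ∨ Transcendental L (C.yF L) := by
  by_contra hcon
  rw [not_or] at hcon
  obtain ⟨hx, hy⟩ := hcon
  unfold Transcendental at hx hy
  rw [not_not] at hx hy
  obtain ⟨a, ha⟩ := FF_const _ hx
  obtain ⟨b, hb⟩ := FF_const _ hy
  have e0 : polyOver L C.F ∣ X 0 - MvPolynomial.C a := by
    rw [← C.aeval_xy_eq_zero, map_sub, aeval_X, aeval_C]
    exact sub_eq_zero.mpr ha
  have e1 : polyOver L C.F ∣ X 1 - MvPolynomial.C b := by
    rw [← C.aeval_xy_eq_zero, map_sub, aeval_X, aeval_C]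
    exact sub_eq_zero.mpr hb
  have d1 := FF_deg _ 0 1 (by decide) a e0
  have d0 := FF_deg _ 1 0 (by decide) b e1
  obtain ⟨c, hc⟩ := FF_cst _ d0 d1
  have hirr := C.irr L
  rw [hc] at hirr
  by_cases hc0 : c = 0
  · rw [hc0, map_zero] at hirr
    exact hirr.ne_zero rfl
  · exact hirr.not_isUnit ((isUnit_iff_ne_zero.mpr hc0).map MvPolynomial.C)

open IntermediateField in
/-- If `K = L(w, z)` and `w` is algebraic over `L(z)` then `K` is finite over `L(z)`. -/
theorem FF_fin {L K : Type} [Field L] [Field K] [Algebra L K] (w z : K)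
    (hw : IsAlgebraic (L⟮z⟯) w)
    (hgen : ∀ (M : IntermediateField (L⟮z⟯) K), w ∈ M → ∀ f : K, f ∈ M) :
    FiniteDimensional (L⟮z⟯) K := by
  have h1 : FiniteDimensional (L⟮z⟯) ((L⟮z⟯)⟮w⟯) :=
    IntermediateField.adjoin.finiteDimensional hw.isIntegral
  have h2 : (L⟮z⟯)⟮w⟯ = ⊤ := by
    rw [eq_top_iff]
    intro f _
    exact hgen _ (mem_adjoin_simple_self _ w) f
  rw [h2] at h1
  exact Module.Finite.equiv (IntermediateField.topEquiv (F := L⟮z⟯) (E := K)).toLinearEquiv

/-- G1.  The function field of a curve is a function field. -/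
theorem p_FF : T_FF := by
  intro C L _ _ _
  have hirr := C.irr L
  have hrel : aeval ![C.xF L, C.yF L] (polyOver L C.F) = 0 :=
    (C.aeval_xy_eq_zero L _).mpr dvd_rfl
  have hmem : ∀ (z : C.FunField L) (M : IntermediateField (IntermediateField.adjoin L {z})
      (C.FunField L)), C.xF L ∈ M → C.yF L ∈ M → ∀ f, f ∈ M := by
    intro z M hx hy f
    have hP : ∀ P : MvPolynomial (Fin 2) L, aeval ![C.xF L, C.yF L] P ∈ M := by
      intro P
      induction P using MvPolynomial.induction_on with
      | C a =>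
        rw [aeval_C, IsScalarTower.algebraMap_apply L (IntermediateField.adjoin L {z})
          (C.FunField L)]
        exact M.algebraMap_mem _
      | add p q hp hq => rw [map_add]; exact M.add_mem hp hq
      | mul_X p i hp =>
        rw [map_mul, aeval_X]
        refine M.mul_mem hp ?_
        fin_cases i
        · exact hx
        · exact hy
    obtain ⟨a, b, hb, hab⟩ := C.exists_ratio L f
    have e : f = aeval ![C.xF L, C.yF L] a / aeval ![C.xF L, C.yF L] b := by
      rw [← hab, mul_div_cancel_right₀ _ hb]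
    rw [e]
    exact M.div_mem (hP a) (hP b)
  have hself : ∀ (z : C.FunField L) (M : IntermediateField (IntermediateField.adjoin L {z})
      (C.FunField L)), z ∈ M := by
    intro z M
    exact M.algebraMap_mem (IntermediateField.AdjoinSimple.gen L z)
  rcases FF_tr C L with hx | hy
  · refine ⟨C.xF L, hx, ?_⟩
    refine FF_fin (C.yF L) (C.xF L) ?_ fun M hM => hmem _ M (hself _ M) hM
    refine FF_alg (rename (Equiv.swap (0 : Fin 2) 1) (polyOver L C.F)) ?_ _ _ hx ?_
    · intro h0
      exact hirr.ne_zero (rename_injective _ (Equiv.swap (0 : Fin 2) 1).injective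
        (h0.trans (map_zero _).symm))
    · rw [aeval_rename]
      have e : (![C.yF L, C.xF L] ∘ (Equiv.swap (0 : Fin 2) 1)) = ![C.xF L, C.yF L] := by
        funext i
        fin_cases i <;> rfl
      rw [e]
      exact hrel
  · refine ⟨C.yF L, hy, ?_⟩
    refine FF_fin (C.xF L) (C.yF L) ?_ fun M hM => hmem _ M hM (hself _ M)
    exact FF_alg _ hirr.ne_zero _ _ hy hrel

end Pool.Agent.FDX
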