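import Pool.Agent.FDX.Targets

set_option autoImplicit false

/-!
# FDX: a function has finitely many zeros and poles
-/

namespace Pool.Agent.FDX

open Pool.Agent.FD Polynomial

namespace FIN_

variable {L K : Type} [Field L] [Field K] [Algebra L K] (v : Place L K)

theorem ord_one : v.ord 1 = 0 := by
  have h := v.ord_const 1
  rwa [map_one] at h

theorem ord_inv {f : K} (hf : f ≠ 0) : v.ord f⁻¹ = -v.ord f := by
  have h := v.ord_mul f f⁻¹ hf (inv_ne_zero hf)
  rw [mul_inv_cancel₀ hf, ord_one] at h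
  omega

theorem ord_neg {f : K} : v.ord (-f) = v.ord f := by
  by_cases hf : f = 0
  · rw [hf, neg_zero]
  have h1 : v.ord (-1) = 0 := by
    have h := v.ord_const (-1)
    rwa [map_neg, map_one] at h
  have h := v.ord_mul (-1) f (by norm_num) hf
  rw [h1] at h
  rw [← neg_one_mul, h]
  omega

/-- zero or of positive order -/
def Sm (f : K) : Prop := f = 0 ∨ 0 < v.ord f

variable {v}

theorem Sm.neg {f : K} (h : Sm v f) : Sm v (-f) := by
  rcases h with h | h
  · left; rw [h, neg_zero]
  · right; rw [ord_neg]; exact h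

theorem Sm.add {f g : K} (hf : Sm v f) (hg : Sm v g) : Sm v (f + g) := by
  rcases hf with hf | hf
  · rw [hf, zero_add]; exact hg
  rcases hg with hg | hg
  · rw [hg, add_zero]; exact Or.inr hf
  by_cases h : f + g = 0
  · exact Or.inl h
  have hf0 : f ≠ 0 := by
    rintro rfl
    rw [v.ord_zero] at hf
    omega
  have hg0 : g ≠ 0 := by
    rintro rfl
    rw [v.ord_zero] at hg
    omega
  exact Or.inr (lt_of_lt_of_le (lt_min hf hg) (v.ord_add f g hf0 hg0 h))

theorem sum_Sm {ι : Type} (s : Finset ι) (a : ι → K) (h : ∀ i ∈ s, Sm v (a i)) :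
    Sm v (∑ i ∈ s, a i) := by
  classical
  induction s using Finset.induction_on with
  | empty => left; simp
  | insert i s hi ih =>
    rw [Finset.sum_insert hi]
    exact (h i (Finset.mem_insert_self _ _)).add
      (ih fun j hj => h j (Finset.mem_insert_of_mem hj))

theorem nn_add {f g : K} (hf : 0 ≤ v.ord f) (hg : 0 ≤ v.ord g) : 0 ≤ v.ord (f + g) := by
  by_cases h : f + g = 0
  · rw [h, v.ord_zero]
  by_cases hf0 : f = 0
  · rw [hf0, zero_add]; exact hg
  by_cases hg0 : g = 0
  · rw [hg0, add_zero]; exact hf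
  exact (le_min hf hg).trans (v.ord_add f g hf0 hg0 h)

theorem nn_mul {f g : K} (hf : 0 ≤ v.ord f) (hg : 0 ≤ v.ord g) : 0 ≤ v.ord (f * g) := by
  by_cases hf0 : f = 0
  · rw [hf0, zero_mul, v.ord_zero]
  by_cases hg0 : g = 0
  · rw [hg0, mul_zero, v.ord_zero]
  rw [v.ord_mul f g hf0 hg0]
  omega

theorem Sm.mul {f g : K} (hf : Sm v f) (hg : 0 ≤ v.ord g) : Sm v (g * f) := by
  rcases hf with hf | hf
  · left; rw [hf, mul_zero]
  by_cases hg0 : g = 0
  · left; rw [hg0, zero_mul]
  have hf0 : f ≠ 0 := by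
    rintro rfl
    rw [v.ord_zero] at hf
    omega
  right
  rw [v.ord_mul g f hg0 hf0]
  omega

theorem nn_aeval {z : K} (hz : 0 ≤ v.ord z) (q : L[X]) : 0 ≤ v.ord (aeval z q) := by
  induction q using Polynomial.induction_on' with
  | add p q hp hq => rw [map_add]; exact nn_add hp hq
  | monomial n a =>
    rw [aeval_monomial]
    refine nn_mul (v.ord_const a).ge ?_
    induction n with
    | zero => rw [pow_zero, ord_one]
    | succ n ih => rw [pow_succ]; exact nn_mul ih hz

theorem ord_add_of_Sm {c g : K} (hc : c ≠ 0) (hc0 : v.ord c = 0) (hg : Sm v g) :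
    c + g ≠ 0 ∧ v.ord (c + g) = 0 := by
  have key : ¬ Sm v (c + g) := by
    intro h
    have h2 := h.add hg.neg
    rw [add_neg_cancel_right] at h2
    rcases h2 with h2 | h2
    · exact hc h2
    · omega
  have h0 : c + g ≠ 0 := fun h => key (Or.inl h)
  refine ⟨h0, ?_⟩
  have h1 : ¬ 0 < v.ord (c + g) := fun h => key (Or.inr h)
  have h2 : 0 ≤ v.ord (c + g) := by
    refine nn_add hc0.ge ?_
    rcases hg with hg | hg
    · rw [hg, v.ord_zero]
    · omega
  omega

theorem ord_aeval {z : K} (hz : 0 < v.ord z) {q : L[X]} (hq : q.coeff 0 ≠ 0) :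
    aeval z q ≠ 0 ∧ v.ord (aeval z q) = 0 := by
  have e : aeval z q = algebraMap L K (q.coeff 0) + aeval z (divX q) * z := by
    conv_lhs => rw [← divX_mul_X_add q]
    rw [map_add, map_mul, aeval_X, aeval_C, add_comm]
  rw [e]
  refine ord_add_of_Sm ?_ (v.ord_const _) ?_
  · exact (_root_.map_ne_zero _).2 hq
  · exact Sm.mul (Or.inr hz) (nn_aeval hz.le _)

/-- claim 1: all constant terms vanish -/
theorem claim0 {z : K} (S : Finset (Place L K)) (hS : ∀ v ∈ S, 0 < v.ord z)
    (g : Place L K → K) (hg0 : ∀ v ∈ S, g v ≠ 0) (hg : ∀ v ∈ S, v.ord (g v) = 0)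
    (hg1 : ∀ v ∈ S, ∀ w ∈ S, w ≠ v → v.ord (g w) = 1) (p : Place L K → L[X])
    (hsum : ∑ v ∈ S, aeval z (p v) * g v = 0) : ∀ v ∈ S, (p v).coeff 0 = 0 := by
  classical
  intro v hv
  by_contra hne
  have h1 := ord_aeval (hS v hv) hne
  have h2 : Sm v (∑ w ∈ S.erase v, aeval z (p w) * g w) := by
    refine sum_Sm _ _ fun w hw => ?_
    rw [Finset.mem_erase] at hw
    refine Sm.mul (Or.inr ?_) (nn_aeval (hS v hv).le _)
    rw [hg1 v hv w hw.2 hw.1]
    norm_num
  rw [← Finset.add_sum_erase S _ hv] at hsum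
  have h3 : v.ord (aeval z (p v) * g v) = 0 := by
    rw [v.ord_mul _ _ h1.1 (hg0 v hv), h1.2, hg v hv]
    rfl
  exact (ord_add_of_Sm (mul_ne_zero h1.1 (hg0 v hv)) h3 h2).1 hsum

theorem claim {z : K} (hz : z ≠ 0) (S : Finset (Place L K)) (hS : ∀ v ∈ S, 0 < v.ord z)
    (g : Place L K → K) (hg0 : ∀ v ∈ S, g v ≠ 0) (hg : ∀ v ∈ S, v.ord (g v) = 0)
    (hg1 : ∀ v ∈ S, ∀ w ∈ S, w ≠ v → v.ord (g w) = 1) (n : ℕ) : ∀ (p : Place L K → L[X]),
    ∑ v ∈ S, aeval z (p v) * g v = 0 → ∀ v ∈ S, (p v).coeff n = 0 := by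
  induction n with
  | zero => exact claim0 S hS g hg0 hg hg1
  | succ n ih =>
    intro p hp v hv
    have h0 := claim0 S hS g hg0 hg hg1 p hp
    have h1 : ∑ v ∈ S, aeval z (divX (p v)) * g v = 0 := by
      have h2 : (∑ v ∈ S, aeval z (divX (p v)) * g v) * z = 0 := by
        rw [← hp, Finset.sum_mul]
        refine Finset.sum_congr rfl fun w hw => ?_
        conv_rhs => rw [← divX_mul_X_add (p w), h0 w hw]
        rw [map_zero, add_zero, map_mul, aeval_X]
        ring
      exact (mul_eq_zero.1 h2).resolve_right hz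
    have h3 := ih (fun v => divX (p v)) h1 v hv
    rwa [coeff_divX] at h3

/-- the functions `g v` are linearly independent over `L(z)` -/
theorem indep {z : K} (hz : Transcendental L z) (S : Finset (Place L K))
    (hS : ∀ v ∈ S, 0 < v.ord z)
    (g : Place L K → K) (hg0 : ∀ v ∈ S, g v ≠ 0) (hg : ∀ v ∈ S, v.ord (g v) = 0)
    (hg1 : ∀ v ∈ S, ∀ w ∈ S, w ≠ v → v.ord (g w) = 1) :
    LinearIndependent (IntermediateField.adjoin L {z}) (fun v : S => g v) := by
  classical
  have hz0 : z ≠ 0 := by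
    rintro rfl
    exact hz (isAlgebraic_zero)
  rw [Fintype.linearIndependent_iff]
  intro a ha
  have hrep : ∀ v : Place L K, ∃ r s : L[X], s ≠ 0 ∧
      (if h : v ∈ S then ((a ⟨v, h⟩ : IntermediateField.adjoin L {z}) : K) else 0) =
        aeval z r / aeval z s := by
    intro v
    by_cases h : v ∈ S
    · rw [dif_pos h]
      obtain ⟨r, s, e⟩ := (IntermediateField.mem_adjoin_simple_iff L _).1 (a ⟨v, h⟩).2
      by_cases hs : s = 0
      · refine ⟨0, 1, one_ne_zero, ?_⟩
        rw [e, hs]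
        simp
      · exact ⟨r, s, hs, e⟩
    · rw [dif_neg h]
      exact ⟨0, 1, one_ne_zero, by simp⟩
  choose r s hs0 hrs using hrep
  have hsz : ∀ v, aeval z (s v) ≠ 0 := fun v h => hz ⟨s v, hs0 v, h⟩
  have hsum : ∑ v ∈ S, aeval z (r v * ∏ w ∈ S.erase v, s w) * g v = 0 := by
    have h1 : ∑ v ∈ S, (aeval z (r v) / aeval z (s v)) * g v = 0 := by
      rw [← ha, ← Finset.sum_coe_sort S]
      refine Finset.sum_congr rfl fun v _ => ?_
      rw [← hrs, dif_pos v.2, IntermediateField.smul_def]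
      rfl
    have h2 : (∏ w ∈ S, aeval z (s w)) * ∑ v ∈ S, (aeval z (r v) / aeval z (s v)) * g v = 0 := by
      rw [h1, mul_zero]
    rw [← h2, Finset.mul_sum]
    refine Finset.sum_congr rfl fun v hv => ?_
    rw [map_mul, map_prod, ← Finset.mul_prod_erase S _ hv]
    field_simp [hsz v]
  intro i
  have h3 : r i * ∏ w ∈ S.erase (i : Place L K), s w = 0 := by
    ext n
    rw [coeff_zero]
    exact claim hz0 S hS g hg0 hg hg1 n (fun v => r v * ∏ w ∈ S.erase v, s w) hsum i i.2
  have h4 : r i = 0 := by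
    rcases mul_eq_zero.1 h3 with h | h
    · exact h
    · exact absurd h (Finset.prod_ne_zero_iff.2 fun w _ => hs0 w)
  have h5 := hrs i
  rw [dif_pos i.2, h4, map_zero, zero_div] at h5
  exact Subtype.ext h5

theorem zeros_finite (h_ALG : T_ALG) (h_APX : T_APX) (hFF : FF L K) {z : K}
    (hz : Transcendental L z) : {v : Place L K | 0 < v.ord z}.Finite := by
  classical
  by_contra hinf
  have hfd : FiniteDimensional (IntermediateField.adjoin L {z}) K := h_ALG L K hFF z hz
  obtain ⟨S, hS, hcard⟩ := Set.Infinite.exists_subset_card_eq hinf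
    (Module.finrank (IntermediateField.adjoin L {z}) K + 1)
  have hg := fun v : Place L K => h_APX L K S (fun w => if w = v then 0 else 1)
  choose g hg0 hg1 using hg
  have hli := indep hz S (fun v hv => hS hv) g (fun v _ => hg0 v)
    (fun v hv => by rw [hg1 v v hv, if_pos rfl])
    (fun v hv w hw hwv => by rw [hg1 w v hv, if_neg (Ne.symm hwv)])
  have h1 := hli.fintype_card_le_finrank
  rw [Fintype.card_coe, hcard] at h1
  omega

end FIN_

open FIN_ in
theorem p_FIN (h_ALG : T_ALG) (h_APX : T_APX) : T_FIN := by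
  intro L K _ _ _ _ hFF f hf
  by_cases halg : IsAlgebraic L f
  · have h1 : (minpoly L f).degree = 1 :=
      IsAlgClosed.degree_eq_one_of_irreducible L (minpoly.irreducible halg.isIntegral)
    obtain ⟨c, hc⟩ := minpoly.mem_range_of_degree_eq_one L f h1
    have h2 : {v : Place L K | v.ord f ≠ 0} = ∅ := by
      ext v
      rw [← hc]
      simp [v.ord_const]
    rw [h2]
    exact Set.finite_empty
  · have hinv : Transcendental L f⁻¹ := by
      intro h
      exact halg (by simpa using h.inv)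
    refine ((zeros_finite h_ALG h_APX hFF (z := f) halg).union
      (zeros_finite h_ALG h_APX hFF hinv)).subset ?_
    intro v hv
    have hv' : v.ord f ≠ 0 := hv
    rcases lt_or_gt_of_ne hv' with h | h
    · right
      show 0 < v.ord f⁻¹
      rw [ord_inv v hf]
      omega
    · left
      exact h

end Pool.Agent.FDX
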