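import Pool.Agent.FDX.Targets
import Pool.Agent.FD.CritB

set_option autoImplicit false

/-!
# FOD: a divisor over the algebraic closure of the rationals is defined over a number field
-/

open MvPolynomial

namespace Pool.Agent.FDX

open Pool.Agent.FD

namespace FOD_

theorem isInt (x : Curve.Qbar) : IsIntegral ℚ x := by
  have h := AlgebraicClosure.isAlgebraic ℚ
  have e : (AlgebraicClosure.instAlgebra ℚ : Algebra ℚ (AlgebraicClosure ℚ)) =
      DivisionRing.toRatAlgebra := Subsingleton.elim _ _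
  rw [e] at h
  exact (h.isAlgebraic x).isIntegral

/-- Finitely many algebraic numbers lie in a number field. -/
theorem exists_field (s : Finset Curve.Qbar) : ∃ E : IntermediateField ℚ Curve.Qbar,
    FiniteDimensional ℚ E ∧ ∀ z ∈ s, z ∈ E := by
  refine ⟨IntermediateField.adjoin ℚ (s : Set Curve.Qbar), ?_, fun z hz =>
    IntermediateField.subset_adjoin _ _ hz⟩
  exact IntermediateField.finiteDimensional_adjoin fun x _ => isInt x

/-- A rational function is fixed by all automorphisms which fix finitely many numbers. -/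
theorem fun_field (C : Curve) (f : C.FunField Curve.Qbar) : ∃ s : Finset Curve.Qbar,
    ∀ ρ : Curve.Qbar ≃ₐ[ℚ] Curve.Qbar, (∀ z ∈ s, ρ z = z) →
      C.mapFun (ρ : Curve.Qbar →+* Curve.Qbar) f = f := by
  classical
  obtain ⟨a, b, hb, hab⟩ := C.exists_ratio Curve.Qbar f
  refine ⟨a.support.image (fun m => coeff m a) ∪ b.support.image (fun m => coeff m b),
    fun ρ hρ => ?_⟩
  have hmap : ∀ p : MvPolynomial (Fin 2) Curve.Qbar,
      (∀ m ∈ p.support, ρ (coeff m p) = coeff m p) →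
      MvPolynomial.map (ρ : Curve.Qbar →+* Curve.Qbar) p = p := by
    intro p hp
    ext m
    rw [coeff_map]
    by_cases hm : m ∈ p.support
    · exact hp m hm
    · rw [notMem_support_iff.mp hm, map_zero]
  have ha : MvPolynomial.map (ρ : Curve.Qbar →+* Curve.Qbar) a = a :=
    hmap a fun m hm => hρ _ (Finset.mem_union_left _ (Finset.mem_image_of_mem _ hm))
  have hb' : MvPolynomial.map (ρ : Curve.Qbar →+* Curve.Qbar) b = b :=
    hmap b fun m hm => hρ _ (Finset.mem_union_right _ (Finset.mem_image_of_mem _ hm))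
  have h1 := congrArg (C.mapFun (ρ : Curve.Qbar →+* Curve.Qbar)) hab
  rw [map_mul, C.mapFun_aeval, C.mapFun_aeval, ha, hb', ← hab] at h1
  exact mul_right_cancel₀ hb h1

/-- A place is fixed by all automorphisms which fix finitely many numbers. -/
theorem place_field (hFF : T_FF) (hAPX : T_APX) (hFIN : T_FIN) (C : Curve)
    (P : C.Pt Curve.Qbar) : ∃ s : Finset Curve.Qbar,
    ∀ ρ : Curve.Qbar ≃ₐ[ℚ] Curve.Qbar, (∀ z ∈ s, ρ z = z) →
      ∀ f, P.ord (C.mapFun (ρ : Curve.Qbar →+* Curve.Qbar) f) = P.ord f := by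
  classical
  obtain ⟨z, hz⟩ := P.exists_ord_one
  have hz0 : z ≠ 0 := by
    rintro rfl
    rw [P.ord_zero] at hz
    exact zero_ne_one hz
  have hfin := hFIN Curve.Qbar (C.FunField Curve.Qbar) (hFF C Curve.Qbar) z hz0
  obtain ⟨ψ, hψ0, hψ⟩ := hAPX Curve.Qbar (C.FunField Curve.Qbar) hfin.toFinset
    (fun v => if v = P then 1 else 0)
  obtain ⟨s, hs⟩ := fun_field C z
  obtain ⟨t, ht⟩ := fun_field C ψ
  refine ⟨s ∪ t, fun ρ hρ => ?_⟩
  have h1 := hs ρ fun x hx => hρ x (Finset.mem_union_left _ hx)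
  have h2 := ht ρ fun x hx => hρ x (Finset.mem_union_right _ hx)
  have hex : ∃ f : C.FunField Curve.Qbar,
      P.ord (C.mapFun (ρ : Curve.Qbar →+* Curve.Qbar) f) = 1 := ⟨z, by rw [h1, hz]⟩
  have hv : ∀ f, (C.restrict (ρ : Curve.Qbar →+* Curve.Qbar) P hex).ord f =
      P.ord (C.mapFun (ρ : Curve.Qbar →+* Curve.Qbar) f) := fun f => rfl
  have hmem : ∀ v : C.Pt Curve.Qbar, v.ord z = 1 → v ∈ hfin.toFinset := by
    intro v hv
    rw [Set.Finite.mem_toFinset, Set.mem_ofPred_eq, hv]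
    exact one_ne_zero
  have h3 : P.ord ψ = 1 := by
    rw [hψ P (hmem P hz), if_pos rfl]
  have h4 := hψ (C.restrict (ρ : Curve.Qbar →+* Curve.Qbar) P hex)
    (hmem _ (by rw [hv, h1, hz]))
  rw [hv, h2, h3] at h4
  have h5 : C.restrict (ρ : Curve.Qbar →+* Curve.Qbar) P hex = P := by
    by_contra hne
    rw [if_neg hne] at h4
    exact one_ne_zero h4
  intro f
  rw [← hv, h5]

end FOD_

open FOD_ in
theorem p_FOD (hFF : T_FF) (hAPX : T_APX) (hFIN : T_FIN) : T_FOD := by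
  classical
  intro C A hA
  choose s hs using place_field hFF hAPX hFIN C
  obtain ⟨E, hE, hsE⟩ := exists_field (hA.toFinset.biUnion s)
  refine ⟨E, hE, fun σ τ hστ => ?_⟩
  have hfix : ∀ P : C.Pt Curve.Qbar, A P ≠ 0 → ∀ ρ : Curve.Qbar ≃ₐ[ℚ] Curve.Qbar,
      (∀ z ∈ E, ρ z = z) →
      ∀ f, P.ord (C.mapFun (ρ : Curve.Qbar →+* Curve.Qbar) f) = P.ord f := by
    intro P hP ρ hρ
    refine hs P ρ fun z hz => hρ z (hsE z ?_)
    exact Finset.mem_biUnion.mpr ⟨P, by simpa using hP, hz⟩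
  have hρ : ∀ z ∈ E, (τ.trans σ.symm) z = z := by
    intro z hz
    rw [AlgEquiv.trans_apply, ← hστ z hz, AlgEquiv.symm_apply_apply]
  have hρ' : ∀ z ∈ E, (σ.trans τ.symm) z = z := by
    intro z hz
    rw [AlgEquiv.trans_apply, hστ z hz, AlgEquiv.symm_apply_apply]
  have hc : ∀ f, C.mapFun (σ : Curve.Qbar →+* Curve.Qbar)
      (C.mapFun ((τ.trans σ.symm : Curve.Qbar ≃ₐ[ℚ] Curve.Qbar) : Curve.Qbar →+* Curve.Qbar) f) =
      C.mapFun (τ : Curve.Qbar →+* Curve.Qbar) f := by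
    intro f
    rw [CritB.mapFun_comp]
    have e : (σ : Curve.Qbar →+* Curve.Qbar).comp
        ((τ.trans σ.symm : Curve.Qbar ≃ₐ[ℚ] Curve.Qbar) : Curve.Qbar →+* Curve.Qbar) =
        (τ : Curve.Qbar →+* Curve.Qbar) := by
      apply RingHom.ext
      intro z
      simp
    rw [e]
  have hc' : ∀ f, C.mapFun (τ : Curve.Qbar →+* Curve.Qbar)
      (C.mapFun ((σ.trans τ.symm : Curve.Qbar ≃ₐ[ℚ] Curve.Qbar) : Curve.Qbar →+* Curve.Qbar) f) =
      C.mapFun (σ : Curve.Qbar →+* Curve.Qbar) f := by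
    intro f
    rw [CritB.mapFun_comp]
    have e : (τ : Curve.Qbar →+* Curve.Qbar).comp
        ((σ.trans τ.symm : Curve.Qbar ≃ₐ[ℚ] Curve.Qbar) : Curve.Qbar →+* Curve.Qbar) =
        (σ : Curve.Qbar →+* Curve.Qbar) := by
      apply RingHom.ext
      intro z
      simp
    rw [e]
  funext w
  have hex : ∀ σ : Curve.Qbar ≃ₐ[ℚ] Curve.Qbar, ∃ f : C.FunField Curve.Qbar,
      w.ord (C.mapFun (σ : Curve.Qbar →+* Curve.Qbar) f) = 1 := by
    intro σ
    obtain ⟨g, hg⟩ := w.exists_ord_one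
    refine ⟨C.mapFun (σ.symm : Curve.Qbar →+* Curve.Qbar) g, ?_⟩
    have e : (σ : Curve.Qbar →+* Curve.Qbar).comp (σ.symm : Curve.Qbar →+* Curve.Qbar) =
        RingHom.id Curve.Qbar := by
      ext z
      simp
    rw [CritB.mapFun_comp, e, CritB.mapFun_id, hg]
  unfold Curve.push
  rw [dif_pos (hex σ), dif_pos (hex τ)]
  by_cases h1 : A (C.restrict (σ : Curve.Qbar →+* Curve.Qbar) w (hex σ)) = 0
  · by_cases h2 : A (C.restrict (τ : Curve.Qbar →+* Curve.Qbar) w (hex τ)) = 0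
    · rw [h1, h2]
    · congr 1
      apply Place.ext
      funext f
      have := hfix _ h2 _ hρ' f
      change w.ord (C.mapFun (σ : Curve.Qbar →+* Curve.Qbar) f) =
        w.ord (C.mapFun (τ : Curve.Qbar →+* Curve.Qbar) f)
      rw [← hc']
      exact this
  · congr 1
    apply Place.ext
    funext f
    have := hfix _ h1 _ hρ f
    change w.ord (C.mapFun (σ : Curve.Qbar →+* Curve.Qbar) f) =
      w.ord (C.mapFun (τ : Curve.Qbar →+* Curve.Qbar) f)
    rw [← hc]
    exact this.symm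

end Pool.Agent.FDX
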