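import Pool.Agent.FDX.Targets

/-!
# FDX: GC4, the global class (MP_d37f77_nt)
-/

set_option autoImplicit false

open MvPolynomial

namespace Pool.Agent.FDX

open Pool.Agent.FD

namespace GC_

/-- an element of the algebraic closure which is fixed by all automorphisms is in the field -/
theorem gen (k : Type) [Field k] [CharZero k] (θ : AlgebraicClosure k)
    (h : ∀ σ : AlgebraicClosure k ≃ₐ[k] AlgebraicClosure k, σ θ = θ) :
    ∃ r : k, algebraMap k (AlgebraicClosure k) r = θ := by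
  have hG : IsGalois k (AlgebraicClosure k) := IsAlgClosure.isGalois k (AlgebraicClosure k)
  have h2 : θ ∈ (⊥ : IntermediateField k (AlgebraicClosure k)) :=
    (InfiniteGalois.mem_bot_iff_fixed θ).2 h
  exact IntermediateField.mem_bot.1 h2

/-- an algebraic number which is fixed by all automorphisms is rational -/
theorem rat_of_fixed (z : Curve.Qbar) (h : ∀ σ : Curve.Qbar ≃ₐ[ℚ] Curve.Qbar, σ z = z) :
    ∃ δ : ℚ, algebraMap ℚ Curve.Qbar δ = z := by
  obtain ⟨r, hr⟩ := gen ℚ z (fun σ' => by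
    have h1 := h (AlgEquiv.ofRingEquiv (f := σ'.toRingEquiv) (fun r => by
      rw [eq_ratCast]
      exact map_ratCast (σ'.toRingEquiv : Curve.Qbar →+* Curve.Qbar) r))
    exact h1)
  refine ⟨r, ?_⟩
  rw [← hr, eq_ratCast, eq_ratCast]

end GC_

theorem p_GC (h_CHO : T_CHO) (h_COC : T_COC) (h_H90 : T_H90) (h_LOCX : T_LOCX) : T_GC := by
  intro C n N X h u hh hu hIh hIu hN hNn hdiv
  obtain ⟨c⟩ := h_CHO C n X h u hh hu hIh hIu
  obtain ⟨m, hm⟩ := hNn
  choose B hB using hdiv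
  have hB' : ∀ v, (N : ℤ) * B v = v.ord h := fun v => (hB v).symm
  obtain ⟨hb0, hbN, hbc, hbE⟩ := h_COC C n N m X h u B c hh hIh hN hm hB'
  obtain ⟨w, hw0, hw⟩ := h_H90 (bb c m B) hb0 hbc hbE
  obtain ⟨z, hz⟩ : ∃ z, z = ev h c.D := ⟨_, rfl⟩
  have hz0 : z ≠ 0 := by
    intro h0
    have h1 := hbN 1
    rw [← hz, h0, div_zero] at h1
    exact hb0 1 (pow_eq_zero_iff (by omega) |>.mp h1)
  have hfix : ∀ σ : Curve.Qbar ≃ₐ[ℚ] Curve.Qbar, σ (z / w ^ N) = z / w ^ N := by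
    intro σ
    have h1 := hbN σ
    rw [← hz, hw σ] at h1
    have hσw : σ w ≠ 0 := fun h0 => hw0 (by simpa using h0)
    rw [map_div₀, map_pow]
    rw [div_pow, div_eq_div_iff (pow_ne_zero _ hw0) hz0] at h1
    rw [div_eq_div_iff (pow_ne_zero _ hσw) (pow_ne_zero _ hw0)]
    rw [← h1, mul_comm]
  obtain ⟨δ, hδ⟩ := GC_.rat_of_fixed _ hfix
  have hzδ : ev h c.D = algebraMap ℚ Curve.Qbar δ * w ^ N := by
    rw [← hz, hδ, div_mul_cancel₀ _ (pow_ne_zero _ hw0)]
  refine ⟨δ, ?_, ?_⟩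
  · intro h0
    rw [h0, map_zero, zero_mul, ← hz] at hzδ
    exact hz0 hzδ
  · intro K _ _ j P a hP ha hPr hT k hk
    exact h_LOCX C n N m X h u B c w δ hh hu hIh hIu hN hm hB' hw0 hw hzδ K j P a hP ha hPr hT k hk

end Pool.Agent.FDX
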