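import Pool.Agent.FDX.Targets2
import Pool.Agent.FD.SelM

/-!
# FDX, target HDIV: the function `h_(i,b)`
-/

namespace Pool.Agent.FDX

open Pool.Agent.FD

namespace HDIV_

theorem factor_dvd {m : ℕ} (P : Fin m → ℕ) (k : Option (Fin m)) :
    (Polynomial.X ^ 2 - Polynomial.C (dd P k)) ∣ f0 P :=
  Finset.dvd_prod_of_mem _ (Finset.mem_univ k)

/-- a square root of `d` is a root of `f_i` -/
theorem root_of {ι : Type} [Fintype ι] [DecidableEq ι] (A : Arr ι) {L : Type} [Field L]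
    {i : ι} {d : ℤ} (hd : (Polynomial.X ^ 2 - Polynomial.C d) ∣ A.f i) {θ : L}
    (hθ : θ ^ 2 = (d : L)) : Polynomial.aeval θ (A.f i) = 0 := by
  obtain ⟨r, hr⟩ := hd
  rw [hr, map_mul, map_sub, map_pow, Polynomial.aeval_X, Polynomial.aeval_C, hθ]
  have h1 : (algebraMap ℤ L) d = (d : L) := rfl
  rw [h1, sub_self, zero_mul]

variable {ι : Type} [Fintype ι] [DecidableEq ι] (A : Arr ι) (C : Curve)
  (L : Type) [Field L] [CharZero L] [IsAlgClosed L]

/-- the factorisation of `g_i² - d` -/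
theorem factor_eq (i : ι) {d : ℤ} {θ : L} (hθ : θ ^ 2 = (d : L)) :
    (A.g i (C.xF L) (C.yF L)) ^ 2 - (d : C.FunField L) =
      (A.g i (C.xF L) (C.yF L) - algebraMap L (C.FunField L) θ) *
        (A.g i (C.xF L) (C.yF L) - algebraMap L (C.FunField L) (-θ)) := by
  have h1 : (d : C.FunField L) = algebraMap L (C.FunField L) θ ^ 2 := by
    rw [← map_pow, hθ, map_intCast]
  rw [h1, map_neg]
  ring

theorem factor_ne (hC : C.F = A.F) (i : ι) {d : ℤ}
    (hd : (Polynomial.X ^ 2 - Polynomial.C d) ∣ A.f i) :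
    (A.g i (C.xF L) (C.yF L)) ^ 2 - (d : C.FunField L) ≠ 0 := by
  obtain ⟨θ, hθ⟩ := IsAlgClosed.exists_pow_nat_eq (d : L) (n := 2) (by norm_num)
  rw [factor_eq A C L i hθ]
  have hθ' : (-θ) ^ 2 = (d : L) := by rw [neg_sq, hθ]
  exact mul_ne_zero (SelM.g_sub_ne (A.eqn_of_F hC L) i (root_of A hd hθ))
    (SelM.g_sub_ne (A.eqn_of_F hC L) i (root_of A hd hθ'))

/-- the order of `g_i² - d` -/
theorem factor_ord (hP : FD.T_PRIN) (hC : C.F = A.F) (i : ι) {d : ℤ}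
    (hd : (Polynomial.X ^ 2 - Polynomial.C d) ∣ A.f i) (v : C.Pt L) :
    ∃ T : ℤ, v.ord ((A.g i (C.xF L) (C.yF L)) ^ 2 - (d : C.FunField L)) =
      (A.N i : ℤ) * T -
        2 * ∑ j ∈ Finset.univ.erase i, (A.w i j : ℤ) * Tdiv A C L j (A.f j) v := by
  obtain ⟨θ, hθ⟩ := IsAlgClosed.exists_pow_nat_eq (d : L) (n := 2) (by norm_num)
  have hθ' : (-θ) ^ 2 = (d : L) := by rw [neg_sq, hθ]
  refine ⟨Tpt A C L i θ v + Tpt A C L i (-θ) v, ?_⟩
  rw [factor_eq A C L i hθ, v.ord_mul _ _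
    (SelM.g_sub_ne (A.eqn_of_F hC L) i (root_of A hd hθ))
    (SelM.g_sub_ne (A.eqn_of_F hC L) i (root_of A hd hθ')),
    hP ι A C hC L i θ (root_of A hd hθ) v, hP ι A C hC L i (-θ) (root_of A hd hθ') v]
  ring

theorem xF_ne (hT : FD.T_TPL) (hC : C.F = A.F) (i : ι) {d : ℤ}
    (hd : (Polynomial.X ^ 2 - Polynomial.C d) ∣ A.f i) : C.xF L ≠ 0 := by
  obtain ⟨θ, hθ⟩ := IsAlgClosed.exists_pow_nat_eq (d : L) (n := 2) (by norm_num)
  obtain ⟨v, hv, -⟩ := hT ι A C hC L i θ (root_of A hd hθ)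
  intro h0
  rw [h0, v.ord_zero] at hv
  exact absurd hv (by norm_num)

end HDIV_

open HDIV_ in
/-- A1. -/
theorem p_HDIV (hP : FD.T_PRIN) (hT : FD.T_TPL) : T_HDIV := by
  intro ι _ _ A C hC m P hG i hi b
  have hb : (Polynomial.X ^ 2 - Polynomial.C (dd P (some b))) ∣ A.f i :=
    (factor_dvd P (some b)).trans hi
  have hn : (Polynomial.X ^ 2 - Polynomial.C (dd P none)) ∣ A.f i :=
    (factor_dvd P none).trans hi
  refine ⟨?_, ?_⟩
  · intro L _ _ _
    refine ⟨div_ne_zero (factor_ne A C L hC i hb) (factor_ne A C L hC i hn),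
      xF_ne A C L hT hC i hb, ?_⟩
    intro v
    obtain ⟨T, hT1⟩ := factor_ord A C L hP hC i hb v
    obtain ⟨T', hT2⟩ := factor_ord A C L hP hC i hn v
    refine ⟨T - T', ?_⟩
    have h1 : v.ord (hf A C P i b L) =
        v.ord ((A.g i (C.xF L) (C.yF L)) ^ 2 - ((dd P (some b) : ℤ) : C.FunField L)) -
        v.ord ((A.g i (C.xF L) (C.yF L)) ^ 2 - ((dd P none : ℤ) : C.FunField L)) := by
      unfold hf
      rw [div_eq_mul_inv, v.ord_mul _ _ (factor_ne A C L hC i hb)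
        (inv_ne_zero (factor_ne A C L hC i hn))]
      have h2 : v.ord ((A.g i (C.xF L) (C.yF L)) ^ 2 - ((dd P none : ℤ) : C.FunField L))⁻¹ =
          - v.ord ((A.g i (C.xF L) (C.yF L)) ^ 2 - ((dd P none : ℤ) : C.FunField L)) :=
        v.toDV.ord_inv _
      rw [h2]
      ring
    rw [h1, hT1, hT2]
    ring
  · intro L L' _ _ _ _ _ _ j
    unfold hf
    rw [map_div₀, map_sub, map_sub, map_pow, map_intCast, map_intCast, Res_.map_g,
      C.mapFun_xF, C.mapFun_yF]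

end Pool.Agent.FDX
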