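import Pool.Agent.FDX.Targets

/-!
# FDX: the key lemma (target `T_KEY`)
-/

namespace Pool.Agent.FDX

open Pool.Agent.FD

namespace KEY_

variable {L K : Type} [Field L] [Field K] [Algebra L K] (v : Place L K)

theorem ord_one : v.ord 1 = 0 := by
  rw [← map_one (algebraMap L K)]
  exact v.ord_const 1

theorem ord_pow {f : K} (hf : f ≠ 0) (n : ℕ) : v.ord (f ^ n) = n * v.ord f := by
  induction n with
  | zero => rw [pow_zero, ord_one]; simp
  | succ n ih =>
    rw [pow_succ, v.ord_mul _ _ (pow_ne_zero n hf) hf, ih]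
    push_cast
    ring

theorem ord_inv {f : K} (hf : f ≠ 0) : v.ord f⁻¹ = -v.ord f := by
  have h := v.ord_mul f f⁻¹ hf (inv_ne_zero hf)
  rw [mul_inv_cancel₀ hf, ord_one] at h
  omega

end KEY_

theorem p_KEY (h_WEIL : T_WEIL) (h_PR : T_PR) (h_EV : T_EV) (h_FIN : T_FIN) : T_KEY := by
  intro L K _ _ _ _ _ hFF h N m B hh hN hB A φ ψ hφ hψ hA hoff hoffφ hrel
  obtain ⟨_, _, _, hne, _, hsmul, hmul, hpow, hconst⟩ := h_EV L K hFF
  have hN0 : (N : ℤ) ≠ 0 := by exact_mod_cast (Nat.pos_of_ne_zero (by omega)).ne'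
  have hBsupp : Function.support B = {v : Place L K | v.ord h ≠ 0} := by
    ext v
    simp only [Function.mem_support, Set.mem_ofPred_eq, ← hB v]
    constructor
    · intro hv
      exact mul_ne_zero hN0 hv
    · intro hv hv0
      exact hv (by rw [hv0, mul_zero])
  have hBfin : (Function.support B).Finite := by
    rw [hBsupp]
    exact h_FIN L K hFF h hh
  -- `ψ` is off `h`
  have hψh : ∀ v : Place L K, v.ord h ≠ 0 → v.ord ψ = 0 := by
    intro v hv
    by_contra hv'
    rw [← hA v] at hv'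
    exact hv (hoff v hv')
  have hBψ : Off B ψ := by
    intro v hv
    refine hψh v ?_
    rw [← hB v]
    exact mul_ne_zero hN0 hv
  -- `φ` is a constant times a power of `ψ`
  have hprod : φ * ψ ^ (N * m) ≠ 0 := mul_ne_zero hφ (pow_ne_zero _ hψ)
  obtain ⟨c, hc, hceq⟩ := (h_PR L K hFF _ hprod).2 (by
    intro v
    rw [v.ord_mul _ _ hφ (pow_ne_zero _ hψ), KEY_.ord_pow v hψ, ← hA v]
    have := hrel v
    push_cast
    linarith)
  have hφeq : φ = algebraMap L K c * ψ ^ (-((N * m : ℕ) : ℤ)) := by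
    rw [← hceq, zpow_neg, zpow_natCast, mul_assoc, mul_inv_cancel₀ (pow_ne_zero _ hψ), mul_one]
  have hdeg : ∑ᶠ v, B v = 0 := by
    have h1 := (h_PR L K hFF h hh).1
    have h2 : ∑ᶠ v : Place L K, v.ord h = (N : ℤ) * ∑ᶠ v, B v := by
      rw [mul_finsum]
      exact finsum_congr fun v => (hB v).symm
    rw [h2] at h1
    exact (mul_eq_zero.1 h1).resolve_left hN0
  have hcalg : algebraMap L K c ≠ 0 := (map_ne_zero _).2 hc
  have hev1 : ev φ B = ev ψ B ^ (-((N * m : ℕ) : ℤ)) := by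
    rw [hφeq, hmul _ _ B hBfin hcalg (zpow_ne_zero _ hψ) (fun v _ => v.ord_const c)
      (fun v hv => by
        rw [zpow_neg, zpow_natCast, KEY_.ord_inv v (pow_ne_zero _ hψ), KEY_.ord_pow v hψ,
          hBψ v hv, mul_zero, neg_zero]),
      hconst c B hBfin hc, hdeg, zpow_zero, one_mul, hpow ψ B _ hBfin hψ hBψ]
  have hAeq : A = dv (L := L) ψ := funext hA
  have hdvh : dv (L := L) h = (N : ℤ) • B := by
    funext v
    rw [Pi.smul_apply, smul_eq_mul, hB v]
    rfl
  have hweil : ev h A = ev ψ B ^ (N : ℤ) := by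
    rw [hAeq, h_WEIL L K hFF h ψ hh hψ (fun v hv => hψh v hv), hdvh, hsmul ψ B _ hBfin]
  rw [hweil, hev1, ← zpow_natCast, ← zpow_mul, ← zpow_add₀ (hne ψ B)]
  have : (N : ℤ) * (m : ℤ) + -((N * m : ℕ) : ℤ) = 0 := by
    push_cast
    ring
  rw [this, zpow_zero]

end Pool.Agent.FDX
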