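import Pool.Agent.FDX.Targets2
import Pool.Agent.FD.Side
import Pool.Agent.FD.Arith

/-!
# FDX, job LOCA: the local arithmetic at affine `p`-adic points
-/

open MvPolynomial

namespace Pool.Agent.FDX

open Pool.Agent.FD

namespace LOCA_

/-! ### the valuation of `ℚ_p` -/

/-- the valuation of `ℚ_p` -/
noncomputable def pv (p : ℕ) [Fact p.Prime] : DV ℚ_[p] where
  ord := Padic.valuation
  ord_zero := Padic.valuation_zero
  ord_mul f g hf hg := Padic.valuation_mul hf hg
  ord_add f g _ _ hfg := Padic.le_valuation_add hfg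
  ord_int a := by
    rw [Padic.valuation_intCast]
    exact Int.natCast_nonneg _

theorem norm_lt_one {p : ℕ} [Fact p.Prime] {g : ℚ_[p]} (hg : 0 < g.valuation) : ‖g‖ < 1 := by
  have h0 : g ≠ 0 := by
    rintro rfl
    rw [Padic.valuation_zero] at hg
    exact lt_irrefl _ hg
  rw [Padic.norm_eq_zpow_neg_valuation h0]
  have hp : (1 : ℝ) < (p : ℝ) := by exact_mod_cast (Fact.out : p.Prime).one_lt
  rw [zpow_neg]
  exact inv_lt_one_of_one_lt₀ (one_lt_zpow₀ hp hg)

theorem toZMod_zero {p : ℕ} [Fact p.Prime] {z : ℤ_[p]} (h : 0 < (z : ℚ_[p]).valuation) :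
    PadicInt.toZMod z = 0 := by
  have h2 : ‖z‖ < 1 := by
    rw [PadicInt.norm_def]
    exact norm_lt_one h
  have h4 : z ∈ IsLocalRing.maximalIdeal ℤ_[p] := by
    rw [IsLocalRing.mem_maximalIdeal, mem_nonunits_iff, PadicInt.isUnit_iff]
    exact ne_of_lt h2
  rw [← PadicInt.ker_toZMod, RingHom.mem_ker] at h4
  exact h4

theorem toZMod_ne_zero {p : ℕ} [Fact p.Prime] {z : ℤ_[p]} (h0 : (z : ℚ_[p]) ≠ 0)
    (h : (z : ℚ_[p]).valuation = 0) : PadicInt.toZMod z ≠ 0 := by
  intro h1
  have h4 : z ∈ IsLocalRing.maximalIdeal ℤ_[p] := by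
    rw [← PadicInt.ker_toZMod, RingHom.mem_ker]
    exact h1
  rw [IsLocalRing.mem_maximalIdeal, mem_nonunits_iff, PadicInt.isUnit_iff] at h4
  apply h4
  rw [PadicInt.norm_def, Padic.norm_eq_zpow_neg_valuation h0, h, neg_zero, zpow_zero]

/-- an element of nonnegative valuation is an integer -/
theorem exists_int {p : ℕ} [Fact p.Prime] {g : ℚ_[p]} (hg : 0 ≤ g.valuation) :
    ∃ x : ℤ_[p], (x : ℚ_[p]) = g :=
  ⟨⟨g, (Padic.norm_le_one_iff_val_nonneg g).2 hg⟩, rfl⟩

theorem coe_aeval {p : ℕ} [Fact p.Prime] (x : ℤ_[p]) (f : Polynomial ℤ) :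
    ((Polynomial.aeval x f : ℤ_[p]) : ℚ_[p]) = Polynomial.aeval (x : ℚ_[p]) f := by
  have := Polynomial.hom_eval₂ f (algebraMap ℤ ℤ_[p]) (PadicInt.Coe.ringHom (p := p)) x
  rw [Polynomial.aeval_def, Polynomial.aeval_def]
  have e2 : (PadicInt.Coe.ringHom (p := p)).comp (algebraMap ℤ ℤ_[p]) =
    algebraMap ℤ ℚ_[p] := Subsingleton.elim _ _
  rw [e2] at this
  exact this

theorem toZMod_aeval {p : ℕ} [Fact p.Prime] (x : ℤ_[p]) (f : Polynomial ℤ) :
    PadicInt.toZMod (Polynomial.aeval x f) = Polynomial.aeval (PadicInt.toZMod x) f := by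
  rw [Polynomial.aeval_def, Polynomial.aeval_def, Polynomial.hom_eval₂]
  congr 1
  exact Subsingleton.elim _ _

theorem root_mod {p : ℕ} [Fact p.Prime] (f : Polynomial ℤ) (g : ℚ_[p])
    (hg : 0 ≤ g.valuation)
    (hf : Polynomial.aeval g f = 0 ∨ 0 < (Polynomial.aeval g f).valuation) :
    ∃ z : ZMod p, Polynomial.aeval z f = 0 := by
  obtain ⟨x, rfl⟩ := exists_int hg
  refine ⟨PadicInt.toZMod x, ?_⟩
  rw [← toZMod_aeval]
  rcases hf with hf | hf
  · rw [← coe_aeval] at hf
    have : Polynomial.aeval x f = 0 := PadicInt.ext (hf.trans PadicInt.coe_zero.symm)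
    rw [this, map_zero]
  · apply toZMod_zero
    rw [coe_aeval]
    exact hf

/-! ### classes over a field with a valuation -/

section

variable {ι : Type} [Fintype ι] [DecidableEq ι] (A : Arr ι) {K : Type} [Field K] [CharZero K]
  {α β : K}

theorem F_ne (hE : A.Eqn α β) (i : ι) : Polynomial.aeval (A.g i α β) (A.f i) ≠ 0 := by
  have h1 : (A.c : K) ≠ 0 := by exact_mod_cast A.c_ne
  rw [Arr.Eqn] at hE
  rw [← hE] at h1
  exact (Finset.prod_ne_zero_iff.1 h1) i (Finset.mem_univ i)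

theorem sum_F (hE : A.Eqn α β) (v : DV K) :
    ∑ i, v.ord (Polynomial.aeval (A.g i α β) (A.f i)) = v.ord (A.c : K) := by
  rw [← v.ord_prod _ _ fun i _ => F_ne A hE i]
  rw [Arr.Eqn] at hE
  rw [hE]

/-- the good situation at the index `i` -/
def Good (v : DV K) (α β : K) (i : ι) : Prop :=
  (0 ≤ v.ord (A.g i α β) ∧ (A.N i : ℤ) ∣ v.ord (Polynomial.aeval (A.g i α β) (A.f i))) ∨
    v.ord (A.g i α β) < 0

theorem good_of_neg (h1 : T_CLASS) (hE : A.Eqn α β) (v : DV K) (hα : v.ord α < 0) :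
    ∃ i, 0 ≤ v.ord (A.g i α β) ∧
      v.ord (Polynomial.aeval (A.g i α β) (A.f i)) = v.ord (A.c : K) - v.ord α * A.N i ∧
      ∀ j, j ≠ i → v.ord (A.g j α β) < 0 := by
  obtain ⟨i, hi1, hi2, hi3⟩ := (h1 ι A K v α β hE).2 hα
  refine ⟨i, hi1, hi3, fun j hj => ?_⟩
  rw [hi2 j hj]
  have hw : (0 : ℤ) < A.w i j := by exact_mod_cast A.w_pos (Ne.symm hj)
  exact mul_neg_of_neg_of_pos hα hw

theorem nonneg_of_nonneg (h1 : T_CLASS) (hE : A.Eqn α β) (v : DV K) (hα : 0 ≤ v.ord α)
    (i : ι) : 0 ≤ v.ord (A.g i α β) ∧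
      0 ≤ v.ord (Polynomial.aeval (A.g i α β) (A.f i)) := by
  have hβ := (h1 ι A K v α β hE).1 hα
  have h2 : 0 ≤ v.ord (A.g i α β) := v.ord_add_nonneg hβ (v.ord_aeval_nonneg _ hα)
  exact ⟨h2, v.ord_aeval_nonneg _ h2⟩

theorem good_zero (h1 : T_CLASS) (hE : A.Eqn α β) (v : DV K) (hc : v.ord (A.c : K) = 0)
    (i : ι) : Good A v α β i := by
  rcases lt_or_ge (v.ord α) 0 with hα | hα
  · obtain ⟨i', h2, h3, h4⟩ := good_of_neg A h1 hE v hα
    by_cases hi : i = i'
    · subst hi
      left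
      refine ⟨h2, ?_⟩
      rw [h3, hc, zero_sub]
      exact (Dvd.intro_left _ rfl).neg_right
    · exact Or.inr (h4 i hi)
  · left
    refine ⟨(nonneg_of_nonneg A h1 hE v hα i).1, ?_⟩
    have h2 := sum_F A hE v
    rw [hc] at h2
    have h3 := (Finset.sum_eq_zero_iff_of_nonneg
      fun j _ => (nonneg_of_nonneg A h1 hE v hα j).2).1 h2 i (Finset.mem_univ i)
    rw [h3]
    exact dvd_zero _

theorem good_one (h1 : T_CLASS) (hE : A.Eqn α β) (v : DV K) (hc : v.ord (A.c : K) = 1) :
    ∃ i, 0 ≤ v.ord (A.g i α β) ∧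
      0 < v.ord (Polynomial.aeval (A.g i α β) (A.f i)) ∧
      (A.N i : ℤ) ∣ v.ord (Polynomial.aeval (A.g i α β) (A.f i)) - 1 ∧
      ∀ j, j ≠ i → Good A v α β j := by
  rcases lt_or_ge (v.ord α) 0 with hα | hα
  · obtain ⟨i, h2, h3, h4⟩ := good_of_neg A h1 hE v hα
    have hN : (0 : ℤ) ≤ A.N i := Int.natCast_nonneg _
    refine ⟨i, h2, ?_, ?_, fun j hj => Or.inr (h4 j hj)⟩
    · rw [h3, hc]
      nlinarith
    · rw [h3, hc]
      have : (1 : ℤ) - v.ord α * A.N i - 1 = -(v.ord α * A.N i) := by ring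
      rw [this]
      exact (Dvd.intro_left _ rfl).neg_right
  · have h2 := sum_F A hE v
    rw [hc] at h2
    obtain ⟨i, h3, h4⟩ := Arith_.sum_one _ (fun j => (nonneg_of_nonneg A h1 hE v hα j).2) h2
    refine ⟨i, (nonneg_of_nonneg A h1 hE v hα i).1, ?_, ?_, fun j hj => ?_⟩
    · rw [h3]; norm_num
    · rw [h3]; norm_num
    · left
      refine ⟨(nonneg_of_nonneg A h1 hE v hα j).1, ?_⟩
      rw [h4 j hj]
      exact dvd_zero _

theorem val_split {m : ℕ} (P : Fin m → ℕ) (v : DV K) (f hh : Polynomial ℤ)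
    (hf : f = f0 P * hh)
    (hd : f0 P ∣ hh - 1) (g : K) (hg : 0 ≤ v.ord g) (hne : Polynomial.aeval g f ≠ 0) :
    Polynomial.aeval g (f0 P) ≠ 0 ∧
    v.ord (Polynomial.aeval g f) =
      v.ord (Polynomial.aeval g (f0 P)) + v.ord (Polynomial.aeval g hh) ∧
    (v.ord (Polynomial.aeval g (f0 P)) = 0 ∨ v.ord (Polynomial.aeval g hh) = 0) := by
  rw [hf, map_mul] at hne
  have n1 : Polynomial.aeval g (f0 P) ≠ 0 := left_ne_zero_of_mul hne
  have n2 : Polynomial.aeval g hh ≠ 0 := right_ne_zero_of_mul hne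
  refine ⟨n1, by rw [hf, map_mul, v.ord_mul _ _ n1 n2], ?_⟩
  have h0 : 0 ≤ v.ord (Polynomial.aeval g (f0 P)) := v.ord_aeval_nonneg _ hg
  rcases h0.eq_or_lt with h | h
  · exact Or.inl h.symm
  · right
    obtain ⟨r, hr⟩ := hd
    have e : hh = 1 + f0 P * r := by rw [← hr]; ring
    have e2 : Polynomial.aeval g hh =
        1 + Polynomial.aeval g (f0 P) * Polynomial.aeval g r := by
      rw [e, map_add, map_one, map_mul]
    rw [e2, v.ord_add_eq one_ne_zero, v.ord_one]
    rcases eq_or_ne (Polynomial.aeval g r) 0 with h2 | h2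
    · left; rw [h2, mul_zero]
    · right
      rw [v.ord_one, v.ord_mul _ _ n1 h2]
      have := v.ord_aeval_nonneg r hg
      omega

end

/-! ### the factors `γ² - d_k` -/

section

variable {m : ℕ} {P : Fin m → ℕ} {p : ℕ} [Fact p.Prime]

/-- the factor -/
noncomputable def V (P : Fin m → ℕ) {p : ℕ} [Fact p.Prime] (γ : ℚ_[p]) (k : Option (Fin m)) :
    ℚ_[p] := γ ^ 2 - ((dd P k : ℤ) : ℚ_[p])

theorem f0_eq (γ : ℚ_[p]) : Polynomial.aeval γ (f0 P) = ∏ k, V P γ k :=
  Arith_.aeval_f0 P γ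

theorem V_ne {γ : ℚ_[p]} (h : Polynomial.aeval γ (f0 P) ≠ 0) (k : Option (Fin m)) :
    V P γ k ≠ 0 := by
  rw [f0_eq] at h
  exact (Finset.prod_ne_zero_iff.1 h) k (Finset.mem_univ k)

theorem f0_val {γ : ℚ_[p]} (h : Polynomial.aeval γ (f0 P) ≠ 0) :
    (Polynomial.aeval γ (f0 P)).valuation = ∑ k, (V P γ k).valuation := by
  rw [f0_eq]
  exact (pv p).ord_prod Finset.univ _ fun k _ => V_ne h k

theorem V_nonneg {γ : ℚ_[p]} (hγ : 0 ≤ γ.valuation) (k : Option (Fin m)) :
    0 ≤ (V P γ k).valuation := by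
  unfold V
  rw [sub_eq_add_neg]
  refine (pv p).ord_add_nonneg ?_ ?_
  · rw [(pv p).ord_pow]
    have : 0 ≤ (pv p).ord γ := hγ
    positivity
  · rw [(pv p).ord_neg]
    exact (pv p).ord_int _

theorem V_neg {γ : ℚ_[p]} (hγ : γ.valuation < 0) (k : Option (Fin m)) :
    (V P γ k).valuation = 2 * γ.valuation := by
  unfold V
  have h1 : (pv p).ord (γ ^ 2) = 2 * γ.valuation := by
    rw [(pv p).ord_pow]
    rfl
  have h2 : (pv p).ord (γ ^ 2 + -((dd P k : ℤ) : ℚ_[p])) = (pv p).ord (γ ^ 2) := by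
    apply (pv p).ord_add_eq_of_neg
    · rw [h1]
      omega
    · rw [(pv p).ord_neg]
      exact (pv p).ord_int _
  rw [sub_eq_add_neg]
  exact h2.trans h1

theorem V_min (hD : Del P ≠ 0) {γ : ℚ_[p]}
    {k k' : Option (Fin m)} (hk : k ≠ k') (hd : dd P k ≠ dd P k') :
    min (V P γ k).valuation (V P γ k').valuation ≤ (Del P).factorization p := by
  have e : V P γ k + -V P γ k' = ((dd P k' - dd P k : ℤ) : ℚ_[p]) := by
    unfold V
    push_cast
    ring
  have hne : V P γ k + -V P γ k' ≠ 0 := by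
    rw [e]
    exact_mod_cast sub_ne_zero.2 (Ne.symm hd)
  have h1 := Padic.le_valuation_add hne
  have h2 : (-V P γ k').valuation = (V P γ k').valuation := (pv p).ord_neg _
  rw [h2, e, Padic.valuation_intCast] at h1
  refine h1.trans ?_
  have h3 : padicValInt p (dd P k' - dd P k) = (dd P k' - dd P k).natAbs.factorization p := by
    rw [padicValInt, Nat.factorization_def _ Fact.out]
  rw [h3]
  have h4 : (dd P k' - dd P k).natAbs ∣ Del P := Side.dvd_Del hk.symm
  have h5 : (dd P k' - dd P k).natAbs ≠ 0 := Int.natAbs_ne_zero.2 (sub_ne_zero.2 (Ne.symm hd))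
  have h6 := (Nat.factorization_le_iff_dvd h5 hD).2 h4 p
  exact_mod_cast h6

/-- `l_a` divides only `V_a` -/
theorem V_unit {R : ℕ} {N : Fin R → ℕ} {l : Fin m → ℕ} (hl : GoodL P N l) (a : Fin m)
    [Fact (l a).Prime] {γ : ℚ_[l a]} (hγ : 0 ≤ γ.valuation) {k : Option (Fin m)}
    (hk : k ≠ some a) : (V P γ k).valuation = 0 := by
  by_contra hne
  have h1 : 0 < (V P γ k).valuation := lt_of_le_of_ne (V_nonneg hγ k) (Ne.symm hne)
  apply hl.nsq a k hk
  obtain ⟨x, rfl⟩ := exists_int hγ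
  have h2 : PadicInt.toZMod (x ^ 2 - ((dd P k : ℤ) : ℤ_[l a])) = 0 := by
    apply toZMod_zero
    push_cast
    exact h1
  rw [map_sub, map_pow, map_intCast, sub_eq_zero] at h2
  exact ⟨PadicInt.toZMod x, by rw [← h2, sq]⟩

end

end LOCA_

open LOCA_ in
theorem p_LOCA (h1 : FD.T_CLASS) : T_LOCA := by
  intro ι _ _ A m R e P l H p _ α β hE
  have hne : ∀ t : Fin R, Polynomial.aeval (A.g (e t) α β) (f0 P) ≠ 0 := by
    intro t
    obtain ⟨hh, hf, -, -⟩ := H.host t
    have := LOCA_.F_ne A hE (e t)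
    rw [hf, map_mul] at this
    exact left_ne_zero_of_mul this
  have hVne : ∀ (t : Fin R) (k : Option (Fin m)), V P (A.g (e t) α β) k ≠ 0 :=
    fun t k => V_ne (hne t) k
  have hval : ∀ (t : Fin R) (b : Fin m),
      (((A.g (e t) α β) ^ 2 - ((dd P (some b) : ℤ) : ℚ_[p])) /
      ((A.g (e t) α β) ^ 2 - ((dd P none : ℤ) : ℚ_[p]))).valuation =
      (V P (A.g (e t) α β) (some b)).valuation - (V P (A.g (e t) α β) none).valuation := by
    intro t b
    have h2 := Padic.valuation_mul (hVne t (some b)) (inv_ne_zero (hVne t none))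
    rw [Padic.valuation_inv, ← div_eq_mul_inv] at h2
    exact h2
  have hneg : ∀ (t : Fin R) (b : Fin m), (A.g (e t) α β).valuation < 0 →
      (V P (A.g (e t) α β) (some b)).valuation - (V P (A.g (e t) α β) none).valuation = 0 := by
    intro t b ht
    rw [V_neg ht, V_neg ht, sub_self]
  have hc : (pv p).ord ((A.c : ℤ) : ℚ_[p]) = ∑ a, if l a = p then (1 : ℤ) else 0 := by
    rw [H.c_eq, ← Arith_.val_c l H.goodL.prime p]
    show (((∏ a, (l a : ℤ) : ℤ)) : ℚ_[p]).valuation = padicValRat p _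
    rw [Padic.valuation_intCast, padicValRat.of_int]
  refine ⟨fun t b => div_ne_zero (hVne t (some b)) (hVne t none), ?_, ?_⟩
  · -- `p` is not among the `l a`
    intro hp t b
    have hc0 : (pv p).ord ((A.c : ℤ) : ℚ_[p]) = 0 := by
      rw [hc]
      exact Finset.sum_eq_zero fun a _ => if_neg (hp a)
    obtain ⟨hG, hD⟩ := Side.Del_ne_zero H.goodL b
    rw [hval]
    rcases good_zero A h1 hE (pv p) hc0 (e t) with ⟨q1, q2⟩ | q1
    · have q1' : 0 ≤ (A.g (e t) α β).valuation := q1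
      obtain ⟨hh, hf, hd, -⟩ := H.host t
      obtain ⟨-, s1, s2⟩ := val_split P (pv p) (A.f (e t)) hh hf hd (A.g (e t) α β) q1
        (LOCA_.F_ne A hE (e t))
      have s3 : (A.N (e t) : ℤ) ∣ (pv p).ord (Polynomial.aeval (A.g (e t) α β) (f0 P)) := by
        rcases s2 with s2 | s2
        · rw [s2]; exact dvd_zero _
        · rw [s2, add_zero] at s1
          rw [← s1]
          exact q2
      have s4 : (pv p).ord (Polynomial.aeval (A.g (e t) α β) (f0 P)) =
          ∑ k, (V P (A.g (e t) α β) k).valuation := f0_val (hne t)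
      have hnn : ∀ k, 0 ≤ (V P (A.g (e t) α β) k).valuation := fun k => V_nonneg q1' k
      have hcast : ∀ k, (((V P (A.g (e t) α β) k).valuation.toNat : ℕ) : ℤ) =
          (V P (A.g (e t) α β) k).valuation := fun k => Int.toNat_of_nonneg (hnn k)
      have hddne : ∀ k k' : Option (Fin m), k ≠ k' → dd P k ≠ dd P k' := by
        intro k k' hk h
        have h2 := Side.dvd_Del (P := P) hk
        rw [h, sub_self, Int.natAbs_zero, zero_dvd_iff] at h2
        exact hD h2
      obtain ⟨e₀, he1, he2⟩ := Side.local_comb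
        (fun k => (V P (A.g (e t) α β) k).valuation.toNat) ((Del P).factorization p)
        (A.N (e t)) (fun k k' hk => by
          have h5 := V_min (p := p) (γ := A.g (e t) α β) hD hk (hddne k k' hk)
          rw [← hcast k, ← hcast k'] at h5
          exact_mod_cast h5) (by
          rw [s4] at s3
          rw [Nat.cast_sum, Finset.sum_congr rfl fun k _ => hcast k]
          exact s3) (some b) none (by simp)
      refine ⟨e₀, ?_, ?_⟩
      · rw [Gam, Nat.factorization_pow]
        simp only [Fintype.card_option, Fintype.card_fin] at he1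
        simpa using he1
      · simp only [hcast] at he2
        exact he2
    · have q1' : (A.g (e t) α β).valuation < 0 := q1
      refine ⟨0, by simp, ?_⟩
      rw [hneg t b q1', sub_zero]
      exact dvd_zero _
  · -- `p = l a`
    rintro a rfl
    have hc1 : (pv (l a)).ord ((A.c : ℤ) : ℚ_[l a]) = 1 := by
      rw [hc, Finset.sum_eq_single a]
      · simp
      · intro b _ hb
        rw [if_neg]
        exact fun h => hb (H.goodL.inj h)
      · intro h
        exact absurd (Finset.mem_univ a) h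
    obtain ⟨i₀, g1, g2, g3, g4⟩ := good_one A h1 hE (pv (l a)) hc1
    obtain ⟨t₀, rfl⟩ : ∃ t, e t = i₀ := by
      by_contra hi
      push Not at hi
      obtain ⟨z, hz⟩ := LOCA_.root_mod (A.f i₀) (A.g i₀ α β) g1 (Or.inr g2)
      exact H.fill i₀ hi a z hz
    -- the valuation of `f0`
    have hf0 : ∀ t : Fin R, 0 ≤ (A.g (e t) α β).valuation →
        (pv (l a)).ord (Polynomial.aeval (A.g (e t) α β) (f0 P)) =
        (V P (A.g (e t) α β) (some a)).valuation := by
      intro t ht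
      refine (f0_val (hne t)).trans ?_
      refine Finset.sum_eq_single_of_mem _ (Finset.mem_univ (some a)) fun k _ hk => ?_
      exact V_unit H.goodL a ht hk
    have hhv : ∀ t : Fin R, 0 ≤ (A.g (e t) α β).valuation →
        (pv (l a)).ord (Polynomial.aeval (A.g (e t) α β) (A.f (e t))) =
        (V P (A.g (e t) α β) (some a)).valuation := by
      intro t ht
      obtain ⟨hh, hf, hd, hr⟩ := H.host t
      obtain ⟨-, s1, -⟩ := val_split P (pv (l a)) (A.f (e t)) hh hf hd (A.g (e t) α β) ht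
        (LOCA_.F_ne A hE (e t))
      have s3 : (pv (l a)).ord (Polynomial.aeval (A.g (e t) α β) hh) = 0 := by
        have s4 : 0 ≤ (pv (l a)).ord (Polynomial.aeval (A.g (e t) α β) hh) :=
          (pv (l a)).ord_aeval_nonneg _ ht
        rcases s4.eq_or_lt with s5 | s5
        · exact s5.symm
        · exfalso
          obtain ⟨z, hz⟩ := LOCA_.root_mod hh (A.g (e t) α β) ht (Or.inr s5)
          exact hr a z hz
      rw [s3, add_zero, hf0 t ht] at s1
      exact s1
    have g1' : 0 ≤ (A.g (e t₀) α β).valuation := g1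
    rw [hhv t₀ g1'] at g2 g3
    refine ⟨t₀, fun t b => ⟨?_, ?_, ?_⟩⟩
    · rintro rfl
      simp only
      rw [hval, V_unit H.goodL a g1' (k := none) (by simp), sub_zero]
      by_cases hab : a = b
      · subst hab
        rw [if_pos rfl]
        exact g3
      · rw [if_neg hab, V_unit H.goodL a g1' (k := some b)
          (fun h => hab (Option.some_injective _ h).symm), sub_zero]
        exact dvd_zero _
    · intro ht
      simp only
      rw [hval]
      rcases g4 (e t) (fun h => ht (H.inj h)) with ⟨q1, q2⟩ | q1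
      · have q1' : 0 ≤ (A.g (e t) α β).valuation := q1
        rw [hhv t q1'] at q2
        rw [V_unit H.goodL a q1' (k := none) (by simp), sub_zero]
        by_cases hab : a = b
        · subst hab
          exact q2
        · rw [V_unit H.goodL a q1' (k := some b)
            (fun h => hab (Option.some_injective _ h).symm)]
          exact dvd_zero _
      · have q1' : (A.g (e t) α β).valuation < 0 := q1
        rw [hneg t b q1']
        exact dvd_zero _
    · rintro rfl hab
      simp only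
      have u1 : (V P (A.g (e t) α β) (some b)).valuation = 0 :=
        V_unit H.goodL a g1' (fun h => hab (Option.some_injective _ h).symm)
      have u2 : (V P (A.g (e t) α β) none).valuation = 0 :=
        V_unit H.goodL a g1' (by simp)
      obtain ⟨z, hz⟩ := exists_int (g := ((A.g (e t) α β) ^ 2 -
        ((dd P (some b) : ℤ) : ℚ_[l a])) / ((A.g (e t) α β) ^ 2 - ((dd P none : ℤ) : ℚ_[l a])))
        (by rw [hval, u1, u2]; norm_num)
      refine ⟨z, hz, ?_⟩
      obtain ⟨x, hx⟩ := exists_int g1'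
      have e1 : z * (x ^ 2 - ((dd P none : ℤ) : ℤ_[l a])) =
          x ^ 2 - ((dd P (some b) : ℤ) : ℤ_[l a]) := by
        have e2 : (z : ℚ_[l a]) * ((x : ℚ_[l a]) ^ 2 - ((dd P none : ℤ) : ℚ_[l a])) =
            (x : ℚ_[l a]) ^ 2 - ((dd P (some b) : ℤ) : ℚ_[l a]) := by
          rw [hz, hx]
          exact div_mul_cancel₀ _ (hVne t none)
        apply PadicInt.ext
        push_cast
        exact e2
      have e3 := congrArg (PadicInt.toZMod (p := l a)) e1
      rw [map_mul, map_sub, map_sub, map_pow, map_intCast, map_intCast] at e3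
      have e4 : PadicInt.toZMod (x ^ 2 - ((dd P (some a) : ℤ) : ℤ_[l a])) = 0 := by
        apply toZMod_zero
        push_cast
        rw [hx]
        exact g2
      rw [map_sub, map_pow, map_intCast, sub_eq_zero] at e4
      rw [e4] at e3
      push_cast
      exact e3

end Pool.Agent.FDX
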