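import Pool.Agent.FDX.Targets2
import Pool.Agent.FD.F0
import Pool.Agent.FD.Side
import Pool.Agent.FD.Arith
import Pool.Agent.FDX.P_LOCA

/-!
# FDX, job LOCT: the local arithmetic at the points `T_(j,θ)`
-/

open MvPolynomial

namespace Pool.Agent.FDX

open Pool.Agent.FD

namespace LOCT_

open LOCA_

/-- a root of a monic integral polynomial is an integer -/
theorem root_nonneg {p : ℕ} [Fact p.Prime] {θ : ℚ_[p]} {f : Polynomial ℤ} (hf : f.Monic)
    (h : Polynomial.aeval θ f = 0) : 0 ≤ θ.valuation := by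
  have h0 : IsIntegral ℤ θ := ⟨f, hf, by rw [← Polynomial.aeval_def]; exact h⟩
  have h1 : IsIntegral ℤ_[p] θ := h0.tower_top
  obtain ⟨y, hy⟩ := IsIntegrallyClosed.isIntegral_iff.mp h1
  rw [← Padic.norm_le_one_iff_val_nonneg θ, ← hy]
  exact y.norm_le_one

section

variable {m : ℕ} {P : Fin m → ℕ} {p : ℕ} [Fact p.Prime]

/-- the difference `d_k - d_k'` in `ℚ_p` -/
noncomputable def df (P : Fin m → ℕ) (p : ℕ) [Fact p.Prime] (k k' : Option (Fin m)) : ℚ_[p] :=
  ((dd P k - dd P k' : ℤ) : ℚ_[p])

theorem df_ne (hP : GoodP P) {k k' : Option (Fin m)} (hk : k ≠ k') : df P p k k' ≠ 0 := by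
  unfold df
  exact_mod_cast sub_ne_zero.2 fun h => hk (F0_.dd_inj P hP h)

theorem df_val (k k' : Option (Fin m)) :
    (df P p k k').valuation = ((dd P k - dd P k').natAbs.factorization p : ℤ) := by
  unfold df
  rw [Padic.valuation_intCast, padicValInt, Nat.factorization_def _ Fact.out]

theorem df_bound (hD : Del P ≠ 0) (hP : GoodP P) {k k' : Option (Fin m)} (hk : k ≠ k') :
    0 ≤ (df P p k k').valuation ∧ (df P p k k').valuation ≤ (Del P).factorization p := by
  rw [df_val]
  refine ⟨Int.natCast_nonneg _, ?_⟩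
  have h4 : (dd P k - dd P k').natAbs ∣ Del P := Side.dvd_Del hk
  have h5 : (dd P k - dd P k').natAbs ≠ 0 :=
    Int.natAbs_ne_zero.2 (sub_ne_zero.2 fun h => hk (F0_.dd_inj P hP h))
  have h6 := (Nat.factorization_le_iff_dvd h5 hD).2 h4 p
  exact_mod_cast h6

/-- the product of the differences `d_k - d_k'`, `k' ≠ k` -/
noncomputable def pr (P : Fin m → ℕ) (p : ℕ) [Fact p.Prime] (k : Option (Fin m)) : ℚ_[p] :=
  ∏ k' ∈ Finset.univ.erase k, df P p k k'

theorem pr_ne (hP : GoodP P) (k : Option (Fin m)) : pr P p k ≠ 0 :=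
  Finset.prod_ne_zero_iff.2 fun _ hk' => df_ne hP (Finset.ne_of_mem_erase hk').symm

theorem pr_bound (hD : Del P ≠ 0) (k : Option (Fin m)) :
    0 ≤ (pr P p k).valuation ∧ (pr P p k).valuation ≤ (Del P).factorization p := by
  have e1 : pr P p k = ((∏ k' ∈ Finset.univ.erase k, (dd P k - dd P k') : ℤ) : ℚ_[p]) := by
    unfold pr df
    push_cast
    rfl
  have e2 : (∏ k' ∈ Finset.univ.erase k, (dd P k - dd P k') : ℤ).natAbs =
      ∏ l : Option (Fin m), if k = l then 1 else (dd P k - dd P l).natAbs := by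
    rw [← Finset.mul_prod_erase Finset.univ _ (Finset.mem_univ k), if_pos rfl, one_mul,
      ← Int.natAbsHom_apply, map_prod]
    refine Finset.prod_congr rfl fun l hl => ?_
    rw [if_neg (Finset.ne_of_mem_erase hl).symm, Int.natAbsHom_apply]
  rw [e1, Padic.valuation_intCast, padicValInt, e2, ← Nat.factorization_def _ Fact.out]
  refine ⟨Int.natCast_nonneg _, ?_⟩
  have h4 : (∏ l : Option (Fin m), if k = l then 1 else (dd P k - dd P l).natAbs) ∣ Del P := by
    unfold Del
    exact Finset.dvd_prod_of_mem (fun k : Option (Fin m) => ∏ l : Option (Fin m),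
      if k = l then 1 else (dd P k - dd P l).natAbs) (Finset.mem_univ k)
  have h5 := ne_zero_of_dvd_ne_zero hD h4
  have h6 := (Nat.factorization_le_iff_dvd h5 hD).2 h4 p
  exact_mod_cast h6

/-- the value of the cofactor of `X² - d_k` at a root of `X² - d_k` -/
theorem q_eval {f hh q : Polynomial ℤ} (hf : f = f0 P * hh) (hd : f0 P ∣ hh - 1)
    {k : Option (Fin m)} (hq : f = (Polynomial.X ^ 2 - Polynomial.C (dd P k)) * q)
    {θ : ℚ_[p]} (hθ : θ ^ 2 = ((dd P k : ℤ) : ℚ_[p])) :
    Polynomial.aeval θ q = pr P p k := by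
  have hmon : (Polynomial.X ^ 2 - Polynomial.C (dd P k) : Polynomial ℤ) ≠ 0 :=
    (Polynomial.monic_X_pow_sub_C _ two_ne_zero).ne_zero
  have e1 : f0 P = (Polynomial.X ^ 2 - Polynomial.C (dd P k)) *
      ∏ k' ∈ Finset.univ.erase k, (Polynomial.X ^ 2 - Polynomial.C (dd P k')) := by
    unfold f0
    rw [Finset.mul_prod_erase Finset.univ
      (fun k' => (Polynomial.X ^ 2 - Polynomial.C (dd P k') : Polynomial ℤ)) (Finset.mem_univ k)]
  have e2 : q = (∏ k' ∈ Finset.univ.erase k, (Polynomial.X ^ 2 - Polynomial.C (dd P k'))) *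
      hh := by
    apply mul_left_cancel₀ hmon
    rw [← hq, hf, e1, mul_assoc]
  have h0 : Polynomial.aeval θ (f0 P) = 0 := F0_.root_of P θ k hθ
  obtain ⟨r, hr⟩ := hd
  have e3 : Polynomial.aeval θ hh = 1 := by
    have e4 : hh = 1 + f0 P * r := by rw [← hr]; ring
    rw [e4, map_add, map_one, map_mul, h0, zero_mul, add_zero]
  rw [e2, map_mul, e3, mul_one, map_prod]
  unfold pr
  refine Finset.prod_congr rfl fun k' _ => ?_
  unfold df
  simp only [map_sub, map_pow, Polynomial.aeval_X, Polynomial.aeval_C, hθ]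
  push_cast
  rfl

/-- a root of `f0 P * hh`: `hh` vanishes and all factors are units, or `θ² = d_k` -/
theorem root_cases {f hh : Polynomial ℤ} (hf : f = f0 P * hh) (hd : f0 P ∣ hh - 1)
    {θ : ℚ_[p]} (hθ : 0 ≤ θ.valuation) (h : Polynomial.aeval θ f = 0) :
    (Polynomial.aeval θ hh = 0 ∧ ∀ k, (V P θ k).valuation = 0) ∨
      ∃ k, θ ^ 2 = ((dd P k : ℤ) : ℚ_[p]) := by
  by_cases h0 : Polynomial.aeval θ (f0 P) = 0
  · right
    rw [f0_eq, Finset.prod_eq_zero_iff] at h0
    obtain ⟨k, -, hk⟩ := h0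
    exact ⟨k, sub_eq_zero.1 hk⟩
  · left
    rw [hf, map_mul] at h
    have h1 : Polynomial.aeval θ hh = 0 := (mul_eq_zero.1 h).resolve_left h0
    refine ⟨h1, ?_⟩
    obtain ⟨r, hr⟩ := hd
    have e4 : f0 P * r + 1 = hh := by rw [← hr]; ring
    have e5 : Polynomial.aeval θ (f0 P) * Polynomial.aeval θ r = -1 := by
      have e6 := congrArg (Polynomial.aeval θ) e4
      rw [map_add, map_mul, map_one, h1] at e6
      exact eq_neg_of_add_eq_zero_left e6
    have h2 : Polynomial.aeval θ r ≠ 0 := by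
      intro h2
      rw [h2, mul_zero] at e5
      exact absurd e5.symm (neg_ne_zero.2 one_ne_zero)
    have h3 : (Polynomial.aeval θ (f0 P)).valuation + (Polynomial.aeval θ r).valuation = 0 := by
      rw [← Padic.valuation_mul h0 h2, e5]
      exact ((pv p).ord_neg 1).trans (pv p).ord_one
    have h4 : 0 ≤ (Polynomial.aeval θ (f0 P)).valuation := (pv p).ord_aeval_nonneg _ hθ
    have h5 : 0 ≤ (Polynomial.aeval θ r).valuation := (pv p).ord_aeval_nonneg _ hθ
    have h6 : (Polynomial.aeval θ (f0 P)).valuation = 0 := by omega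
    rw [f0_val h0] at h6
    intro k
    exact (Finset.sum_eq_zero_iff_of_nonneg fun k _ => V_nonneg hθ k).1 h6 k
      (Finset.mem_univ k)

theorem eps_ne {ε : ℤ} (hε : ε = 1 ∨ ε = -1) : (ε : ℚ_[p]) ≠ 0 := by
  rcases hε with rfl | rfl
  · simp
  · simp

theorem eps_val {ε : ℤ} (hε : ε = 1 ∨ ε = -1) : (ε : ℚ_[p]).valuation = 0 := by
  rcases hε with rfl | rfl
  · rw [Int.cast_one]
    exact (pv p).ord_one
  · rw [Int.cast_neg, Int.cast_one]
    exact ((pv p).ord_neg 1).trans (pv p).ord_one

end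

end LOCT_

open LOCA_ LOCT_ in
theorem p_LOCT : T_LOCT := by
  intro ι _ _ A m R e P l H p _ j θ hθ κ k1 k2 k3 k4
  have hv : 0 ≤ θ.valuation := root_nonneg (A.monic j) hθ
  have hcne : (A.c : ℚ_[p]) ≠ 0 := by exact_mod_cast A.c_ne
  have hc : (A.c : ℚ_[p]).valuation = ∑ a, if l a = p then (1 : ℤ) else 0 := by
    rw [H.c_eq, ← Arith_.val_c l H.goodL.prime p]
    show (((∏ a, (l a : ℤ) : ℤ)) : ℚ_[p]).valuation = padicValRat p _
    rw [Padic.valuation_intCast, padicValRat.of_int]
  have hm : 0 < m := lt_of_lt_of_le (by norm_num) H.goodP.two_le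
  obtain ⟨hG, hD⟩ := Side.Del_ne_zero H.goodL ⟨0, hm⟩
  have hroot : ∀ t, e t = j → (∀ k, (V P θ k).valuation = 0) ∨
      ∃ k, θ ^ 2 = ((dd P k : ℤ) : ℚ_[p]) := by
    rintro t rfl
    obtain ⟨hh, hf, hd, -⟩ := H.host t
    rcases root_cases hf hd hv hθ with h | h
    · exact Or.inl h.2
    · exact Or.inr h
  -- the values and their valuations
  have kB : ∀ t b, e t = j → θ ^ 2 = ((dd P (some b) : ℤ) : ℚ_[p]) → κ t b ≠ 0 ∧
      (κ t b).valuation = (A.c : ℚ_[p]).valuation - (pr P p (some b)).valuation -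
        (df P p (some b) none).valuation := by
    intro t b ht h
    obtain ⟨q, ε, hq, hε, hκ⟩ := k3 t b ht h
    subst ht
    obtain ⟨hh, hf, hd, -⟩ := H.host t
    have e1 : κ t b = ε * A.c * (pr P p (some b))⁻¹ * (df P p (some b) none)⁻¹ := by
      rw [hκ, q_eval hf hd hq h]
      unfold df
      push_cast
      rw [mul_assoc, ← mul_inv, div_eq_mul_inv]
    have n1 := eps_ne (p := p) hε
    have n2 := pr_ne (p := p) H.goodP (some b)
    have n3 := df_ne (p := p) H.goodP (k := some b) (k' := none) (by simp)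
    rw [e1]
    refine ⟨mul_ne_zero (mul_ne_zero (mul_ne_zero n1 hcne) (inv_ne_zero n2)) (inv_ne_zero n3), ?_⟩
    rw [Padic.valuation_mul (mul_ne_zero (mul_ne_zero n1 hcne) (inv_ne_zero n2))
      (inv_ne_zero n3), Padic.valuation_mul (mul_ne_zero n1 hcne) (inv_ne_zero n2),
      Padic.valuation_mul n1 hcne, Padic.valuation_inv, Padic.valuation_inv, eps_val hε]
    ring
  have kC : ∀ t b, e t = j → θ ^ 2 = ((dd P none : ℤ) : ℚ_[p]) → κ t b ≠ 0 ∧
      (κ t b).valuation = (pr P p none).valuation + (df P p none (some b)).valuation -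
        (A.c : ℚ_[p]).valuation := by
    intro t b ht h
    obtain ⟨q, ε, hq, hε, hκ⟩ := k4 t b ht h
    subst ht
    obtain ⟨hh, hf, hd, -⟩ := H.host t
    have e1 : κ t b = ε * pr P p none * df P p none (some b) * (A.c : ℚ_[p])⁻¹ := by
      rw [hκ, q_eval hf hd hq h]
      unfold df
      push_cast
      rw [div_eq_mul_inv]
    have n1 := eps_ne (p := p) hε
    have n2 := pr_ne (p := p) H.goodP none
    have n3 := df_ne (p := p) H.goodP (k := none) (k' := some b) (by simp)
    rw [e1]
    refine ⟨mul_ne_zero (mul_ne_zero (mul_ne_zero n1 n2) n3) (inv_ne_zero hcne), ?_⟩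
    rw [Padic.valuation_mul (mul_ne_zero (mul_ne_zero n1 n2) n3) (inv_ne_zero hcne),
      Padic.valuation_mul (mul_ne_zero n1 n2) n3, Padic.valuation_mul n1 n2,
      Padic.valuation_inv, eps_val hε]
    ring
  have kA : ∀ t b, e t = j → θ ^ 2 ≠ ((dd P (some b) : ℤ) : ℚ_[p]) →
      θ ^ 2 ≠ ((dd P none : ℤ) : ℚ_[p]) → κ t b ≠ 0 ∧
      (κ t b).valuation = (V P θ (some b)).valuation - (V P θ none).valuation := by
    intro t b ht h1 h2
    have n1 : V P θ (some b) ≠ 0 := sub_ne_zero.2 h1
    have n2 : V P θ none ≠ 0 := sub_ne_zero.2 h2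
    have e1 : κ t b = V P θ (some b) * (V P θ none)⁻¹ := by
      rw [k2 t b ht h1 h2, div_eq_mul_inv]
      rfl
    rw [e1]
    refine ⟨mul_ne_zero n1 (inv_ne_zero n2), ?_⟩
    rw [Padic.valuation_mul n1 (inv_ne_zero n2), Padic.valuation_inv, sub_eq_add_neg]
  -- the factors at a root of `X² - d_k`
  have hV : ∀ k k', θ ^ 2 = ((dd P k : ℤ) : ℚ_[p]) → V P θ k' = df P p k k' := by
    intro k k' h
    unfold V df
    rw [h]
    push_cast
    rfl
  have hone : (1 : ℚ_[p]).valuation = 0 := (pv p).ord_one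
  refine ⟨?_, ?_, ?_⟩
  · intro t b
    by_cases ht : e t = j
    · by_cases h1 : θ ^ 2 = ((dd P (some b) : ℤ) : ℚ_[p])
      · exact (kB t b ht h1).1
      · by_cases h2 : θ ^ 2 = ((dd P none : ℤ) : ℚ_[p])
        · exact (kC t b ht h2).1
        · exact (kA t b ht h1 h2).1
    · rw [k1 t b ht]
      exact one_ne_zero
  · intro hp t b
    have hc0 : (A.c : ℚ_[p]).valuation = 0 := by
      rw [hc]
      exact Finset.sum_eq_zero fun a _ => if_neg (hp a)
    refine ⟨(κ t b).valuation, ?_, by rw [sub_self]; exact dvd_zero _⟩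
    have hGam : ((Gam P).factorization p : ℤ) =
        ((m : ℤ) + 1) * ((Del P).factorization p : ℤ) := by
      rw [Gam, Nat.factorization_pow]
      simp
    have hD0 : (0 : ℤ) ≤ ((Del P).factorization p : ℤ) := Int.natCast_nonneg _
    have hm2 : (2 : ℤ) ≤ (m : ℤ) := by exact_mod_cast H.goodP.two_le
    have hbig : 2 * ((Del P).factorization p : ℤ) ≤ ((Gam P).factorization p : ℤ) := by
      rw [hGam]
      nlinarith
    have hsm : ((Del P).factorization p : ℤ) ≤ ((Gam P).factorization p : ℤ) := by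
      linarith
    have hz : (0 : ℤ) ≤ ((Gam P).factorization p : ℤ) := by linarith
    by_cases ht : e t = j
    · by_cases h1 : θ ^ 2 = ((dd P (some b) : ℤ) : ℚ_[p])
      · rw [(kB t b ht h1).2, hc0, abs_le]
        have b1 := pr_bound (p := p) hD (some b)
        have b2 := df_bound (p := p) hD H.goodP (k := some b) (k' := none) (by simp)
        constructor
        · linarith [b1.2, b2.2]
        · linarith [b1.1, b2.1]
      · by_cases h2 : θ ^ 2 = ((dd P none : ℤ) : ℚ_[p])
        · rw [(kC t b ht h2).2, hc0, abs_le]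
          have b1 := pr_bound (p := p) hD none
          have b2 := df_bound (p := p) hD H.goodP (k := none) (k' := some b) (by simp)
          constructor
          · linarith [b1.1, b2.1]
          · linarith [b1.2, b2.2]
        · rw [(kA t b ht h1 h2).2]
          rcases hroot t ht with h3 | ⟨k, hk⟩
          · rw [h3, h3, sub_self, abs_zero]
            exact hz
          · rw [hV k _ hk, hV k _ hk, abs_le]
            have n1 : k ≠ some b := fun h => h1 (h ▸ hk)
            have n2 : k ≠ none := fun h => h2 (h ▸ hk)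
            have b1 := df_bound (p := p) hD H.goodP n1
            have b2 := df_bound (p := p) hD H.goodP n2
            constructor
            · linarith [b1.1, b1.2, b2.1, b2.2]
            · linarith [b1.1, b1.2, b2.1, b2.2]
    · rw [k1 t b ht, hone, abs_zero]
      exact hz
  · rintro a rfl
    have hc1 : (A.c : ℚ_[l a]).valuation = 1 := by
      rw [hc, Finset.sum_eq_single a]
      · simp
      · intro b _ hb
        rw [if_neg]
        exact fun h => hb (H.goodL.inj h)
      · intro h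
        exact absurd (Finset.mem_univ a) h
    obtain ⟨t₀, rfl⟩ : ∃ t, e t = j := by
      by_contra hi
      push Not at hi
      obtain ⟨z, hz⟩ := LOCA_.root_mod (A.f j) θ hv (Or.inl hθ)
      exact H.fill j hi a z hz
    obtain ⟨hh, hf, hd, hr⟩ := H.host t₀
    obtain ⟨k, hk⟩ : ∃ k, θ ^ 2 = ((dd P k : ℤ) : ℚ_[l a]) := by
      rcases root_cases hf hd hv hθ with h | h
      · exfalso
        obtain ⟨z, hz⟩ := LOCA_.root_mod hh θ hv (Or.inl h.1)
        exact hr a z hz
      · exact h
    have hka : k = some a := by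
      by_contra hne
      apply H.goodL.nsq a k hne
      obtain ⟨z, hz⟩ := LOCA_.root_mod (Polynomial.X ^ 2 - Polynomial.C (dd P k)) θ hv
        (Or.inl (by
          simp only [map_sub, map_pow, Polynomial.aeval_X, Polynomial.aeval_C]
          rw [hk]
          simp))
      refine ⟨z, ?_⟩
      simp only [map_sub, map_pow, Polynomial.aeval_X, Polynomial.aeval_C] at hz
      rw [← sq]
      have h5 := sub_eq_zero.1 hz
      rw [h5]
      simp
    subst hka
    -- the differences are units
    have hD0 : ((Del P).factorization (l a) : ℤ) = 0 := by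
      have h1 : ¬ l a ∣ Del P := by
        intro h
        exact H.goodL.ndvd a (h.trans (dvd_pow_self _ (Nat.succ_ne_zero m)))
      rw [Nat.factorization_eq_zero_of_not_dvd h1]
      rfl
    have hdf : ∀ k k' : Option (Fin m), k ≠ k' → (df P (l a) k k').valuation = 0 := by
      intro k k' hkk
      have b1 := df_bound (p := l a) hD H.goodP hkk
      rw [hD0] at b1
      exact le_antisymm b1.2 b1.1
    have hpr : ∀ k : Option (Fin m), (pr P (l a) k).valuation = 0 := by
      intro k
      have b1 := pr_bound (p := l a) hD k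
      rw [hD0] at b1
      exact le_antisymm b1.2 b1.1
    have hinj : ∀ k k' : Option (Fin m), k ≠ k' →
        ((dd P k : ℤ) : ℚ_[l a]) ≠ ((dd P k' : ℤ) : ℚ_[l a]) := by
      intro k k' hkk h
      exact hkk (F0_.dd_inj P H.goodP (by exact_mod_cast h))
    have hvb : ∀ b, a ≠ b → (κ t₀ b).valuation = 0 := by
      intro b hab
      have n1 : (some a : Option (Fin m)) ≠ some b := fun h => hab (Option.some_injective _ h)
      have n2 : (some a : Option (Fin m)) ≠ none := by simp
      rw [(kA t₀ b rfl (by rw [hk]; exact hinj _ _ n1) (by rw [hk]; exact hinj _ _ n2)).2,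
        hV _ _ hk, hV _ _ hk, hdf _ _ n1, hdf _ _ n2, sub_zero]
    refine ⟨t₀, fun t b => ⟨?_, ?_, ?_⟩⟩
    · rintro rfl
      by_cases hab : a = b
      · subst hab
        rw [if_pos rfl, (kB t a rfl hk).2, hc1, hpr, hdf _ _ (by simp)]
        norm_num
      · rw [if_neg hab, hvb b hab, sub_zero]
        exact dvd_zero _
    · intro ht
      rw [k1 t b fun h => ht (H.inj h), hone]
      exact dvd_zero _
    · rintro rfl hab
      obtain ⟨z, hz⟩ := exists_int (g := κ t b) (by rw [hvb b hab])
      refine ⟨z, hz, ?_⟩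
      have n1 : (some a : Option (Fin m)) ≠ some b := fun h => hab (Option.some_injective _ h)
      have n2 : (some a : Option (Fin m)) ≠ none := by simp
      have e0 := k2 t b rfl (by rw [hk]; exact hinj _ _ n1) (by rw [hk]; exact hinj _ _ n2)
      have e1 : z * ((dd P (some a) - dd P none : ℤ) : ℤ_[l a]) =
          ((dd P (some a) - dd P (some b) : ℤ) : ℤ_[l a]) := by
        apply PadicInt.ext
        push_cast
        rw [hz, e0, hk]
        exact div_mul_cancel₀ _ (sub_ne_zero.2 (hinj _ _ n2))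
      have e3 := congrArg (PadicInt.toZMod (p := l a)) e1
      rw [map_mul, map_intCast, map_intCast] at e3
      exact e3

end Pool.Agent.FDX
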