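import Pool.Agent.FDX.Targets2

/-!
# The local values at a point over `ℚ_p`
-/

open MvPolynomial

namespace Pool.Agent.FDX

open Pool.Agent.FD

theorem p_LOCV (h_RESK : T_RESK) (h_VALA : T_VALA) (h_VALT : T_VALT) (h_LOCA : T_LOCA)
    (h_LOCT : T_LOCT) : T_LOCV := by
  classical
  intro ι _ _ A C hC m R e P l hyp p _ w hw
  have hdvd : ∀ t, f0 P ∣ A.f (e t) := fun t => by
    obtain ⟨hh, h1, -, -⟩ := hyp.host t
    exact ⟨hh, h1⟩
  have hq : ∀ (t : Fin R) (k : Option (Fin m)), ∃ q : Polynomial ℤ,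
      A.f (e t) = (Polynomial.X ^ 2 - Polynomial.C (dd P k)) * q := by
    intro t k
    have h1 : (Polynomial.X ^ 2 - Polynomial.C (dd P k)) ∣ f0 P :=
      Finset.dvd_prod_of_mem (fun k => Polynomial.X ^ 2 - Polynomial.C (dd P k))
        (Finset.mem_univ k)
    exact h1.trans (hdvd t)
  rcases h_RESK ι A C hC ℚ_[p] w hw with ⟨j, θ, hθ, hx, hg, hneg⟩ | ⟨α, β, hE, hα, hβ⟩
  · obtain ⟨v1, v2, v3, v4⟩ := h_VALT ι A C hC m P hyp.goodP ℚ_[p] w j θ hθ hx hg hneg
    -- the values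
    have key : ∀ (t : Fin R) (b : Fin m), ∃ κ : ℚ_[p],
        (e t ≠ j → κ = 1) ∧
        (e t = j → θ ^ 2 ≠ ((dd P (some b) : ℤ) : ℚ_[p]) → θ ^ 2 ≠ ((dd P none : ℤ) : ℚ_[p]) →
          κ = (θ ^ 2 - ((dd P (some b) : ℤ) : ℚ_[p])) / (θ ^ 2 - ((dd P none : ℤ) : ℚ_[p]))) ∧
        (e t = j → θ ^ 2 = ((dd P (some b) : ℤ) : ℚ_[p]) → ∃ (q : Polynomial ℤ) (ε : ℤ),
          A.f j = (Polynomial.X ^ 2 - Polynomial.C (dd P (some b))) * q ∧ (ε = 1 ∨ ε = -1) ∧
          κ = ε * A.c / (Polynomial.aeval θ q * ((dd P (some b) : ℤ) - (dd P none : ℤ)))) ∧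
        (e t = j → θ ^ 2 = ((dd P none : ℤ) : ℚ_[p]) → ∃ (q : Polynomial ℤ) (ε : ℤ),
          A.f j = (Polynomial.X ^ 2 - Polynomial.C (dd P none)) * q ∧ (ε = 1 ∨ ε = -1) ∧
          κ = ε * Polynomial.aeval θ q * ((dd P none : ℤ) - (dd P (some b) : ℤ)) / A.c) ∧
        ∃ k : ℤ,
          w.ord (hf A C P (e t) b (AlgebraicClosure ℚ_[p]) *
            C.xF (AlgebraicClosure ℚ_[p]) ^ ((A.N (e t) : ℤ) * k)) = 0 ∧
          val w (hf A C P (e t) b (AlgebraicClosure ℚ_[p]) *
            C.xF (AlgebraicClosure ℚ_[p]) ^ ((A.N (e t) : ℤ) * k)) =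
            algebraMap ℚ_[p] (AlgebraicClosure ℚ_[p]) κ := by
      intro t b
      by_cases hj : e t = j
      · have hdd : dd P (some b) ≠ dd P none := by
          intro h
          have hP := hyp.goodP
          have h1 : (P b : ℤ) = ∏ k, (P k : ℤ) := h
          have h2 : P b = ∏ k, P k := by exact_mod_cast h1
          obtain ⟨b', hb'⟩ : ∃ b' : Fin m, b' ≠ b := by
            have := hP.two_le
            by_contra hcon
            push Not at hcon
            have h3 : (⟨0, by omega⟩ : Fin m) = ⟨1, by omega⟩ := by rw [hcon ⟨0, _⟩, hcon ⟨1, _⟩]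
            simp at h3
          have h3 : P b' ∣ P b := by
            conv_rhs => rw [h2]
            exact Finset.dvd_prod_of_mem P (Finset.mem_univ b')
          exact hb' (hP.inj ((Nat.prime_dvd_prime_iff_eq (hP.prime b') (hP.prime b)).1 h3))
        by_cases h1 : θ ^ 2 = ((dd P (some b) : ℤ) : ℚ_[p])
        · obtain ⟨q, hq1⟩ := hq t (some b)
          rw [hj] at hq1
          obtain ⟨o1, ε, hε, o2⟩ := v3 b q hq1 h1
          refine ⟨ε * A.c / (Polynomial.aeval θ q * ((dd P (some b) : ℤ) - (dd P none : ℤ))),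
            fun h => absurd hj h, fun _ h => absurd h1 h, fun _ _ => ⟨q, ε, hq1, hε, rfl⟩,
            fun _ h => ?_, 1, ?_, ?_⟩
          · exfalso
            rw [h1] at h
            exact hdd (by exact_mod_cast h)
          · rw [hj]; exact o1
          · rw [hj]; exact o2
        · by_cases h2 : θ ^ 2 = ((dd P none : ℤ) : ℚ_[p])
          · obtain ⟨q, hq1⟩ := hq t none
            rw [hj] at hq1
            obtain ⟨o1, ε, hε, o2⟩ := v4 b q hq1 h2
            refine ⟨ε * Polynomial.aeval θ q * ((dd P none : ℤ) - (dd P (some b) : ℤ)) / A.c,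
              fun h => absurd hj h, fun _ _ h => absurd h2 h, fun _ h => absurd h h1,
              fun _ _ => ⟨q, ε, hq1, hε, rfl⟩, -1, ?_, ?_⟩
            · rw [hj]; exact o1
            · rw [hj]; exact o2
          · obtain ⟨o1, o2⟩ := v2 b h1 h2
            refine ⟨_, fun h => absurd hj h, fun _ _ _ => rfl, fun _ h => absurd h h1,
              fun _ h => absurd h h2, 0, ?_, ?_⟩
            · rw [hj, mul_zero, zpow_zero, mul_one]; exact o1
            · rw [hj, mul_zero, zpow_zero, mul_one]; exact o2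
      · obtain ⟨o1, o2⟩ := v1 (e t) hj b
        refine ⟨1, fun _ => rfl, fun h => absurd h hj, fun h => absurd h hj,
          fun h => absurd h hj, 0, ?_, ?_⟩
        · rw [mul_zero, zpow_zero, mul_one]; exact o1
        · rw [mul_zero, zpow_zero, mul_one, map_one]; exact o2
    choose κ k1 k2 k3 k4 k5 using key
    refine ⟨κ, ?_, k5⟩
    exact h_LOCT ι A m R e P l hyp p j θ hθ κ k1 k2 k3 k4
  · refine ⟨_, h_LOCA ι A m R e P l hyp p α β hE, fun t b => ⟨0, ?_, ?_⟩⟩
    · rw [mul_zero, zpow_zero, mul_one]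
      exact (h_VALA ι A C hC m P ℚ_[p] w α β hE hα hβ (e t) (hdvd t) b).2.1
    · rw [mul_zero, zpow_zero, mul_one]
      exact (h_VALA ι A C hC m P ℚ_[p] w α β hE hα hβ (e t) (hdvd t) b).2.2

end Pool.Agent.FDX
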