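import Pool.Agent.FDX.Targets
import Pool.Agent.FD.CritB

set_option autoImplicit false

/-!
# FDX, LOCX: the local computation
-/

namespace Pool.Agent.FDX

open Pool.Agent.FD

namespace LOCX_

section basic

variable {C : Curve} {L : Type} [Field L] [CharZero L] [IsAlgClosed L]

lemma dv_mul {f g : C.FunField L} (hf : f ≠ 0) (hg : g ≠ 0) :
    dv (L := L) (f * g) = dv (L := L) f + dv (L := L) g :=
  funext fun v => v.ord_mul f g hf hg

lemma dv_inv (f : C.FunField L) : dv (L := L) f⁻¹ = - dv (L := L) f :=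
  funext fun v => v.toDV.ord_inv f

theorem ord_zpow (v : C.Pt L) (f : C.FunField L) (k : ℤ) : v.ord (f ^ k) = k * v.ord f := by
  cases k with
  | ofNat k =>
    rw [Int.ofNat_eq_natCast, zpow_natCast]
    exact v.toDV.ord_pow f k
  | negSucc k =>
    rw [zpow_negSucc]
    have h1 := v.toDV.ord_inv (f ^ (k + 1))
    have h2 := v.toDV.ord_pow f (k + 1)
    change v.ord (f ^ (k + 1))⁻¹ = - v.ord (f ^ (k + 1)) at h1
    change v.ord (f ^ (k + 1)) = ((k + 1 : ℕ) : ℤ) * v.ord f at h2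
    rw [h1, h2, Int.negSucc_eq]
    push_cast
    ring

lemma dv_zpow (f : C.FunField L) (k : ℤ) : dv (L := L) (f ^ k) = k • dv (L := L) f :=
  funext fun v => by
    change v.ord (f ^ k) = k • v.ord f
    rw [ord_zpow, smul_eq_mul]

lemma dv_pow (f : C.FunField L) (k : ℕ) : dv (L := L) (f ^ k) = k • dv (L := L) f := by
  have h := dv_zpow f (k : ℤ)
  rwa [zpow_natCast, natCast_zsmul] at h

lemma off_mul {A : C.Pt L → ℤ} {f g : C.FunField L} (hf : f ≠ 0) (hg : g ≠ 0) (h1 : Off A f)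
    (h2 : Off A g) : Off A (f * g) := fun v hv => by
  rw [v.ord_mul f g hf hg, h1 v hv, h2 v hv, add_zero]

lemma off_zpow {A : C.Pt L → ℤ} {f : C.FunField L} (k : ℤ) (h1 : Off A f) :
    Off A (f ^ k) := fun v hv => by
  rw [ord_zpow, h1 v hv, mul_zero]

lemma off_add {A B : C.Pt L → ℤ} {f : C.FunField L} (h1 : Off A f) (h2 : Off B f) :
    Off (A + B) f := fun v hv => by
  by_cases hA : A v = 0
  · exact h2 v fun hB => hv (by rw [Pi.add_apply, hA, hB, add_zero])
  · exact h1 v hA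

lemma off_neg {A : C.Pt L → ℤ} {f : C.FunField L} (h1 : Off A f) : Off (-A) f :=
  fun v hv => h1 v fun h0 => hv (by rw [Pi.neg_apply, h0, neg_zero])

lemma off_sub {A B : C.Pt L → ℤ} {f : C.FunField L} (h1 : Off A f) (h2 : Off B f) :
    Off (A - B) f := by
  rw [sub_eq_add_neg]
  exact off_add h1 (off_neg h2)

lemma off_nsmul {A : C.Pt L → ℤ} {f : C.FunField L} (k : ℕ) (h1 : Off A f) : Off (k • A) f :=
  fun v hv => h1 v fun h0 => hv (by rw [Pi.smul_apply, h0, smul_zero])

lemma off_zsmul {A : C.Pt L → ℤ} {f : C.FunField L} (k : ℤ) (h1 : Off A f) : Off (k • A) f :=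
  fun v hv => h1 v fun h0 => hv (by rw [Pi.smul_apply, h0, smul_zero])

lemma off_symm {f g : C.FunField L} (h : Off (dv (L := L) f) g) : Off (dv (L := L) g) f :=
  fun v hv => by
    by_contra h0
    exact hv (h v h0)

lemma fin_add {A B : C.Pt L → ℤ} (hA : (Function.support A).Finite)
    (hB : (Function.support B).Finite) : (Function.support (A + B)).Finite :=
  (hA.union hB).subset (Function.support_add A B)

lemma fin_neg {A : C.Pt L → ℤ} (hA : (Function.support A).Finite) :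
    (Function.support (-A)).Finite := by
  rw [Function.support_neg]
  exact hA

lemma fin_sub {A B : C.Pt L → ℤ} (hA : (Function.support A).Finite)
    (hB : (Function.support B).Finite) : (Function.support (A - B)).Finite := by
  rw [sub_eq_add_neg]
  exact fin_add hA (fin_neg hB)

lemma fin_nsmul {A : C.Pt L → ℤ} (k : ℕ) (hA : (Function.support A).Finite) :
    (Function.support (k • A)).Finite :=
  hA.subset fun v hv h0 => hv (by rw [Pi.smul_apply, h0, smul_zero])

lemma fin_zsmul {A : C.Pt L → ℤ} (k : ℤ) (hA : (Function.support A).Finite) :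
    (Function.support (k • A)).Finite :=
  hA.subset fun v hv h0 => hv (by rw [Pi.smul_apply, h0, smul_zero])

variable {L' : Type} [Field L'] [CharZero L'] [IsAlgClosed L']

theorem push_sub (j : L →+* L') (D E : C.Pt L → ℤ) :
    C.push j (D - E) = C.push j D - C.push j E := by
  funext w
  simp only [Curve.push, Pi.sub_apply]
  split_ifs with h
  · rfl
  · ring

theorem push_add (j : L →+* L') (D E : C.Pt L → ℤ) :
    C.push j (D + E) = C.push j D + C.push j E := by
  funext w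
  simp only [Curve.push, Pi.add_apply]
  split_ifs with h
  · rfl
  · ring

theorem push_zsmul (j : L →+* L') (m : ℤ) (D : C.Pt L → ℤ) :
    C.push j (m • D) = m • C.push j D := by
  funext w
  simp only [Curve.push, Pi.smul_apply, smul_eq_mul]
  split_ifs with h
  · rfl
  · ring

theorem push_nsmul (j : L →+* L') (m : ℕ) (D : C.Pt L → ℤ) :
    C.push j (m • D) = m • C.push j D := by
  have h := push_zsmul j (m : ℤ) D
  rwa [natCast_zsmul, natCast_zsmul] at h

lemma prin_eq {D : C.Pt L → ℤ} (h : Curve.IsPrin D) : ∃ f : C.FunField L, f ≠ 0 ∧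
    D = dv (L := L) f := by
  obtain ⟨f, hf, h1⟩ := h
  exact ⟨f, hf, funext h1⟩

end basic

section evs

variable {C : Curve} {L : Type} [Field L] [CharZero L] [IsAlgClosed L]
  (hEV : T_EV) (hFF : T_FF)

include hEV hFF

lemma ev_ne (f : C.FunField L) (A : C.Pt L → ℤ) : ev f A ≠ 0 :=
  (hEV L (C.FunField L) (hFF C L)).2.2.2.1 f A

lemma ev_add (f : C.FunField L) {A A' : C.Pt L → ℤ} (hA : (Function.support A).Finite)
    (hA' : (Function.support A').Finite) : ev f (A + A') = ev f A * ev f A' :=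
  (hEV L (C.FunField L) (hFF C L)).2.2.2.2.1 f A A' hA hA'

lemma ev_zsmul (f : C.FunField L) {A : C.Pt L → ℤ} (k : ℤ)
    (hA : (Function.support A).Finite) : ev f (k • A) = ev f A ^ k :=
  (hEV L (C.FunField L) (hFF C L)).2.2.2.2.2.1 f A k hA

lemma ev_nsmul (f : C.FunField L) {A : C.Pt L → ℤ} (k : ℕ)
    (hA : (Function.support A).Finite) : ev f (k • A) = ev f A ^ k := by
  have h := ev_zsmul hEV hFF f (k : ℤ) hA
  rwa [natCast_zsmul, zpow_natCast] at h

lemma ev_neg (f : C.FunField L) {A : C.Pt L → ℤ} (hA : (Function.support A).Finite) :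
    ev f (-A) = (ev f A)⁻¹ := by
  have h := ev_zsmul hEV hFF f (-1) hA
  rwa [neg_one_smul, zpow_neg_one] at h

lemma ev_mul {f g : C.FunField L} {A : C.Pt L → ℤ} (hA : (Function.support A).Finite)
    (hf : f ≠ 0) (hg : g ≠ 0) (h1 : Off A f) (h2 : Off A g) :
    ev (f * g) A = ev f A * ev g A :=
  (hEV L (C.FunField L) (hFF C L)).2.2.2.2.2.2.1 f g A hA hf hg h1 h2

lemma ev_zpow {f : C.FunField L} {A : C.Pt L → ℤ} (k : ℤ) (hA : (Function.support A).Finite)
    (hf : f ≠ 0) (h1 : Off A f) : ev (f ^ k) A = ev f A ^ k :=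
  (hEV L (C.FunField L) (hFF C L)).2.2.2.2.2.2.2.1 f A k hA hf h1

lemma ev_inv {f : C.FunField L} {A : C.Pt L → ℤ} (hA : (Function.support A).Finite)
    (hf : f ≠ 0) (h1 : Off A f) : ev f⁻¹ A = (ev f A)⁻¹ := by
  have h := ev_zpow hEV hFF (-1) hA hf h1
  rwa [zpow_neg_one, zpow_neg_one] at h

omit hEV hFF in
lemma ev_single (f : C.FunField L) (P : C.Pt L) : ev f (Curve.single P) = val P f := by
  unfold ev
  rw [finprod_eq_single _ P]
  · unfold Curve.single
    rw [if_pos rfl, zpow_one]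
  · intro v hv
    unfold Curve.single
    rw [if_neg hv, zpow_zero]

end evs

section galois

lemma normal_qbar : Normal ℚ Curve.Qbar := by
  have key : @Normal ℚ (AlgebraicClosure ℚ) _ _ (AlgebraicClosure.instAlgebra ℚ) :=
    @IsAlgClosure.normal ℚ (AlgebraicClosure ℚ) _ _ (AlgebraicClosure.instAlgebra ℚ)
      (@AlgebraicClosure.instIsAlgClosure ℚ _)
  have e : (AlgebraicClosure.instAlgebra ℚ : Algebra ℚ (AlgebraicClosure ℚ)) =
      DivisionRing.toRatAlgebra := Subsingleton.elim _ _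
  rw [e] at key
  exact key

/-- the restriction of an automorphism along an embedding of the algebraic numbers -/
lemma exists_restrict (K : Type) [Field K] [CharZero K]
    (j : Curve.Qbar →+* AlgebraicClosure K)
    (σ : AlgebraicClosure K ≃ₐ[K] AlgebraicClosure K) :
    ∃ τ : Curve.Qbar ≃ₐ[ℚ] Curve.Qbar, ∀ z, j (τ z) = σ (j z) := by
  let _ : Algebra Curve.Qbar (AlgebraicClosure K) := j.toAlgebra
  have hst : IsScalarTower ℚ Curve.Qbar (AlgebraicClosure K) :=
    IsScalarTower.of_algebraMap_eq' (Subsingleton.elim _ _)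
  have hnor : Normal ℚ Curve.Qbar := normal_qbar
  let σ' : AlgebraicClosure K ≃ₐ[ℚ] AlgebraicClosure K :=
    AlgEquiv.ofRingEquiv (f := σ.toRingEquiv) (fun r => by simp)
  refine ⟨σ'.restrictNormal Curve.Qbar, fun z => ?_⟩
  exact σ'.restrictNormal_commutes Curve.Qbar z

lemma rat_of_fixed (K : Type) [Field K] [CharZero K] (θ : AlgebraicClosure K)
    (h : ∀ σ : AlgebraicClosure K ≃ₐ[K] AlgebraicClosure K, σ θ = θ) :
    ∃ r : K, algebraMap K (AlgebraicClosure K) r = θ := by
  have hG : IsGalois K (AlgebraicClosure K) := IsAlgClosure.isGalois K (AlgebraicClosure K)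
  have h2 : θ ∈ (⊥ : IntermediateField K (AlgebraicClosure K)) :=
    (InfiniteGalois.mem_bot_iff_fixed θ).2 h
  exact IntermediateField.mem_bot.1 h2

end galois

/-! ### computations over the algebraic numbers -/

section base

variable {C : Curve} {n : ℕ} {X : C.Covering n} {h u : C.FunField Curve.Qbar}
  (hEV : T_EV) (hFF : T_FF) (hWEIL : T_WEIL) (hPU : T_PUSHX) (hFIN : T_FIN)

include hEV hFF in
lemma ev_hk (hh : h ≠ 0) (hu : u ≠ 0) (N : ℕ) (k : ℤ)
    {A : C.Pt Curve.Qbar → ℤ} (hA : (Function.support A).Finite) (h1 : Off A h)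
    (h2 : Off A u) : ev (h * u ^ (N * k : ℤ)) A = ev h A * ev u A ^ (N * k : ℤ) := by
  rw [ev_mul hEV hFF hA hh (zpow_ne_zero _ hu) h1 (off_zpow _ h2),
    ev_zpow hEV hFF _ hA hu h2]

include hEV hFF hWEIL hPU hFIN in
lemma tau_y (c : Choice C n X h u) (hu : u ≠ 0) (hIu : Inv C u)
    (τ : Curve.Qbar ≃ₐ[ℚ] Curve.Qbar) :
    τ (ev u c.D) = ev u c.D * (ev u (c.ξ τ) ^ n * ev (c.φ τ) (dv (L := Curve.Qbar) u)) := by
  have hp := hPU C Curve.Qbar Curve.Qbar (τ : Curve.Qbar →+* Curve.Qbar)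
  have h1 := hp.2.2.1 c.D u c.hD.1 hu
  rw [hIu τ] at h1
  have h2 : C.push (τ : Curve.Qbar →+* Curve.Qbar) c.D =
      c.D + (n • c.ξ τ + dv (L := Curve.Qbar) (c.φ τ)) := by
    rw [← c.rel τ]
    abel
  have hfin : (Function.support (dv (L := Curve.Qbar) (c.φ τ))).Finite :=
    hFIN Curve.Qbar (C.FunField Curve.Qbar) (hFF C Curve.Qbar) (c.φ τ) (c.hφ τ)
  have h3 : ev u (dv (L := Curve.Qbar) (c.φ τ)) = ev (c.φ τ) (dv (L := Curve.Qbar) u) :=
    hWEIL Curve.Qbar (C.FunField Curve.Qbar) (hFF C Curve.Qbar) u (c.φ τ) hu (c.hφ τ)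
      (c.offφ τ).2
  rw [h2, ev_add hEV hFF u c.hD.1 (fin_add (fin_nsmul n (c.hξ τ).1) hfin),
    ev_add hEV hFF u (fin_nsmul n (c.hξ τ).1) hfin, ev_nsmul hEV hFF u n (c.hξ τ).1, h3] at h1
  exact h1.symm

include hEV hFF hFIN in
lemma bb_mul (c : Choice C n X h u) (hh : h ≠ 0) (hu : u ≠ 0) (N m : ℕ) (hN : 1 ≤ N)
    (hnm : n = N * m) (B : C.Pt Curve.Qbar → ℤ) (hB : ∀ v, (N : ℤ) * B v = v.ord h) (k : ℤ)
    (τ : Curve.Qbar ≃ₐ[ℚ] Curve.Qbar) :
    bb c m B τ * (ev u (c.ξ τ) ^ n * ev (c.φ τ) (dv (L := Curve.Qbar) u)) ^ k =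
      ev (h * u ^ (N * k : ℤ)) (c.ξ τ) ^ m *
        ev (c.φ τ) (B + k • dv (L := Curve.Qbar) u) := by
  have hfinu : (Function.support (dv (L := Curve.Qbar) u)).Finite :=
    hFIN Curve.Qbar (C.FunField Curve.Qbar) (hFF C Curve.Qbar) u hu
  have hfinB : (Function.support B).Finite := by
    refine (hFIN Curve.Qbar (C.FunField Curve.Qbar) (hFF C Curve.Qbar) h hh).subset ?_
    intro v hv h0
    have h1 := hB v
    rw [h0] at h1
    rcases mul_eq_zero.1 h1 with h2 | h2
    · have : N = 0 := by exact_mod_cast h2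
      omega
    · exact hv h2
  rw [ev_hk hEV hFF hh hu N k (c.hξ τ).1 (c.offξ τ).1 (c.offξ τ).2,
    ev_add hEV hFF (c.φ τ) hfinB (fin_zsmul k hfinu), ev_zsmul hEV hFF (c.φ τ) k hfinu]
  unfold bb
  have h3 : (ev u (c.ξ τ) ^ n) ^ k = (ev u (c.ξ τ) ^ (N * k : ℤ)) ^ m := by
    rw [← zpow_natCast (ev u (c.ξ τ)) n, ← zpow_mul,
      ← zpow_natCast (ev u (c.ξ τ) ^ (N * k : ℤ)) m, ← zpow_mul]
    congr 1
    have hn' : (n : ℤ) = N * m := by exact_mod_cast hnm
    rw [hn']
    ring
  rw [mul_zpow, h3, mul_pow]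
  ring

include hPU in
/-- the divisor of a function with orders divisible by `N`, after base change -/
lemma push_B (hh : h ≠ 0) (hu : u ≠ 0) (N : ℕ) (B : C.Pt Curve.Qbar → ℤ)
    (hB : ∀ v, (N : ℤ) * B v = v.ord h) (k : ℤ) {L' : Type} [Field L'] [CharZero L']
    [IsAlgClosed L'] (j : Curve.Qbar →+* L') :
    (N : ℤ) • C.push j (B + k • dv (L := Curve.Qbar) u) =
      dv (L := L') (C.mapFun j (h * u ^ (N * k : ℤ))) := by
  have h1 : (N : ℤ) • (B + k • dv (L := Curve.Qbar) u) =
      dv (L := Curve.Qbar) (h * u ^ (N * k : ℤ)) := by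
    rw [dv_mul hh (zpow_ne_zero _ hu), dv_zpow]
    funext v
    change (N : ℤ) * (B v + k * v.ord u) = v.ord h + (N * k : ℤ) * v.ord u
    rw [← hB v]
    ring
  rw [← push_zsmul, h1]
  exact (hPU C Curve.Qbar L' j).1 _ (mul_ne_zero hh (zpow_ne_zero _ hu))

end base

end LOCX_

open LOCX_ in
theorem p_LOCX (hFF : T_FF) (hWEIL : T_WEIL) (hEV : T_EV) (hMOVE : T_MOVE) (hKEY : T_KEY)
    (hPU : T_PUSHX) (hFIN : T_FIN) : T_LOCX := by
  intro C n N m X h u B c w δ hh hu hIh hIu hN hnm hB hw hbb hδ K _ _ j P a hPr ha hprin htw k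
    hPk
  have hFF' : FF (AlgebraicClosure K) (C.FunField (AlgebraicClosure K)) :=
    hFF C (AlgebraicClosure K)
  have hpj := hPU C Curve.Qbar (AlgebraicClosure K) j
  set hk : C.FunField Curve.Qbar := h * u ^ (N * k : ℤ) with hkdef
  have hk0 : hk ≠ 0 := mul_ne_zero hh (zpow_ne_zero _ hu)
  set h' : C.FunField (AlgebraicClosure K) := C.mapFun j hk with h'def
  have h'0 : h' ≠ 0 := (map_ne_zero _).2 hk0
  set Bk : C.Pt Curve.Qbar → ℤ := B + k • dv (L := Curve.Qbar) u with hBk
  set B' : C.Pt (AlgebraicClosure K) → ℤ := C.push j Bk with hB'def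
  have hB' : (N : ℤ) • B' = dv (L := AlgebraicClosure K) h' :=
    push_B hPU hh hu N B hB k j
  have hB'v : ∀ v, (N : ℤ) * B' v = v.ord h' := fun v => congrFun hB' v
  have hfin' : ∀ f : C.FunField (AlgebraicClosure K), f ≠ 0 →
      (Function.support (dv (L := AlgebraicClosure K) f)).Finite := fun f hf =>
    hFIN (AlgebraicClosure K) (C.FunField (AlgebraicClosure K)) hFF' f hf
  have hBh : ∀ v, B' v ≠ 0 → v.ord h' ≠ 0 := by
    intro v hv h0
    have h1 := hB'v v
    rw [h0] at h1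
    rcases mul_eq_zero.1 h1 with h2 | h2
    · have : N = 0 := by exact_mod_cast h2
      omega
    · exact hv h2
  have hfinB : (Function.support B').Finite := (hfin' h' h'0).subset fun v hv => hBh v hv
  -- off the support of `h'` means off `B'`
  have hoffB : ∀ f : C.FunField (AlgebraicClosure K),
      Off (dv (L := AlgebraicClosure K) h') f → Off B' f := fun f hf v hv => hf v (hBh v hv)
  have hoffk : ∀ A : C.Pt Curve.Qbar → ℤ, Off A h → Off A u → Off (C.push j A) h' := by
    intro A h1 h2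
    exact hpj.2.2.2 A hk (off_mul hh (zpow_ne_zero _ hu) h1 (off_zpow _ h2))
  -- the divisor `D'`
  set D' : C.Pt (AlgebraicClosure K) → ℤ := C.push j c.D with hD'
  have hD'deg : Curve.IsDivOfDegree D' 1 := hpj.2.1 c.D 1 c.hD
  have hD'off : Off D' h' := hoffk c.D c.offD.1 c.offD.2
  -- the moved class
  obtain ⟨ψ0, hψ0, hfina, ha0⟩ := hMOVE (AlgebraicClosure K) (C.FunField (AlgebraicClosure K))
    hFF' a ha.1 {v | v.ord h' ≠ 0} (hfin' h' h'0)
  set a' : C.Pt (AlgebraicClosure K) → ℤ := a + dv (L := AlgebraicClosure K) ψ0 with ha'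
  have ha'off : Off a' h' := fun v hv => by
    by_contra h0
    exact hv (ha0 v h0)
  -- the function `φ`
  obtain ⟨g0, hg0, hg0e⟩ := prin_eq hprin
  obtain ⟨g1, hg1, hg1e⟩ := prin_eq c.hDX
  have hg1' : C.mapFun j g1 ≠ 0 := (map_ne_zero _).2 hg1
  set φ : C.FunField (AlgebraicClosure K) := g0 * ((ψ0 ^ n)⁻¹ * (C.mapFun j g1)⁻¹) with hφ
  have hφ0 : φ ≠ 0 := mul_ne_zero hg0 (mul_ne_zero (inv_ne_zero (pow_ne_zero n hψ0))
    (inv_ne_zero hg1'))
  have hdvφ : dv (L := AlgebraicClosure K) φ = Curve.single P - n • a' - D' := by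
    have e1 : dv (L := AlgebraicClosure K) (C.mapFun j g1) = D' - C.push j X.D := by
      rw [← hpj.1 g1 hg1, ← hg1e, push_sub]
    rw [hφ, dv_mul hg0 (mul_ne_zero (inv_ne_zero (pow_ne_zero n hψ0)) (inv_ne_zero hg1')),
      dv_mul (inv_ne_zero (pow_ne_zero n hψ0)) (inv_ne_zero hg1'), dv_inv, dv_inv, dv_pow, e1,
      ← hg0e, ha', smul_add]
    abel
  have hsingle : Curve.single P = n • a' + (D' + dv (L := AlgebraicClosure K) φ) := by
    rw [hdvφ]
    abel
  have hPoff : Off (Curve.single P) h' := by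
    intro v hv
    have h1 : v = P := by
      by_contra h2
      apply hv
      unfold Curve.single
      exact if_neg h2
    rw [h1]
    exact hPk
  have hφoff : Off (dv (L := AlgebraicClosure K) φ) h' := by
    rw [hdvφ]
    exact off_sub (off_sub hPoff (off_nsmul n ha'off)) hD'off
  have hφoff' : Off (dv (L := AlgebraicClosure K) h') φ := off_symm hφoff
  -- the value
  set e0 : AlgebraicClosure K := j (w * ev u c.D ^ k) * ev h' a' ^ m * ev φ B' with he0
  have hval : val P h' = algebraMap K (AlgebraicClosure K) (δ : K) * e0 ^ N := by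
    have e1 : ev h' (dv (L := AlgebraicClosure K) φ) = ev φ B' ^ N := by
      have e2 := hWEIL (AlgebraicClosure K) (C.FunField (AlgebraicClosure K)) hFF' h' φ h'0 hφ0
        hφoff'
      rw [e2, ← hB', ev_zsmul hEV hFF φ N hfinB, zpow_natCast]
    have e3 : ev h' D' = j (ev h c.D * ev u c.D ^ (N * k : ℤ)) := by
      rw [← ev_hk hEV hFF hh hu N k c.hD.1 c.offD.1 c.offD.2]
      exact hpj.2.2.1 c.D hk c.hD.1 hk0
    have e4 : j (algebraMap ℚ Curve.Qbar δ) = algebraMap K (AlgebraicClosure K) (δ : K) := by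
      simp
    have e5 : (ev u c.D ^ k) ^ N = ev u c.D ^ (N * k : ℤ) := by
      rw [← zpow_natCast, ← zpow_mul, mul_comm k]
    rw [← ev_single, hsingle, ev_add hEV hFF h' (fin_nsmul n hfina)
      (fin_add hD'deg.1 (hfin' φ hφ0)), ev_add hEV hFF h' hD'deg.1 (hfin' φ hφ0),
      ev_nsmul hEV hFF h' n hfina, e1, e3, hδ, map_mul, map_mul, e4, he0, mul_pow, mul_pow,
      ← map_pow j (w * ev u c.D ^ k) N, mul_pow w, e5, map_mul, ← pow_mul, mul_comm m N]
    have e6 : ev h' a' ^ n = ev h' a' ^ (N * m) := congrArg (fun t => ev h' a' ^ t) hnm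
    rw [e6]
    ring
  have he00 : e0 ≠ 0 := by
    refine mul_ne_zero (mul_ne_zero ?_ (pow_ne_zero m (ev_ne hEV hFF h' a')))
      (ev_ne hEV hFF φ B')
    exact (map_ne_zero j).2 (mul_ne_zero hw (zpow_ne_zero k (ev_ne hEV hFF u c.D)))
  -- Galois invariance
  have hgal : ∀ σ : AlgebraicClosure K ≃ₐ[K] AlgebraicClosure K, σ e0 = e0 := by
    intro σ
    obtain ⟨τ, hτ⟩ := exists_restrict K j σ
    set s : AlgebraicClosure K →+* AlgebraicClosure K := (σ : AlgebraicClosure K →+*
      AlgebraicClosure K) with hs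
    set t : Curve.Qbar →+* Curve.Qbar := (τ : Curve.Qbar →+* Curve.Qbar) with ht
    have hst : s.comp j = j.comp t := RingHom.ext fun z => (hτ z).symm
    have hps := hPU C (AlgebraicClosure K) (AlgebraicClosure K) s
    have hpt := hPU C Curve.Qbar Curve.Qbar t
    have hinvk : C.mapFun t hk = hk := by
      rw [hkdef, map_mul, map_zpow₀, hIh τ, hIu τ]
    have hinv : C.mapFun s h' = h' := by
      rw [h'def, CritB.mapFun_comp, hst, ← CritB.mapFun_comp, hinvk]
    have hpush : ∀ A : C.Pt Curve.Qbar → ℤ,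
        C.push s (C.push j A) = C.push j (C.push t A) := by
      intro A
      rw [CritB.push_comp, hst, ← CritB.push_comp]
    have hBinv : C.push s B' = B' := by
      have h1 : (N : ℤ) • C.push s B' = (N : ℤ) • B' := by
        rw [← push_zsmul, hB', hps.1 h' h'0, hinv]
      funext v
      have h2 : (N : ℤ) * C.push s B' v = (N : ℤ) * B' v := congrFun h1 v
      exact mul_left_cancel₀ (by exact_mod_cast (by omega : N ≠ 0)) h2
    have hoffs : ∀ A : C.Pt (AlgebraicClosure K) → ℤ, Off A h' → Off (C.push s A) h' := by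
      intro A hA
      have h1 := hps.2.2.2 A h' hA
      rwa [hinv] at h1
    have hfins : ∀ (A : C.Pt (AlgebraicClosure K) → ℤ) (d : ℤ), Curve.IsDivOfDegree A d →
        (Function.support (C.push s A)).Finite := fun A d hA => (hps.2.1 A d hA).1
    -- finite support of the image of `a'`
    have hfina' : (Function.support (C.push s a')).Finite :=
      hfins a' _ ⟨hfina, rfl⟩
    have hφτ0 : C.mapFun j (c.φ τ) ≠ 0 := (map_ne_zero _).2 (c.hφ τ)
    have hσφ0 : C.mapFun s φ ≠ 0 := (map_ne_zero _).2 hφ0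
    have hξfin : (Function.support (C.push j (c.ξ τ))).Finite :=
      (hpj.2.1 (c.ξ τ) 0 (c.hξ τ)).1
    have hξoff : Off (C.push j (c.ξ τ)) h' := hoffk (c.ξ τ) (c.offξ τ).1 (c.offξ τ).2
    have hφτoff : Off (dv (L := AlgebraicClosure K) h') (C.mapFun j (c.φ τ)) := by
      refine off_symm ?_
      rw [← hpj.1 (c.φ τ) (c.hφ τ)]
      exact hoffk _ (off_symm (c.offφ τ).1) (off_symm (c.offφ τ).2)
    have hσφoff : Off (dv (L := AlgebraicClosure K) h') (C.mapFun s φ) := by
      refine off_symm ?_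
      rw [← hps.1 φ hφ0]
      exact hoffs _ hφoff
    -- the key lemma
    set A : C.Pt (AlgebraicClosure K) → ℤ := C.push s a' + (-a' + C.push j (c.ξ τ)) with hA
    set φ2 : C.FunField (AlgebraicClosure K) := C.mapFun s φ * (φ⁻¹ * C.mapFun j (c.φ τ))
      with hφ2
    have hkey : ev h' A ^ m * ev φ2 B' = 1 := by
      obtain ⟨g2, hg2, hg2e⟩ := prin_eq (htw σ τ hτ)
      obtain ⟨g3, hg3, hg3e⟩ := prin_eq (c.hξX τ)
      have hsψ0 : C.mapFun s ψ0 ≠ 0 := (map_ne_zero _).2 hψ0
      have hg3' : C.mapFun j g3 ≠ 0 := (map_ne_zero _).2 hg3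
      have hψ : C.mapFun s ψ0 * (ψ0⁻¹ * (C.mapFun j g3 * g2)) ≠ 0 :=
        mul_ne_zero hsψ0 (mul_ne_zero (inv_ne_zero hψ0) (mul_ne_zero hg3' hg2))
      refine hKEY (AlgebraicClosure K) (C.FunField (AlgebraicClosure K)) hFF' h' N m B' h'0 hN
        hB'v A φ2 (C.mapFun s ψ0 * (ψ0⁻¹ * (C.mapFun j g3 * g2)))
        (mul_ne_zero hσφ0 (mul_ne_zero (inv_ne_zero hφ0) hφτ0)) hψ ?_ ?_ ?_ ?_
      · intro v
        refine congrFun (?_ : A = dv (L := AlgebraicClosure K)
          (C.mapFun s ψ0 * (ψ0⁻¹ * (C.mapFun j g3 * g2)))) v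
        rw [dv_mul hsψ0 (mul_ne_zero (inv_ne_zero hψ0) (mul_ne_zero hg3' hg2)),
          dv_mul (inv_ne_zero hψ0) (mul_ne_zero hg3' hg2), dv_mul hg3' hg2, dv_inv,
          ← hps.1 ψ0 hψ0, ← hpj.1 g3 hg3, ← hg3e, ← hg2e, hA, ha', push_add, push_sub]
        abel
      · exact off_add (hoffs a' ha'off) (off_add (off_neg ha'off) hξoff)
      · have h1 : Off (dv (L := AlgebraicClosure K) h') φ⁻¹ := by
          have h2 := off_zpow (-1) hφoff'
          rwa [zpow_neg_one] at h2
        exact off_mul hσφ0 (mul_ne_zero (inv_ne_zero hφ0) hφτ0) hσφoff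
          (off_mul (inv_ne_zero hφ0) hφτ0 h1 hφτoff)
      · intro v
        have h3 : n • A + dv (L := AlgebraicClosure K) φ2 = 0 := by
          have h4 : Curve.single P = n • C.push s a' + (C.push s D' +
              dv (L := AlgebraicClosure K) (C.mapFun s φ)) := by
            have h5 := congrArg (C.push s) hsingle
            rw [CritB.push_single C K P hPr σ, push_add, push_add, push_nsmul,
              hps.1 φ hφ0] at h5
            exact h5
          have h6 : C.push s D' = D' + (n • C.push j (c.ξ τ) +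
              dv (L := AlgebraicClosure K) (C.mapFun j (c.φ τ))) := by
            have h7 : C.push t c.D = c.D + (n • c.ξ τ + dv (L := Curve.Qbar) (c.φ τ)) := by
              rw [← c.rel τ]
              abel
            rw [hD', hpush, h7, push_add, push_add, push_nsmul, hpj.1 (c.φ τ) (c.hφ τ)]
          rw [hφ2, dv_mul hσφ0 (mul_ne_zero (inv_ne_zero hφ0) hφτ0),
            dv_mul (inv_ne_zero hφ0) hφτ0, dv_inv, hA, smul_add, smul_add, smul_neg]
          have h8 := h4.symm.trans hsingle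
          rw [h6] at h8
          have h9 : dv (L := AlgebraicClosure K) (C.mapFun s φ) = n • a' +
              (D' + dv (L := AlgebraicClosure K) φ) - n • C.push s a' - D' -
              (n • C.push j (c.ξ τ) + dv (L := AlgebraicClosure K) (C.mapFun j (c.φ τ))) := by
            rw [← h8]
            abel
          rw [h9]
          abel
        have h10 : n • A v + v.ord φ2 = 0 := congrFun h3 v
        rw [nsmul_eq_mul] at h10
        have h11 : (n : ℤ) = N * m := by exact_mod_cast hnm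
        rw [h11] at h10
        exact h10
    -- expansion of the key lemma
    have hkey2 : (ev h' (C.push s a') ^ m * ((ev h' a')⁻¹ ^ m * ev h' (C.push j (c.ξ τ)) ^ m)) *
        (ev (C.mapFun s φ) B' * ((ev φ B')⁻¹ * ev (C.mapFun j (c.φ τ)) B')) = 1 := by
      have h1 : ev h' A = ev h' (C.push s a') * ((ev h' a')⁻¹ * ev h' (C.push j (c.ξ τ))) := by
        rw [hA, ev_add hEV hFF h' hfina' (fin_add (fin_neg hfina) hξfin),
          ev_add hEV hFF h' (fin_neg hfina) hξfin, ev_neg hEV hFF h' hfina]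
      have h2 : Off B' φ⁻¹ := by
        have h3 := off_zpow (-1) (hoffB φ hφoff')
        rwa [zpow_neg_one] at h3
      have h4 : ev φ2 B' = ev (C.mapFun s φ) B' *
          ((ev φ B')⁻¹ * ev (C.mapFun j (c.φ τ)) B') := by
        rw [hφ2, ev_mul hEV hFF hfinB hσφ0 (mul_ne_zero (inv_ne_zero hφ0) hφτ0)
          (hoffB _ hσφoff) (off_mul (inv_ne_zero hφ0) hφτ0 h2 (hoffB _ hφτoff)),
          ev_mul hEV hFF hfinB (inv_ne_zero hφ0) hφτ0 h2 (hoffB _ hφτoff),
          ev_inv hEV hFF hfinB hφ0 (hoffB φ hφoff')]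
      rw [← hkey, h1, h4, mul_pow, mul_pow]
    -- the action on `e0`
    have hσ1 : σ (ev h' a') = ev h' (C.push s a') := by
      have h1 := hps.2.2.1 a' h' hfina h'0
      rw [hinv] at h1
      exact h1.symm
    have hσ2 : σ (ev φ B') = ev (C.mapFun s φ) B' := by
      have h1 := hps.2.2.1 B' φ hfinB hφ0
      rw [hBinv] at h1
      exact h1.symm
    have hτw : τ w = bb c m B τ * w := by
      rw [hbb τ, div_mul_cancel₀ _ hw]
    have hτy := tau_y hEV hFF hWEIL hPU hFIN c hu hIu τ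
    have hbm := bb_mul hEV hFF hFIN c hh hu N m hN hnm B hB k τ
    have hσ3 : σ (j (w * ev u c.D ^ k)) = j (w * ev u c.D ^ k) *
        (ev h' (C.push j (c.ξ τ)) ^ m * ev (C.mapFun j (c.φ τ)) B') := by
      have h1 : σ (j (w * ev u c.D ^ k)) = j (τ (w * ev u c.D ^ k)) := (hτ _).symm
      have h2 : τ (w * ev u c.D ^ k) = w * ev u c.D ^ k *
          (ev hk (c.ξ τ) ^ m * ev (c.φ τ) Bk) := by
        rw [map_mul, map_zpow₀, hτw, hτy, mul_zpow, ← hbm]
        ring
      have hBkfin : (Function.support Bk).Finite := by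
        have h3 : (Function.support B).Finite := by
          refine (hFIN Curve.Qbar (C.FunField Curve.Qbar) (hFF C Curve.Qbar) h hh).subset ?_
          intro v hv h0
          have h1 := hB v
          rw [h0] at h1
          rcases mul_eq_zero.1 h1 with h2 | h2
          · have : N = 0 := by exact_mod_cast h2
            omega
          · exact hv h2
        exact fin_add h3 (fin_zsmul k (hFIN Curve.Qbar (C.FunField Curve.Qbar)
          (hFF C Curve.Qbar) u hu))
      have h4 : j (ev hk (c.ξ τ)) = ev h' (C.push j (c.ξ τ)) :=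
        (hpj.2.2.1 (c.ξ τ) hk (c.hξ τ).1 hk0).symm
      have h5 : j (ev (c.φ τ) Bk) = ev (C.mapFun j (c.φ τ)) B' :=
        (hpj.2.2.1 Bk (c.φ τ) hBkfin (c.hφ τ)).symm
      rw [h1, h2, map_mul j (w * ev u c.D ^ k), map_mul j (ev hk (c.ξ τ) ^ m), map_pow, h4, h5]
    rw [he0, map_mul, map_mul, map_pow, hσ1, hσ2, hσ3]
    have hne1 : ev h' a' ≠ 0 := ev_ne hEV hFF h' a'
    have hne2 : ev φ B' ≠ 0 := ev_ne hEV hFF φ B'
    have hfin2 : ev h' (C.push s a') ^ m * ev h' (C.push j (c.ξ τ)) ^ m *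
        (ev (C.mapFun s φ) B' * ev (C.mapFun j (c.φ τ)) B') =
        ev h' a' ^ m * ev φ B' := by
      have h1 : ev h' a' ^ m * ev φ B' * ((ev h' (C.push s a') ^ m * ((ev h' a')⁻¹ ^ m *
          ev h' (C.push j (c.ξ τ)) ^ m)) * (ev (C.mapFun s φ) B' * ((ev φ B')⁻¹ *
          ev (C.mapFun j (c.φ τ)) B'))) = ev h' a' ^ m * ev φ B' := by
        rw [hkey2, mul_one]
      rw [← h1]
      have h2 : ev h' a' ^ m * (ev h' a')⁻¹ ^ m = 1 := by
        rw [← mul_pow, mul_inv_cancel₀ hne1, one_pow]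
      have h3 : ev φ B' * (ev φ B')⁻¹ = 1 := mul_inv_cancel₀ hne2
      calc _ = (ev h' a' ^ m * (ev h' a')⁻¹ ^ m) * (ev φ B' * (ev φ B')⁻¹) *
            (ev h' (C.push s a') ^ m * ev h' (C.push j (c.ξ τ)) ^ m *
            (ev (C.mapFun s φ) B' * ev (C.mapFun j (c.φ τ)) B')) := by
              rw [h2, h3, one_mul, one_mul]
        _ = _ := by ring
    calc _ = j (w * ev u c.D ^ k) * (ev h' (C.push s a') ^ m *
          ev h' (C.push j (c.ξ τ)) ^ m *
          (ev (C.mapFun s φ) B' * ev (C.mapFun j (c.φ τ)) B')) := by ring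
      _ = _ := by rw [hfin2]; ring
  obtain ⟨e, he⟩ := rat_of_fixed K e0 hgal
  refine ⟨e, ?_, ?_⟩
  · rintro rfl
    rw [map_zero] at he
    exact he00 he.symm
  · rw [hval, map_mul, map_pow, he]

end Pool.Agent.FDX
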