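import Pool.Agent.FDX.Targets
import Pool.Agent.FD.Prin

/-! # FDX, G7: a model of the function field over `L[z]` -/

namespace Pool.Agent.FDX

open Pool.Agent.FD

namespace MODEL_

open Polynomial

/-- the valuation ring of a place -/
def vr {L K : Type} [Field L] [Field K] [Algebra L K] (v : Place L K) : ValuationSubring K where
  carrier := {f | 0 ≤ v.ord f}
  mul_mem' := fun ha hb => v.toDV.ord_mul_nonneg ha hb
  one_mem' := by
    have h : v.ord 1 = 0 := v.toDV.ord_one
    exact h.ge
  add_mem' := fun ha hb => v.toDV.ord_add_nonneg ha hb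
  zero_mem' := by
    exact v.ord_zero.ge
  neg_mem' := by
    intro a ha
    have h : v.ord (-a) = v.ord a := v.toDV.ord_neg a
    show 0 ≤ v.ord (-a)
    rw [h]
    exact ha
  mem_or_inv_mem' := by
    intro a
    have h : v.ord a⁻¹ = - v.ord a := v.toDV.ord_inv a
    show 0 ≤ v.ord a ∨ 0 ≤ v.ord a⁻¹
    rw [h]
    omega

theorem integral_nonneg {L K A : Type} [Field L] [Field K] [Algebra L K] [CommRing A]
    [Algebra A K] (v : Place L K) (hA : ∀ a : A, 0 ≤ v.ord (algebraMap A K a)) (b : K)
    (hb : IsIntegral A b) : 0 ≤ v.ord b := by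
  obtain ⟨p, hp, hpb⟩ := hb
  let φ : A →+* vr v := (algebraMap A K).codRestrict (vr v) hA
  have h1 : IsIntegral (vr v) b := by
    refine ⟨p.map φ, hp.map φ, ?_⟩
    rw [Polynomial.eval₂_map]
    exact hpb
  obtain ⟨y, hy⟩ := (IsIntegrallyClosed.isIntegral_iff (R := vr v) (K := K)).mp h1
  have h2 : 0 ≤ v.ord (y : K) := y.2
  rw [← hy]
  exact h2

theorem core {L K F : Type} [Field L] [CharZero L] [Field K] [Algebra L K] [Field F]
    [Algebra F K] [Algebra L[X] F] [Algebra L[X] K] [IsScalarTower L[X] F K]
    [IsFractionRing L[X] F] [FiniteDimensional F K] [IsScalarTower L L[X] K] (z : K)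
    (hz : ∀ p : L[X], algebraMap L[X] K p = aeval z p) :
  ∃ (B : Type) (_ : CommRing B) (_ : IsDomain B) (_ : IsDedekindDomain B)
    (_ : Algebra (Polynomial L) B) (_ : Module.Finite (Polynomial L) B)
    (_ : Module.Free (Polynomial L) B) (_ : Algebra L B) (_ : IsScalarTower L (Polynomial L) B)
    (_ : Algebra B K) (_ : IsFractionRing B K) (_ : IsScalarTower L B K),
    (∀ p : Polynomial L, algebraMap B K (algebraMap (Polynomial L) B p) = Polynomial.aeval z p) ∧
    (∀ (b : B), algebraMap F K (Algebra.norm F (algebraMap B K b)) =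
        Polynomial.aeval z (Algebra.norm (Polynomial L) b)) ∧
    (∀ v : Place L K, 0 ≤ v.ord z → ∀ b : B, 0 ≤ v.ord (algebraMap B K b)) := by
  have hchF : CharZero F := by
    have hinj : Function.Injective (algebraMap L[X] F) := IsFractionRing.injective L[X] F
    exact charZero_of_injective_algebraMap hinj
  have hsep : Algebra.IsSeparable F K := inferInstance
  have htf : Module.IsTorsionFree L[X] K := .trans_faithfulSMul L[X] F K
  have hfin : Module.Finite L[X] (integralClosure L[X] K) :=
    IsIntegralClosure.finite L[X] F K (integralClosure L[X] K)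
  have hfree : Module.Free L[X] (integralClosure L[X] K) :=
    IsIntegralClosure.module_free L[X] F K (integralClosure L[X] K)
  have hded : IsDedekindDomain (integralClosure L[X] K) :=
    integralClosure.isDedekindDomain L[X] F K
  have hfr : IsFractionRing (integralClosure L[X] K) K :=
    integralClosure.isFractionRing_of_finite_extension F K
  have hloc : IsLocalization (Algebra.algebraMapSubmonoid (integralClosure L[X] K)
      (nonZeroDivisors L[X])) K := IsIntegralClosure.isLocalization L[X] F K _
  refine ⟨integralClosure L[X] K, inferInstance, inferInstance, hded, inferInstance, hfin, hfree,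
    inferInstance, inferInstance, inferInstance, hfr, inferInstance, ?_, ?_, ?_⟩
  · intro p
    rw [← hz p]
    exact (IsScalarTower.algebraMap_apply L[X] (integralClosure L[X] K) K p).symm
  · intro b
    rw [Algebra.norm_localization L[X] (nonZeroDivisors L[X]) b]
    rw [← IsScalarTower.algebraMap_apply L[X] F K, hz]
  · intro v hv b
    refine integral_nonneg (A := L[X]) v ?_ _ b.2
    intro a
    rw [hz]
    exact Prin_.ord_aeval_nonneg v a hv

end MODEL_

theorem p_MODEL (h_ALG : T_ALG) : T_MODEL := by
  intro L K _ _ _ _ _ hFF z hz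
  have hfd := h_ALG L K hFF z hz
  let F : IntermediateField L K := IntermediateField.adjoin L {z}
  let _ : Algebra (Polynomial L) K := (Polynomial.aeval z).toAlgebra
  let _ : Algebra (Polynomial L) F :=
    (Polynomial.aeval (IntermediateField.AdjoinSimple.gen L z)).toAlgebra
  have hzK : ∀ p : Polynomial L, algebraMap (Polynomial L) K p = Polynomial.aeval z p :=
    fun _ => rfl
  have hzF : ∀ p : Polynomial L, algebraMap (Polynomial L) F p =
    Polynomial.aeval (IntermediateField.AdjoinSimple.gen L z) p := fun _ => rfl
  have hcoe : ∀ p : Polynomial L,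
      ((Polynomial.aeval (IntermediateField.AdjoinSimple.gen L z) p : F) : K) =
        Polynomial.aeval z p := by
    intro p
    exact (Polynomial.aeval_algebraMap_apply K (IntermediateField.AdjoinSimple.gen L z) p).symm
  have _ : IsScalarTower L (Polynomial L) K := by
    refine IsScalarTower.of_algebraMap_eq fun a => ?_
    rw [hzK, Polynomial.algebraMap_apply, Algebra.algebraMap_self_apply, Polynomial.aeval_C]
  have _ : IsScalarTower (Polynomial L) F K := by
    refine IsScalarTower.of_algebraMap_eq fun p => ?_
    rw [hzK, hzF]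
    exact (hcoe p).symm
  have _ : IsFractionRing (Polynomial L) F := by
    let e := RatFunc.algEquivOfTranscendental z hz
    let e' : RatFunc L ≃ₐ[Polynomial L] F := AlgEquiv.ofRingEquiv (f := e.toRingEquiv) (by
      intro p
      rw [hzF]
      exact RatFunc.algEquivOfTranscendental_algebraMap z hz p)
    exact IsLocalization.isLocalization_of_algEquiv (nonZeroDivisors (Polynomial L)) e'
  have _ : FiniteDimensional F K := hfd
  obtain ⟨B, i1, i2, i3, i4, i5, i6, i7, i8, i9, i10, i11, h1, h2, h3⟩ :=
    MODEL_.core (L := L) (K := K) (F := F) z hzK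
  refine ⟨B, i1, i2, i3, i4, i5, i6, i7, i8, i9, i10, i11, h1, ?_, h3⟩
  intro b F' hF'
  subst hF'
  exact h2 b

end Pool.Agent.FDX
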