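import Pool.Agent.FDX.Targets

set_option autoImplicit false

namespace Pool.Agent.FDX

open Pool.Agent.FD

theorem p_MOVE (h_APX : T_APX) (h_FIN : T_FIN) : T_MOVE := by
  intro L K _ _ _ _ _ hFF A hA S hS
  obtain ⟨ψ, hψ, h⟩ := h_APX L K hS.toFinset (fun v => - A v)
  refine ⟨ψ, hψ, ?_, ?_⟩
  · refine (hA.union (h_FIN L K hFF ψ hψ)).subset ?_
    intro v hv
    by_contra hcon
    simp only [Set.mem_union, Function.mem_support, Set.mem_ofPred_eq, not_or, not_not] at hcon
    apply hv
    simp only [Pi.add_apply, dv, hcon.1, hcon.2, add_zero]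
  · intro v hv
    have h1 := h v (hS.mem_toFinset.mpr hv)
    simp only [Pi.add_apply, dv, h1]
    ring

end Pool.Agent.FDX
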