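import Pool.Agent.FDX.Targets2

/-!
# The first main theorem
-/

open MvPolynomial

namespace Pool.Agent.FDX

open Pool.Agent.FD

theorem p_MX2 (hAux : T_AUX) (hPP : FD.T_P2) (hComb : FD.T_COMB) (hPow : FD.T_POW) : T_MX2 := by
  intro S hS hSp
  obtain ⟨r, hr⟩ : ∃ r, S.card = r := ⟨_, rfl⟩
  have hr1 : 1 ≤ r := by rw [← hr]; exact hS.card_pos
  obtain ⟨q, hqS, hqr⟩ : ∃ q : Fin r → ℕ, (∀ i, q i ∈ S) ∧ ∀ p ∈ S, ∃ i, q i = p := by
    refine ⟨S.orderEmbOfFin hr, fun i => Finset.orderEmbOfFin_mem S hr i, ?_⟩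
    intro p hp
    have h1 : p ∈ Set.range (S.orderEmbOfFin hr) := by
      rw [Finset.range_orderEmbOfFin]
      exact hp
    exact h1
  obtain ⟨c, hc⟩ := hPow r q (fun i => (hSp _ (hqS i)).two_le)
  obtain ⟨m, hm⟩ : ∃ m, m = 2 * r := ⟨_, rfl⟩
  obtain ⟨ν, hν⟩ : ∃ ν, ν = 4 * (m + 1) + 1 := ⟨_, rfl⟩
  obtain ⟨Q, hQ, G, hG⟩ := hComb r ν c hr1 ⟨2 * (m + 1), by rw [hν]; ring⟩
  obtain ⟨P, hP, hPB⟩ := hPP m (Q + 3 + ∑ i, q i) ⟨r, by omega⟩ (by omega)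
  obtain ⟨k, hk1, hk2, hk3, hk4⟩ := hc (G + 2 * r * (Gam P).divisors.card ^ 2 + 2)
  have hqP : ∀ i a, q i ≠ P a := by
    intro i a
    have h1 : q i ≤ ∑ i, q i := Finset.single_le_sum (f := q) (fun _ _ => Nat.zero_le _)
      (Finset.mem_univ i)
    have := hPB a
    omega
  obtain ⟨C, hC1, hC2, hC3, -, -⟩ := hAux r m ν c Q G
    hr1 hm hν q (fun i => hSp _ (hqS i)) hQ hG P hP (fun a => by have := hPB a; omega) hqP
    k hk2 hk3 hk4
  refine ⟨C, hC1, ?_, ∏ i, q i ^ k i, ?_, ?_, ?_⟩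
  · rintro n hn ⟨p, hpS, hpn⟩
    apply hC2 n hn
    obtain ⟨i, rfl⟩ := hqr p hpS
    exact ⟨i, hpn⟩
  · apply Nat.one_le_iff_ne_zero.2
    rw [Finset.prod_ne_zero_iff]
    intro i _
    exact pow_ne_zero _ (hSp _ (hqS i)).ne_zero
  · intro p hp
    constructor
    · intro h
      obtain ⟨i, -, hi⟩ := (Prime.dvd_finsetProd_iff hp.prime _).mp h
      have h2 := hp.dvd_of_dvd_pow hi
      rw [(Nat.prime_dvd_prime_iff_eq hp (hSp _ (hqS i))).mp h2]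
      exact hqS i
    · intro h
      obtain ⟨i, rfl⟩ := hqr p h
      have h1 : q i ∣ q i ^ k i := dvd_pow_self _ (by have := hk1 i; omega)
      exact h1.trans (Finset.dvd_prod_of_mem (fun i => q i ^ k i) (Finset.mem_univ i))
  · intro n hn hMn
    apply hC3 n hn
    intro i
    exact (Finset.dvd_prod_of_mem (fun i => q i ^ k i) (Finset.mem_univ i)).trans hMn

end Pool.Agent.FDX
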