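import Pool.Agent.FDX.Targets2
import Pool.Agent.FD.MainC

/-!
# The second main theorem
-/

open MvPolynomial

namespace Pool.Agent.FDX

open Pool.Agent.FD

theorem p_MXC_pos (hAux : T_AUX) (hPP : FD.T_P2) (hComb : FD.T_COMB)
    (r : ℕ) (hr1 : 1 ≤ r) : ∃ K : ℕ, 1 ≤ K ∧ ∀ X : ℕ, K ≤ X → ∃ C : Curve,
  C.F.degreeOf 0 ≤ K * X ∧ C.F.degreeOf 1 ≤ K ∧ ¬ C.HasPoint ℚ ∧
  ∃ N : ℕ, X ^ r ≤ N ∧ (∀ p : ℕ, p.Prime → p ∣ N → X < p) ∧
  ∀ n : ℕ, 1 ≤ n → (C.SelNonempty n ↔ ¬ N ∣ n) := by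
  obtain ⟨m, hm⟩ : ∃ m, m = 2 * r := ⟨_, rfl⟩
  obtain ⟨ν, hν⟩ : ∃ ν, ν = 4 * (m + 1) + 1 := ⟨_, rfl⟩
  obtain ⟨Q, hQ, G, hG⟩ := hComb r ν (2 * 4 ^ r) hr1 ⟨2 * (m + 1), by rw [hν]; ring⟩
  obtain ⟨P, hP, hPB⟩ := hPP m (Q + 3) ⟨r, by omega⟩ (by omega)
  obtain ⟨G', hG'⟩ : ∃ G', G' = G + 2 * r * (Gam P).divisors.card ^ 2 + 2 := ⟨_, rfl⟩
  obtain ⟨M, hM⟩ : ∃ M, M = (3 * r + 1) * (Q + ν + 3) := ⟨_, rfl⟩
  have hK1 : M ≤ M * (2 * 4 ^ r) := by
    have h1 : 1 ≤ 4 ^ r := Nat.one_le_pow _ _ (by norm_num)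
    calc M = M * 1 := (mul_one M).symm
      _ ≤ M * (2 * 4 ^ r) := Nat.mul_le_mul_left _ (by omega)
  refine ⟨M * (2 * 4 ^ r) + G' + ∑ a, P a, by omega, fun X hX => ?_⟩
  have hX1 : 1 ≤ X := by omega
  obtain ⟨q, hq, hq1, hq2⟩ := exists_primes r X hX1
  have h4 : ∀ i : Fin r, 1 ≤ 4 ^ (i : ℕ) := fun i => Nat.one_le_pow _ _ (by norm_num)
  have hqX : ∀ i, X < q i := by
    intro i
    refine lt_of_le_of_lt ?_ (hq1 i)
    calc X = 1 * X := (one_mul X).symm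
      _ ≤ 4 ^ (i : ℕ) * X := Nat.mul_le_mul_right _ (h4 i)
  have hq3 : ∀ i, q i ≤ 2 * 4 ^ r * X := by
    intro i
    refine (hq2 i).trans ?_
    rw [mul_assoc]
    exact Nat.mul_le_mul_left _ (Nat.mul_le_mul_right _
      (Nat.pow_le_pow_right (by norm_num) i.isLt.le))
  have hgap : ∀ i j : Fin r, i < j → q i + 2 * X ≤ q j := by
    intro i j hij
    have h1 : (i : ℕ) + 1 ≤ j := hij
    have h2 : 4 ^ ((i : ℕ) + 1) * X ≤ 4 ^ (j : ℕ) * X :=
      Nat.mul_le_mul_right _ (Nat.pow_le_pow_right (by norm_num) h1)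
    have h3 : 1 * X ≤ 4 ^ (i : ℕ) * X := Nat.mul_le_mul_right _ (h4 i)
    have h4' : 4 ^ ((i : ℕ) + 1) * X = 4 * (4 ^ (i : ℕ) * X) := by ring
    have h5 := hq2 i
    have h6 := hq1 j
    omega
  have hinj : Function.Injective q := by
    intro i j hij
    rcases lt_trichotomy i j with h | h | h
    · have := hgap i j h
      omega
    · exact h
    · have := hgap j i h
      omega
  have hPX : ∀ a, P a ≤ X := by
    intro a
    have h1 : P a ≤ ∑ a, P a := Finset.single_le_sum (f := P) (fun _ _ => Nat.zero_le _)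
      (Finset.mem_univ a)
    omega
  obtain ⟨C, hC1, hC2, hC2', hC3, hC4⟩ := hAux r m ν
    (2 * 4 ^ r) Q G hr1 hm hν q hq hQ hG P hP hPB
    (fun i a h => by
      have h1 := hPX a
      have h2 := hqX i
      omega) (fun _ => 1)
    (fun i => by
      rw [pow_one, ← hG']
      have := hqX i
      omega)
    (fun i j hij => by
      rw [pow_one, pow_one, ← hG']
      have := hgap i j hij
      omega)
    (fun i j => by
      rw [pow_one, pow_one]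
      exact (hq3 i).trans (Nat.mul_le_mul_left _ (hqX j).le))
  rw [← hM] at hC3
  refine ⟨C, ?_, by omega, hC1, ∏ i, q i, ?_, ?_, ?_⟩
  · have h1 := hC4 ⟨0, hr1⟩
    rw [pow_one, ← hM] at h1
    refine h1.trans ?_
    calc M * q ⟨0, hr1⟩ ≤ M * (2 * 4 ^ r * X) := Nat.mul_le_mul_left _ (hq3 _)
      _ = M * (2 * 4 ^ r) * X := by ring
      _ ≤ (M * (2 * 4 ^ r) + G' + ∑ a, P a) * X := Nat.mul_le_mul_right _ (by omega)
  · calc X ^ r = ∏ _i : Fin r, X := by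
          rw [Finset.prod_const, Finset.card_univ, Fintype.card_fin]
      _ ≤ ∏ i, q i := Finset.prod_le_prod' fun i _ => (hqX i).le
  · intro p hp hpN
    obtain ⟨i, -, hi⟩ := (Prime.dvd_finsetProd_iff hp.prime _).mp hpN
    rw [(Nat.prime_dvd_prime_iff_eq hp (hq i)).mp hi]
    exact hqX i
  · intro n hn
    constructor
    · intro hne hNn
      refine hC2' n hn (fun i => ?_) hne
      rw [pow_one]
      exact (Finset.dvd_prod_of_mem q (Finset.mem_univ i)).trans hNn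
    · intro hNn
      apply hC2 n hn
      by_contra hcon
      push Not at hcon
      apply hNn
      refine Finset.prod_dvd_of_isRelPrime (fun i _ j _ hij => ?_) (fun i _ => hcon i)
      change IsRelPrime (q i) (q j)
      rw [← Nat.coprime_iff_isRelPrime, Nat.coprime_primes (hq i) (hq j)]
      exact fun h => hij (hinj h)

theorem p_MXC (hAux : T_AUX) (hPP : FD.T_P2) (hComb : FD.T_COMB) : T_MXC := by
  intro r
  rcases Nat.eq_zero_or_pos r with rfl | hr1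
  · obtain ⟨K, hK, h⟩ := p_MXC_pos hAux hPP hComb 1 le_rfl
    refine ⟨K, fun X hX => ?_⟩
    obtain ⟨C, h1, h2, h3, N, h4, h5, h6⟩ := h X hX
    exact ⟨C, h1, h2, h3, N, by rw [pow_zero]; rw [pow_one] at h4; omega, h5, h6⟩
  · obtain ⟨K, -, h⟩ := p_MXC_pos hAux hPP hComb r hr1
    exact ⟨K, h⟩

end Pool.Agent.FDX
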