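import Pool.Agent.FDX.Targets

/-!
# FDX, target NO: the order of a norm at `z = 0`

The proof uses the relative norm of ideals of Mathlib: in the model `B` of `K` over `L[z]` the
norm of a maximal ideal containing `z` is the ideal generated by `z`.
-/

namespace Pool.Agent.FDX

open Pool.Agent.FD Polynomial UniqueFactorizationMonoid IsDedekindDomain

namespace NO_

section base

variable {L : Type} [Field L]

theorem rm_assoc {p q : Polynomial L} (h : Associated p q) :
    p.rootMultiplicity 0 = q.rootMultiplicity 0 := by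
  by_cases hp : p = 0
  · have hq : q = 0 := by
      rw [hp] at h
      exact h.symm.eq_zero_iff.2 rfl
    rw [hp, hq]
  · have hq : q ≠ 0 := fun hq => hp (h.eq_zero_iff.2 hq)
    apply le_antisymm
    · rw [le_rootMultiplicity_iff hq]
      exact (pow_rootMultiplicity_dvd p 0).trans h.dvd
    · rw [le_rootMultiplicity_iff hp]
      exact (pow_rootMultiplicity_dvd q 0).trans h.symm.dvd

/-- The order at `0` of a generator of the ideal. -/
noncomputable def mu (I : Ideal (Polynomial L)) : ℕ :=
  (Submodule.IsPrincipal.generator I).rootMultiplicity 0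

theorem mu_span (p : Polynomial L) : mu (Ideal.span {p}) = p.rootMultiplicity 0 := by
  refine rm_assoc (Ideal.span_singleton_eq_span_singleton.1 ?_)
  exact Ideal.span_singleton_generator _

theorem mu_mul {I J : Ideal (Polynomial L)} (hI : I ≠ ⊥) (hJ : J ≠ ⊥) :
    mu (I * J) = mu I + mu J := by
  obtain ⟨g, rfl⟩ : ∃ g, I = Ideal.span {g} := ⟨_, (Ideal.span_singleton_generator I).symm⟩
  obtain ⟨h, rfl⟩ : ∃ h, J = Ideal.span {h} := ⟨_, (Ideal.span_singleton_generator J).symm⟩
  have hg : g ≠ 0 := fun h0 => hI (by rw [h0]; simp)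
  have hh : h ≠ 0 := fun h0 => hJ (by rw [h0]; simp)
  rw [Ideal.span_singleton_mul_span_singleton, mu_span, mu_span, mu_span,
    rootMultiplicity_mul (mul_ne_zero hg hh)]

theorem mu_top : mu (⊤ : Ideal (Polynomial L)) = 0 := by
  rw [← Ideal.span_singleton_one, mu_span, ← C_1, rootMultiplicity_C]

theorem mu_pow {I : Ideal (Polynomial L)} (hI : I ≠ ⊥) (n : ℕ) : mu (I ^ n) = n * mu I := by
  induction n with
  | zero => rw [pow_zero, Ideal.one_eq_top, mu_top, zero_mul]
  | succ n ih => rw [pow_succ, mu_mul (pow_ne_zero n hI) hI, ih]; ring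

theorem mu_prod (s : Multiset (Ideal (Polynomial L))) (h : ∀ I ∈ s, I ≠ ⊥) :
    mu s.prod = (s.map mu).sum := by
  induction s using Multiset.induction_on with
  | empty => rw [Multiset.prod_zero, Ideal.one_eq_top, mu_top]; rfl
  | cons I s ih =>
    have h1 : ∀ J ∈ s, J ≠ ⊥ := fun J hJ => h J (Multiset.mem_cons_of_mem hJ)
    have h2 : s.prod ≠ ⊥ := by
      rw [← Ideal.zero_eq_bot]
      exact Multiset.prod_ne_zero fun h0 => h1 0 h0 rfl
    rw [Multiset.prod_cons, mu_mul (h I (Multiset.mem_cons_self I s)) h2, ih h1,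
      Multiset.map_cons, Multiset.sum_cons]

theorem max_X : (Ideal.span {(X : Polynomial L)}).IsMaximal :=
  PrincipalIdealRing.isMaximal_of_irreducible irreducible_X

end base

section model

variable {L B : Type} [Field L] [CharZero L] [IsAlgClosed L] [CommRing B] [IsDedekindDomain B]
  [Algebra (Polynomial L) B] [Module.Finite (Polynomial L) B]
  [Module.Free (Polynomial L) B] [Algebra L B] [IsScalarTower L (Polynomial L) B]

omit [CharZero L] [IsDedekindDomain B] [Module.Free (Polynomial L) B] in
theorem quot_surj (P : Ideal B) [P.IsPrime] (hX : algebraMap (Polynomial L) B X ∈ P) :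
    Function.Surjective ((Ideal.Quotient.mk P).comp (algebraMap L B)) := by
  refine (IsAlgClosed.ringHom_bijective_of_isIntegral _ ?_).2
  intro x
  obtain ⟨b, rfl⟩ := Ideal.Quotient.mk_surjective x
  obtain ⟨p, hp, hp0⟩ : IsIntegral (Polynomial L) b := Algebra.IsIntegral.isIntegral b
  refine ⟨p.map (evalRingHom (0 : L)), hp.map _, ?_⟩
  have hcomp : ((Ideal.Quotient.mk P).comp (algebraMap L B)).comp (evalRingHom (0 : L)) =
      (Ideal.Quotient.mk P).comp (algebraMap (Polynomial L) B) := by
    refine Polynomial.ringHom_ext (fun a => ?_) ?_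
    · rw [RingHom.comp_apply, RingHom.comp_apply, RingHom.comp_apply, coe_evalRingHom, eval_C,
        IsScalarTower.algebraMap_apply L (Polynomial L) B]
      rfl
    · simp only [RingHom.comp_apply, coe_evalRingHom, eval_X, map_zero]
      exact (Ideal.Quotient.eq_zero_iff_mem.2 hX).symm
  rw [eval₂_map, hcomp, ← hom_eval₂, hp0, map_zero]

omit [CharZero L] [IsDedekindDomain B] [Module.Free (Polynomial L) B] in
theorem inertia_one (P : Ideal B) [P.IsMaximal] (q : Ideal (Polynomial L)) [q.IsMaximal]
    [P.LiesOver q] (hX : algebraMap (Polynomial L) B X ∈ P) :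
    P.inertiaDeg (Polynomial L) = 1 := by
  rw [Ideal.inertiaDeg_eq_of_isMaximal q P]
  have hsurj : Function.Surjective (algebraMap (Polynomial L ⧸ q) (B ⧸ P)) := by
    intro y
    obtain ⟨a, rfl⟩ := quot_surj P hX y
    refine ⟨Ideal.Quotient.mk q (C a), ?_⟩
    rw [Ideal.Quotient.algebraMap_mk_of_liesOver, RingHom.comp_apply,
      IsScalarTower.algebraMap_apply L (Polynomial L) B]
    rfl
  have hinj : Function.Injective (algebraMap (Polynomial L ⧸ q) (B ⧸ P)) := by
    let _ := Ideal.Quotient.field q
    exact (algebraMap (Polynomial L ⧸ q) (B ⧸ P)).injective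
  rw [← (LinearEquiv.ofBijective (Algebra.linearMap (Polynomial L ⧸ q) (B ⧸ P))
    ⟨hinj, hsurj⟩).finrank_eq]
  exact Module.finrank_self _

open Classical in
theorem mu_relNorm (P : Ideal B) [P.IsMaximal] :
    mu (Ideal.relNorm (Polynomial L) P) =
      if algebraMap (Polynomial L) B X ∈ P then 1 else 0 := by
  have : CharZero (FractionRing (Polynomial L)) :=
    charZero_of_injective_algebraMap (IsFractionRing.injective (Polynomial L) _)
  set q : Ideal (Polynomial L) := P.under (Polynomial L) with hq
  have hqm : q.IsMaximal := Ideal.isMaximal_comap_of_isIntegral_of_isMaximal P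
  have hqb : q ≠ ⊥ := Ring.ne_bot_of_isMaximal_of_not_isField hqm (Polynomial.not_isField L)
  rw [Ideal.relNorm_eq_pow_of_isMaximal P q, mu_pow hqb]
  split_ifs with hX
  · have hXq : X ∈ q := hX
    have hqX : Ideal.span {(X : Polynomial L)} = q :=
      max_X.eq_of_le hqm.ne_top (by rwa [Ideal.span_singleton_le_iff_mem])
    rw [inertia_one P q hX, one_mul, ← hqX, mu_span]
    have := rootMultiplicity_X_sub_C_self (R := L) (x := 0)
    rwa [C_0, sub_zero] at this
  · have hg := Submodule.IsPrincipal.prime_generator_of_isPrime q hqb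
    have h0 : mu q = 0 := by
      unfold mu
      rw [rootMultiplicity_eq_zero_iff]
      intro hr
      exfalso
      apply hX
      have hd : X ∣ Submodule.IsPrincipal.generator q := by
        have := dvd_iff_isRoot.2 hr
        rwa [C_0, sub_zero] at this
      have ha : Associated X (Submodule.IsPrincipal.generator q) :=
        irreducible_X.associated_of_dvd hg.irreducible hd
      have hmem : X ∈ q := by
        rw [← Ideal.span_singleton_generator q, Ideal.mem_span_singleton]
        exact ha.symm.dvd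
      exact hmem
    rw [h0, mul_zero]

open Classical in
theorem norm_rm (b : B) (hb : b ≠ 0) :
    (Algebra.norm (Polynomial L) b).rootMultiplicity 0 =
      ((normalizedFactors (Ideal.span {b})).map
        (fun P => if algebraMap (Polynomial L) B X ∈ P then 1 else 0)).sum := by
  have hs : Ideal.span {b} ≠ ⊥ := by
    rw [Ne, Ideal.span_singleton_eq_bot]
    exact hb
  have h1 : Ideal.relNorm (Polynomial L) (Ideal.span {b}) =
      Ideal.span {Algebra.norm (Polynomial L) b} := by
    rw [Ideal.relNorm_singleton, Algebra.intNorm_eq_norm]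
  have hne : ∀ P ∈ normalizedFactors (Ideal.span {b}), P ≠ ⊥ ∧ P.IsPrime := fun P hP => by
    have := prime_of_normalized_factor P hP
    exact ⟨this.ne_zero, Ideal.isPrime_of_prime this⟩
  rw [← mu_span, ← h1]
  conv_lhs => rw [← Ideal.prod_normalizedFactors_eq_self hs]
  rw [map_multiset_prod, mu_prod, Multiset.map_map]
  · congr 1
    refine Multiset.map_congr rfl fun P hP => ?_
    have : P.IsPrime := (hne P hP).2
    have : P.IsMaximal := this.isMaximal (hne P hP).1
    exact mu_relNorm P
  · intro I hI
    obtain ⟨P, hP, rfl⟩ := Multiset.mem_map.1 hI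
    rw [Ne, Ideal.relNorm_eq_bot_iff]
    exact (hne P hP).1

section places

variable {K : Type} [Field K] [Algebra B K] [IsFractionRing B K]

open Classical in
/-- The order of an element of `B` at a maximal ideal. -/
theorem log_val (P : HeightOneSpectrum B) (b : B) (hb : b ≠ 0) :
    - WithZero.log (P.valuation K (algebraMap B K b)) =
      ((normalizedFactors (Ideal.span {b})).count P.asIdeal : ℤ) := by
  have hs : Ideal.span {b} ≠ 0 := by
    rw [Ne, Ideal.zero_eq_bot, Ideal.span_singleton_eq_bot]
    exact hb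
  rw [HeightOneSpectrum.valuation_of_algebraMap, HeightOneSpectrum.intValuation_if_neg _ hb,
    WithZero.log_exp, neg_neg, Ideal.count_associates_factors_eq hs P.isPrime P.ne_bot]

open Classical in
theorem count_pos_iff (P : HeightOneSpectrum B) (b : B) (hb : b ≠ 0) :
    0 < (normalizedFactors (Ideal.span {b})).count P.asIdeal ↔ b ∈ P.asIdeal := by
  have hs : Ideal.span {b} ≠ 0 := by
    rw [Ne, Ideal.zero_eq_bot, Ideal.span_singleton_eq_bot]
    exact hb
  rw [Multiset.count_pos, Ideal.mem_normalizedFactors_iff hs, Ideal.span_singleton_le_iff_mem]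
  exact ⟨fun h => h.2, fun h => ⟨P.isPrime, h⟩⟩

theorem asIdeal_eq (P Q : HeightOneSpectrum B)
    (h : ∀ f : K, f ≠ 0 → - WithZero.log (P.valuation K f) = - WithZero.log (Q.valuation K f)) :
    P.asIdeal = Q.asIdeal := by
  classical
  ext b
  by_cases hb : b = 0
  · rw [hb]
    simp
  · have h1 := h (algebraMap B K b) ((map_ne_zero_iff _ (IsFractionRing.injective B K)).2 hb)
    rw [log_val P b hb, log_val Q b hb] at h1
    have h2 := Int.ofNat_injective h1
    rw [← count_pos_iff P b hb, ← count_pos_iff Q b hb, h2]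

open Classical in
theorem place_sum [Algebra L K] (z : K) (hz : algebraMap B K (algebraMap (Polynomial L) B X) = z)
    (hX : algebraMap (Polynomial L) B X ≠ 0)
    (h1 : ∀ P : HeightOneSpectrum B, ∃ v : Place L K, ∀ f : K, f ≠ 0 →
      v.ord f = - WithZero.log (P.valuation K f))
    (h2 : ∀ v : Place L K, (∀ b : B, 0 ≤ v.ord (algebraMap B K b)) →
      ∃ P : HeightOneSpectrum B, ∀ f : K, f ≠ 0 → v.ord f = - WithZero.log (P.valuation K f))
    (h3 : ∀ v : Place L K, 0 ≤ v.ord z → ∀ b : B, 0 ≤ v.ord (algebraMap B K b))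
    (b : B) (hb : b ≠ 0) :
    (∑ᶠ v : Place L K, if 0 < v.ord z then v.ord (algebraMap B K b) else 0) =
      ((((normalizedFactors (Ideal.span {b})).map
        (fun P => if algebraMap (Polynomial L) B X ∈ P then 1 else 0)).sum : ℕ) : ℤ) := by
  have hinj : Function.Injective (algebraMap B K) := IsFractionRing.injective B K
  have hz0 : z ≠ 0 := by
    rw [← hz]
    exact (map_ne_zero_iff _ hinj).2 hX
  have hb0 : algebraMap B K b ≠ 0 := (map_ne_zero_iff _ hinj).2 hb
  choose pl hpl using h1
  have hex : ∀ v : Place L K, 0 < v.ord z → ∃ P : HeightOneSpectrum B, ∀ f : K, f ≠ 0 →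
      v.ord f = - WithZero.log (P.valuation K f) := fun v hv => h2 v (h3 v hv.le)
  choose id hid using hex
  let t : Set (Place L K) := {v | 0 < v.ord z}
  let s' : Set (Ideal B) := {I | I.IsPrime ∧ I ≠ ⊥ ∧ algebraMap (Polynomial L) B X ∈ I}
  let e : Place L K → Ideal B := fun v => if h : 0 < v.ord z then (id v h).asIdeal else ⊤
  have he : ∀ (v : Place L K) (h : 0 < v.ord z), e v = (id v h).asIdeal := fun v h => dif_pos h
  have hbij : t.BijOn e s' := by
    refine ⟨fun v hv => ?_, fun v hv w hw hvw => ?_, fun I hI => ?_⟩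
    · rw [he v hv]
      refine ⟨(id v hv).isPrime, (id v hv).ne_bot, ?_⟩
      rw [← count_pos_iff (id v hv) _ hX]
      have h4 := hid v hv z hz0
      rw [← hz, log_val (id v hv) _ hX, hz] at h4
      have h5 : 0 < v.ord z := hv
      rw [h4] at h5
      exact_mod_cast h5
    · have hv' : 0 < v.ord z := hv
      have hw' : 0 < w.ord z := hw
      rw [he v hv', he w hw'] at hvw
      have h4 : id v hv' = id w hw' := HeightOneSpectrum.ext hvw
      ext f
      by_cases hf : f = 0
      · rw [hf, v.ord_zero, w.ord_zero]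
      · rw [hid v hv' f hf, hid w hw' f hf, h4]
    · obtain ⟨hI1, hI2, hI3⟩ := hI
      let P : HeightOneSpectrum B := ⟨I, hI1, hI2⟩
      have hP : 0 < (pl P).ord z := by
        rw [hpl P z hz0, ← hz, log_val P _ hX]
        exact_mod_cast (count_pos_iff P _ hX).2 hI3
      refine ⟨pl P, hP, ?_⟩
      rw [he _ hP]
      exact asIdeal_eq (K := K) (id (pl P) hP) P fun f hf => by rw [← hid _ hP f hf, hpl P f hf]
  have hsum1 : (∑ᶠ v : Place L K, if 0 < v.ord z then v.ord (algebraMap B K b) else 0) =
      ∑ᶠ v ∈ t, v.ord (algebraMap B K b) := by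
    rw [finsum_mem_def]
    refine finsum_congr fun v => ?_
    rw [Set.indicator_apply]
    rfl
  have hsum2 : ∑ᶠ v ∈ t, v.ord (algebraMap B K b) =
      ∑ᶠ I ∈ s', ((normalizedFactors (Ideal.span {b})).count I : ℤ) := by
    refine finsum_mem_eq_of_bijOn e hbij fun v hv => ?_
    have hv' : 0 < v.ord z := hv
    rw [he v hv', hid v hv' _ hb0, log_val _ b hb]
  have hprime : ∀ I ∈ normalizedFactors (Ideal.span {b}), I.IsPrime ∧ I ≠ ⊥ := fun P hP => by
    have := prime_of_normalized_factor P hP
    exact ⟨Ideal.isPrime_of_prime this, this.ne_zero⟩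
  rw [hsum1, hsum2, finsum_mem_eq_sum_of_subset (t := (normalizedFactors
    (Ideal.span {b})).toFinset.filter (fun I => algebraMap (Polynomial L) B X ∈ I)),
    Finset.sum_multiset_map_count, Finset.sum_filter]
  · push_cast
    refine Finset.sum_congr rfl fun I _ => ?_
    split_ifs <;> simp
  · rintro I ⟨hI, hI'⟩
    rw [Finset.mem_coe, Finset.mem_filter, Multiset.mem_toFinset]
    refine ⟨?_, hI.2.2⟩
    rw [Function.mem_support] at hI'
    by_contra h0
    exact hI' (by exact_mod_cast Multiset.count_eq_zero_of_notMem h0)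
  · intro I hI
    rw [Finset.mem_coe, Finset.mem_filter, Multiset.mem_toFinset] at hI
    exact ⟨(hprime I hI.1).1, (hprime I hI.1).2, hI.2⟩

end places

end model

end NO_

open NO_ in
/-- Target NO. -/
theorem p_NO (h_MODEL : T_MODEL) (h_PRB : T_PRB) (h_FIN : T_FIN) : T_NO := by
  classical
  intro L K _ _ _ _ _ hFF z hz F hF φ hφ p q hp hq hN
  obtain ⟨B, i1, i2, i3, i4, i5, i6, i7, i8, i9, i10, i11, hm1, hm2, hm3⟩ := h_MODEL L K hFF z hz
  obtain ⟨hP1, hP2⟩ := h_PRB L K B
  have hinj : Function.Injective (algebraMap B K) := IsFractionRing.injective B K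
  have hz0 : z ≠ 0 := fun h => by
    rw [h] at hz
    exact hz isAlgebraic_zero
  have hzX : algebraMap B K (algebraMap (Polynomial L) B X) = z := by rw [hm1, aeval_X]
  have hX : algebraMap (Polynomial L) B X ≠ 0 := fun h => by
    rw [h, map_zero] at hzX
    exact hz0 hzX.symm
  obtain ⟨a, s, hs, hφs⟩ := IsFractionRing.div_surjective (A := B) φ
  have hs0 : s ≠ 0 := nonZeroDivisors.ne_zero hs
  have hs1 : algebraMap B K s ≠ 0 := (map_ne_zero_iff _ hinj).2 hs0
  have ha1 : algebraMap B K a ≠ 0 := fun h => by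
    rw [h, zero_div] at hφs
    exact hφ hφs.symm
  have ha0 : a ≠ 0 := (map_ne_zero_iff _ hinj).1 ha1
  have hmul : φ * algebraMap B K s = algebraMap B K a := by
    rw [← hφs, div_mul_cancel₀ _ hs1]
  have hna : Algebra.norm (Polynomial L) a ≠ 0 := Algebra.norm_ne_zero_iff.2 ha0
  have hns : Algebra.norm (Polynomial L) s ≠ 0 := Algebra.norm_ne_zero_iff.2 hs0
  have h5 : ((Algebra.norm F φ : F) : K) * aeval z (Algebra.norm (Polynomial L) s) =
      aeval z (Algebra.norm (Polynomial L) a) := by
    rw [← hm2 s F hF, ← hm2 a F hF, ← hmul, map_mul]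
    rfl
  have h6 : p * Algebra.norm (Polynomial L) s = Algebra.norm (Polynomial L) a * q := by
    apply transcendental_iff_injective.1 hz
    rw [map_mul, map_mul, ← hN, ← h5]
    ring
  have h7 := congrArg (rootMultiplicity 0) h6
  rw [rootMultiplicity_mul (mul_ne_zero hp hns), rootMultiplicity_mul (mul_ne_zero hna hq)] at h7
  have h8 := place_sum (L := L) (B := B) z hzX hX hP1 hP2 hm3 a ha0
  have h9 := place_sum (L := L) (B := B) z hzX hX hP1 hP2 hm3 s hs0
  rw [← norm_rm a ha0] at h8
  rw [← norm_rm s hs0] at h9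
  have hfin : {v : Place L K | 0 < v.ord z}.Finite :=
    (h_FIN L K hFF z hz0).subset fun v hv => (ne_of_gt hv : v.ord z ≠ 0)
  have hsub : (∑ᶠ v : Place L K, if 0 < v.ord z then v.ord φ else 0) =
      (∑ᶠ v : Place L K, if 0 < v.ord z then v.ord (algebraMap B K a) else 0) -
        ∑ᶠ v : Place L K, if 0 < v.ord z then v.ord (algebraMap B K s) else 0 := by
    rw [← finsum_sub_distrib]
    · refine finsum_congr fun v => ?_
      split_ifs
      · rw [← hmul, v.ord_mul _ _ hφ hs1]
        ring
      · ring
    · refine hfin.subset fun v hv => ?_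
      by_contra h
      exact hv (if_neg h)
    · refine hfin.subset fun v hv => ?_
      by_contra h
      exact hv (if_neg h)
  rw [hsub, h8, h9]
  have h10 : ((p.rootMultiplicity 0 + (Algebra.norm (Polynomial L) s).rootMultiplicity 0 : ℕ) : ℤ) =
      (((Algebra.norm (Polynomial L) a).rootMultiplicity 0 + q.rootMultiplicity 0 : ℕ) : ℤ) := by
    rw [h7]
  push_cast at h10
  linarith

end Pool.Agent.FDX
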