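import Pool.Agent.FDX.Targets

/-!
# FDX-NV: the value of a norm at `z = 0`
-/

namespace Pool.Agent.FDX

open Pool.Agent.FD IsDedekindDomain

namespace NV_

section den

variable {B K : Type} [CommRing B] [IsDedekindDomain B] [Field K] [Algebra B K]
  [IsFractionRing B K]

/-- A denominator of `φ` which is in none of finitely many prime ideals at which `φ` is
integral. -/
theorem exists_den (S : Set (HeightOneSpectrum B)) (hS : S.Finite) (φ : K)
    (h : ∀ P ∈ S, P.valuation K φ ≤ 1) :
    ∃ s a : B, s ≠ 0 ∧ (∀ P ∈ S, s ∉ P.asIdeal) ∧ algebraMap B K a = algebraMap B K s * φ := by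
  classical
  have hT : (HeightOneSpectrum.Support B φ).Finite := HeightOneSpectrum.Support.finite B φ
  have hdisj : ∀ P ∈ S, P ∉ HeightOneSpectrum.Support B φ := fun P hP hP' =>
    absurd (h P hP) (not_le.mpr hP')
  set e : HeightOneSpectrum B → ℕ := fun P =>
    if P ∈ S then 1 else (WithZero.log (P.valuation K φ)).toNat with he
  obtain ⟨s, hs⟩ := IsDedekindDomain.exists_forall_sub_mem_ideal
    (s := hS.toFinset ∪ hT.toFinset)
    (fun P : HeightOneSpectrum B => P.asIdeal) e (fun P _ => P.prime)
    (fun P _ Q _ hPQ hPQ' => hPQ (HeightOneSpectrum.ext hPQ'))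
    (fun P => if (P : HeightOneSpectrum B) ∈ S then 1 else 0)
  have hsS : ∀ P ∈ S, s ∉ P.asIdeal := by
    intro P hP hsP
    have h1 := hs P (Finset.mem_union_left _ (hS.mem_toFinset.mpr hP))
    simp only [he, hP, if_true, pow_one] at h1
    have h2 : (1 : B) ∈ P.asIdeal := by
      have := P.asIdeal.sub_mem hsP h1
      rwa [sub_sub_cancel] at this
    exact P.isPrime.ne_top ((Ideal.eq_top_iff_one _).mpr h2)
  by_cases hs0 : s = 0
  · have hSe : ∀ P ∈ S, False := fun P hP => hsS P hP (hs0 ▸ P.asIdeal.zero_mem)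
    obtain ⟨a, b, hb, hab⟩ := IsFractionRing.div_surjective (A := B) φ
    have hb0 : b ≠ 0 := nonZeroDivisors.ne_zero hb
    refine ⟨b, a, hb0, fun P hP => (hSe P hP).elim, ?_⟩
    have hb1 : algebraMap B K b ≠ 0 := by
      rwa [Ne, FaithfulSMul.algebraMap_eq_zero_iff]
    rw [← hab, mul_div_cancel₀ _ hb1]
  · have hint : algebraMap B K s * φ ∈ (algebraMap B K).range := by
      refine HeightOneSpectrum.mem_integers_of_valuation_le_one K _ fun P => ?_
      rw [map_mul]
      by_cases hPS : P ∈ S
      · exact mul_le_one' (P.valuation_le_one s) (h P hPS)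
      by_cases hPT : P ∈ HeightOneSpectrum.Support B φ
      · have h1 := hs P (Finset.mem_union_right _ (hT.mem_toFinset.mpr hPT))
        simp only [he, hPS, if_false, sub_zero] at h1
        rw [← HeightOneSpectrum.intValuation_le_pow_iff_mem,
          ← HeightOneSpectrum.valuation_of_algebraMap (K := K)] at h1
        have hlt : (1 : WithZero (Multiplicative ℤ)) < P.valuation K φ := hPT
        have hne : P.valuation K φ ≠ 0 := (zero_lt_one.trans hlt).ne'
        have hlog : 0 ≤ WithZero.log (P.valuation K φ) := by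
          rw [← WithZero.log_one]
          exact (WithZero.log_le_log one_ne_zero hne).mpr hlt.le
        rw [Int.toNat_of_nonneg hlog] at h1
        calc P.valuation K (algebraMap B K s) * P.valuation K φ
            ≤ WithZero.exp (-(WithZero.log (P.valuation K φ))) * P.valuation K φ :=
              mul_le_mul_left h1 _
          _ = 1 := by
              conv_lhs => rw [← WithZero.exp_log hne]
              rw [WithZero.log_exp, ← WithZero.exp_add, neg_add_cancel, WithZero.exp_zero]
      · have h2 : P.valuation K φ ≤ 1 := not_lt.mp hPT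
        exact mul_le_one' (P.valuation_le_one s) h2
    obtain ⟨a, ha⟩ := hint
    exact ⟨s, a, hs0, hsS, ha⟩

end den

theorem lt_one_iff {B K : Type} [CommRing B] [IsDedekindDomain B] [Field K] [Algebra B K]
    [IsFractionRing B K] (P : HeightOneSpectrum B) (b : B) :
    P.valuation K (algebraMap B K b) < 1 ↔ b ∈ P.asIdeal :=
  P.valuation_lt_one_iff_mem b

theorem eq_one_of_notMem {B K : Type} [CommRing B] [IsDedekindDomain B] [Field K] [Algebra B K]
    [IsFractionRing B K] (P : HeightOneSpectrum B) (b : B) (hb : b ∉ P.asIdeal) :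
    P.valuation K (algebraMap B K b) = 1 :=
  le_antisymm (P.valuation_le_one b) (not_lt.mp fun h => hb ((lt_one_iff P b).mp h))

theorem log_zero_iff {x : WithZero (Multiplicative ℤ)} (hx : x ≠ 0) :
    WithZero.log x = 0 ↔ x = 1 := by
  constructor
  · intro h
    rw [← WithZero.exp_log hx, h, WithZero.exp_zero]
  · rintro rfl
    exact WithZero.log_one

end NV_

open NV_ in
/-- G10.  The value of a norm. -/
theorem p_NV (h_PRB : T_PRB) (h_MODEL : T_MODEL) (h_NVB : T_NVB) (h_VAL : T_VAL)
    (h_EV : T_EV) : T_NV := by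
  classical
  intro L K _ _ _ _ _ hFF z hz F hF φ hφ hval p q hq hpq
  obtain ⟨B, _, _, _, _, _, _, _, _, _, _, _, hB1, hB2, hB3⟩ := h_MODEL L K hFF z hz
  obtain ⟨hev1, hev2, hev3, -⟩ := h_EV L K hFF
  have hinj : Function.Injective (algebraMap B K) := IsFractionRing.injective B K
  set Z : B := algebraMap (Polynomial L) B Polynomial.X with hZdef
  have hZz : algebraMap B K Z = z := by rw [hZdef, hB1, Polynomial.aeval_X]
  have hz0 : z ≠ 0 := by
    rintro rfl
    exact hz isAlgebraic_zero
  have hZ0 : Z ≠ 0 := by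
    intro h
    rw [h, map_zero] at hZz
    exact hz0 hZz.symm
  obtain ⟨hP1, hP2⟩ := h_PRB L K B
  choose pl hpl using hP1
  -- the prime ideals over `0`
  have hSfin : {P : HeightOneSpectrum B | Z ∈ P.asIdeal}.Finite := by
    have h1 := Ideal.finite_factors (R := B) (I := Ideal.span {Z})
      (by rwa [Ne, Ideal.zero_eq_bot, Ideal.span_singleton_eq_bot])
    refine h1.subset fun P hP => ?_
    exact Ideal.dvd_span_singleton.mpr hP
  have hval0 : ∀ (P : HeightOneSpectrum B) (f : K), f ≠ 0 → P.valuation K f ≠ 0 :=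
    fun P f hf => (Valuation.ne_zero_iff _).mpr hf
  have hordz : ∀ P : HeightOneSpectrum B, 0 < (pl P).ord z ↔ Z ∈ P.asIdeal := by
    intro P
    rw [hpl P z hz0, ← lt_one_iff (K := K), hZz, neg_pos,
      ← WithZero.log_one, WithZero.log_lt_log (hval0 P z hz0) one_ne_zero]
  have hordz0 : ∀ P : HeightOneSpectrum B, Z ∉ P.asIdeal → (pl P).ord z = 0 := by
    intro P hP
    have h1 : P.valuation K z = 1 := by
      rw [← hZz]
      exact eq_one_of_notMem P Z hP
    rw [hpl P z hz0, h1, WithZero.log_one, neg_zero]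
  have hordnn : ∀ P : HeightOneSpectrum B, 0 ≤ (pl P).ord z := by
    intro P
    by_cases hP : Z ∈ P.asIdeal
    · exact ((hordz P).mpr hP).le
    · rw [hordz0 P hP]
  have hφP : ∀ P : HeightOneSpectrum B, Z ∈ P.asIdeal → P.valuation K φ = 1 := by
    intro P hP
    have h1 := hval (pl P) ((hordz P).mpr hP)
    rw [hpl P φ hφ, neg_eq_zero] at h1
    exact (log_zero_iff (hval0 P φ hφ)).mp h1
  obtain ⟨s, a, hs0, hsP, has⟩ := exists_den {P : HeightOneSpectrum B | Z ∈ P.asIdeal} hSfin φ
    (fun P hP => (hφP P hP).le)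
  have hsK : algebraMap B K s ≠ 0 := fun h => hs0 (hinj (by rw [h, map_zero]))
  have haK : algebraMap B K a ≠ 0 := by
    rw [has]
    exact mul_ne_zero hsK hφ
  -- the values of elements of `B` outside the primes over `0`
  have hmem : ∀ b : B, algebraMap B K b ≠ 0 → ∀ P : HeightOneSpectrum B,
      (pl P).ord (algebraMap B K b) = 0 →
      b - algebraMap L B (val (pl P) (algebraMap B K b)) ∈ P.asIdeal := by
    intro b hb P hP
    obtain ⟨c, hc0, hc⟩ := h_VAL L K hFF (pl P) (algebraMap B K b) hb hP
    rw [hev2 (pl P) (algebraMap B K b) c hc0 hc]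
    have hcc : algebraMap L K c = algebraMap B K (algebraMap L B c) :=
      IsScalarTower.algebraMap_apply L B K c
    rcases hc with hc | hc
    · rw [hcc] at hc
      rw [hinj hc, sub_self]
      exact P.asIdeal.zero_mem
    · rw [hcc, ← map_sub] at hc
      by_cases h0 : algebraMap B K (b - algebraMap L B c) = 0
      · have : b - algebraMap L B c = 0 := hinj (by rw [h0, map_zero])
        rw [this]
        exact P.asIdeal.zero_mem
      · rw [hpl P _ h0, neg_pos, ← WithZero.log_one,
          WithZero.log_lt_log (hval0 P _ h0) one_ne_zero] at hc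
        exact (lt_one_iff P _).mp hc
  have hords : ∀ P : HeightOneSpectrum B, Z ∈ P.asIdeal → (pl P).ord (algebraMap B K s) = 0 := by
    intro P hP
    have h1 : P.valuation K (algebraMap B K s) = 1 :=
      eq_one_of_notMem P s (hsP P hP)
    rw [hpl P _ hsK, h1, WithZero.log_one, neg_zero]
  have hordφ : ∀ P : HeightOneSpectrum B, Z ∈ P.asIdeal → (pl P).ord φ = 0 := fun P hP =>
    hval (pl P) ((hordz P).mpr hP)
  have horda : ∀ P : HeightOneSpectrum B, Z ∈ P.asIdeal → (pl P).ord (algebraMap B K a) = 0 := by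
    intro P hP
    rw [has, (pl P).ord_mul _ _ hsK hφ, hords P hP, hordφ P hP, add_zero]
  -- the exponents
  have hexp : ∀ P : HeightOneSpectrum B, -WithZero.log (P.valuation K
      (algebraMap B K (algebraMap (Polynomial L) B Polynomial.X))) = (pl P).ord z := by
    intro P
    rw [hpl P z hz0, ← hZdef, hZz]
  -- the norms of `a` and `s` at `0`
  have hN : ∀ b : B, algebraMap B K b ≠ 0 →
      (∀ P : HeightOneSpectrum B, Z ∈ P.asIdeal → (pl P).ord (algebraMap B K b) = 0) →
      (Algebra.norm (Polynomial L) b).eval 0 =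
        ∏ᶠ P : HeightOneSpectrum B, val (pl P) (algebraMap B K b) ^ (pl P).ord z := by
    intro b hb hbP
    rw [h_NVB L K B b (fun P => val (pl P) (algebraMap B K b))
      (fun P hP => hmem b hb P (hbP P hP))]
    refine finprod_congr fun P => ?_
    rw [hexp P]
  have hNa := hN a haK horda
  have hNs := hN s hsK hords
  have hfs : ∀ f : K, Function.HasFiniteMulSupport
      (fun P : HeightOneSpectrum B => val (pl P) f ^ (pl P).ord z) := by
    intro f
    refine Set.Finite.subset hSfin fun P hP => ?_
    by_contra hcon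
    apply hP
    change val (pl P) f ^ (pl P).ord z = 1
    rw [hordz0 P hcon, zpow_zero]
  have hsplit : ∏ᶠ P : HeightOneSpectrum B, val (pl P) (algebraMap B K a) ^ (pl P).ord z =
      (∏ᶠ P : HeightOneSpectrum B, val (pl P) (algebraMap B K s) ^ (pl P).ord z) *
        ∏ᶠ P : HeightOneSpectrum B, val (pl P) φ ^ (pl P).ord z := by
    rw [← finprod_mul_distrib (hfs _) (hfs _)]
    refine finprod_congr fun P => ?_
    by_cases hP : Z ∈ P.asIdeal
    · rw [has, hev3 (pl P) _ _ hsK hφ (hords P hP) (hordφ P hP), mul_zpow]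
    · rw [hordz0 P hP, zpow_zero, zpow_zero, zpow_zero, one_mul]
  have hNs0 : (Algebra.norm (Polynomial L) s).eval 0 ≠ 0 := by
    rw [hNs]
    exact finprod_induction (fun x : L => x ≠ 0) one_ne_zero (fun x y hx hy => mul_ne_zero hx hy)
      (fun P => zpow_ne_zero _ (hev1 _ _))
  -- comparison of the norms
  have hpoly : Algebra.norm (Polynomial L) a * q = Algebra.norm (Polynomial L) s * p := by
    have hinj2 : Function.Injective (Polynomial.aeval (R := L) z) :=
      transcendental_iff_injective.mp hz
    apply hinj2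
    rw [map_mul, map_mul, ← hB2 a F hF, ← hB2 s F hF, ← hpq, has, map_mul]
    push_cast
    ring
  have heval := congrArg (Polynomial.eval 0) hpoly
  rw [Polynomial.eval_mul, Polynomial.eval_mul, hNa, hsplit, ← hNs] at heval
  have hmain : p.eval 0 = q.eval 0 * ∏ᶠ P : HeightOneSpectrum B, val (pl P) φ ^ (pl P).ord z := by
    apply mul_left_cancel₀ hNs0
    rw [← heval]
    ring
  rw [hmain]
  congr 1
  -- reindexing
  have hplinj : Function.Injective pl := by
    intro P Q hPQ
    apply HeightOneSpectrum.ext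
    ext b
    by_cases hb : b = 0
    · rw [hb]
      exact ⟨fun _ => Q.asIdeal.zero_mem, fun _ => P.asIdeal.zero_mem⟩
    have hb' : algebraMap B K b ≠ 0 := fun h => hb (hinj (by rw [h, map_zero]))
    have key : ∀ R : HeightOneSpectrum B, b ∈ R.asIdeal ↔ 0 < (pl R).ord (algebraMap B K b) := by
      intro R
      rw [hpl R _ hb', ← lt_one_iff (K := K), neg_pos,
        ← WithZero.log_one, WithZero.log_lt_log (hval0 R _ hb') one_ne_zero]
    rw [key P, key Q, hPQ]
  have hrange : Function.mulSupport (fun v : Place L K => val v φ ^ (max (v.ord z) 0)) ⊆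
      Set.range pl := by
    intro v hv
    have hvz : 0 < v.ord z := by
      by_contra hcon
      apply hv
      change val v φ ^ (max (v.ord z) 0) = 1
      rw [max_eq_right (not_lt.mp hcon), zpow_zero]
    obtain ⟨P, hP⟩ := hP2 v (hB3 v hvz.le)
    refine ⟨P, ?_⟩
    ext f
    by_cases hf : f = 0
    · rw [hf, Place.ord_zero, Place.ord_zero]
    · rw [hpl P f hf, hP f hf]
  have h1 : ∏ᶠ v : Place L K, val v φ ^ (max (v.ord z) 0) =
      ∏ᶠ v ∈ Set.range pl, val v φ ^ (max (v.ord z) 0) := by
    rw [finprod_mem_def, Set.mulIndicator_eq_self.mpr hrange]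
  rw [h1, finprod_mem_range hplinj]
  refine finprod_congr fun P => ?_
  rw [max_eq_left (hordnn P)]

end Pool.Agent.FDX
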