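import Pool.Agent.FDX.Targets

set_option autoImplicit false

/-!
# FDX, G9: the norm modulo `X` in a Dedekind domain, finite and free over `L[X]`
-/

namespace Pool.Agent.FDX

open Pool.Agent.FD

namespace NVB_

/-- The determinant of an endomorphism with a one-dimensional invariant subspace. -/
theorem det_step {L V V' : Type} [Field L] [AddCommGroup V] [Module L V] [Module.Finite L V]
    [AddCommGroup V'] [Module L V'] (π : V →ₗ[L] V') (hπ : Function.Surjective π)
    (f : V →ₗ[L] V) (f' : V' →ₗ[L] V') (hf : ∀ v, π (f v) = f' (π v)) (w : V) (hw : w ≠ 0)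
    (hker : LinearMap.ker π = Submodule.span L {w}) (c : L) (hc : f w = c • w) :
    LinearMap.det f = c * LinearMap.det f' := by
  have hle : LinearMap.ker π ≤ (LinearMap.ker π).comap f := by
    intro x hx
    rw [Submodule.mem_comap, LinearMap.mem_ker, hf, LinearMap.mem_ker.mp hx, map_zero]
  rw [LinearMap.det_eq_det_mul_det (LinearMap.ker π) f hle]
  congr 1
  · have h1 : f.restrict (p := LinearMap.ker π) (q := LinearMap.ker π) hle =
        c • LinearMap.id := by
      ext x
      have hx := hker.le x.2
      rw [Submodule.mem_span_singleton] at hx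
      obtain ⟨a, ha⟩ := hx
      simp only [LinearMap.restrict_coe_apply, LinearMap.smul_apply, LinearMap.id_apply,
        Submodule.coe_smul]
      rw [← ha, map_smul, hc, smul_comm]
    have h2 : Module.finrank L (LinearMap.ker π) = 1 := by
      rw [hker]
      exact finrank_span_singleton hw
    rw [h1, LinearMap.det_smul, h2]
    simp
  · let e := π.quotKerEquivOfSurjective hπ
    rw [← LinearMap.det_conj ((LinearMap.ker π).mapQ (LinearMap.ker π) f hle) e]
    congr 1
    apply LinearMap.ext
    intro y
    obtain ⟨v, rfl⟩ := hπ y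
    have h3 : e.symm (π v) = Submodule.Quotient.mk v := by
      rw [LinearEquiv.symm_apply_eq]
      rfl
    simp only [LinearMap.comp_apply, LinearEquiv.coe_coe]
    rw [h3]
    change e (Submodule.Quotient.mk (f v)) = _
    rw [← hf]
    rfl

section

variable {L B : Type} [Field L] [CommRing B] [Algebra (Polynomial L) B] [Algebra L B]
  [IsScalarTower L (Polynomial L) B]

/-- A polynomial and its value at `0` are congruent. -/
theorem sub_mem (I : Ideal B) (hI : algebraMap (Polynomial L) B Polynomial.X ∈ I)
    (p : Polynomial L) : algebraMap (Polynomial L) B p - algebraMap L B (p.eval 0) ∈ I := by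
  have h1 : p = Polynomial.X * p.divX + Polynomial.C (p.eval 0) := by
    rw [← Polynomial.coeff_zero_eq_eval_zero]
    exact (Polynomial.X_mul_divX_add p).symm
  have h2 : algebraMap (Polynomial L) B (Polynomial.C (p.eval 0)) = algebraMap L B (p.eval 0) := by
    rw [IsScalarTower.algebraMap_apply L (Polynomial L) B]
    rfl
  have h3 : algebraMap (Polynomial L) B p - algebraMap L B (p.eval 0) =
      algebraMap (Polynomial L) B Polynomial.X * algebraMap (Polynomial L) B p.divX := by
    have h4 : algebraMap (Polynomial L) B p = algebraMap (Polynomial L) B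
        (Polynomial.X * p.divX + Polynomial.C (p.eval 0)) := by rw [← h1]
    rw [h4, map_add, map_mul, ← h2]
    ring
  rw [h3]
  exact I.mul_mem_right _ hI

/-- The residue field is `L`. -/
theorem exists_const [IsAlgClosed L] [Module.Finite (Polynomial L) B] (P : Ideal B) [P.IsPrime]
    (hP : algebraMap (Polynomial L) B Polynomial.X ∈ P) (t : B) :
    ∃ l : L, t - algebraMap L B l ∈ P := by
  have hint : Algebra.IsIntegral L (B ⧸ P) := by
    refine ⟨fun y => ?_⟩
    obtain ⟨t, rfl⟩ := Ideal.Quotient.mk_surjective y
    obtain ⟨p, hp, hp0⟩ := Algebra.IsIntegral.isIntegral (R := Polynomial L) t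
    refine ⟨p.map (Polynomial.evalRingHom 0), hp.map _, ?_⟩
    have hcomp : (algebraMap L (B ⧸ P)).comp (Polynomial.evalRingHom (0 : L)) =
        (Ideal.Quotient.mk P).comp (algebraMap (Polynomial L) B) := by
      ext a
      · simp only [RingHom.comp_apply, Polynomial.coe_evalRingHom, Polynomial.eval_C]
        rw [IsScalarTower.algebraMap_apply L B (B ⧸ P),
          IsScalarTower.algebraMap_apply L (Polynomial L) B]
        rfl
      · simp only [RingHom.comp_apply, Polynomial.coe_evalRingHom, Polynomial.eval_X, map_zero]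
        exact (Ideal.Quotient.eq_zero_iff_mem.mpr hP).symm
    rw [Polynomial.eval₂_map, hcomp, ← Polynomial.hom_eval₂, hp0, map_zero]
  obtain ⟨l, hl⟩ := (IsAlgClosed.algebraMap_bijective_of_isIntegral (k := L)
    (K := B ⧸ P)).2 (Ideal.Quotient.mk P t)
  refine ⟨l, ?_⟩
  rw [← Ideal.Quotient.eq_zero_iff_mem, map_sub, ← hl]
  rw [sub_eq_zero]
  rfl

/-- The quotient by an ideal which contains `X` is finite over `L`. -/
theorem finite_quot [Module.Finite (Polynomial L) B] [Module.Free (Polynomial L) B] (I : Ideal B)
    (hI : algebraMap (Polynomial L) B Polynomial.X ∈ I) : Module.Finite L (B ⧸ I) := by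
  classical
  obtain ⟨s, hs⟩ := (inferInstance : Module.Finite (Polynomial L) B)
  refine ⟨⟨s.image (Ideal.Quotient.mk I), ?_⟩⟩
  rw [eq_top_iff]
  rintro y -
  obtain ⟨t, rfl⟩ := Ideal.Quotient.mk_surjective y
  have ht : t ∈ Submodule.span (Polynomial L) (s : Set B) := by rw [hs]; trivial
  induction ht using Submodule.span_induction with
  | mem x hx =>
    apply Submodule.subset_span
    rw [Finset.coe_image]
    exact ⟨x, hx, rfl⟩
  | zero => rw [map_zero]; exact Submodule.zero_mem _
  | add x y _ _ hx hy => rw [map_add]; exact Submodule.add_mem _ hx hy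
  | smul a x _ hx =>
    have h1 : Ideal.Quotient.mk I (a • x) = a.eval 0 • Ideal.Quotient.mk I x := by
      rw [Algebra.smul_def, map_mul, Algebra.smul_def]
      congr 1
      rw [IsScalarTower.algebraMap_apply L B (B ⧸ I)]
      exact Ideal.Quotient.eq.mpr (sub_mem I hI a)
    rw [h1]
    exact Submodule.smul_mem _ _ hx

/-- The norm at `X = 0` is the norm of the reduction. -/
theorem norm_red [Module.Finite (Polynomial L) B] [Module.Free (Polynomial L) B] (b : B) :
    (Algebra.norm (Polynomial L) b).eval 0 = Algebra.norm L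
      (Ideal.Quotient.mk (Ideal.span {algebraMap (Polynomial L) B Polynomial.X}) b) := by
  classical
  set x := algebraMap (Polynomial L) B Polynomial.X with hx
  set I := Ideal.span {x} with hI
  have hxI : x ∈ I := Ideal.mem_span_singleton_self x
  let e := Module.Free.chooseBasis (Polynomial L) B
  let ι := Module.Free.ChooseBasisIndex (Polynomial L) B
  have hsm : ∀ (a : Polynomial L) (t : B),
      Ideal.Quotient.mk I (a • t) = a.eval 0 • Ideal.Quotient.mk I t := by
    intro a t
    rw [Algebra.smul_def, map_mul, Algebra.smul_def]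
    congr 1
    rw [IsScalarTower.algebraMap_apply L B (B ⧸ I)]
    exact Ideal.Quotient.eq.mpr (sub_mem I hxI a)
  have hli : LinearIndependent L (fun i => Ideal.Quotient.mk I (e i)) := by
    rw [Fintype.linearIndependent_iff]
    intro g hg i
    have h1 : Ideal.Quotient.mk I (∑ i, Polynomial.C (g i) • e i) = 0 := by
      rw [map_sum, ← hg]
      refine Finset.sum_congr rfl fun i _ => ?_
      rw [hsm, Polynomial.eval_C]
    rw [Ideal.Quotient.eq_zero_iff_mem, hI, Ideal.mem_span_singleton] at h1
    obtain ⟨t, ht⟩ := h1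
    have h2 := congrArg (fun t => e.repr t i) ht
    simp only [hx] at h2
    rw [← Algebra.smul_def, e.repr_sum_self, map_smul] at h2
    have h3 := congrArg (Polynomial.eval 0) h2
    simpa using h3
  have hsp : ⊤ ≤ Submodule.span L (Set.range fun i => Ideal.Quotient.mk I (e i)) := by
    rintro y -
    obtain ⟨t, rfl⟩ := Ideal.Quotient.mk_surjective y
    rw [← e.sum_repr t, map_sum]
    refine Submodule.sum_mem _ fun i _ => ?_
    rw [hsm]
    exact Submodule.smul_mem _ _ (Submodule.subset_span ⟨i, rfl⟩)
  let e' := Module.Basis.mk hli hsp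
  have he' : ∀ i, e' i = Ideal.Quotient.mk I (e i) := fun i => Module.Basis.mk_apply hli hsp i
  rw [Algebra.norm_eq_matrix_det e, Algebra.norm_eq_matrix_det e',
    ← Polynomial.coe_evalRingHom, RingHom.map_det]
  congr 1
  ext i j
  rw [RingHom.mapMatrix_apply, Matrix.map_apply, Algebra.leftMulMatrix_eq_repr_mul,
    Algebra.leftMulMatrix_eq_repr_mul, he', ← map_mul]
  conv_rhs => rw [← e.sum_repr (b * e j), map_sum]
  simp only [hsm, ← he', Polynomial.coe_evalRingHom]
  rw [e'.repr_sum_self]

end

/-- The norm of `b` on the quotient by an ideal. -/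
theorem norm_quot {L B : Type} [Field L] [IsAlgClosed L] [CommRing B] [IsDomain B]
    [IsDedekindDomain B] [Algebra (Polynomial L) B] [Module.Finite (Polynomial L) B]
    [Module.Free (Polynomial L) B] [Algebra L B] [IsScalarTower L (Polynomial L) B]
    (hx0 : algebraMap (Polynomial L) B Polynomial.X ≠ 0) (b : B) (c : Ideal B → L)
    (hc : ∀ P : Ideal B, P.IsPrime → algebraMap (Polynomial L) B Polynomial.X ∈ P →
      b - algebraMap L B (c P) ∈ P) (I : Ideal B)
    (hI : algebraMap (Polynomial L) B Polynomial.X ∈ I) :
    Algebra.norm L (Ideal.Quotient.mk I b) =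
      ((UniqueFactorizationMonoid.normalizedFactors I).map c).prod := by
  classical
  induction I using UniqueFactorizationMonoid.induction_on_prime with
  | h₁ => exact absurd (by simpa using hI) hx0
  | h₂ J hJ =>
    rw [UniqueFactorizationMonoid.normalizedFactors_of_isUnit hJ]
    rw [Ideal.isUnit_iff] at hJ
    subst hJ
    have : Subsingleton (B ⧸ (⊤ : Ideal B)) := Ideal.Quotient.subsingleton_iff.mpr rfl
    rw [Algebra.norm_apply, LinearMap.det_eq_one_of_subsingleton]
    simp
  | h₃ J P hJ hP ih =>
    have hPJ : P * J ≤ J := Ideal.mul_le_right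
    have hPP : P * J ≤ P := Ideal.mul_le_left
    have hxP := hPP hI
    have hxJ := hPJ hI
    have hprime : P.IsPrime := Ideal.isPrime_of_prime hP
    have hmax : P.IsMaximal := hprime.isMaximal hP.ne_zero
    rw [UniqueFactorizationMonoid.normalizedFactors_mul hP.ne_zero hJ,
      UniqueFactorizationMonoid.normalizedFactors_irreducible hP.irreducible, normalize_eq,
      Multiset.map_add, Multiset.prod_add, ← ih hxJ]
    simp only [Multiset.map_singleton, Multiset.prod_singleton]
    have hne : P * J ≠ J := by
      intro h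
      have h1 : P * J = 1 * J := by rw [h, one_mul]
      exact hP.not_unit (by rw [mul_right_cancel₀ hJ h1]; exact isUnit_one)
    obtain ⟨a, haJ, ha⟩ := SetLike.exists_of_lt (lt_of_le_of_ne hPJ hne)
    have hsup : J ≤ Ideal.span {a} ⊔ P * J := by
      have h1 : Ideal.span {a} ⊔ P * J ≤ J :=
        sup_le ((Ideal.span_singleton_le_iff_mem J).mpr haJ) hPJ
      obtain ⟨Q, hQ⟩ := Ideal.dvd_iff_le.mpr h1
      have h2 : P ≤ Q := by
        have h3 : P * J ≤ Q * J := by
          rw [mul_comm Q J, ← hQ]
          exact le_sup_right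
        rw [← Ideal.dvd_iff_le] at h3 ⊢
        exact (mul_dvd_mul_iff_right hJ).mp h3
      have h4 : Q ≠ P := by
        rintro rfl
        apply ha
        rw [mul_comm Q J, ← hQ]
        exact Ideal.mem_sup_left (Ideal.mem_span_singleton_self a)
      have h5 : Q = ⊤ := by
        by_contra h6
        exact h4 (hmax.eq_of_le h6 h2).symm
      rw [hQ, h5, Ideal.mul_top]
    have hfin : Module.Finite L (B ⧸ P * J) := finite_quot (P * J) hI
    refine det_step (Ideal.Quotient.factorₐ L hPJ).toLinearMap ?_ _ _ ?_
      (Ideal.Quotient.mk (P * J) a) ?_ ?_ (c P) ?_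
    · exact Ideal.Quotient.factor_surjective hPJ
    · intro v
      change Ideal.Quotient.factorₐ L hPJ (Ideal.Quotient.mk (P * J) b * v) =
        Ideal.Quotient.mk J b * Ideal.Quotient.factorₐ L hPJ v
      rw [map_mul]
      rfl
    · rw [Ne, Ideal.Quotient.eq_zero_iff_mem]
      exact ha
    · ext y
      obtain ⟨t, rfl⟩ := Ideal.Quotient.mk_surjective y
      rw [LinearMap.mem_ker, Submodule.mem_span_singleton]
      change Ideal.Quotient.mk J t = 0 ↔ _
      rw [Ideal.Quotient.eq_zero_iff_mem]
      constructor
      · intro ht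
        obtain ⟨u, hu, z, hz, rfl⟩ := Submodule.mem_sup.mp (hsup ht)
        obtain ⟨r, rfl⟩ := Ideal.mem_span_singleton'.mp hu
        obtain ⟨l, hl⟩ := exists_const P hxP r
        refine ⟨l, ?_⟩
        rw [Algebra.smul_def, IsScalarTower.algebraMap_apply L B (B ⧸ P * J)]
        change Ideal.Quotient.mk (P * J) (algebraMap L B l) * _ = _
        rw [← map_mul, Ideal.Quotient.eq]
        have h1 : algebraMap L B l * a - (r * a + z) = -((r - algebraMap L B l) * a) - z := by
          ring
        rw [h1]
        exact Ideal.sub_mem _ (Ideal.neg_mem_iff _ |>.mpr (Ideal.mul_mem_mul hl haJ)) hz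
      · rintro ⟨l, hl⟩
        rw [Algebra.smul_def, IsScalarTower.algebraMap_apply L B (B ⧸ P * J)] at hl
        change Ideal.Quotient.mk (P * J) (algebraMap L B l) * _ = _ at hl
        rw [← map_mul, Ideal.Quotient.eq] at hl
        have h1 : t = algebraMap L B l * a - (algebraMap L B l * a - t) := by ring
        rw [h1]
        exact Ideal.sub_mem _ (Ideal.mul_mem_left _ _ haJ) (hPJ hl)
    · change Ideal.Quotient.mk (P * J) b * Ideal.Quotient.mk (P * J) a = _
      rw [Algebra.smul_def, IsScalarTower.algebraMap_apply L B (B ⧸ P * J)]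
      change _ = Ideal.Quotient.mk (P * J) (algebraMap L B (c P)) * _
      rw [← map_mul, ← map_mul, Ideal.Quotient.eq, ← sub_mul]
      exact Ideal.mul_mem_mul (hc P hprime hxP) haJ

end NVB_

open NVB_ in
theorem p_NVB : T_NVB := by
  classical
  intro L K B _ _ _ _ _ _ _ _ _ _ _ _ _ _ b c hc
  have hinj : Function.Injective (algebraMap (Polynomial L) B) :=
    FaithfulSMul.algebraMap_injective _ _
  set x := algebraMap (Polynomial L) B Polynomial.X with hx
  have hx0 : x ≠ 0 := by
    rw [hx, Ne, map_eq_zero_iff _ hinj]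
    exact Polynomial.X_ne_zero
  have hs0 : Ideal.span {x} ≠ 0 := by
    rw [Ne, Submodule.zero_eq_bot, Ideal.span_singleton_eq_bot]
    exact hx0
  let c' : Ideal B → L := fun P => if h : P.IsPrime ∧ P ≠ ⊥ then c ⟨P, h.1, h.2⟩ else 0
  have hc' : ∀ P : IsDedekindDomain.HeightOneSpectrum B, c' P.asIdeal = c P := by
    intro P
    simp only [c']
    rw [dif_pos ⟨P.isPrime, P.ne_bot⟩]
  rw [norm_red, norm_quot hx0 b c' ?_ _ (Ideal.mem_span_singleton_self x)]
  · set s := UniqueFactorizationMonoid.normalizedFactors (Ideal.span {x}) with hs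
    have h1 : ∀ P : IsDedekindDomain.HeightOneSpectrum B,
        c P ^ (- WithZero.log (P.valuation K (algebraMap B K x))) =
          c' P.asIdeal ^ s.count P.asIdeal := by
      intro P
      rw [hc', IsDedekindDomain.HeightOneSpectrum.valuation_of_algebraMap,
        IsDedekindDomain.HeightOneSpectrum.intValuation_if_neg _ hx0, WithZero.log_exp, neg_neg,
        zpow_natCast, Ideal.count_associates_factors_eq hs0 P.isPrime P.ne_bot]
    rw [finprod_congr h1]
    have hinj2 : Function.Injective
        (fun P : IsDedekindDomain.HeightOneSpectrum B => P.asIdeal) :=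
      fun P Q h => IsDedekindDomain.HeightOneSpectrum.ext h
    rw [← finprod_mem_range (f := fun m => c' m ^ s.count m) hinj2,
      Finset.prod_multiset_map_count]
    symm
    apply finprod_mem_eq_prod_of_inter_mulSupport_eq
    ext m
    simp only [Set.mem_inter_iff, Set.mem_range, Function.mem_mulSupport, Finset.mem_coe,
      Multiset.mem_toFinset]
    constructor
    · rintro ⟨-, h⟩
      refine ⟨?_, h⟩
      by_contra h2
      rw [Multiset.count_eq_zero.mpr h2, pow_zero] at h
      exact h rfl
    · rintro ⟨h, h2⟩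
      have h3 := UniqueFactorizationMonoid.prime_of_normalized_factor m h
      exact ⟨⟨⟨m, Ideal.isPrime_of_prime h3, h3.ne_zero⟩, rfl⟩, h2⟩
  · intro P hP hxP
    have hne : P ≠ ⊥ := by
      rintro rfl
      exact hx0 (by simpa using hxP)
    have h2 := hc ⟨P, hP, hne⟩ hxP
    rw [← hc' ⟨P, hP, hne⟩] at h2
    exact h2

end Pool.Agent.FDX
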