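import Pool.Agent.FDX.Targets

/-!
# FDX, T_PR: principal divisors have degree `0`, a function without zeros is constant
-/

set_option autoImplicit false

namespace Pool.Agent.FDX

open Pool.Agent.FD

namespace PR_

theorem two_zpow {L : Type} [Field L] [CharZero L] (d : ℤ) (h : (2 : L) ^ d = 1) : d = 0 := by
  have nat : ∀ n : ℕ, (2 : L) ^ n = 1 → n = 0 := by
    intro n hn
    have h1 : ((2 ^ n : ℕ) : L) = ((1 : ℕ) : L) := by push_cast; exact hn
    have h2 : 2 ^ n = 1 := Nat.cast_injective h1
    by_contra h3
    have := Nat.one_lt_two_pow h3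
    omega
  rcases Int.le_total 0 d with hd | hd
  · obtain ⟨n, rfl⟩ := Int.eq_ofNat_of_zero_le hd
    rw [zpow_natCast] at h
    exact_mod_cast nat n h
  · obtain ⟨n, hn⟩ := Int.eq_ofNat_of_zero_le (neg_nonneg.mpr hd)
    have h1 : (2 : L) ^ (-d) = 1 := by rw [zpow_neg, h, inv_one]
    rw [hn, zpow_natCast] at h1
    have := nat n h1
    omega

end PR_

/-- degree zero, and constants -/
theorem p_PR (h_WEIL : T_WEIL) (h_EXI : T_EXI) (h_FIN : T_FIN) (h_EV : T_EV) : T_PR := by
  intro L K _ _ _ _ _ hFF f hf
  have hinj : Function.Injective (algebraMap L K) := (algebraMap L K).injective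
  refine ⟨?_, ?_⟩
  · have h2 : algebraMap L K 2 ≠ 0 := by
      intro h
      have : (2 : L) = 0 := hinj (by rw [h, map_zero])
      exact two_ne_zero this
    have hdv : dv (L := L) (algebraMap L K 2) = 0 := by
      funext v
      exact v.ord_const 2
    have hoff : Off (dv (L := L) (algebraMap L K 2)) f := by
      intro v hv
      rw [hdv] at hv
      exact absurd rfl hv
    have hW := h_WEIL L K hFF (algebraMap L K 2) f h2 hf hoff
    have hsup : (Function.support (dv (L := L) f)).Finite := h_FIN L K hFF f hf
    obtain ⟨_, _, _, _, _, _, _, _, hc⟩ := h_EV L K hFF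
    rw [hc 2 (dv (L := L) f) hsup two_ne_zero, hdv] at hW
    have h1 : ev f (0 : Place L K → ℤ) = 1 := by
      unfold ev
      have : ∀ v : Place L K, val v f ^ ((0 : Place L K → ℤ) v) = 1 := by
        intro v
        rw [Pi.zero_apply, zpow_zero]
      rw [finprod_congr this, finprod_one]
    rw [h1] at hW
    exact PR_.two_zpow _ hW
  · intro hord
    by_cases ht : Transcendental L f
    · obtain ⟨v, hv⟩ := h_EXI L K hFF f ht
      rw [hord v] at hv
      exact absurd hv (lt_irrefl 0)
    · have hint : IsIntegral L f := (not_not.mp ht : IsAlgebraic L f).isIntegral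
      have hdeg := IsAlgClosed.degree_eq_one_of_irreducible L (minpoly.irreducible hint)
      obtain ⟨c, hc⟩ := minpoly.mem_range_of_degree_eq_one L f hdeg
      refine ⟨c, ?_, hc.symm⟩
      rintro rfl
      rw [map_zero] at hc
      exact hf hc.symm

end Pool.Agent.FDX
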