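import Pool.Agent.FDX.Targets

set_option autoImplicit false

/-!
# FDX: PUSHX, push-forward of divisors and values
-/

namespace Pool.Agent.FDX

open Pool.Agent.FD

namespace PUSHX_

section

variable {L K : Type} [Field L] [Field K] [Algebra L K] (v : Place L K)

theorem ord_neg (f : K) : v.ord (-f) = v.ord f := by
  by_cases hf : f = 0
  · rw [hf, neg_zero]
  · have h1 : v.ord (-1 : K) = 0 := by
      have := v.ord_const (-1)
      rwa [map_neg, map_one] at this
    have h2 : -f = (-1) * f := by ring
    rw [h2, v.ord_mul _ _ (neg_ne_zero.2 one_ne_zero) hf, h1, zero_add]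

theorem ord_eq_zero {f : K} {c : L} (hc : c ≠ 0) (h : 0 < v.ord (f - algebraMap L K c)) :
    v.ord f = 0 := by
  set g := f - algebraMap L K c with hg
  set k := algebraMap L K c with hk
  have hk0 : k ≠ 0 := (map_ne_zero _).2 hc
  have hok : v.ord k = 0 := v.ord_const c
  have hg0 : g ≠ 0 := by
    intro h0
    rw [h0, v.ord_zero] at h
    exact absurd h (lt_irrefl _)
  have hf0 : f ≠ 0 := by
    intro h0
    rw [hg, h0, zero_sub, ord_neg, hok] at h
    exact absurd h (lt_irrefl _)
  have h1 : min (v.ord g) (v.ord k) ≤ v.ord f := by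
    have e : g + k = f := by rw [hg]; ring
    have := v.ord_add g k hg0 hk0 (by rw [e]; exact hf0)
    rwa [e] at this
  have h2 : min (v.ord f) (v.ord g) ≤ v.ord k := by
    have e : f + -g = k := by rw [hg]; ring
    have := v.ord_add f (-g) hf0 (neg_ne_zero.2 hg0) (by rw [e]; exact hk0)
    rwa [e, ord_neg] at this
  rw [hok] at h1 h2
  rcases min_le_iff.1 h1 with h3 | h3
  · omega
  · rcases min_le_iff.1 h2 with h4 | h4
    · omega
    · omega

theorem val_eq_one {f : K} (h : v.ord f ≠ 0) : val v f = 1 := by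
  unfold val
  rw [dif_neg]
  rintro ⟨c, hc, h1 | h1⟩
  · rw [h1, v.ord_const] at h
    exact h rfl
  · exact h (ord_eq_zero v hc h1)

end

theorem fp {α β M : Type} [CommMonoid M] {e : α → β} (he : Function.Injective e) (F : β → M)
    (h : ∀ w, w ∉ Set.range e → F w = 1) : ∏ᶠ w, F w = ∏ᶠ v, F (e v) := by
  rw [← finprod_mem_univ, finprod_mem_inter_mulSupport_eq' F Set.univ (Set.range e) ?_,
    finprod_mem_range he]
  intro x hx
  simp only [Set.mem_univ, true_iff]
  by_contra hc
  exact hx (h x hc)

theorem fs {α β M : Type} [AddCommMonoid M] {e : α → β} (he : Function.Injective e) (F : β → M)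
    (h : ∀ w, w ∉ Set.range e → F w = 0) : ∑ᶠ w, F w = ∑ᶠ v, F (e v) := by
  rw [← finsum_mem_univ, finsum_mem_inter_support_eq' F Set.univ (Set.range e) ?_,
    finsum_mem_range he]
  intro x hx
  simp only [Set.mem_univ, true_iff]
  by_contra hc
  exact hx (h x hc)

end PUSHX_

open PUSHX_ in
/-- PUSHX -/
theorem p_PUSHX (h_EXT1 : T_EXT1) (h_EXT2 : T_EXT2) (h_FF : T_FF) (h_VAL : T_VAL)
    (h_EV : T_EV) : T_PUSHX := by
  intro C L L' _ _ _ _ _ _ j
  obtain ⟨hA, hB⟩ := h_EXT1 C L L' j
  choose e he using fun v : C.Pt L => h_EXT2 C L L' j v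
  have hNT : ∀ v : C.Pt L, ∃ f : C.FunField L, (e v).ord (C.mapFun j f) = 1 := by
    intro v
    obtain ⟨f, hf⟩ := v.exists_ord_one
    exact ⟨f, by rw [he, hf]⟩
  have hres : ∀ v : C.Pt L, C.restrict j (e v) (hNT v) = v := by
    intro v
    apply Place.ext
    funext f
    exact he v f
  have hinj : Function.Injective e := by
    intro v v' h
    apply Place.ext
    funext f
    rw [← he v f, ← he v' f, h]
  have hsurj : ∀ (w : C.Pt L') (h : ∃ f : C.FunField L, w.ord (C.mapFun j f) = 1),
      e (C.restrict j w h) = w := by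
    intro w h
    exact (hB w _ h fun f => (he (C.restrict j w h) f).symm).symm
  have hpush : ∀ (A : C.Pt L → ℤ) (v : C.Pt L), C.push j A (e v) = A v := by
    intro A v
    unfold Curve.push
    rw [dif_pos (hNT v), hres]
  have hpush0 : ∀ (A : C.Pt L → ℤ) (w : C.Pt L'), w ∉ Set.range e → C.push j A w = 0 := by
    intro A w hw
    unfold Curve.push
    rw [dif_neg]
    intro h
    exact hw ⟨_, hsurj w h⟩
  have hrange : ∀ w : C.Pt L', w ∉ Set.range e → ∀ f : C.FunField L,
      w.ord (C.mapFun j f) = 0 := by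
    intro w hw
    rcases hA w with h | h
    · exact absurd ⟨_, hsurj w h⟩ hw
    · exact h
  have hval : ∀ (v : C.Pt L) (f : C.FunField L), f ≠ 0 →
      val (e v) (C.mapFun j f) = j (val v f) := by
    intro v f hf
    by_cases h0 : v.ord f = 0
    · obtain ⟨c, hc, hcf⟩ := h_VAL L (C.FunField L) (h_FF C L) v f hf h0
      have e1 : val v f = c := (h_EV L (C.FunField L) (h_FF C L)).2.1 v f c hc hcf
      rw [e1]
      refine (h_EV L' (C.FunField L') (h_FF C L')).2.1 (e v) (C.mapFun j f) (j c)
        ((map_ne_zero _).2 hc) ?_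
      rcases hcf with h1 | h1
      · left
        rw [h1, C.mapFun_const]
      · right
        rw [← C.mapFun_const j c, ← map_sub, he]
        exact h1
    · rw [val_eq_one v h0, map_one]
      exact val_eq_one (e v) (by rw [he]; exact h0)
  refine ⟨?_, ?_, ?_, ?_⟩
  · intro f _
    funext w
    by_cases hw : w ∈ Set.range e
    · obtain ⟨v, rfl⟩ := hw
      rw [hpush]
      exact (he v f).symm
    · rw [hpush0 _ _ hw]
      exact (hrange w hw f).symm
  · rintro A d ⟨h1, h2⟩
    refine ⟨?_, ?_⟩
    · refine (h1.image e).subset ?_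
      intro w hw
      by_cases hw2 : w ∈ Set.range e
      · obtain ⟨v, rfl⟩ := hw2
        refine ⟨v, ?_, rfl⟩
        rw [Function.mem_support, hpush] at hw
        exact hw
      · exact absurd (hpush0 A w hw2) hw
    · rw [fs hinj (C.push j A) (hpush0 A)]
      simp only [hpush]
      exact h2
  · intro A f hAf hf
    unfold ev
    rw [fp hinj (fun w => val w (C.mapFun j f) ^ C.push j A w)
      (fun w hw => by rw [hpush0 A w hw, zpow_zero])]
    have h3 : (Function.mulSupport fun v : C.Pt L => val v f ^ A v).Finite := by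
      refine hAf.subset ?_
      intro v hv hc
      exact hv (by simp only [hc, zpow_zero])
    have h4 := (j : L →* L').map_finprod h3
    simp only [MonoidHom.coe_coe] at h4
    rw [h4]
    refine finprod_congr fun v => ?_
    rw [hpush, hval v f hf, map_zpow₀]
  · intro A f hoff w hw
    by_cases hw2 : w ∈ Set.range e
    · obtain ⟨v, rfl⟩ := hw2
      rw [hpush] at hw
      rw [he]
      exact hoff v hw
    · exact hrange w hw2 f

end Pool.Agent.FDX
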