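import Pool.Agent.FDX.Targets2

/-!
# FDX, target RESK: rational points of arrangement curves over a field of characteristic zero
-/

open MvPolynomial

namespace Pool.Agent.FDX

open Pool.Agent.FD

namespace RESK_

open Pool.Agent.FD.Res_

variable {ι : Type} [Fintype ι] [DecidableEq ι] (A : Arr ι)

theorem map_aeval_int {k L : Type} [Field k] [Field L] (j : k →+* L) (p : Polynomial ℤ) (r : k) :
    Polynomial.aeval (j r) p = j (Polynomial.aeval r p) := by
  rw [Polynomial.aeval_def, Polynomial.aeval_def, Polynomial.hom_eval₂]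
  congr 1
  exact Subsingleton.elim _ _

open IntermediateField in
theorem core (h1 : T_CLASS) {k L K : Type} [Field k] [CharZero k] [Field L] [CharZero L]
    [IsAlgClosed L] [Algebra k L] [Field K] [CharZero K] [Algebra L K] (v : Place L K) (x y : K)
    (hE : A.Eqn x y)
    (hgen : ∀ f : K, ∃ a b : MvPolynomial (Fin 2) L, aeval ![x, y] b ≠ 0 ∧
      f * aeval ![x, y] b = aeval ![x, y] a)
    (hx : ∀ θ : L, Sm v.toDV (x - algebraMap L K θ) → ∃ r : k, algebraMap k L r = θ)
    (hy : ∀ θ : L, Sm v.toDV (y - algebraMap L K θ) → ∃ r : k, algebraMap k L r = θ)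
    (hg : ∀ i, ∀ θ : L, Sm v.toDV (A.g i x y - algebraMap L K θ) →
      ∃ r : k, algebraMap k L r = θ) :
    (∃ i, ∃ θ : k, Polynomial.aeval θ (A.f i) = 0 ∧ v.ord x < 0 ∧
      Sm v.toDV (A.g i x y - algebraMap L K (algebraMap k L θ)) ∧
      ∀ j, j ≠ i → v.ord (A.g j x y) < 0) ∨
    ∃ α β : k, A.Eqn α β ∧ Sm v.toDV (x - algebraMap L K (algebraMap k L α)) ∧
      Sm v.toDV (y - algebraMap L K (algebraMap k L β)) := by
  obtain ⟨hc1, hc2⟩ := h1 ι A K v.toDV x y hE
  by_cases hneg : v.toDV.ord x < 0
  · left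
    obtain ⟨i, _, hj, hi⟩ := hc2 hneg
    have hc : v.toDV.ord (A.c : K) = 0 := by
      have := const_zero v (A.c : L)
      rwa [map_intCast] at this
    rw [hc, zero_sub] at hi
    have hsm : Sm v.toDV (Polynomial.aeval (A.g i x y) ((A.f i).map (Int.castRingHom L))) := by
      right
      rw [aeval_map_int, hi]
      have := N_pos A i
      have h3 : (0 : ℤ) < A.N i := by exact_mod_cast this
      nlinarith
    obtain ⟨θ, hθ, hθ2⟩ := exists_root v _ (((A.monic i).map _).ne_zero) _ hsm
    obtain ⟨r, rfl⟩ := hg i θ hθ2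
    refine ⟨i, r, ?_, hneg, hθ2, ?_⟩
    · have h4 : Polynomial.aeval (algebraMap k L r) ((A.f i).map (Int.castRingHom L)) = 0 := by
        rwa [Polynomial.coe_aeval_eq_eval]
      rw [aeval_map_int, map_aeval_int] at h4
      exact (map_eq_zero _).1 h4
    · intro j hji
      have h5 := hj j hji
      have h6 : (0 : ℤ) < A.w i j := by exact_mod_cast A.w_pos (Ne.symm hji)
      have h7 : v.ord (A.g j x y) = v.toDV.ord x * A.w i j := h5
      rw [h7]
      exact mul_neg_of_neg_of_pos hneg h6
  · right
    push Not at hneg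
    have hy0 := hc1 hneg
    -- `y` is algebraic over `L(x)`
    have hya : IsAlgebraic (L⟮x⟯) y := by
      refine ⟨Qp A (L⟮x⟯) (fun i => Polynomial.aeval (AdjoinSimple.gen L x) (A.h i)),
        Qp_ne_zero A _ _, ?_⟩
      rw [aeval_Qp]
      have e : ∀ i, algebraMap (L⟮x⟯) K (Polynomial.aeval (AdjoinSimple.gen L x) (A.h i)) =
          Polynomial.aeval x (A.h i) := by
        intro i
        rw [Polynomial.aeval_def, Polynomial.hom_eval₂, AdjoinSimple.algebraMap_gen,
          Polynomial.aeval_def]
        congr 1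
      simp only [e]
      exact sub_eq_zero.2 hE
    obtain ⟨β, hβ⟩ := exists_center v hneg hgen hya
    have hβ0 : 0 ≤ v.toDV.ord (algebraMap L K β) := (const_zero v β).ge
    -- the residue of `y`
    have hsm : Sm v.toDV (Polynomial.aeval y (Qp A L (fun i => Polynomial.aeval β (A.h i)))) := by
      rw [aeval_Qp, ← (show _ = (A.c : K) from hE)]
      have e : ∀ i, algebraMap L K (Polynomial.aeval β (A.h i)) =
          Polynomial.aeval (algebraMap L K β) (A.h i) := by
        intro i
        rw [map_aeval_int]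
      simp only [e]
      have h5 : ∀ i, 0 ≤ v.toDV.ord (y + Polynomial.aeval (algebraMap L K β) (A.h i)) :=
        fun i => v.toDV.ord_add_nonneg hy0 (v.toDV.ord_aeval_nonneg _ hβ0)
      have h6 : ∀ i, 0 ≤ v.toDV.ord (A.g i x y) :=
        fun i => v.toDV.ord_add_nonneg hy0 (v.toDV.ord_aeval_nonneg _ hneg)
      refine prod_sub_Sm _ _ _ (fun i _ => v.toDV.ord_aeval_nonneg _ (h5 i))
        (fun i _ => v.toDV.ord_aeval_nonneg _ (h6 i)) fun i _ => ?_
      refine aeval_sub_Sm _ (h5 i) (h6 i) ?_
      have e2 : y + Polynomial.aeval (algebraMap L K β) (A.h i) - A.g i x y =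
          Polynomial.aeval (algebraMap L K β) (A.h i) - Polynomial.aeval x (A.h i) := by
        unfold Arr.g
        ring
      rw [e2]
      refine aeval_sub_Sm _ hβ0 hneg ?_
      have := hβ.neg
      rwa [neg_sub] at this
    obtain ⟨α, hα, hα2⟩ := exists_root v _ (Qp_ne_zero A L _) y hsm
    obtain ⟨a, rfl⟩ := hy α hα2
    obtain ⟨b, rfl⟩ := hx β hβ
    refine ⟨b, a, ?_, hβ, hα2⟩
    have h7 : Polynomial.aeval (algebraMap k L a)
        (Qp A L (fun i => Polynomial.aeval (algebraMap k L b) (A.h i))) = 0 := by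
      rwa [Polynomial.coe_aeval_eq_eval]
    rw [aeval_Qp, sub_eq_zero] at h7
    have h8 : ∀ i, Polynomial.aeval
        (algebraMap k L a + algebraMap L L (Polynomial.aeval (algebraMap k L b) (A.h i)))
        (A.f i) = algebraMap k L (Polynomial.aeval (A.g i b a) (A.f i)) := by
      intro i
      have h8' : algebraMap k L (A.g i b a) = algebraMap k L a +
          algebraMap L L (Polynomial.aeval (algebraMap k L b) (A.h i)) := by
        rw [map_aeval_int (algebraMap k L) (A.h i) b]
        exact map_add _ _ _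
      rw [← h8', map_aeval_int]
    simp only [h8] at h7
    unfold Arr.Eqn
    have h9 : algebraMap k L (∏ i, Polynomial.aeval (A.g i b a) (A.f i)) =
        algebraMap k L (A.c : k) := by
      rw [map_prod, h7, map_intCast]
    exact (algebraMap k L).injective h9

end RESK_

open RESK_ Pool.Agent.FD.Res_ in
/-- A2. -/
theorem p_RESK (h1 : FD.T_CLASS) : T_RESK := by
  intro ι _ _ A C hC K _ _ P hP
  have hch : CharZero (C.FunField (AlgebraicClosure K)) :=
    charZero_of_injective_algebraMap
      (algebraMap (AlgebraicClosure K) (C.FunField (AlgebraicClosure K))).injective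
  have hrat : ∀ f : C.FunField (AlgebraicClosure K),
      (∀ σ : AlgebraicClosure K →+* AlgebraicClosure K, C.mapFun σ f = f) →
      ∀ θ : AlgebraicClosure K,
      Sm P.toDV (f - algebraMap (AlgebraicClosure K) (C.FunField (AlgebraicClosure K)) θ) →
      ∃ r : K, algebraMap K (AlgebraicClosure K) r = θ := by
    intro f hf θ h
    exact rat_of_fixed K P hP f (fun σ => hf _) θ h
  refine RESK_.core A h1 P (C.xF (AlgebraicClosure K)) (C.yF (AlgebraicClosure K))
    (A.eqn_of_F hC _) (C.exists_ratio _) ?_ ?_ ?_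
  · exact hrat _ fun σ => C.mapFun_xF σ
  · exact hrat _ fun σ => C.mapFun_yF σ
  · intro i
    refine hrat _ fun σ => ?_
    rw [map_g, C.mapFun_xF, C.mapFun_yF]

end Pool.Agent.FDX
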