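import Pool.Agent.FDX.Targets2
import Pool.Agent.FD.Side

/-!
# FDX: A8, the global argument (adelic version of `T_SIDE`)
-/

namespace Pool.Agent.FDX

open Pool.Agent.FD

namespace SIDEA_

open Finset

/-- the valuation of a rational number by factorizations -/
theorem val_eq {p : ℕ} (hp : p.Prime) (q : ℚ) :
    padicValRat p q = (q.num.natAbs.factorization p : ℤ) - q.den.factorization p := by
  rw [padicValRat, padicValInt, Nat.factorization_def _ hp, Nat.factorization_def _ hp]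

/-- a rational whose valuations are those of `l g₁ / g₂` up to multiples of `N` -/
theorem exists_form {G L N : ℕ} (hN : 1 ≤ N) (hG : G ≠ 0) (hL : L ≠ 0) (δ : ℚ) (hδ : δ ≠ 0)
    (h : ∀ p, p.Prime → ∃ e : ℤ, |e| ≤ G.factorization p ∧
      (N : ℤ) ∣ padicValRat p δ - (L.factorization p : ℤ) - e) :
    ∃ g₁ ∈ G.divisors, ∃ g₂ ∈ G.divisors, ∃ A B : ℕ, A ≠ 0 ∧ B ≠ 0 ∧ ∃ ε : ℤ,
      (ε = 1 ∨ ε = -1) ∧ δ * g₂ * B ^ N = ε * (L * g₁ * A ^ N) := by
  choose! e he1 he2 using h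
  obtain ⟨g₁, hg₁, hg₁'⟩ := Side.exists_fac hG (fun p => (e p).toNat) (fun p hp => by
    have := he1 p hp
    have h2 := le_abs_self (e p)
    omega)
  obtain ⟨g₂, hg₂, hg₂'⟩ := Side.exists_fac hG (fun p => (-e p).toNat) (fun p hp => by
    have := he1 p hp
    have h2 := neg_abs_le (e p)
    omega)
  have hg₁0 : g₁ ≠ 0 := fun h => by
    rw [h, Nat.mem_divisors, zero_dvd_iff] at hg₁
    exact hG hg₁.1
  have hg₂0 : g₂ ≠ 0 := fun h => by
    rw [h, Nat.mem_divisors, zero_dvd_iff] at hg₂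
    exact hG hg₂.1
  have hx0 : δ.num.natAbs ≠ 0 := Int.natAbs_ne_zero.2 (Rat.num_ne_zero.2 hδ)
  have hy0 : δ.den ≠ 0 := δ.den_ne_zero
  obtain ⟨A, B, hco, hAB⟩ := Side.exists_ratio (N := N) (mul_ne_zero hx0 hg₂0)
    (mul_ne_zero (mul_ne_zero hy0 hL) hg₁0) (fun p hp => by
      rw [Nat.factorization_mul hx0 hg₂0, Nat.factorization_mul (mul_ne_zero hy0 hL) hg₁0,
        Nat.factorization_mul hy0 hL]
      simp only [Finsupp.add_apply, hg₁' p hp, hg₂' p hp]
      have h1 := he2 p hp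
      rw [val_eq hp] at h1
      have h2 : ((δ.num.natAbs.factorization p + (-e p).toNat : ℕ) : ℤ) -
          ((δ.den.factorization p + L.factorization p + (e p).toNat : ℕ) : ℤ) =
          (δ.num.natAbs.factorization p : ℤ) - δ.den.factorization p -
            (L.factorization p : ℤ) - e p := by
        push_cast
        have h3 : ((-e p).toNat : ℤ) - ((e p).toNat : ℤ) = - e p := by omega
        linear_combination h3
      rw [h2]
      exact h1)
  have hN0 : N ≠ 0 := by omega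
  have hA0 : A ≠ 0 := by
    rintro rfl
    rw [zero_pow hN0, mul_zero] at hAB
    rcases mul_eq_zero.1 hAB with h1 | h1
    · exact mul_ne_zero hx0 hg₂0 h1
    · have hB := (pow_eq_zero_iff hN0).1 h1
      rw [hB] at hco
      simp at hco
  have hB0 : B ≠ 0 := by
    rintro rfl
    rw [zero_pow hN0, mul_zero] at hAB
    rcases mul_eq_zero.1 hAB.symm with h1 | h1
    · exact mul_ne_zero (mul_ne_zero hy0 hL) hg₁0 h1
    · exact hA0 ((pow_eq_zero_iff hN0).1 h1)
  have hQ : ((δ.num.natAbs : ℕ) : ℚ) * g₂ * B ^ N = δ.den * L * g₁ * A ^ N := by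
    exact_mod_cast congrArg (Nat.cast : ℕ → ℚ) hAB
  have hdq : (δ.den : ℚ) ≠ 0 := by exact_mod_cast hy0
  have hnd : (δ.num : ℚ) = δ * δ.den := (Rat.mul_den_eq_num δ).symm
  rcases Int.natAbs_eq δ.num with h | h
  · refine ⟨g₁, hg₁, g₂, hg₂, A, B, hA0, hB0, 1, Or.inl rfl, ?_⟩
    have h1 : ((δ.num.natAbs : ℕ) : ℚ) = δ * δ.den := by
      rw [← hnd]
      have : ((δ.num.natAbs : ℤ) : ℚ) = (δ.num : ℚ) := by rw [← h]
      simpa using this
    rw [h1] at hQ
    apply mul_left_cancel₀ hdq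
    push_cast
    linear_combination hQ
  · refine ⟨g₁, hg₁, g₂, hg₂, A, B, hA0, hB0, -1, Or.inr rfl, ?_⟩
    have h1 : ((δ.num.natAbs : ℕ) : ℚ) = -(δ * δ.den) := by
      rw [← hnd]
      have h2 := congrArg (Int.cast : ℤ → ℚ) h
      rw [Int.cast_neg, Int.cast_natCast] at h2
      rw [h2, neg_neg]
    rw [h1] at hQ
    apply mul_left_cancel₀ hdq
    push_cast
    linear_combination -hQ

/-- the local argument at `p` -/
theorem local_arg (p : ℕ) [Fact p.Prime] (N : ℕ) (hN : 1 ≤ N) (δ : ℚ) (A B L g₁ g₂ : ℕ)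
    (hA0 : A ≠ 0) (hB0 : B ≠ 0) (ε : ℤ) (hε : ε = 1 ∨ ε = -1)
    (hform : δ * g₂ * B ^ N = ε * (L * g₁ * A ^ N))
    (hL : ¬ p ∣ L) (hg₁ : ¬ p ∣ g₁) (hg₂ : ¬ p ∣ g₂)
    (s : ℚ_[p]) (z : ℤ_[p]) (hz : (z : ℚ_[p]) = (δ : ℚ_[p]) * s ^ N)
    (hzu : PadicInt.toZMod z ≠ 0) :
    ∃ y : ZMod p, y ≠ 0 ∧ PadicInt.toZMod z * (g₂ : ZMod p) = ε * (L * g₁ * y ^ N) := by
  have hzn : ‖z‖ = 1 := by
    rw [← PadicInt.isUnit_iff]
    by_contra h
    apply hzu
    have h1 : z ∈ IsLocalRing.maximalIdeal ℤ_[p] := (IsLocalRing.mem_maximalIdeal _).2 h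
    rw [← PadicInt.ker_toZMod] at h1
    exact h1
  have hnat : ∀ n : ℕ, ¬ p ∣ n → ‖(n : ℚ_[p])‖ = 1 := by
    intro n hn
    exact (Padic.norm_natCast_eq_one_iff).2
      ((Nat.Prime.coprime_iff_not_dvd (Fact.out)).2 hn)
  have hAq : (A : ℚ_[p]) ≠ 0 := by exact_mod_cast hA0
  have hBq : (B : ℚ_[p]) ≠ 0 := by exact_mod_cast hB0
  have hfq : (δ : ℚ_[p]) * g₂ * B ^ N = ε * (L * g₁ * A ^ N) := by
    exact_mod_cast congrArg (Rat.cast : ℚ → ℚ_[p]) hform
  set y : ℚ_[p] := s * A / B with hy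
  have hyN : (z : ℚ_[p]) * g₂ = ε * (L * g₁ * y ^ N) := by
    rw [hz, hy, div_pow, mul_pow]
    field_simp
    linear_combination s ^ N * hfq
  have hyn : ‖y‖ = 1 := by
    have h1 := congrArg norm hyN
    rw [norm_mul, norm_mul, norm_mul, norm_mul, norm_pow, hnat _ hL, hnat _ hg₁, hnat _ hg₂,
      ← PadicInt.norm_def, hzn] at h1
    have h2 : ‖(ε : ℚ_[p])‖ = 1 := by
      rcases hε with h | h <;> rw [h] <;> simp
    rw [h2] at h1
    simp only [one_mul, mul_one] at h1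
    exact (pow_eq_one_iff_of_nonneg (norm_nonneg _) (by omega)).1 h1.symm
  set yi : ℤ_[p] := ⟨y, hyn.le⟩ with hyi
  have hyu : IsUnit yi := by
    rw [PadicInt.isUnit_iff, PadicInt.norm_def]
    exact hyn
  refine ⟨PadicInt.toZMod yi, (hyu.map PadicInt.toZMod).ne_zero, ?_⟩
  have h3 : z * (g₂ : ℤ_[p]) = (ε : ℤ_[p]) * ((L : ℤ_[p]) * (g₁ : ℤ_[p]) * yi ^ N) := by
    apply Subtype.ext
    push_cast
    exact hyN
  have h4 := congrArg PadicInt.toZMod h3
  simpa using h4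

end SIDEA_

theorem p_SIDEA : T_SIDEA := by
  intro m R P N l hP hl t hN X δ hδ h1 h2 h3
  by_contra hcard
  push Not at hcard
  obtain ⟨a₀, ha₀, b₀, hb₀, hab₀⟩ := Finset.one_lt_card.1 hcard
  obtain ⟨a, ha, b, hb, hab⟩ : ∃ a ∈ X, ∃ b ∈ X, a < b := by
    rcases lt_or_gt_of_ne hab₀ with h | h
    · exact ⟨a₀, ha₀, b₀, hb₀, h⟩
    · exact ⟨b₀, hb₀, a₀, ha₀, h⟩
  obtain ⟨hG, hD⟩ := Side.Del_ne_zero hl b
  have hlb0 : l b ≠ 0 := (hl.prime b).ne_zero
  -- the form of `δ b`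
  obtain ⟨g₁, hg₁, g₂, hg₂, A, B, hA0, hB0, ε, hε, hform⟩ :=
    SIDEA_.exists_form (N := N t) (by omega) hG hlb0 (δ b) (hδ b) (by
      intro p hp
      by_cases hpl : ∃ a', l a' = p
      · obtain ⟨a', ha'⟩ := hpl
        refine ⟨0, by simp, ?_⟩
        have h4 := h2 a' b
        have h5 : ((l b).factorization p : ℤ) = if a' = b ∧ a' ∈ X then 1 else 0 := by
          by_cases h : a' = b
          · have h6 : a' ∈ X := by rw [h]; exact hb
            rw [if_pos ⟨h, h6⟩, ← h, ha', hp.factorization_self]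
            rfl
          · rw [if_neg (fun h6 => h h6.1)]
            have h7 : l b ≠ p := fun h7 => h (hl.inj (ha'.trans h7.symm))
            rw [Nat.factorization_eq_zero_iff _ _ |>.2]
            · rfl
            · right; left
              intro h8
              exact h7 ((Nat.prime_dvd_prime_iff_eq hp (hl.prime b)).1 h8).symm
        rw [h5, sub_zero, ← ha']
        exact h4
      · push Not at hpl
        obtain ⟨e₀, he1, he2⟩ := h1 p hp hpl b
        refine ⟨e₀, he1, ?_⟩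
        have h5 : (l b).factorization p = 0 := by
          rw [Nat.factorization_eq_zero_iff]
          right; left
          intro h8
          exact hpl b ((Nat.prime_dvd_prime_iff_eq hp (hl.prime b)).1 h8).symm
        rw [h5]
        simpa using he2)
  have hla := hl.prime a
  have : Fact (l a).Prime := ⟨hla⟩
  have hgd : ∀ g ∈ (Gam P).divisors, ¬ l a ∣ g := fun g hg h =>
    hl.ndvd a (h.trans (Nat.dvd_of_mem_divisors hg))
  obtain ⟨s, hs, z, hz, hzd⟩ := h3 a ha b hab.ne'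
  -- `d_a - d_b` is a unit modulo `l a`
  have hdab : ((dd P (some a) - dd P (some b) : ℤ) : ZMod (l a)) ≠ 0 := by
    rw [Ne, ZMod.intCast_zmod_eq_zero_iff_dvd]
    intro h
    apply hl.ndvd a
    have h4 : l a ∣ (dd P (some a) - dd P (some b)).natAbs := Int.natCast_dvd.1 h
    have h5 : (dd P (some a) - dd P (some b)).natAbs ∣ Del P :=
      Side.dvd_Del (fun h => hab.ne (Option.some_injective _ h))
    exact (h4.trans h5).trans (by rw [Gam]; exact dvd_pow_self _ (Nat.succ_ne_zero m))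
  have hzu : PadicInt.toZMod z ≠ 0 := by
    intro h
    rw [h, zero_mul] at hzd
    exact hdab hzd.symm
  obtain ⟨y, hy0, hy⟩ := SIDEA_.local_arg (l a) (N t) (by omega) (δ b) A B (l b) g₁ g₂ hA0 hB0
    ε hε hform (fun h => hab.ne (hl.inj ((Nat.prime_dvd_prime_iff_eq hla (hl.prime b)).1 h)))
    (hgd _ hg₁) (hgd _ hg₂) s z hz hzu
  have hav := hl.avoid a b hab t g₁ hg₁ g₂ hg₂ y hy0
  have key : ((dd P (some a) - dd P (some b) : ℤ) : ZMod (l a)) * (g₂ : ZMod (l a)) =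
      (ε : ZMod (l a)) * ((l b : ZMod (l a)) * (g₁ : ZMod (l a)) *
        ((dd P (some a) - dd P none : ℤ) : ZMod (l a)) * y ^ N t) := by
    rw [← hzd]
    linear_combination ((dd P (some a) - dd P none : ℤ) : ZMod (l a)) * hy
  rcases hε with h | h
  · apply hav.1
    rw [h] at key
    push_cast at key ⊢
    linear_combination -key
  · apply hav.2
    rw [h] at key
    push_cast at key ⊢
    linear_combination key

end Pool.Agent.FDX
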