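import Pool.Agent.FDX.Targets
import Pool.Agent.FD.Res

/-!
# FDX, target VAL: residue fields of places are the ground field
-/

namespace Pool.Agent.FDX

open Pool.Agent.FD

namespace VAL_

variable {L K : Type} [Field L] [Field K] [Algebra L K]

/-- an algebraic element over an algebraically closed field is a constant -/
theorem const_of_isAlgebraic [IsAlgClosed L] (f : K) (h : IsAlgebraic L f) :
    ∃ c : L, algebraMap L K c = f := by
  have h1 := IsAlgClosed.degree_eq_one_of_irreducible L (minpoly.irreducible h.isIntegral)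
  exact minpoly.mem_range_of_degree_eq_one L f h1

open IntermediateField in
/-- if no `f - c` is small, the place is trivial on `L(f)` -/
theorem trivial_on [IsAlgClosed L] (v : Place L K) (f : K) (hf : 0 ≤ v.ord f)
    (hcon : ¬ ∃ c : L, Res_.Sm v.toDV (f - algebraMap L K c)) (a : L⟮f⟯) (ha : a ≠ 0) :
    v.toDV.ord (algebraMap (L⟮f⟯) K a) = 0 := by
  have hq : ∀ q : Polynomial L, q ≠ 0 → v.toDV.ord (Polynomial.aeval f q) = 0 := by
    intro q hq0
    by_contra h
    have h1 := Res_.aeval_nonneg v (x := f) hf q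
    obtain ⟨r, _, hr⟩ := Res_.exists_root v q hq0 f (Or.inr (lt_of_le_of_ne h1 (Ne.symm h)))
    exact hcon ⟨r, hr⟩
  obtain ⟨r, s, hrs⟩ := (mem_adjoin_simple_iff L (a : K)).1 a.2
  have e : algebraMap (L⟮f⟯) K a = (a : K) := rfl
  have ha' : (a : K) ≠ 0 := fun h0 => ha (Subtype.ext h0)
  have hr0 : Polynomial.aeval f r ≠ 0 := by
    intro h0
    rw [h0, zero_div] at hrs
    exact ha' hrs
  have hs0 : Polynomial.aeval f s ≠ 0 := by
    intro h0
    rw [h0, div_zero] at hrs
    exact ha' hrs
  have hr1 : r ≠ 0 := by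
    rintro rfl
    exact hr0 (map_zero _)
  have hs1 : s ≠ 0 := by
    rintro rfl
    exact hs0 (map_zero _)
  rw [e, hrs, div_eq_mul_inv, v.toDV.ord_mul _ _ hr0 (inv_ne_zero hs0), v.toDV.ord_inv,
    hq r hr1, hq s hs1]
  rfl

end VAL_

open VAL_ IntermediateField in
/-- G3. -/
theorem p_VAL (h_ALG : T_ALG) : T_VAL := by
  intro L K _ _ _ _ hff v f hf hvf
  by_cases halg : IsAlgebraic L f
  · obtain ⟨c, hc⟩ := const_of_isAlgebraic f halg
    refine ⟨c, ?_, Or.inl hc.symm⟩
    rintro rfl
    rw [map_zero] at hc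
    exact hf hc.symm
  · have hfd := h_ALG L K hff f halg
    by_cases hex : ∃ c : L, Res_.Sm v.toDV (f - algebraMap L K c)
    · obtain ⟨c, hc⟩ := hex
      have hc0 : c ≠ 0 := by
        rintro rfl
        rw [map_zero, sub_zero] at hc
        rcases hc with hc | hc
        · exact hf hc
        · have h1 : v.toDV.ord f = v.ord f := rfl
          rw [h1, hvf] at hc
          exact absurd hc (lt_irrefl _)
      refine ⟨c, hc0, ?_⟩
      rcases hc with hc | hc
      · exact Or.inl (sub_eq_zero.1 hc)
      · exact Or.inr hc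
    · exfalso
      obtain ⟨t, ht⟩ := v.exists_ord_one
      have halgt : IsAlgebraic (L⟮f⟯) t := by
        have : FiniteDimensional (L⟮f⟯) K := hfd
        exact Algebra.IsAlgebraic.isAlgebraic t
      exact Res_.not_algebraic v (trivial_on v f hvf.ge hex) t ht halgt

end Pool.Agent.FDX
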