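import Pool.Agent.FDX.Targets2

/-!
# The value of `h_(i,b)` at an affine point
-/

open MvPolynomial

namespace Pool.Agent.FDX

open Pool.Agent.FD

namespace VALA_

variable {L F : Type} [Field L] [Field F] [Algebra L F] (w : Place L F)

theorem ord_of_val {f : F} {a : L} (ha : a ≠ 0) (h : Res_.Sm w.toDV (f - algebraMap L F a)) :
    f ≠ 0 ∧ w.ord f = 0 := by
  have ha' : algebraMap L F a ≠ 0 := (map_ne_zero _).2 ha
  have e : f = algebraMap L F a + (f - algebraMap L F a) := by ring
  have h1 : w.toDV.ord f = w.toDV.ord (algebraMap L F a) := by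
    conv_lhs => rw [e]
    refine w.toDV.ord_add_eq ha' ?_
    rcases h with h | h
    · exact Or.inl h
    · right
      rw [Res_.const_zero]
      exact h
  have h2 : w.ord f = 0 := h1.trans (w.ord_const a)
  refine ⟨?_, h2⟩
  rintro rfl
  rcases h with h | h
  · rw [zero_sub, neg_eq_zero] at h
    exact ha' h
  · have h3 : w.toDV.ord (0 - algebraMap L F a) = 0 := by
      rw [zero_sub, w.toDV.ord_neg, Res_.const_zero]
    omega

theorem sm_div {f g : F} {a b : L} (ha : a ≠ 0) (hb : b ≠ 0)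
    (hf : Res_.Sm w.toDV (f - algebraMap L F a)) (hg : Res_.Sm w.toDV (g - algebraMap L F b)) :
    Res_.Sm w.toDV (f / g - algebraMap L F (a / b)) := by
  obtain ⟨g0, g1⟩ := ord_of_val w hb hg
  have hb' : algebraMap L F b ≠ 0 := (map_ne_zero _).2 hb
  have e : f / g - algebraMap L F (a / b) =
      ((f - algebraMap L F a) * algebraMap L F b +
        -((g - algebraMap L F b) * algebraMap L F a)) * (g * algebraMap L F b)⁻¹ := by
    rw [map_div₀]
    field_simp
    ring
  rw [e]
  refine ((hf.mul ?_).add (hg.mul ?_).neg).mul ?_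
  · rw [Res_.const_zero]
  · rw [Res_.const_zero]
  · rw [w.toDV.ord_inv, w.toDV.ord_mul _ _ g0 hb', Res_.const_zero]
    have : w.toDV.ord g = 0 := g1
    rw [this]
    simp

theorem nonneg_of_sm {f : F} {a : L} (h : Res_.Sm w.toDV (f - algebraMap L F a)) :
    0 ≤ w.toDV.ord f := by
  have e : f = algebraMap L F a + (f - algebraMap L F a) := by ring
  rw [e]
  refine w.toDV.ord_add_nonneg ?_ h.nonneg
  rw [Res_.const_zero]

end VALA_

open VALA_ in
/-- A3. -/
theorem p_VALA (h_EV : T_EV) (h_FF : T_FF) : T_VALA := by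
  intro ι _ _ A C hC m P K _ _ w α β hE hα hβ i hi b
  obtain ⟨hh, hhh⟩ := hi
  -- `f0(γ) ≠ 0`
  have hf0 : Polynomial.aeval (A.g i α β) (f0 P) ≠ 0 := by
    intro h0
    have h1 : ∏ i, Polynomial.aeval (A.g i α β) (A.f i) = (A.c : K) := hE
    have h2 : Polynomial.aeval (A.g i α β) (A.f i) = 0 := by
      rw [hhh, map_mul, h0, zero_mul]
    rw [Finset.prod_eq_zero (Finset.mem_univ i) h2] at h1
    exact A.c_ne (by exact_mod_cast h1.symm)
  have hd : ∀ k : Option (Fin m), (A.g i α β) ^ 2 - ((dd P k : ℤ) : K) ≠ 0 := by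
    intro k hk
    apply hf0
    unfold f0
    rw [map_prod]
    refine Finset.prod_eq_zero (Finset.mem_univ k) ?_
    rw [map_sub, map_pow, Polynomial.aeval_X, Polynomial.aeval_C]
    exact hk
  -- `g - γ` is small
  have hα' := nonneg_of_sm w hα
  have hg : Res_.Sm w.toDV (A.g i (C.xF (AlgebraicClosure K)) (C.yF (AlgebraicClosure K)) -
      algebraMap (AlgebraicClosure K) _ (algebraMap K (AlgebraicClosure K) (A.g i α β))) := by
    rw [Res_.map_g, Res_.map_g]
    unfold Arr.g
    have e : ∀ y p y' p' : C.FunField (AlgebraicClosure K),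
        y + p - (y' + p') = (y - y') + (p - p') := fun _ _ _ _ => by ring
    rw [e]
    refine hβ.add (Res_.aeval_sub_Sm _ hα' ?_ hα)
    rw [Res_.const_zero]
  have hg' := nonneg_of_sm w hg
  have hsm : ∀ d : ℤ, Res_.Sm w.toDV
      ((A.g i (C.xF (AlgebraicClosure K)) (C.yF (AlgebraicClosure K))) ^ 2 -
        (d : C.FunField (AlgebraicClosure K)) -
      algebraMap (AlgebraicClosure K) _ (algebraMap K (AlgebraicClosure K)
        ((A.g i α β) ^ 2 - (d : K)))) := by
    intro d
    have e : (A.g i (C.xF (AlgebraicClosure K)) (C.yF (AlgebraicClosure K))) ^ 2 -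
        (d : C.FunField (AlgebraicClosure K)) -
      algebraMap (AlgebraicClosure K) _ (algebraMap K (AlgebraicClosure K)
        ((A.g i α β) ^ 2 - (d : K))) =
      (A.g i (C.xF (AlgebraicClosure K)) (C.yF (AlgebraicClosure K))) ^ 2 -
      (algebraMap (AlgebraicClosure K) _ (algebraMap K (AlgebraicClosure K) (A.g i α β))) ^ 2 := by
      rw [map_sub, map_sub, map_pow, map_pow, map_intCast, map_intCast]
      ring
    rw [e]
    refine Res_.pow_sub_Sm hg' ?_ hg 2
    rw [Res_.const_zero]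
  have hne : ∀ k : Option (Fin m), algebraMap K (AlgebraicClosure K)
      ((A.g i α β) ^ 2 - ((dd P k : ℤ) : K)) ≠ 0 := fun k => (map_ne_zero _).2 (hd k)
  obtain ⟨n1, o1⟩ := ord_of_val w (hne (some b)) (hsm _)
  obtain ⟨n2, o2⟩ := ord_of_val w (hne none) (hsm _)
  have hdiv := sm_div w (hne (some b)) (hne none) (hsm _) (hsm _)
  have hq := div_ne_zero (hne (some b)) (hne none)
  refine ⟨hf0, (ord_of_val w hq hdiv).2, ?_⟩
  rw [map_div₀]
  refine (h_EV _ _ (h_FF C (AlgebraicClosure K))).2.1 w _ _ hq ?_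
  rcases hdiv with h | h
  · exact Or.inl (sub_eq_zero.1 h)
  · exact Or.inr h

end Pool.Agent.FDX
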