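import Pool.Agent.FDX.Targets2
import Pool.Agent.FD.F0

/-!
# FDX: target VALT, the value of `h_(i,b)` at the points at infinity
-/

set_option autoImplicit false

open MvPolynomial

namespace Pool.Agent.FDX

open Pool.Agent.FD Pool.Agent.FD.Res_

namespace VALT_

section hv

variable {L K : Type} [Field L] [Field K] [Algebra L K] {v : Place L K}

/-- `f` has the value `c` at `v` -/
def HV (v : Place L K) (f : K) (c : L) : Prop := Sm v.toDV (f - algebraMap L K c)

theorem HV.add {f g : K} {c d : L} (hf : HV v f c) (hg : HV v g d) : HV v (f + g) (c + d) := by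
  unfold HV
  have e : f + g - algebraMap L K (c + d) = (f - algebraMap L K c) + (g - algebraMap L K d) := by
    rw [map_add]; ring
  rw [e]
  exact Sm.add hf hg

theorem HV.nonneg {f : K} {c : L} (hf : HV v f c) : 0 ≤ v.ord f := by
  have h1 : 0 ≤ v.toDV.ord (f - algebraMap L K c) := Sm.nonneg hf
  have h := v.toDV.ord_add_nonneg h1 (v.ord_const c).ge
  rwa [sub_add_cancel] at h

theorem HV.mul {f g : K} {c d : L} (hf : HV v f c) (hg : HV v g d) : HV v (f * g) (c * d) := by
  unfold HV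
  have e : f * g - algebraMap L K (c * d) =
      (f - algebraMap L K c) * g + (g - algebraMap L K d) * algebraMap L K c := by
    rw [map_mul]; ring
  rw [e]
  exact Sm.add (Sm.mul hf hg.nonneg) (Sm.mul hg (v.ord_const c).ge)

theorem HV.const (c : L) : HV v (algebraMap L K c) c := Or.inl (sub_self _)

theorem HV.int (n : ℤ) : HV v (n : K) (n : L) := by
  have h := HV.const (v := v) (n : L)
  rwa [map_intCast] at h

theorem HV.neg {f : K} {c : L} (hf : HV v f c) : HV v (-f) (-c) := by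
  unfold HV
  have e : -f - algebraMap L K (-c) = -(f - algebraMap L K c) := by
    rw [map_neg]; ring
  rw [e]
  exact Sm.neg hf

theorem HV.sub {f g : K} {c d : L} (hf : HV v f c) (hg : HV v g d) : HV v (f - g) (c - d) := by
  rw [sub_eq_add_neg, sub_eq_add_neg]
  exact hf.add hg.neg

theorem HV.one : HV v (1 : K) (1 : L) := by
  have h := HV.const (v := v) (1 : L)
  rwa [map_one] at h

theorem HV.zero : HV v (0 : K) (0 : L) := by
  have h := HV.const (v := v) (0 : L)
  rwa [map_zero] at h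

theorem HV.pow {f : K} {c : L} (hf : HV v f c) (n : ℕ) : HV v (f ^ n) (c ^ n) := by
  induction n with
  | zero => rw [pow_zero, pow_zero]; exact HV.one
  | succ n ih => rw [pow_succ, pow_succ]; exact ih.mul hf

theorem HV.prod {ι : Type} (s : Finset ι) {f : ι → K} {c : ι → L}
    (h : ∀ i ∈ s, HV v (f i) (c i)) : HV v (∏ i ∈ s, f i) (∏ i ∈ s, c i) := by
  classical
  induction s using Finset.induction_on with
  | empty => rw [Finset.prod_empty, Finset.prod_empty]; exact HV.one
  | insert a s ha ih =>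
    rw [Finset.prod_insert ha, Finset.prod_insert ha]
    exact (h a (Finset.mem_insert_self a s)).mul
      (ih fun i hi => h i (Finset.mem_insert_of_mem hi))

theorem HV.sum {ι : Type} (s : Finset ι) {f : ι → K} {c : ι → L}
    (h : ∀ i ∈ s, HV v (f i) (c i)) : HV v (∑ i ∈ s, f i) (∑ i ∈ s, c i) := by
  classical
  induction s using Finset.induction_on with
  | empty => rw [Finset.sum_empty, Finset.sum_empty]; exact HV.zero
  | insert a s ha ih =>
    rw [Finset.sum_insert ha, Finset.sum_insert ha]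
    exact (h a (Finset.mem_insert_self a s)).add
      (ih fun i hi => h i (Finset.mem_insert_of_mem hi))

theorem HV.ord_zero {f : K} {c : L} (hf : HV v f c) (hc : c ≠ 0) : v.ord f = 0 := by
  have h0 : algebraMap L K c ≠ 0 := (map_ne_zero _).mpr hc
  have h := v.toDV.ord_add_eq h0 (g := f - algebraMap L K c) (hf.imp id fun h => by
    change v.ord _ < v.ord _
    rw [v.ord_const]
    exact h)
  rw [add_sub_cancel] at h
  exact h.trans (v.ord_const c)

theorem HV.ne_zero {f : K} {c : L} (hf : HV v f c) (hc : c ≠ 0) : f ≠ 0 := by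
  rintro rfl
  have h0 : algebraMap L K c ≠ 0 := (map_ne_zero _).mpr hc
  rcases hf with h | h
  · rw [zero_sub, neg_eq_zero] at h
    exact h0 h
  · rw [zero_sub, v.toDV.ord_neg] at h
    have h1 := v.ord_const c
    change 0 < v.ord _ at h
    omega

theorem HV.inv {f : K} {c : L} (hf : HV v f c) (hc : c ≠ 0) : HV v f⁻¹ c⁻¹ := by
  have h0 : algebraMap L K c ≠ 0 := (map_ne_zero _).mpr hc
  have hf0 := hf.ne_zero hc
  unfold HV
  have e : f⁻¹ - algebraMap L K c⁻¹ =
      -(f - algebraMap L K c) * (f⁻¹ * algebraMap L K c⁻¹) := by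
    rw [map_inv₀]
    field_simp
    ring
  rw [e]
  refine Sm.mul (Sm.neg hf) ?_
  have h1 : v.toDV.ord f⁻¹ = -v.toDV.ord f := v.toDV.ord_inv f
  have h2 : v.toDV.ord f = 0 := hf.ord_zero hc
  refine v.toDV.ord_mul_nonneg ?_ (v.ord_const _).ge
  rw [h1, h2, neg_zero]

theorem HV.div {f g : K} {c d : L} (hf : HV v f c) (hg : HV v g d) (hd : d ≠ 0) :
    HV v (f / g) (c / d) := by
  rw [div_eq_mul_inv, div_eq_mul_inv]
  exact hf.mul (hg.inv hd)

theorem HV.inv_of_neg {z : K} (hz : v.ord z < 0) : HV v z⁻¹ (0 : L) := by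
  unfold HV
  rw [map_zero, sub_zero]
  right
  rw [v.toDV.ord_inv]
  change 0 < -v.ord z
  omega

theorem HV.inv_pow {z : K} (hz : v.ord z < 0) {n : ℕ} (hn : n ≠ 0) : HV v (z⁻¹ ^ n) (0 : L) := by
  have h := (HV.inv_of_neg hz).pow n
  rwa [zero_pow hn] at h

theorem HV.aeval {f : K} {c : L} (hf : HV v f c) (p : Polynomial ℤ) :
    HV v (Polynomial.aeval f p) (Polynomial.aeval c p) := by
  rw [Polynomial.aeval_eq_sum_range, Polynomial.aeval_eq_sum_range]
  refine HV.sum _ fun i _ => ?_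
  rw [zsmul_eq_mul, zsmul_eq_mul]
  exact (HV.int _).mul (hf.pow i)

/-- the leading term at a pole -/
theorem lead_val {z : K} (hz : v.ord z < 0) (p : Polynomial ℤ) :
    HV v (Polynomial.aeval z p / z ^ p.natDegree) (p.leadingCoeff : L) := by
  have hz0 : z ≠ 0 := v.toDV.ne_zero_of_ord_ne hz.ne
  rw [Polynomial.aeval_eq_sum_range, Finset.sum_range_succ, add_div, Finset.sum_div]
  have h1 : HV v (∑ i ∈ Finset.range p.natDegree, p.coeff i • z ^ i / z ^ p.natDegree)
      (∑ i ∈ Finset.range p.natDegree, (0 : L)) := by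
    refine HV.sum _ fun i hi => ?_
    rw [Finset.mem_range] at hi
    have e : p.coeff i • z ^ i / z ^ p.natDegree = (p.coeff i : K) * z⁻¹ ^ (p.natDegree - i) := by
      rw [zsmul_eq_mul, mul_div_assoc]
      congr 1
      rw [inv_pow, div_eq_iff (pow_ne_zero _ hz0), eq_comm,
        inv_mul_eq_iff_eq_mul₀ (pow_ne_zero _ hz0), ← pow_add]
      congr 1
      omega
    rw [e]
    have h2 := (HV.int (v := v) (p.coeff i)).mul (HV.inv_pow hz (by omega : p.natDegree - i ≠ 0))
    rwa [mul_zero] at h2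
  have h2 : HV v (p.coeff p.natDegree • z ^ p.natDegree / z ^ p.natDegree)
      (p.leadingCoeff : L) := by
    rw [zsmul_eq_mul, mul_div_assoc, div_self (pow_ne_zero _ hz0), mul_one]
    exact HV.int _
  have h3 := h1.add h2
  rwa [Finset.sum_const_zero, zero_add] at h3

end hv

section core

variable {ι : Type} [Fintype ι] [DecidableEq ι] (A : Arr ι) {L K : Type} [Field L] [CharZero L]
  [Field K] [Algebra L K] {v : Place L K} {x y : K}

omit [CharZero L] in
theorem prod_val (j : ι) (τ : L) (hx : v.ord x < 0) (hj : HV v (A.g j x y) τ)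
    (hi : ∀ i, i ≠ j → v.ord (A.g i x y) < 0) :
    ∃ ε : ℤ, (ε = 1 ∨ ε = -1) ∧ HV v (∏ i ∈ Finset.univ.erase j,
      (Polynomial.aeval (A.g i x y) (A.f i) / x ^ (A.m i * A.w j i))) (ε : L) := by
  have hx0 : x ≠ 0 := v.toDV.ne_zero_of_ord_ne hx.ne
  refine ⟨∏ i ∈ Finset.univ.erase j, (A.h i - A.h j).leadingCoeff ^ A.m i, ?_, ?_⟩
  · rw [← Int.isUnit_iff]
    refine Finset.prod_induction _ IsUnit (fun a b => IsUnit.mul) isUnit_one fun i hi => ?_
    exact (A.lead i j (Finset.ne_of_mem_erase hi)).pow _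
  · push_cast
    refine HV.prod _ fun i hi' => ?_
    have hij : i ≠ j := Finset.ne_of_mem_erase hi'
    have hgi := hi i hij
    have hgi0 : A.g i x y ≠ 0 := v.toDV.ne_zero_of_ord_ne hgi.ne
    have hw : A.w j i = (A.h i - A.h j).natDegree := A.w_comm j i
    have hw0 : A.w j i ≠ 0 := (A.w_pos hij.symm).ne'
    have h1 : HV v (A.g i x y / x ^ A.w j i) (((A.h i - A.h j).leadingCoeff : ℤ) : L) := by
      have e : A.g i x y / x ^ A.w j i = A.g j x y * x⁻¹ ^ A.w j i +
          Polynomial.aeval x (A.h i - A.h j) / x ^ (A.h i - A.h j).natDegree := by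
        rw [← hw]
        unfold Arr.g
        rw [map_sub, inv_pow]
        field_simp
        ring
      rw [e]
      have h2 := (hj.mul (HV.inv_pow hx hw0)).add (lead_val hx (A.h i - A.h j))
      rwa [mul_zero, zero_add] at h2
    have h3 := (lead_val hgi (A.f i)).mul (h1.pow (A.m i))
    rw [(A.monic i).leadingCoeff, Int.cast_one, one_mul] at h3
    have e : Polynomial.aeval (A.g i x y) (A.f i) / x ^ (A.m i * A.w j i) =
        Polynomial.aeval (A.g i x y) (A.f i) / A.g i x y ^ (A.f i).natDegree *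
          (A.g i x y / x ^ A.w j i) ^ A.m i := by
      rw [div_pow, ← pow_mul, mul_comm (A.w j i)]
      unfold Arr.m
      field_simp
    rw [e]
    exact h3

/-- the equation, divided by the factor of a root -/
theorem eqn_val (hE : A.Eqn x y) (j : ι) (τ : L) (hx : v.ord x < 0) (hj : HV v (A.g j x y) τ)
    (hi : ∀ i, i ≠ j → v.ord (A.g i x y) < 0) (d : ℤ) (q : Polynomial ℤ)
    (hq : A.f j = (Polynomial.X ^ 2 - Polynomial.C d) * q) (hq0 : Polynomial.aeval τ q ≠ 0) :
    ∃ ε : ℤ, (ε = 1 ∨ ε = -1) ∧ HV v (((A.g j x y) ^ 2 - (d : K)) * x ^ A.N j)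
      ((A.c : L) / (Polynomial.aeval τ q * ε)) := by
  obtain ⟨ε, hε, h1⟩ := prod_val A j τ hx hj hi
  refine ⟨ε, hε, ?_⟩
  have hx0 : x ≠ 0 := v.toDV.ne_zero_of_ord_ne hx.ne
  have hε0 : (ε : L) ≠ 0 := by
    rcases hε with rfl | rfl <;> simp
  have h2 := (HV.int (v := v) A.c).div ((hj.aeval q).mul h1) (mul_ne_zero hq0 hε0)
  have hqg := (hj.aeval q).ne_zero hq0
  have hPr := h1.ne_zero hε0
  have e : ((A.g j x y) ^ 2 - (d : K)) * x ^ A.N j = (A.c : K) /
      (Polynomial.aeval (A.g j x y) q * ∏ i ∈ Finset.univ.erase j,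
      (Polynomial.aeval (A.g i x y) (A.f i) / x ^ (A.m i * A.w j i))) := by
    rw [eq_div_iff (mul_ne_zero hqg hPr)]
    have hE' : ∏ i, Polynomial.aeval (A.g i x y) (A.f i) = (A.c : K) := hE
    rw [← Finset.mul_prod_erase _ _ (Finset.mem_univ j), hq, map_mul, map_sub, map_pow,
      Polynomial.aeval_X, Polynomial.aeval_C, algebraMap_int_eq, eq_intCast] at hE'
    rw [← hE', Finset.prod_div_distrib, Finset.prod_pow_eq_pow_sum]
    have hN : ∑ i ∈ Finset.univ.erase j, A.m i * A.w j i = A.N j := rfl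
    rw [hN]
    field_simp
  rw [e]
  exact h2

end core

theorem alg1 {F : Type} [Field F] (g : F) (a b : ℤ) (h : g ^ 2 - (a : F) ≠ 0) :
    (g ^ 2 - (b : F)) / (g ^ 2 - (a : F)) = 1 + (g ^ 2 - (a : F))⁻¹ * ((a - b : ℤ) : F) := by
  push_cast
  field_simp
  ring

theorem alg3 {F : Type} [Field F] (c q ε a : F) (h : ε * ε = 1) (hq : q ≠ 0) :
    c / (q * ε) / a = ε * c / (q * a) := by
  have hε : ε ≠ 0 := left_ne_zero_of_mul_eq_one h
  have e : c / (q * ε) = ε * c / q := by
    rw [div_eq_div_iff (mul_ne_zero hq hε) hq]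
    linear_combination (-(c * q)) * h
  rw [e, div_div]

theorem alg4 {F : Type} [Field F] (c q ε a : F) : a / (c / (q * ε)) = ε * q * a / c := by
  rw [div_div_eq_mul_div]
  ring

theorem root_ne {ι : Type} [Fintype ι] [DecidableEq ι] (A : Arr ι) {K : Type} [Field K]
    [CharZero K] (j : ι) (d : ℤ) (q : Polynomial ℤ)
    (hq : A.f j = (Polynomial.X ^ 2 - Polynomial.C d) * q) (θ : K) (hθ : θ ^ 2 = (d : K)) :
    Polynomial.aeval θ q ≠ 0 := by
  intro h
  have h1 := (A.sep j).map (f := Rat.castHom K)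
  rw [Polynomial.map_map, hq, Polynomial.map_mul] at h1
  obtain ⟨a, b, hab⟩ := h1.isCoprime
  have h2 := congrArg (Polynomial.eval θ) hab
  have h3 : ∀ p : Polynomial ℤ,
      Polynomial.eval θ (p.map ((Rat.castHom K).comp (Int.castRingHom ℚ))) =
        Polynomial.aeval θ p := by
    intro p
    rw [Polynomial.eval_map, Polynomial.aeval_def]
    congr 1
    exact Subsingleton.elim _ _
  rw [Polynomial.eval_add, Polynomial.eval_mul, Polynomial.eval_mul, h3, h3, h, mul_zero,
    add_zero, map_sub, map_pow, Polynomial.aeval_X, Polynomial.aeval_C, algebraMap_int_eq,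
    eq_intCast, hθ, sub_self, mul_zero, Polynomial.eval_one] at h2
  exact zero_ne_one h2

end VALT_

open VALT_ in
theorem p_VALT (h_FF : T_FF) (h_EV : T_EV) : T_VALT := by
  intro ι _ _ A C hC m P hP K _ _ w j θ hθ hx hj hi
  set L := AlgebraicClosure K with hL
  set τ : L := algebraMap K L θ with hτ
  have hE := A.eqn_of_F hC L
  obtain ⟨-, hval, -⟩ := h_EV L (C.FunField L) (h_FF C L)
  have fin : ∀ {F : C.FunField L} {c : L}, HV w F c → c ≠ 0 → w.ord F = 0 ∧ val w F = c := by
    intro F c h hc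
    refine ⟨h.ord_zero hc, hval w F c hc ?_⟩
    rcases h with h | h
    · exact Or.inl (sub_eq_zero.1 h)
    · exact Or.inr h
  have hj' : HV w (A.g j (C.xF L) (C.yF L)) τ := hj
  have hdd : ∀ b : Fin m, ((dd P (some b) : ℤ) : K) ≠ ((dd P none : ℤ) : K) := by
    intro b h
    have h1 : dd P (some b) = dd P none := by exact_mod_cast h
    exact Option.some_ne_none b (F0_.dd_inj P hP h1)
  have hcast : ∀ (n : ℤ), algebraMap K L (n : K) = (n : L) := fun n => map_intCast _ n
  have hx0 : C.xF L ≠ 0 := w.toDV.ne_zero_of_ord_ne hx.ne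
  refine ⟨fun i hij b => ?_, fun b h1 h2 => ?_, fun b q hq h1 => ?_, fun b q hq h1 => ?_⟩
  · refine fin ?_ one_ne_zero
    have hg := hi i hij
    set g := A.g i (C.xF L) (C.yF L) with hg'
    have hg0 : g ≠ 0 := w.toDV.ne_zero_of_ord_ne hg.ne
    have h3 : HV w (g ^ 2 - ((dd P none : ℤ) : C.FunField L))⁻¹ (0 : L) := by
      refine HV.inv_of_neg ?_
      have h4 : w.toDV.ord (g ^ 2) = 2 * w.toDV.ord g := w.toDV.ord_pow g 2
      have h5 : w.toDV.ord (g ^ 2) < 0 := by
        rw [h4]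
        change 2 * w.ord g < 0
        omega
      have h6 := w.toDV.ord_add_eq_of_neg h5
        (g := -((dd P none : ℤ) : C.FunField L)) (HV.int (v := w) _).neg.nonneg
      rw [← sub_eq_add_neg] at h6
      change w.toDV.ord _ < 0
      rw [h6]
      exact h5
    have h7 : g ^ 2 - ((dd P none : ℤ) : C.FunField L) ≠ 0 := by
      intro h
      have h4 : g ^ 2 = ((dd P none : ℤ) : C.FunField L) := sub_eq_zero.1 h
      have h5 : w.toDV.ord (g ^ 2) = 2 * w.toDV.ord g := w.toDV.ord_pow g 2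
      rw [h4] at h5
      have h6 := (HV.int (v := w) (dd P none)).nonneg
      change w.ord _ = 2 * w.ord g at h5
      omega
    have h8 := HV.one (v := w) |>.add ((h3.mul (HV.int (v := w) (dd P none - dd P (some b)))))
    rw [zero_mul, add_zero] at h8
    have e : hf A C P i b L = 1 + (g ^ 2 - ((dd P none : ℤ) : C.FunField L))⁻¹ *
        ((dd P none - dd P (some b) : ℤ) : C.FunField L) := by
      unfold hf
      rw [← hg']
      exact alg1 _ _ _ h7
    rw [e]
    exact h8
  · have h3 := ((hj'.pow 2).sub (HV.int (v := w) (dd P (some b)))).div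
      ((hj'.pow 2).sub (HV.int (v := w) (dd P none)))
      (by
        rw [hτ, ← map_pow, ← hcast, ← map_sub]
        exact (map_ne_zero _).mpr (sub_ne_zero.2 h2))
    have h4 : τ ^ 2 - ((dd P (some b) : ℤ) : L) ≠ 0 := by
      rw [hτ, ← map_pow, ← hcast, ← map_sub]
      exact (map_ne_zero _).mpr (sub_ne_zero.2 h1)
    have h5 : τ ^ 2 - ((dd P none : ℤ) : L) ≠ 0 := by
      rw [hτ, ← map_pow, ← hcast, ← map_sub]
      exact (map_ne_zero _).mpr (sub_ne_zero.2 h2)
    obtain ⟨h6, h7⟩ := fin h3 (div_ne_zero h4 h5)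
    refine ⟨h6, h7.trans ?_⟩
    rw [map_div₀, map_sub, map_sub, map_pow, hcast, hcast]
  · have hτ2 : τ ^ 2 = ((dd P (some b) : ℤ) : L) := by
      rw [hτ, ← map_pow, h1, hcast]
    have hq0 := root_ne A j _ q hq τ hτ2
    obtain ⟨ε, hε, h2⟩ := eqn_val A hE j τ hx hj' hi _ q hq hq0
    have hε0 : (ε : L) ≠ 0 := by
      rcases hε with rfl | rfl <;> simp
    have h5 : τ ^ 2 - ((dd P none : ℤ) : L) ≠ 0 := by
      rw [hτ2, ← hcast, ← hcast, ← map_sub]
      exact (map_ne_zero _).mpr (sub_ne_zero.2 (hdd b))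
    have hc0 : (A.c : L) ≠ 0 := Int.cast_ne_zero.2 A.c_ne
    have h3 := h2.div ((hj'.pow 2).sub (HV.int (v := w) (dd P none))) h5
    have e : hf A C P j b L * C.xF L ^ ((A.N j : ℤ) * 1) =
        (((A.g j (C.xF L) (C.yF L)) ^ 2 - ((dd P (some b) : ℤ) : C.FunField L)) *
          C.xF L ^ A.N j) /
          ((A.g j (C.xF L) (C.yF L)) ^ 2 - ((dd P none : ℤ) : C.FunField L)) := by
      unfold hf
      rw [mul_one, zpow_natCast]
      ring
    rw [e]
    obtain ⟨h6, h7⟩ := fin h3 (div_ne_zero (div_ne_zero hc0 (mul_ne_zero hq0 hε0)) h5)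
    refine ⟨h6, ε, hε, h7.trans ?_⟩
    have haq : algebraMap K L (Polynomial.aeval θ q) = Polynomial.aeval τ q := by
      rw [hτ, Polynomial.aeval_algebraMap_apply]
    have hεε : (ε : L) * ε = 1 := by
      rcases hε with rfl | rfl <;> norm_num
    rw [map_div₀, map_mul, map_mul, map_sub, hcast, hcast, hcast, hcast, haq, hτ2]
    exact alg3 _ _ _ _ hεε hq0
  · have hτ2 : τ ^ 2 = ((dd P none : ℤ) : L) := by
      rw [hτ, ← map_pow, h1, hcast]
    have hq0 := root_ne A j _ q hq τ hτ2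
    obtain ⟨ε, hε, h2⟩ := eqn_val A hE j τ hx hj' hi _ q hq hq0
    have hε0 : (ε : L) ≠ 0 := by
      rcases hε with rfl | rfl <;> simp
    have h5 : τ ^ 2 - ((dd P (some b) : ℤ) : L) ≠ 0 := by
      rw [hτ2, ← hcast, ← hcast, ← map_sub]
      exact (map_ne_zero _).mpr (sub_ne_zero.2 (hdd b).symm)
    have hc0 : (A.c : L) ≠ 0 := Int.cast_ne_zero.2 A.c_ne
    have h8 : (A.c : L) / (Polynomial.aeval τ q * ε) ≠ 0 :=
      div_ne_zero hc0 (mul_ne_zero hq0 hε0)
    have h3 := ((hj'.pow 2).sub (HV.int (v := w) (dd P (some b)))).div h2 h8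
    have e : hf A C P j b L * C.xF L ^ ((A.N j : ℤ) * (-1)) =
        ((A.g j (C.xF L) (C.yF L)) ^ 2 - ((dd P (some b) : ℤ) : C.FunField L)) /
          (((A.g j (C.xF L) (C.yF L)) ^ 2 - ((dd P none : ℤ) : C.FunField L)) *
          C.xF L ^ A.N j) := by
      unfold hf
      rw [mul_neg_one, zpow_neg, zpow_natCast, div_mul_eq_mul_div, ← div_eq_mul_inv, div_div,
        mul_comm (C.xF L ^ A.N j)]
    rw [e]
    obtain ⟨h6, h7⟩ := fin h3 (div_ne_zero h5 h8)
    refine ⟨h6, ε, hε, h7.trans ?_⟩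
    have haq : algebraMap K L (Polynomial.aeval θ q) = Polynomial.aeval τ q := by
      rw [hτ, Polynomial.aeval_algebraMap_apply]
    rw [map_div₀, map_mul, map_mul, map_sub, hcast, hcast, hcast, hcast, haq, hτ2]
    exact alg4 _ _ _ _

end Pool.Agent.FDX
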