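import Pool.Agent.FDX.Targets
import Pool.Agent.FD.Res

/-!
# FDX, T_WEIL: Weil reciprocity
-/

set_option autoImplicit false

namespace Pool.Agent.FDX

open Pool.Agent.FD

namespace WEIL_

section orders

variable {L K : Type} [Field L] [Field K] [Algebra L K] (v : Place L K)

theorem ord_sub_neg {f : K} (c : L) (h : v.ord f < 0) :
    v.ord (f - algebraMap L K c) = v.ord f := by
  rw [sub_eq_add_neg]
  have h2 : (0 : ℤ) ≤ v.toDV.ord (-(algebraMap L K c)) := by
    rw [v.toDV.ord_neg]
    exact (v.ord_const c).ge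
  exact v.toDV.ord_add_eq_of_neg h h2

theorem ord_sub_nonneg {f : K} (c : L) (h : 0 ≤ v.ord f) :
    0 ≤ v.ord (f - algebraMap L K c) := by
  rw [sub_eq_add_neg]
  have h2 : (0 : ℤ) ≤ v.toDV.ord (-(algebraMap L K c)) := by
    rw [v.toDV.ord_neg]
    exact (v.ord_const c).ge
  exact v.toDV.ord_add_nonneg h h2

theorem ord_sub_pos {f : K} {c : L} (hc : c ≠ 0) (h : 0 < v.ord f) :
    v.ord (f - algebraMap L K c) = 0 := by
  have h1 : v.toDV.ord (-(algebraMap L K c)) = 0 := by
    rw [v.toDV.ord_neg]
    exact v.ord_const c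
  have h2 : -(algebraMap L K c) ≠ 0 := neg_ne_zero.mpr
    ((map_ne_zero _).mpr hc)
  rw [sub_eq_add_neg, add_comm]
  have h3 := v.toDV.ord_add_eq (f := -(algebraMap L K c)) (g := f) h2
    (Or.inr (by rw [h1]; exact h))
  rw [h1] at h3
  exact h3

end orders

section poly

variable {L : Type} [Field L] [IsAlgClosed L]

theorem eval_eq_prod (p : Polynomial L) (T : Finset L)
    (hT : ∀ α, p.eval α = 0 → α ∈ T) (hp : p ≠ 0) (x : L) :
    p.eval x = p.leadingCoeff * ∏ α ∈ T, (x - α) ^ p.rootMultiplicity α := by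
  classical
  conv_lhs => rw [(IsAlgClosed.splits p).eq_prod_roots]
  rw [Polynomial.prod_multiset_root_eq_finset_root, Polynomial.eval_mul, Polynomial.eval_C,
    Polynomial.eval_prod]
  congr 1
  have h1 : ∏ α ∈ p.roots.toFinset, (x - α) ^ p.rootMultiplicity α =
      ∏ α ∈ T, (x - α) ^ p.rootMultiplicity α := by
    apply Finset.prod_subset
    · intro α hα
      rw [Multiset.mem_toFinset, Polynomial.mem_roots hp] at hα
      exact hT α hα
    · intro α _ hα
      rw [Multiset.mem_toFinset, Polynomial.mem_roots hp] at hα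
      rw [Polynomial.rootMultiplicity_eq_zero hα, pow_zero]
  rw [← h1]
  refine Finset.prod_congr rfl fun α _ => ?_
  simp

theorem natDegree_eq_sum (p : Polynomial L) (T : Finset L)
    (hT : ∀ α, p.eval α = 0 → α ∈ T) (hp : p ≠ 0) :
    p.natDegree = ∑ α ∈ T, p.rootMultiplicity α := by
  classical
  rw [← IsAlgClosed.card_roots_eq_natDegree, ← Multiset.toFinset_sum_count_eq]
  simp only [Polynomial.count_roots]
  apply Finset.sum_subset
  · intro α hα
    rw [Multiset.mem_toFinset, Polynomial.mem_roots hp] at hα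
    exact hT α hα
  · intro α _ hα
    rw [Multiset.mem_toFinset, Polynomial.mem_roots hp] at hα
    exact Polynomial.rootMultiplicity_eq_zero hα

end poly

section adj

variable {L K : Type} [Field L] [Field K] [Algebra L K]

theorem aeval_ne {z : K} (hz : Transcendental L z) {p : Polynomial L} (hp : p ≠ 0) :
    Polynomial.aeval z p ≠ 0 := by
  intro h
  exact hz ⟨p, hp, h⟩

theorem exists_coprime (z : K) (hz : Transcendental L z) (N : K) (hN0 : N ≠ 0)
    (hN : N ∈ IntermediateField.adjoin L {z}) :
    ∃ p q : Polynomial L, p ≠ 0 ∧ q ≠ 0 ∧ IsCoprime p q ∧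
      N * Polynomial.aeval z q = Polynomial.aeval z p := by
  classical
  obtain ⟨r, s, hrs⟩ := (IntermediateField.mem_adjoin_simple_iff L N).1 hN
  have hs0 : s ≠ 0 := by
    rintro rfl
    rw [map_zero, div_zero] at hrs
    exact hN0 hrs
  have hr0 : r ≠ 0 := by
    rintro rfl
    rw [map_zero, zero_div] at hrs
    exact hN0 hrs
  letI := EuclideanDomain.gcdMonoid (Polynomial L)
  set d := GCDMonoid.gcd r s with hd
  have hd0 : d ≠ 0 := by
    intro h
    exact hr0 ((gcd_eq_zero_iff r s).1 h).1
  have hr : d * (r / d) = r := EuclideanDomain.mul_div_cancel' hd0 (GCDMonoid.gcd_dvd_left r s)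
  have hs : d * (s / d) = s := EuclideanDomain.mul_div_cancel' hd0 (GCDMonoid.gcd_dvd_right r s)
  refine ⟨r / d, s / d, ?_, ?_, isCoprime_div_gcd_div_gcd hs0, ?_⟩
  · intro h
    rw [h, mul_zero] at hr
    exact hr0 hr.symm
  · intro h
    rw [h, mul_zero] at hs
    exact hs0 hs.symm
  · have e1 : Polynomial.aeval z d ≠ 0 := aeval_ne hz hd0
    have e2 : Polynomial.aeval z s ≠ 0 := aeval_ne hz hs0
    have e3 : N * Polynomial.aeval z s = Polynomial.aeval z r := by
      rw [hrs, div_mul_cancel₀ _ e2]
    rw [← hr, ← hs, map_mul, map_mul] at e3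
    apply mul_left_cancel₀ e1
    rw [← e3]
    ring

theorem adjoin_eq {z z' : K} (h : z' ∈ IntermediateField.adjoin L {z})
    (h' : z ∈ IntermediateField.adjoin L {z'}) :
    IntermediateField.adjoin L {z} = IntermediateField.adjoin L {z'} :=
  le_antisymm (IntermediateField.adjoin_simple_le_iff.mpr h')
    (IntermediateField.adjoin_simple_le_iff.mpr h)

theorem adjoin_sub (z : K) (α : L) :
    IntermediateField.adjoin L {z} = IntermediateField.adjoin L {z - algebraMap L K α} := by
  apply adjoin_eq
  · exact sub_mem (IntermediateField.mem_adjoin_simple_self L z)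
      (IntermediateField.algebraMap_mem _ α)
  · have h := add_mem (IntermediateField.mem_adjoin_simple_self L (z - algebraMap L K α))
      (IntermediateField.algebraMap_mem (IntermediateField.adjoin L {z - algebraMap L K α}) α)
    rwa [sub_add_cancel] at h

theorem adjoin_inv (z : K) :
    IntermediateField.adjoin L {z} = IntermediateField.adjoin L {z⁻¹} := by
  apply adjoin_eq
  · exact inv_mem (IntermediateField.mem_adjoin_simple_self L z)
  · have h := inv_mem (IntermediateField.mem_adjoin_simple_self L (z⁻¹))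
    rwa [inv_inv] at h

theorem tne {z : K} (hz : Transcendental L z) : z ≠ 0 := by
  rintro rfl
  exact hz isAlgebraic_zero

theorem trans_sub {z : K} (hz : Transcendental L z) (α : L) :
    Transcendental L (z - algebraMap L K α) := by
  intro h
  apply hz
  have h2 := h.add (isAlgebraic_algebraMap (R := L) (A := K) α)
  rwa [sub_add_cancel] at h2

theorem trans_inv {z : K} (hz : Transcendental L z) : Transcendental L z⁻¹ := by
  intro h
  apply hz
  have h2 := h.inv
  rwa [inv_inv] at h2

theorem aeval_shift (z : K) (α : L) (p : Polynomial L) :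
    Polynomial.aeval (z - algebraMap L K α) (p.comp (Polynomial.X + Polynomial.C α)) =
      Polynomial.aeval z p := by
  rw [Polynomial.aeval_comp, map_add, Polynomial.aeval_X, Polynomial.aeval_C, sub_add_cancel]

theorem zpow_sum {ι : Type} (s : Finset ι) (a : L) (ha : a ≠ 0) (n : ι → ℤ) :
    ∏ i ∈ s, a ^ n i = a ^ ∑ i ∈ s, n i := by
  classical
  induction s using Finset.induction_on with
  | empty => simp
  | insert i s hi ih => rw [Finset.prod_insert hi, Finset.sum_insert hi, ih, zpow_add₀ ha]

end adj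

section main

variable {L K : Type} [Field L] [CharZero L] [IsAlgClosed L] [Field K] [Algebra L K]

/-- the quotient of two polynomials as a product over a common set of roots -/
theorem eval_ratio (p q : Polynomial L) (hp : p ≠ 0) (hq : q ≠ 0) (T : Finset L)
    (hTp : ∀ α, p.eval α = 0 → α ∈ T) (hTq : ∀ α, q.eval α = 0 → α ∈ T) (x : L) (hx : x ∉ T) :
    p.eval x * q.leadingCoeff = q.eval x * p.leadingCoeff *
      ∏ α ∈ T, (x - α) ^ ((p.rootMultiplicity α : ℤ) - q.rootMultiplicity α) := by
  have h1 : ∏ α ∈ T, (x - α) ^ p.rootMultiplicity α =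
      (∏ α ∈ T, (x - α) ^ q.rootMultiplicity α) *
        ∏ α ∈ T, (x - α) ^ ((p.rootMultiplicity α : ℤ) - q.rootMultiplicity α) := by
    rw [← Finset.prod_mul_distrib]
    refine Finset.prod_congr rfl fun α hα => ?_
    have hne : x - α ≠ 0 := by
      intro h
      rw [sub_eq_zero] at h
      rw [h] at hx
      exact hx hα
    rw [← zpow_natCast (x - α) (p.rootMultiplicity α),
      ← zpow_natCast (x - α) (q.rootMultiplicity α), ← zpow_add₀ hne]
    congr 1
    ring
  rw [eval_eq_prod p T hTp hp x, eval_eq_prod q T hTq hq x, h1]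
  ring

theorem core (h_ALG : T_ALG) (h_NV : T_NV) (h_NO : T_NO) (hFF : FF L K) (h φ : K)
    (hT : Transcendental L h) (hφ : φ ≠ 0) (c : L) (hc : c ≠ 0)
    (hoff : ∀ v : Place L K, v.ord h ≠ 0 → v.ord φ = 0) (e : Place L K → L)
    (he : ∀ v : Place L K, v.ord φ ≠ 0 →
      e v ≠ 0 ∧ e v ≠ c ∧ 0 < v.ord (h - algebraMap L K (e v)))
    (S : Finset (Place L K)) (hS : ∀ v, v ∈ S ↔ v.ord φ ≠ 0) :
    (∏ᶠ v : Place L K, val v φ ^ (max (v.ord h) 0)) =
      (∏ v ∈ S, e v ^ v.ord φ) * ∏ᶠ v : Place L K, val v φ ^ (max (-v.ord h) 0) := by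
  classical
  have hhc : Transcendental L (h - algebraMap L K c) := trans_sub hT c
  have hhc0 : h - algebraMap L K c ≠ 0 := tne hhc
  have hh0 : h ≠ 0 := tne hT
  obtain ⟨z, hzdef⟩ : ∃ z : K, z = (h - algebraMap L K c)⁻¹ := ⟨_, rfl⟩
  have hz : Transcendental L z := by rw [hzdef]; exact trans_inv hhc
  have hz0 : z ≠ 0 := tne hz
  have hzi : z⁻¹ = h - algebraMap L K c := by rw [hzdef, inv_inv]
  have hzh : z * (h - algebraMap L K c) = 1 := by rw [hzdef, inv_mul_cancel₀ hhc0]
  have hzord : ∀ v : Place L K, v.ord z = -v.ord (h - algebraMap L K c) := by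
    intro v
    rw [hzdef]
    exact v.toDV.ord_inv _
  -- orders
  have A0 : ∀ v : Place L K, max (v.ord z) 0 = max (-v.ord h) 0 := by
    intro v
    rw [hzord v]
    rcases lt_or_ge (v.ord h) 0 with h1 | h1
    · rw [ord_sub_neg v c h1]
    · have h2 := ord_sub_nonneg v c h1
      rw [max_eq_right (by omega), max_eq_right (by omega)]
  have A1 : ∀ v : Place L K, 0 < v.ord z → v.ord φ = 0 := by
    intro v hv
    apply hoff
    have h1 := A0 v
    intro h2
    rw [h2, max_eq_left hv.le] at h1
    simp at h1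
    omega
  have A3 : ∀ v : Place L K, v.ord φ ≠ 0 → v.ord z = 0 := by
    intro v hv
    obtain ⟨h1, h2, h3⟩ := he v hv
    have h4 := ord_sub_pos v (c := c - e v) (sub_ne_zero.mpr h2.symm) h3
    have h5 : h - algebraMap L K (e v) - algebraMap L K (c - e v) = h - algebraMap L K c := by
      rw [map_sub]
      ring
    rw [h5] at h4
    rw [hzord v, h4]
    rfl
  set x1 : L := -c⁻¹ with hx1
  have hz1 : z - algebraMap L K x1 = z * h * algebraMap L K c⁻¹ := by
    rw [hx1, map_neg, sub_neg_eq_add]
    have hcK : algebraMap L K c * algebraMap L K c⁻¹ = 1 := by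
      rw [← map_mul, mul_inv_cancel₀ hc, map_one]
    calc z + algebraMap L K c⁻¹ = z * (algebraMap L K c * algebraMap L K c⁻¹) +
          (z * (h - algebraMap L K c)) * algebraMap L K c⁻¹ := by rw [hcK, hzh]; ring
      _ = z * h * algebraMap L K c⁻¹ := by ring
  have hci : algebraMap L K c⁻¹ ≠ 0 := (map_ne_zero _).mpr (inv_ne_zero hc)
  have A4 : ∀ v : Place L K, v.ord (z - algebraMap L K x1) = v.ord z + v.ord h := by
    intro v
    rw [hz1, v.ord_mul _ _ (mul_ne_zero hz0 hh0) hci, v.ord_mul _ _ hz0 hh0, v.ord_const,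
      add_zero]
  have A5 : ∀ v : Place L K, max (v.ord (z - algebraMap L K x1)) 0 = max (v.ord h) 0 := by
    intro v
    rw [A4 v, hzord v]
    rcases lt_trichotomy (v.ord h) 0 with h1 | h1 | h1
    · rw [ord_sub_neg v c h1, max_eq_right (by omega), max_eq_right (by omega)]
    · have h2 := ord_sub_nonneg v c h1.ge
      rw [h1, max_eq_right (by omega), max_eq_right (by omega)]
    · rw [ord_sub_pos v hc h1]
      congr 1
      ring
  have A6 : ∀ v : Place L K, 0 < v.ord (z - algebraMap L K x1) → v.ord φ = 0 := by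
    intro v hv
    apply hoff
    have h1 := A5 v
    intro h2
    rw [h2, max_eq_left hv.le] at h1
    simp at h1
    omega
  -- the norm
  obtain ⟨F, hF⟩ : ∃ F : IntermediateField L K, F = IntermediateField.adjoin L {z} := ⟨_, rfl⟩
  have hfd : FiniteDimensional F K := by
    rw [hF]
    exact h_ALG L K hFF z hz
  have hN0 : ((Algebra.norm F φ : F) : K) ≠ 0 := by
    intro h0
    have h1 : (Algebra.norm F φ : F) = 0 := Subtype.ext h0
    rw [Algebra.norm_eq_zero_iff] at h1
    exact hφ h1
  have hNF : ((Algebra.norm F φ : F) : K) ∈ IntermediateField.adjoin L {z} := by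
    rw [← hF]
    exact (Algebra.norm F φ : F).2
  obtain ⟨p, q, hp, hq, hcop, hpq⟩ := exists_coprime z hz _ hN0 hNF
  have hcomp : ∀ (r : Polynomial L) (α : L), r ≠ 0 →
      r.comp (Polynomial.X + Polynomial.C α) ≠ 0 := by
    intro r α hr h0
    have h1 := aeval_shift z α r
    rw [h0, map_zero] at h1
    exact aeval_ne hz hr h1.symm
  -- the values of z
  set αv : Place L K → L := fun v => (e v - c)⁻¹ with hαv
  have B1 : ∀ v ∈ S, 0 < v.ord (z - algebraMap L K (αv v)) := by
    intro v hv
    rw [hS] at hv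
    obtain ⟨h1, h2, h3⟩ := he v hv
    have h4 : e v - c ≠ 0 := sub_ne_zero.mpr h2
    have h5 : algebraMap L K (e v - c) * algebraMap L K (e v - c)⁻¹ = 1 := by
      rw [← map_mul, mul_inv_cancel₀ h4, map_one]
    have h6 : z - algebraMap L K (αv v) =
        -((h - algebraMap L K (e v)) * z) * algebraMap L K (e v - c)⁻¹ := by
      rw [map_sub] at h5
      calc z - algebraMap L K (αv v)
          = z * ((algebraMap L K (e v) - algebraMap L K c) * algebraMap L K (e v - c)⁻¹) -
            (z * (h - algebraMap L K c)) * algebraMap L K (e v - c)⁻¹ := by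
            rw [h5, hzh, mul_one, one_mul]
        _ = _ := by ring
    have h7 : h - algebraMap L K (e v) ≠ 0 := tne (trans_sub hT (e v))
    have h8 : algebraMap L K (e v - c)⁻¹ ≠ 0 := (map_ne_zero _).mpr (inv_ne_zero h4)
    rw [h6, v.ord_mul _ _ (neg_ne_zero.mpr (mul_ne_zero h7 hz0)) h8, v.ord_const, add_zero]
    have h9 := v.toDV.ord_neg ((h - algebraMap L K (e v)) * z)
    have h10 : v.ord (-((h - algebraMap L K (e v)) * z)) =
        v.ord ((h - algebraMap L K (e v)) * z) := h9
    rw [h10, v.ord_mul _ _ h7 hz0, A3 v hv, add_zero]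
    exact h3
  have B2 : ∀ α : L, (p.rootMultiplicity α : ℤ) - q.rootMultiplicity α =
      ∑ v ∈ S, if αv v = α then v.ord φ else 0 := by
    intro α
    have h1 := h_NO L K hFF (z - algebraMap L K α) (trans_sub hz α) F
      (by rw [hF]; exact adjoin_sub z α) φ hφ (p.comp (Polynomial.X + Polynomial.C α))
      (q.comp (Polynomial.X + Polynomial.C α)) (hcomp p α hp) (hcomp q α hq)
      (by rw [aeval_shift, aeval_shift]; exact hpq)
    rw [← Polynomial.rootMultiplicity_eq_rootMultiplicity,
      ← Polynomial.rootMultiplicity_eq_rootMultiplicity] at h1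
    rw [h1, finsum_eq_sum_of_support_subset (s := S)]
    · refine Finset.sum_congr rfl fun v hv => ?_
      by_cases h2 : αv v = α
      · rw [if_pos h2, if_pos]
        rw [← h2]
        exact B1 v hv
      · rw [if_neg h2, if_neg]
        intro h3
        exact h2 (Res_.const_unique v (f := z) (Or.inr (B1 v hv)) (Or.inr h3))
    · intro v hv
      rw [Function.mem_support] at hv
      rw [Finset.mem_coe, hS]
      intro h2
      apply hv
      rw [h2, ite_self]
  have B3 : ∀ x : L, (∀ v ∈ S, αv v ≠ x) → p.eval x ≠ 0 ∧ q.eval x ≠ 0 := by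
    intro x hx
    have h1 : (p.rootMultiplicity x : ℤ) - q.rootMultiplicity x = 0 := by
      rw [B2 x]
      exact Finset.sum_eq_zero fun v hv => if_neg (hx v hv)
    have h2 : ¬ (p.eval x = 0 ∧ q.eval x = 0) := by
      rintro ⟨h3, h4⟩
      obtain ⟨a, b, hab⟩ := hcop
      have h5 := congrArg (Polynomial.eval x) hab
      rw [Polynomial.eval_add, Polynomial.eval_mul, Polynomial.eval_mul, h3, h4] at h5
      simp at h5
    have h3 : p.eval x = 0 ↔ 0 < p.rootMultiplicity x := (Polynomial.rootMultiplicity_pos hp).symm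
    have h4 : q.eval x = 0 ↔ 0 < q.rootMultiplicity x := (Polynomial.rootMultiplicity_pos hq).symm
    constructor
    · intro h5
      have h6 := h3.1 h5
      exact h2 ⟨h5, h4.2 (by omega)⟩
    · intro h5
      have h6 := h4.1 h5
      exact h2 ⟨h3.2 (by omega), h5⟩
  have hα0 : ∀ v ∈ S, αv v ≠ 0 := by
    intro v hv
    rw [hS] at hv
    exact inv_ne_zero (sub_ne_zero.mpr (he v hv).2.1)
  have hα1 : ∀ v ∈ S, αv v ≠ x1 := by
    intro v hv h1
    rw [hS] at hv
    apply (he v hv).1
    have h2 : e v - c = -c := by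
      have h3 : (e v - c)⁻¹ = (-c)⁻¹ := by
        rw [inv_neg]
        exact h1
      exact inv_injective h3
    have h4 : e v = (e v - c) + c := by ring
    rw [h4, h2, neg_add_cancel]
  obtain ⟨hp0, hq0⟩ := B3 0 hα0
  obtain ⟨hp1, hq1⟩ := B3 x1 hα1
  -- degrees
  have B4 : p.natDegree = q.natDegree := by
    have hzinv : Invertible z := invertibleOfNonzero hz0
    have h1 : ∀ r : Polynomial L, Polynomial.aeval z⁻¹ r.reverse * z ^ r.natDegree =
        Polynomial.aeval z r := by
      intro r
      have h2 := Polynomial.eval₂_reverse_mul_pow (algebraMap L K) z r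
      rw [invOf_eq_inv] at h2
      exact h2
    have h2 : ((Algebra.norm F φ : F) : K) *
        Polynomial.aeval z⁻¹ (q.reverse * Polynomial.X ^ p.natDegree) =
        Polynomial.aeval z⁻¹ (p.reverse * Polynomial.X ^ q.natDegree) := by
      have h3 : z ^ (p.natDegree + q.natDegree) ≠ 0 := pow_ne_zero _ hz0
      apply mul_right_cancel₀ h3
      have e1 : (z⁻¹) ^ p.natDegree * z ^ p.natDegree = 1 := by
        rw [← mul_pow, inv_mul_cancel₀ hz0, one_pow]
      have e2 : (z⁻¹) ^ q.natDegree * z ^ q.natDegree = 1 := by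
        rw [← mul_pow, inv_mul_cancel₀ hz0, one_pow]
      simp only [map_mul, map_pow, Polynomial.aeval_X]
      calc ((Algebra.norm F φ : F) : K) *
            (Polynomial.aeval z⁻¹ q.reverse * (z⁻¹) ^ p.natDegree) *
            z ^ (p.natDegree + q.natDegree)
          = ((Algebra.norm F φ : F) : K) *
            (Polynomial.aeval z⁻¹ q.reverse * z ^ q.natDegree) *
              ((z⁻¹) ^ p.natDegree * z ^ p.natDegree) := by rw [pow_add]; ring
        _ = Polynomial.aeval z p := by rw [e1, h1 q, mul_one, hpq]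
        _ = (Polynomial.aeval z⁻¹ p.reverse * z ^ p.natDegree) *
              ((z⁻¹) ^ q.natDegree * z ^ q.natDegree) := by rw [e2, h1 p, mul_one]
        _ = _ := by rw [pow_add]; ring
    have hrp : p.reverse ≠ 0 := by
      rw [Ne, Polynomial.reverse_eq_zero]
      exact hp
    have hrq : q.reverse ≠ 0 := by
      rw [Ne, Polynomial.reverse_eq_zero]
      exact hq
    have hX : (Polynomial.X : Polynomial L) ≠ 0 := Polynomial.X_ne_zero
    have h3 := h_NO L K hFF z⁻¹ (trans_inv hz) F (by rw [hF]; exact adjoin_inv z) φ hφ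
      (p.reverse * Polynomial.X ^ q.natDegree) (q.reverse * Polynomial.X ^ p.natDegree)
      (mul_ne_zero hrp (pow_ne_zero _ hX)) (mul_ne_zero hrq (pow_ne_zero _ hX)) h2
    rw [Polynomial.rootMultiplicity_eq_natTrailingDegree',
      Polynomial.rootMultiplicity_eq_natTrailingDegree',
      Polynomial.natTrailingDegree_mul_X_pow hrp, Polynomial.natTrailingDegree_mul_X_pow hrq,
      Polynomial.natTrailingDegree_reverse, Polynomial.natTrailingDegree_reverse,
      finsum_eq_zero_of_forall_eq_zero] at h3
    · omega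
    · intro v
      split_ifs with h4
      · by_contra h5
        have h6 := v.toDV.ord_inv z
        have h7 : v.ord z⁻¹ = -v.ord z := h6
        rw [h7, A3 v h5] at h4
        simp at h4
      · rfl
  -- the roots
  set T : Finset L := (p.roots.toFinset ∪ q.roots.toFinset) ∪ S.image αv with hTdef
  have hTp : ∀ α, p.eval α = 0 → α ∈ T := by
    intro α hα
    rw [hTdef, Finset.mem_union, Finset.mem_union]
    left
    left
    rw [Multiset.mem_toFinset, Polynomial.mem_roots hp]
    exact hα
  have hTq : ∀ α, q.eval α = 0 → α ∈ T := by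
    intro α hα
    rw [hTdef, Finset.mem_union, Finset.mem_union]
    left
    right
    rw [Multiset.mem_toFinset, Polynomial.mem_roots hq]
    exact hα
  have hTn : ∀ x : L, p.eval x ≠ 0 → q.eval x ≠ 0 → (∀ v ∈ S, αv v ≠ x) → x ∉ T := by
    intro x h1 h2 h3 h4
    rw [hTdef, Finset.mem_union, Finset.mem_union] at h4
    rcases h4 with (h4 | h4) | h4
    · rw [Multiset.mem_toFinset, Polynomial.mem_roots hp] at h4
      exact h1 h4
    · rw [Multiset.mem_toFinset, Polynomial.mem_roots hq] at h4
      exact h2 h4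
    · obtain ⟨v, hv, h5⟩ := Finset.mem_image.mp h4
      exact h3 v hv h5
  have h0T : (0 : L) ∉ T := hTn 0 hp0 hq0 hα0
  have h1T : x1 ∉ T := hTn x1 hp1 hq1 hα1
  set n : L → ℤ := fun α => (p.rootMultiplicity α : ℤ) - q.rootMultiplicity α with hn
  have hnsum : ∑ α ∈ T, n α = 0 := by
    rw [hn, Finset.sum_sub_distrib]
    have h1 := natDegree_eq_sum p T hTp hp
    have h2 := natDegree_eq_sum q T hTq hq
    rw [← Nat.cast_sum, ← Nat.cast_sum, ← h1, ← h2, B4, sub_self]
  have hw : ∀ α ∈ T, (c * α + 1) / α ≠ 0 ∧ α ≠ 0 := by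
    intro α hα
    have h1 : α ≠ 0 := by
      rintro rfl
      exact h0T hα
    refine ⟨div_ne_zero ?_ h1, h1⟩
    intro h2
    apply h1T
    have h3 : α = x1 := by
      rw [hx1, eq_neg_iff_add_eq_zero]
      have h4 : c * (α + c⁻¹) = 0 := by
        rw [mul_add, mul_inv_cancel₀ hc]
        exact h2
      exact (mul_eq_zero.mp h4).resolve_left hc
    rwa [← h3]
  have hE : ∏ v ∈ S, e v ^ v.ord φ = ∏ α ∈ T, ((c * α + 1) / α) ^ n α := by
    rw [← Finset.prod_fiberwise_of_maps_to (s := S) (t := T) (g := αv)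
      (fun v hv => by
        rw [hTdef, Finset.mem_union]
        exact Or.inr (Finset.mem_image_of_mem _ hv))]
    refine Finset.prod_congr rfl fun α hα => ?_
    have h1 : n α = ∑ v ∈ S.filter (fun v => αv v = α), v.ord φ := by
      rw [Finset.sum_filter]
      exact B2 α
    rw [h1, ← zpow_sum _ _ (hw α hα).1]
    refine Finset.prod_congr rfl fun v hv => ?_
    rw [Finset.mem_filter, hS] at hv
    congr 1
    have h2 : e v - c ≠ 0 := sub_ne_zero.mpr (he v hv.1).2.1
    rw [← hv.2, hαv]
    field_simp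
    ring
  have R0 := eval_ratio p q hp hq T hTp hTq 0 h0T
  have R1 := eval_ratio p q hp hq T hTp hTq x1 h1T
  have hR : ∏ α ∈ T, (x1 - α) ^ n α =
      (∏ α ∈ T, ((c * α + 1) / α) ^ n α) * ∏ α ∈ T, (0 - α) ^ n α := by
    have h1 : ∏ α ∈ T, (x1 - α) ^ n α = ((∏ α ∈ T, ((c * α + 1) / α) ^ n α) *
        ∏ α ∈ T, (0 - α) ^ n α) * ∏ α ∈ T, (c⁻¹) ^ n α := by
      rw [← Finset.prod_mul_distrib, ← Finset.prod_mul_distrib]
      refine Finset.prod_congr rfl fun α hα => ?_
      rw [← mul_zpow, ← mul_zpow]
      congr 1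
      have h2 := (hw α hα).2
      rw [hx1]
      field_simp
      ring
    rw [h1, zpow_sum _ _ (inv_ne_zero hc), hnsum, zpow_zero, mul_one]
  -- the values of the norm
  have V0 := h_NV L K hFF z hz F hF φ hφ A1 p q hq0 hpq
  have V1 := h_NV L K hFF (z - algebraMap L K x1) (trans_sub hz x1) F
      (by rw [hF]; exact adjoin_sub z x1) φ hφ A6 (p.comp (Polynomial.X + Polynomial.C x1))
      (q.comp (Polynomial.X + Polynomial.C x1))
      (by rw [Polynomial.eval_comp]; simpa using hq1)
      (by rw [aeval_shift, aeval_shift]; exact hpq)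
  have hev : ∀ r : Polynomial L, (r.comp (Polynomial.X + Polynomial.C x1)).eval 0 =
      r.eval x1 := by
    intro r
    rw [Polynomial.eval_comp]
    simp
  rw [hev, hev, finprod_congr (fun v => by rw [A5 v])] at V1
  rw [finprod_congr (fun v => by rw [A0 v])] at V0
  rw [hE]
  have hlp : p.leadingCoeff ≠ 0 := Polynomial.leadingCoeff_ne_zero.mpr hp
  have hlq : q.leadingCoeff ≠ 0 := Polynomial.leadingCoeff_ne_zero.mpr hq
  rw [V1] at R1
  rw [V0] at R0
  have R1' : (∏ᶠ v : Place L K, val v φ ^ (max (v.ord h) 0)) * q.leadingCoeff =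
      p.leadingCoeff * ∏ α ∈ T, (x1 - α) ^ n α := by
    apply mul_left_cancel₀ hq1
    rw [← mul_assoc, R1, mul_assoc]
  have R0' : (∏ᶠ v : Place L K, val v φ ^ (max (-v.ord h) 0)) * q.leadingCoeff =
      p.leadingCoeff * ∏ α ∈ T, (0 - α) ^ n α := by
    apply mul_left_cancel₀ hq0
    rw [← mul_assoc, R0, mul_assoc]
  apply mul_right_cancel₀ hlq
  rw [R1', mul_assoc, R0', hR]
  ring

end main

end WEIL_

open WEIL_ in
/-- Weil reciprocity -/
theorem p_WEIL (h_ALG : T_ALG) (h_VAL : T_VAL) (h_FIN : T_FIN) (h_NV : T_NV) (h_NO : T_NO)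
    (h_EV : T_EV) : T_WEIL := by
  classical
  intro L K _ _ _ _ _ hFF
  obtain ⟨ev1, ev2, -⟩ := h_EV L K hFF
  -- the nonconstant case
  have key : ∀ f g : K, f ≠ 0 → g ≠ 0 → Transcendental L f → Off (dv (L := L) f) g →
      ev f (dv (L := L) g) = ev g (dv (L := L) f) := by
    intro f g hf hg hT hoff
    have hoff' : ∀ v : Place L K, v.ord f ≠ 0 → v.ord g = 0 := hoff
    have hfin := h_FIN L K hFF g hg
    obtain ⟨c, hcn⟩ := Infinite.exists_notMem_finset
      (insert (0 : L) (hfin.toFinset.image fun v => val v f))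
    rw [Finset.mem_insert, not_or] at hcn
    obtain ⟨hc, hcn⟩ := hcn
    have he : ∀ v : Place L K, v.ord g ≠ 0 →
        val v f ≠ 0 ∧ val v f ≠ c ∧ 0 < v.ord (f - algebraMap L K (val v f)) := by
      intro v hv
      have h1 : v.ord f = 0 := by
        by_contra h2
        exact hv (hoff' v h2)
      obtain ⟨a, ha, h2⟩ := h_VAL L K hFF v f hf h1
      have h3 := ev2 v f a ha h2
      refine ⟨ev1 v f, ?_, ?_⟩
      · intro h4
        apply hcn
        rw [Finset.mem_image]
        exact ⟨v, hfin.mem_toFinset.mpr hv, h4⟩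
      · rw [h3]
        rcases h2 with h2 | h2
        · exact absurd (h2 ▸ isAlgebraic_algebraMap a) hT
        · exact h2
    have h1 := core h_ALG h_NV h_NO hFF f g hT hg c hc hoff' (fun v => val v f) he
      hfin.toFinset (fun v => hfin.mem_toFinset)
    have h2 : ev f (dv (L := L) g) = ∏ v ∈ hfin.toFinset, val v f ^ v.ord g := by
      unfold ev dv
      apply finprod_eq_prod_of_mulSupport_subset
      intro v hv
      rw [Function.mem_mulSupport] at hv
      rw [Finset.mem_coe, hfin.mem_toFinset]
      intro h3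
      apply hv
      rw [h3, zpow_zero]
    have hfinf := h_FIN L K hFF f hf
    have hm1 : (Function.mulSupport fun v : Place L K => val v g ^ (max (v.ord f) 0)).Finite := by
      refine hfinf.subset fun v hv => ?_
      rw [Function.mem_mulSupport] at hv
      intro h3
      apply hv
      rw [h3, max_self, zpow_zero]
    have hm2 : (Function.mulSupport fun v : Place L K =>
        val v g ^ (max (-v.ord f) 0)).Finite := by
      refine hfinf.subset fun v hv => ?_
      rw [Function.mem_mulSupport] at hv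
      intro h3
      apply hv
      rw [h3, neg_zero, max_self, zpow_zero]
    have h3 : ev g (dv (L := L) f) * ∏ᶠ v : Place L K, val v g ^ (max (-v.ord f) 0) =
        ∏ᶠ v : Place L K, val v g ^ (max (v.ord f) 0) := by
      unfold ev dv
      rw [← finprod_mul_distrib]
      · refine finprod_congr fun v => ?_
        rw [← zpow_add₀ (ev1 v g)]
        congr 1
        rcases le_total 0 (v.ord f) with h4 | h4
        · rw [max_eq_right (by omega), max_eq_left h4, add_zero]
        · rw [max_eq_left (by omega), max_eq_right h4, add_neg_cancel]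
      · refine hfinf.subset fun v hv => ?_
        rw [Function.mem_mulSupport] at hv
        intro h3
        apply hv
        rw [h3, zpow_zero]
      · exact hm2
    have h4 : (∏ᶠ v : Place L K, val v g ^ (max (-v.ord f) 0)) ≠ 0 := by
      rw [finprod_eq_prod _ hm2]
      exact Finset.prod_ne_zero_iff.mpr fun v _ => zpow_ne_zero _ (ev1 v g)
    apply mul_right_cancel₀ h4
    rw [h3, h2]
    exact h1.symm
  intro f g hf hg hoff
  by_cases hTf : Transcendental L f
  · exact key f g hf hg hTf hoff
  by_cases hTg : Transcendental L g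
  · refine (key g f hg hf hTg ?_).symm
    intro v hv
    by_contra h1
    exact hv (hoff v h1)
  · have hconst : ∀ x : K, ¬ Transcendental L x → dv (L := L) x = 0 := by
      intro x hx
      have hint : IsIntegral L x := (not_not.mp hx : IsAlgebraic L x).isIntegral
      have hdeg := IsAlgClosed.degree_eq_one_of_irreducible L (minpoly.irreducible hint)
      obtain ⟨a, ha⟩ := minpoly.mem_range_of_degree_eq_one L x hdeg
      funext v
      rw [← ha]
      exact v.ord_const a
    rw [hconst f hTf, hconst g hTg]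
    unfold ev
    simp

end Pool.Agent.FDX
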