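import Pool.Agent.FD.All
import Pool.Agent.FDX.P_ALG
import Pool.Agent.FDX.P_APX
import Pool.Agent.FDX.P_AUX
import Pool.Agent.FDX.P_CHO
import Pool.Agent.FDX.P_COC
import Pool.Agent.FDX.P_EMPTY
import Pool.Agent.FDX.P_EV
import Pool.Agent.FDX.P_EXI
import Pool.Agent.FDX.P_EXT1
import Pool.Agent.FDX.P_EXT2
import Pool.Agent.FDX.P_FF
import Pool.Agent.FDX.P_FIN
import Pool.Agent.FDX.P_FOD
import Pool.Agent.FDX.P_GC
import Pool.Agent.FDX.P_H90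
import Pool.Agent.FDX.P_HDIV
import Pool.Agent.FDX.P_KEY
import Pool.Agent.FDX.P_LOCA
import Pool.Agent.FDX.P_LOCT
import Pool.Agent.FDX.P_LOCV
import Pool.Agent.FDX.P_LOCX
import Pool.Agent.FDX.P_MODEL
import Pool.Agent.FDX.P_MOVE
import Pool.Agent.FDX.P_MX2
import Pool.Agent.FDX.P_MXC
import Pool.Agent.FDX.P_NO
import Pool.Agent.FDX.P_NV
import Pool.Agent.FDX.P_NVB
import Pool.Agent.FDX.P_PR
import Pool.Agent.FDX.P_PRB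
import Pool.Agent.FDX.P_PUSHX
import Pool.Agent.FDX.P_RESK
import Pool.Agent.FDX.P_SIDEA
import Pool.Agent.FDX.P_VAL
import Pool.Agent.FDX.P_VALA
import Pool.Agent.FDX.P_VALT
import Pool.Agent.FDX.P_WEIL

/-!
# FDX: the two main theorems from their parts
-/

namespace Pool.Agent.FDX

open Pool.Agent.FD

theorem a_VAL : T_VAL := p_VAL p_ALG

theorem a_FIN : T_FIN := p_FIN p_ALG p_APX

theorem a_EV : T_EV := p_EV a_VAL

theorem a_MODEL : T_MODEL := p_MODEL p_ALG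

theorem a_WEIL : T_WEIL :=
  p_WEIL p_ALG a_VAL a_FIN
    (p_NV p_PRB a_MODEL p_NVB a_VAL a_EV)
    (p_NO a_MODEL p_PRB a_FIN) a_EV

theorem a_PR : T_PR :=
  p_PR a_WEIL (p_EXI a_MODEL p_PRB) a_FIN a_EV

theorem a_KEY : T_KEY :=
  p_KEY a_WEIL a_PR a_EV a_FIN

theorem a_MOVE : T_MOVE := p_MOVE p_APX a_FIN

theorem a_PUSHX : T_PUSHX :=
  p_PUSHX (p_EXT1 p_FF a_VAL) (p_EXT2 p_FF a_VAL) p_FF a_VAL a_EV

theorem a_GC : T_GC :=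
  p_GC (p_CHO p_FF a_FIN a_MOVE a_PR a_PUSHX)
    (p_COC p_FF a_WEIL a_EV a_KEY a_PUSHX
      (p_FOD p_FF p_APX a_FIN) a_FIN)
    p_H90
    (p_LOCX p_FF a_WEIL a_EV a_MOVE a_KEY a_PUSHX
      a_FIN)

theorem a_EMPTY : T_EMPTY :=
  p_EMPTY a_GC (p_HDIV (p_PRIN p_CLASS all_TPL) all_TPL)
    (p_LOCV (p_RESK p_CLASS) (p_VALA a_EV p_FF) (p_VALT p_FF a_EV)
      (p_LOCA p_CLASS) p_LOCT) p_SIDEA

theorem a_AUX : T_AUX :=
  p_AUX a_EMPTY p_IRR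
    (p_SELM2 pB_CRIT all_TPL (p_PRIN p_CLASS all_TPL) (p_DEG all_TPL) (p_PUSH all_TPL))
    (p_RES p_CLASS) p_LOC p_SEL2 (p_HC p_F0) (p_ARITH2 p_CLASS p_SIDE) p_H2

theorem a_MX2 : T_MX2 :=
  p_MX2 a_AUX p_P2 p_COMB p_POW

theorem a_MXC : T_MXC :=
  p_MXC a_AUX p_P2 p_COMB

end Pool.Agent.FDX
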