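import Pool.Agent.FDX.Targets
import Mathlib.FieldTheory.Galois.Infinite
import Mathlib.RepresentationTheory.Homological.GroupCohomology.Hilbert90

/-!
# FDX: F2, Hilbert 90 for continuous cocycles on the Galois group of `ℚ`
-/

namespace Pool.Agent.FDX

open Pool.Agent.FD

namespace H90_

/-- Hilbert 90 for continuous cocycles of an infinite Galois extension. -/
theorem core {k K : Type} [Field k] [Field K] [Algebra k K] [IsGalois k K]
    (b : (K ≃ₐ[k] K) → K) (hb0 : ∀ σ, b σ ≠ 0)
    (hb : ∀ σ τ, b (σ * τ) = b σ * σ (b τ))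
    (N : IntermediateField k K) [FiniteDimensional k N] [Normal k N]
    (hN : ∀ σ τ : K ≃ₐ[k] K, (∀ z ∈ N, σ z = τ z) → b σ = b τ) :
    ∃ w : K, w ≠ 0 ∧ ∀ σ, b σ = σ w / w := by
  classical
  have hr : ∀ (σ : K ≃ₐ[k] K) (z : N), ((AlgEquiv.restrictNormalHom N σ z : N) : K) = σ z :=
    fun σ z => AlgEquiv.restrictNormalHom_apply N σ z
  have hmem : ∀ (σ : K ≃ₐ[k] K) (z : K), z ∈ N → σ z ∈ N := by
    intro σ z hz
    have := hr σ ⟨z, hz⟩
    rw [← this]
    exact Subtype.mem _
  -- `b 1 = 1`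
  have hb1 : b 1 = 1 := by
    have h := hb 1 1
    rw [mul_one, AlgEquiv.one_apply] at h
    have h2 : b 1 * 1 = b 1 * b 1 := by rw [mul_one]; exact h
    exact (mul_left_cancel₀ (hb0 1) h2).symm
  -- the values are in `N`
  have hval : ∀ σ, b σ ∈ N := by
    intro σ
    rw [← InfiniteGalois.fixedField_fixingSubgroup N, IntermediateField.mem_fixedField_iff]
    intro τ hτ
    rw [IntermediateField.mem_fixingSubgroup_iff] at hτ
    have h1 : b τ = 1 := by
      rw [← hb1]
      apply hN
      intro z hz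
      rw [AlgEquiv.one_apply]
      exact hτ z hz
    have h2 : b (τ * σ) = b σ := by
      apply hN
      intro z hz
      rw [AlgEquiv.mul_apply]
      exact hτ _ (hmem σ z hz)
    have h3 := hb τ σ
    rw [h1, h2, one_mul] at h3
    exact h3.symm
  -- the finite cocycle
  have hs : Function.Surjective (AlgEquiv.restrictNormalHom (F := k) (K₁ := K) N) :=
    AlgEquiv.restrictNormalHom_surjective K
  choose l hl using hs
  have hlb : ∀ σ : K ≃ₐ[k] K, b (l (AlgEquiv.restrictNormalHom N σ)) = b σ := by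
    intro σ
    apply hN
    intro z hz
    have h1 := hr (l (AlgEquiv.restrictNormalHom N σ)) ⟨z, hz⟩
    have h2 := hr σ ⟨z, hz⟩
    rw [hl] at h1
    exact h1.symm.trans h2
  have hne : ∀ g : N ≃ₐ[k] N, (⟨b (l g), hval _⟩ : N) ≠ 0 := by
    intro g h
    exact hb0 (l g) (congrArg Subtype.val h)
  let c : (N ≃ₐ[k] N) → Nˣ := fun g => Units.mk0 ⟨b (l g), hval _⟩ (hne g)
  have hc : groupCohomology.IsMulCocycle₁ c := by
    intro g h
    apply Units.ext
    apply Subtype.ext
    have h1 : b (l (g * h)) = b (l g * l h) := by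
      rw [← hlb (l g * l h), map_mul, hl, hl]
    have h2 : l g (b (l h)) = ((g (⟨b (l h), hval _⟩ : N) : N) : K) := by
      have := hr (l g) ⟨b (l h), hval _⟩
      rw [hl] at this
      exact this.symm
    show b (l (g * h)) = ((g (⟨b (l h), hval _⟩ : N) : N) : K) * b (l g)
    rw [h1, hb, h2, mul_comm]
  obtain ⟨x, hx⟩ := groupCohomology.isMulCoboundary₁_of_isMulCocycle₁_of_aut_to_units c hc
  refine ⟨((x : N) : K), ?_, ?_⟩
  · intro h
    exact x.ne_zero (Subtype.ext h)
  · intro σ
    have h1 := hx (AlgEquiv.restrictNormalHom N σ)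
    have h2 := congrArg (fun u : Nˣ => ((u : N) : K)) h1
    simp only [Units.val_div_eq_div_val] at h2
    have h3 : (((AlgEquiv.restrictNormalHom N σ • x : Nˣ) : N) : K) = σ ((x : N) : K) :=
      hr σ (x : N)
    have h4 : ((c (AlgEquiv.restrictNormalHom N σ) : N) : K) = b σ := hlb σ
    rw [← h4, ← h2, ← h3]
    rfl

theorem gal_aux (i j : Algebra ℚ Curve.Qbar) (h : @IsGalois ℚ _ Curve.Qbar _ i) :
    @IsGalois ℚ _ Curve.Qbar _ j := by
  have e : i = j := Subsingleton.elim _ _
  subst e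
  exact h

theorem gal0 (k : Type) [Field k] [CharZero k] : IsGalois k (AlgebraicClosure k) :=
  IsAlgClosure.isGalois k (AlgebraicClosure k)

theorem gal : IsGalois ℚ Curve.Qbar := gal_aux _ _ (gal0 ℚ)

end H90_

theorem p_H90 : T_H90 := by
  intro b hb0 hb hE
  obtain ⟨E, hEf, hE⟩ := hE
  have hG : IsGalois ℚ Curve.Qbar := H90_.gal
  have hNQ : Normal ℚ Curve.Qbar := hG.to_normal
  have h1 : FiniteDimensional ℚ (IntermediateField.normalClosure ℚ E Curve.Qbar) :=
    normalClosure.is_finiteDimensional ℚ E Curve.Qbar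
  have h2 : Normal ℚ (IntermediateField.normalClosure ℚ E Curve.Qbar) :=
    normalClosure.normal ℚ E Curve.Qbar
  apply H90_.core b hb0 hb (IntermediateField.normalClosure ℚ E Curve.Qbar)
  intro σ τ h
  apply hE
  intro z hz
  exact h z (IntermediateField.le_normalClosure E hz)

end Pool.Agent.FDX
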