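import Pool.Agent.FDX.Targets
import Pool.Agent.FD.Basic

/-!
# FDX: G6, maximal ideals of a Dedekind domain are places
-/

set_option autoImplicit false

open MvPolynomial

namespace Pool.Agent.FDX

open Pool.Agent.FD IsDedekindDomain

namespace PRB_

theorem p_one {L K : Type} [Field L] [Field K] [Algebra L K] (v : Place L K) : v.ord 1 = 0 :=
  v.toDV.ord_one

theorem p_inv {L K : Type} [Field L] [Field K] [Algebra L K] (v : Place L K) (f : K) :
    v.ord f⁻¹ = - v.ord f := v.toDV.ord_inv f

theorem p_pow {L K : Type} [Field L] [Field K] [Algebra L K] (v : Place L K) (f : K) (n : ℕ) :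
    v.ord (f ^ n) = n * v.ord f := v.toDV.ord_pow f n

section

variable {L K B : Type} [Field L] [Field K] [Algebra L K] [CommRing B]
  [IsDedekindDomain B] [Algebra L B] [Algebra B K] [IsFractionRing B K] [IsScalarTower L B K]

theorem val_const (P : HeightOneSpectrum B) (a : L) (ha : a ≠ 0) :
    P.valuation K (algebraMap L K a) = 1 := by
  have h0 : ∀ c : L, P.valuation K (algebraMap L K c) ≤ 1 := by
    intro c
    rw [IsScalarTower.algebraMap_apply L B K]
    exact P.valuation_le_one _
  have h3 : P.valuation K (algebraMap L K a) * P.valuation K (algebraMap L K a⁻¹) = 1 := by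
    rw [← map_mul, ← map_mul, mul_inv_cancel₀ ha, map_one, map_one]
  refine le_antisymm (h0 a) ?_
  calc (1 : WithZero (Multiplicative ℤ))
      = P.valuation K (algebraMap L K a) * P.valuation K (algebraMap L K a⁻¹) := h3.symm
    _ ≤ P.valuation K (algebraMap L K a) := mul_le_of_le_one_right' (h0 a⁻¹)

/-- the place of a maximal ideal -/
noncomputable def plc (P : HeightOneSpectrum B) : Place L K where
  ord f := - WithZero.log (P.valuation K f)
  ord_zero := by simp
  ord_mul f g hf hg := by
    rw [map_mul, WithZero.log_mul ((Valuation.ne_zero_iff _).mpr hf)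
      ((Valuation.ne_zero_iff _).mpr hg)]
    ring
  ord_add f g hf hg hfg := by
    have hf' : P.valuation K f ≠ 0 := (Valuation.ne_zero_iff _).mpr hf
    have hg' : P.valuation K g ≠ 0 := (Valuation.ne_zero_iff _).mpr hg
    have hfg' : P.valuation K (f + g) ≠ 0 := (Valuation.ne_zero_iff _).mpr hfg
    have h := (P.valuation K).map_add f g
    rcases le_total (P.valuation K f) (P.valuation K g) with h1 | h1
    · rw [max_eq_right h1] at h
      have h2 := (WithZero.log_le_log hfg' hg').mpr h
      exact le_trans (min_le_right _ _) (neg_le_neg h2)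
    · rw [max_eq_left h1] at h
      have h2 := (WithZero.log_le_log hfg' hf').mpr h
      exact le_trans (min_le_left _ _) (neg_le_neg h2)
  ord_const a := by
    by_cases ha : a = 0
    · rw [ha]
      simp
    · rw [val_const P a ha]
      simp
  exists_ord_one := by
    obtain ⟨π, hπ⟩ := P.valuation_exists_uniformizer K
    refine ⟨π, ?_⟩
    rw [hπ, WithZero.log_exp]
    norm_num

/-- the centre of a place on `B` -/
def ctr (v : Place L K) (hv : ∀ b : B, 0 ≤ v.ord (algebraMap B K b)) : Ideal B where
  carrier := {b | b = 0 ∨ 0 < v.ord (algebraMap B K b)}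
  zero_mem' := Or.inl rfl
  add_mem' := by
    rintro a b ha hb
    by_cases ha0 : a = 0
    · rw [ha0, zero_add]
      exact hb
    by_cases hb0 : b = 0
    · rw [hb0, add_zero]
      exact ha
    by_cases hab : a + b = 0
    · exact Or.inl hab
    right
    have ha1 : 0 < v.ord (algebraMap B K a) := ha.resolve_left ha0
    have hb1 : 0 < v.ord (algebraMap B K b) := hb.resolve_left hb0
    have hinj := IsFractionRing.injective B K
    have h := v.ord_add (algebraMap B K a) (algebraMap B K b)
      ((map_ne_zero_iff _ hinj).mpr ha0) ((map_ne_zero_iff _ hinj).mpr hb0)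
      (by rw [← map_add]; exact (map_ne_zero_iff _ hinj).mpr hab)
    rw [← map_add] at h
    exact lt_of_lt_of_le (lt_min ha1 hb1) h
  smul_mem' := by
    rintro c b hb
    rw [smul_eq_mul]
    by_cases hc : c = 0
    · exact Or.inl (by rw [hc, zero_mul])
    by_cases hb0 : b = 0
    · exact Or.inl (by rw [hb0, mul_zero])
    right
    have hb1 : 0 < v.ord (algebraMap B K b) := hb.resolve_left hb0
    have hinj := IsFractionRing.injective B K
    rw [map_mul, v.ord_mul _ _ ((map_ne_zero_iff _ hinj).mpr hc)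
      ((map_ne_zero_iff _ hinj).mpr hb0)]
    have := hv c
    omega

theorem mem_ctr (v : Place L K) (hv : ∀ b : B, 0 ≤ v.ord (algebraMap B K b)) (b : B) :
    b ∈ ctr v hv ↔ b = 0 ∨ 0 < v.ord (algebraMap B K b) := Iff.rfl

theorem ctr_prime (v : Place L K) (hv : ∀ b : B, 0 ≤ v.ord (algebraMap B K b)) :
    (ctr v hv).IsPrime := by
  have hinj := IsFractionRing.injective B K
  refine ⟨?_, ?_⟩
  · rw [Ideal.ne_top_iff_one, mem_ctr, map_one, p_one]
    simp
  · intro a b hab
    rw [mem_ctr] at hab
    by_cases ha : a = 0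
    · exact Or.inl (Or.inl ha)
    by_cases hb : b = 0
    · exact Or.inr (Or.inl hb)
    have h1 : 0 < v.ord (algebraMap B K (a * b)) := hab.resolve_left (mul_ne_zero ha hb)
    rw [map_mul, v.ord_mul _ _ ((map_ne_zero_iff _ hinj).mpr ha)
      ((map_ne_zero_iff _ hinj).mpr hb)] at h1
    have h2 := hv a
    have h3 := hv b
    rcases lt_or_ge 0 (v.ord (algebraMap B K a)) with h | h
    · exact Or.inl (Or.inr h)
    · exact Or.inr (Or.inr (by omega))

theorem ctr_ne_bot (v : Place L K) (hv : ∀ b : B, 0 ≤ v.ord (algebraMap B K b)) :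
    ctr v hv ≠ ⊥ := by
  intro h
  have hinj := IsFractionRing.injective B K
  have h1 : ∀ b : B, v.ord (algebraMap B K b) = 0 := by
    intro b
    by_contra hb
    have h2 : b ∈ ctr v hv := Or.inr (lt_of_le_of_ne (hv b) (Ne.symm hb))
    rw [h, Ideal.mem_bot] at h2
    rw [h2, map_zero, v.ord_zero] at hb
    exact hb rfl
  obtain ⟨f, hf⟩ := v.exists_ord_one
  obtain ⟨a, b, hb, rfl⟩ := IsFractionRing.div_surjective (A := B) f
  have hb0 : algebraMap B K b ≠ 0 := (map_ne_zero_iff _ hinj).mpr (nonZeroDivisors.ne_zero hb)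
  have ha0 : algebraMap B K a ≠ 0 := by
    intro ha
    rw [ha, zero_div, v.ord_zero] at hf
    exact absurd hf (by norm_num)
  rw [div_eq_mul_inv, v.ord_mul _ _ ha0 (inv_ne_zero hb0), p_inv, h1, h1] at hf
  exact absurd hf (by norm_num)

/-- nonnegative on the valuation ring -/
theorem nonneg_of_le (v : Place L K) (hv : ∀ b : B, 0 ≤ v.ord (algebraMap B K b))
    (P : HeightOneSpectrum B) (hP : P.asIdeal = ctr v hv) (f : K) (hf : f ≠ 0)
    (h : P.valuation K f ≤ 1) : 0 ≤ v.ord f := by
  have hinj := IsFractionRing.injective B K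
  obtain ⟨n, d, hnd⟩ := P.exists_primeCompl_mul_eq_of_integer f h
  have hd : (d : B) ∉ ctr v hv := by
    rw [← hP]
    exact d.2
  rw [mem_ctr, not_or] at hd
  have hd0 : algebraMap B K (d : B) ≠ 0 := (map_ne_zero_iff _ hinj).mpr hd.1
  have h1 := hv n
  rw [← hnd, v.ord_mul _ _ hf hd0] at h1
  have h2 := hd.2
  have h3 := hv (d : B)
  omega

end

end PRB_

open PRB_ in
/-- G6. -/
theorem p_PRB : T_PRB := by
  intro L K B _ _ _ _ _ _ _ _ _ _
  refine ⟨fun P => ⟨plc P, fun f _ => rfl⟩, ?_⟩
  intro v hv
  have hinj := IsFractionRing.injective B K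
  set P : HeightOneSpectrum B := ⟨ctr v hv, ctr_prime v hv, ctr_ne_bot v hv⟩ with hPd
  have hP : P.asIdeal = ctr v hv := rfl
  refine ⟨P, ?_⟩
  -- units of the valuation ring
  have hu : ∀ f : K, f ≠ 0 → P.valuation K f = 1 → v.ord f = 0 := by
    intro f hf h
    have h1 := nonneg_of_le v hv P hP f hf h.le
    have h2 := nonneg_of_le v hv P hP f⁻¹ (inv_ne_zero hf) (by rw [map_inv₀, h, inv_one])
    rw [p_inv] at h2
    omega
  obtain ⟨π, hπ'⟩ := P.valuation_exists_uniformizer' K
  have hπ : P.valuation K (algebraMap B K π) = WithZero.exp (-1 : ℤ) := hπ'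
  have hπ0 : algebraMap B K π ≠ 0 := by
    intro h
    rw [h, map_zero] at hπ
    exact WithZero.exp_ne_zero hπ.symm
  have hmain : ∀ f : K, f ≠ 0 →
      v.ord f = - WithZero.log (P.valuation K f) * v.ord (algebraMap B K π) := by
    intro f hf
    set k : ℤ := WithZero.log (P.valuation K f) with hk
    have hk' : P.valuation K f = WithZero.exp k :=
      (WithZero.exp_log ((Valuation.ne_zero_iff _).mpr hf)).symm
    have h1 : P.valuation K (f * algebraMap B K π ^ k) = 1 := by
      rw [map_mul, map_zpow₀, hπ, hk', ← WithZero.exp_zsmul, ← WithZero.exp_add]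
      simp
    have h2 := hu _ (mul_ne_zero hf (zpow_ne_zero k hπ0)) h1
    rw [v.ord_mul _ _ hf (zpow_ne_zero k hπ0)] at h2
    have h3 : v.ord (algebraMap B K π ^ k) = k * v.ord (algebraMap B K π) := by
      rcases Int.eq_nat_or_neg k with ⟨n, hn | hn⟩
      · rw [hn, zpow_natCast, p_pow]
      · rw [hn, zpow_neg, p_inv, zpow_natCast, p_pow]
        ring
    rw [h3] at h2
    linarith
  have hpos : 0 < v.ord (algebraMap B K π) := by
    have h1 : π ∈ P.asIdeal := by
      rw [← HeightOneSpectrum.valuation_lt_one_iff_mem (K := K), hπ, ← WithZero.exp_zero]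
      exact WithZero.exp_lt_exp.mpr (by norm_num)
    rw [hP, mem_ctr] at h1
    refine h1.resolve_left fun h => hπ0 ?_
    rw [h, map_zero]
  have hone : v.ord (algebraMap B K π) = 1 := by
    obtain ⟨f, hf⟩ := v.exists_ord_one
    have hf0 : f ≠ 0 := by
      intro h
      rw [h, v.ord_zero] at hf
      exact absurd hf (by norm_num)
    have h1 := hmain f hf0
    rw [hf, mul_comm] at h1
    have h2 : v.ord (algebraMap B K π) ∣ 1 := ⟨_, h1⟩
    exact Int.eq_one_of_dvd_one hpos.le h2
  intro f hf
  rw [hmain f hf, hone, mul_one]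

end Pool.Agent.FDX
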