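import Pool.Agent.FD.TargetsB

/-!
# FDX: empty Selmer sets of arrangement curves (exact version of the FD theorems)

Part 1: function fields in one variable over an algebraically closed field, Weil
reciprocity, constant field extensions, Hilbert 90, the global class.

Overall plan.  Let `X = (D, ξ)` be an `n`-covering of `C` with points over every `ℚ_p`,
`N ∣ n`, and `h` a rational function on `C` over `ℚ` all of whose orders are divisible by `N`,
`div h = N B`.  Move `D`, `ξ(σ)` off the support of `h`; `z = h(D)`,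
`σ D - D = n ξ(σ) + div φ_σ`, `b_σ = h(ξ(σ))^(n/N) φ_σ(B)`.  Weil reciprocity shows that
`b` is a continuous cocycle and `b_σ ^ N = σ z / z`; by Hilbert 90 `b_σ = σ w / w` and
`δ = z / w ^ N ∈ ℚ`.  For a local point `P = n a + D + div φ` one gets
`h(P) = δ (w h(a)^(n/N) φ(B)) ^ N` with the bracket in `ℚ_p`.
-/

open MvPolynomial

namespace Pool.Agent.FDX

open Pool.Agent.FD

/-! ## Definitions -/

/-- `K` is a function field in one variable over `L`. -/
def FF (L K : Type) [Field L] [Field K] [Algebra L K] : Prop :=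
  ∃ x : K, Transcendental L x ∧ FiniteDimensional (IntermediateField.adjoin L {x}) K

open Classical in
/-- The value of `f` at the place `v` if it exists and is not `0`; otherwise `1`. -/
noncomputable def val {L K : Type} [Field L] [Field K] [Algebra L K] (v : Place L K) (f : K) : L :=
  if h : ∃ c : L, c ≠ 0 ∧ (f = algebraMap L K c ∨ 0 < v.ord (f - algebraMap L K c)) then
    h.choose else 1

/-- The value `f(A)` of a function `f` at a divisor `A` (a finite product if `A` has finite
support). -/
noncomputable def ev {L K : Type} [Field L] [Field K] [Algebra L K] (f : K)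
    (A : Place L K → ℤ) : L := ∏ᶠ v, val v f ^ A v

/-- The divisor of `f`. -/
def dv {L K : Type} [Field L] [Field K] [Algebra L K] (f : K) : Place L K → ℤ := fun v => v.ord f

/-- `A` has no common support with the divisor of `f`. -/
def Off {L K : Type} [Field L] [Field K] [Algebra L K] (A : Place L K → ℤ) (f : K) : Prop :=
  ∀ v, A v ≠ 0 → v.ord f = 0

/-! ## G: function fields -/

/-- G1.  The function field of a curve is a function field.
Proof.  `F` is irreducible, so not constant, say of positive degree in `y` (or in `x`, the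
situation is symmetric; write `F` as a polynomial in one variable over `L[the other]`, use
`MvPolynomial.finSuccEquiv` or `degreeOf`).  If `F` has positive degree in `y`, then `F` divides
no nonzero polynomial in `x` alone, so `x = xF L` is transcendental (`Curve.aeval_xy_eq_zero`),
and `F(x, y) = 0` is a nontrivial equation for `yF L` over `L(x)` (its leading coefficient in `y`
is a nonzero polynomial in `x`).  `K = L(x)(y)` by `Curve.exists_ratio`, so `K` is finite over
`L(x)`.  (Compare `core` in FD/Res.lean, where the same is done for arrangement curves.) -/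
def T_FF : Prop := ∀ (C : Curve) (L : Type) [Field L] [CharZero L] [IsAlgClosed L],
  FF L (C.FunField L)

/-- G2.  `K` is finite over `L(z)` for every transcendental `z`.
Proof.  `K/L(x)` is finite, so `z` is algebraic over `L(x)`: `Q(x, z) = 0` with a nonzero
polynomial `Q` over `L`, which involves `x` (as `z` is transcendental), so `x` is algebraic over
`L(z)`; hence `L(x, z)/L(z)` is finite.  And `K/L(x, z)` is finite.  (Or: transcendence degree
one, `{z}` is a transcendence basis, `K/L(z)` is algebraic; `K` is finitely generated over `L`: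
`IntermediateField.finiteDimensional_adjoin`, `essFiniteType`.) -/
def T_ALG : Prop := ∀ (L K : Type) [Field L] [Field K] [Algebra L K], FF L K →
  ∀ z : K, Transcendental L z → FiniteDimensional (IntermediateField.adjoin L {z}) K

/-- G3.  Residue fields are `L`.
Proof.  If `f` is algebraic over the algebraically closed `L`, it is in `L`.  Otherwise suppose
that `v.ord (f - c) ≤ 0` for all `c ≠ 0`, hence `= 0` (and `v.ord f = 0`).  Then `v` is trivial on
`L[f] \ {0}` (products of the `f - c` and constants), hence on `L(f)`, and `K` is algebraic over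
`L(f)` by G2; then `v` is trivial on `K` (`Res_.not_algebraic` in FD/Res.lean), which contradicts
`exists_ord_one`.  (See `exists_center` in FD/Res.lean.) -/
def T_VAL : Prop := ∀ (L K : Type) [Field L] [IsAlgClosed L] [Field K] [Algebra L K], FF L K →
  ∀ (v : Place L K) (f : K), f ≠ 0 → v.ord f = 0 →
    ∃ c : L, c ≠ 0 ∧ (f = algebraMap L K c ∨ 0 < v.ord (f - algebraMap L K c))

/-- G4.  Weak approximation for places (no hypothesis on `K`).
Proof (standard).  (i) `v ≠ w`: there is `x` with `v x ≥ 0`, `w x < 0`: otherwise the valuation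
ring of `v` is contained in that of `w`; take `t` with `v t = 1`; if `w t > 0` then for `f ≠ 0`
with `v f = k` both `f t^(-k)` and its inverse are in the ring of `v`, so `w f = k w t`, and
`w` normalised gives `w t = 1`, `w = v`; if `w t ≤ 0` then (`t` is in the ring of `v`, so
`w t ≥ 0`) `w t = 0` and `w f = 0` for all `f`, impossible.  (ii) By (i) for `(v, w)` and `(w, v)`
there is `y` with `v y > 0`, `w y < 0`.  (iii) For distinct `v_1, ..., v_r` there is `y` with
`v_1 y > 0` and `v_i y < 0` for `i ≥ 2` (induction on `r`; given `y` for `v_1, ..., v_(r-1)` and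
`y'` with `v_1 y' > 0`, `v_r y' < 0`: if `v_r y < 0` take `y`; otherwise take
`y' y^m`-type combinations `y^m + y'` with suitable `m`, or `y + y'^m`: the valuations at
`v_2, ..., v_(r-1)` and `v_r` have to be checked so that the minimum is attained once for a
suitable `m`).  (iv) `1/(1 + y^m)` is close to `1` at `v_1` and has large positive order at the
others; so for every `M` there are `e_i` with `v_i (e_i - 1) ≥ M`, `v_j e_i ≥ M` (`j ≠ i`).
(v) `ψ = ∑ e_i t_i^(n_i)` with `v_i t_i = 1` and `M` large. -/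
def T_APX : Prop := ∀ (L K : Type) [Field L] [Field K] [Algebra L K] (S : Finset (Place L K))
  (n : Place L K → ℤ), ∃ ψ : K, ψ ≠ 0 ∧ ∀ v ∈ S, v.ord ψ = n v

/-- G5.  A function has finitely many zeros and poles.
Proof.  `f ∈ L`: no zeros, no poles (`ord_const`).  Otherwise `f` is transcendental,
`d = [K : L(f)] < ∞` (G2); there are at most `d` places with `v f > 0`: if `v_1, ..., v_r` are
distinct ones, take `g_i` with `v_i g_i = 0`, `v_j g_i = 1` for `j ≠ i` (G4); they are linearly
independent over `L(f)`: in a relation `∑ a_i(f) g_i = 0` with polynomials `a_i`, not all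
divisible by `X`, some `a_i(0) ≠ 0`; then `v_i (a_i(f) g_i) = 0` and all other terms have positive
order at `v_i` (or are `0`).  The poles are the zeros of `1/f`. -/
def T_FIN : Prop := ∀ (L K : Type) [Field L] [IsAlgClosed L] [Field K] [Algebra L K], FF L K →
  ∀ f : K, f ≠ 0 → {v : Place L K | v.ord f ≠ 0}.Finite

/-- G6.  Maximal ideals of a Dedekind domain are places.
Proof.  The `P`-adic valuation of `K` (`IsDedekindDomain.HeightOneSpectrum.valuation`) is
surjective onto `ℤᵐ⁰` and trivial on `L` (elements of `L \ {0}` are units of `B`).  Conversely, if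
`v` is nonnegative on `B`, then `{b | b = 0 ∨ 0 < v.ord b}` is a prime ideal `P ≠ 0` (otherwise
`v` is trivial); a uniformiser `π ∈ B` at `P` (an element of `P \ P^2`) satisfies: every `f ≠ 0`
is `π^k a / b` with `a, b ∈ B \ P`, `k = ord_P f` (`B_P` is a discrete valuation ring), so
`v f = k v π`, and `v` is normalised, so `v π = 1`. -/
def T_PRB : Prop := ∀ (L K B : Type) [Field L] [Field K] [Algebra L K] [CommRing B] [IsDomain B]
  [IsDedekindDomain B] [Algebra L B] [Algebra B K] [IsFractionRing B K] [IsScalarTower L B K],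
  (∀ P : IsDedekindDomain.HeightOneSpectrum B, ∃ v : Place L K, ∀ f : K, f ≠ 0 →
    v.ord f = - WithZero.log (P.valuation K f)) ∧
  ∀ v : Place L K, (∀ b : B, 0 ≤ v.ord (algebraMap B K b)) →
    ∃ P : IsDedekindDomain.HeightOneSpectrum B, ∀ f : K, f ≠ 0 →
      v.ord f = - WithZero.log (P.valuation K f)

/-- G7.  A model of `K` over `L[z]`: `B` is the integral closure of `L[z]` in `K`.
Proof.  `Polynomial L → K`, `X ↦ z`, is injective; let `B = integralClosure (Polynomial L) K` for
this algebra structure; `K` is a finite separable extension of `L(z)`, so `B` is a Dedekind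
domain, finite over the principal ideal domain `L[X]`, torsion free, hence free; the norm of `K`
over the fraction field restricts to the norm of `B` (`Algebra.norm_localization`).  A place with
`v z ≥ 0` is nonnegative on `L[z]` and on everything integral over it. -/
def T_MODEL : Prop := ∀ (L K : Type) [Field L] [CharZero L] [IsAlgClosed L] [Field K]
  [Algebra L K], FF L K → ∀ z : K, Transcendental L z →
  ∃ (B : Type) (_ : CommRing B) (_ : IsDomain B) (_ : IsDedekindDomain B)
    (_ : Algebra (Polynomial L) B) (_ : Module.Finite (Polynomial L) B)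
    (_ : Module.Free (Polynomial L) B) (_ : Algebra L B) (_ : IsScalarTower L (Polynomial L) B)
    (_ : Algebra B K) (_ : IsFractionRing B K) (_ : IsScalarTower L B K),
    (∀ p : Polynomial L, algebraMap B K (algebraMap (Polynomial L) B p) = Polynomial.aeval z p) ∧
    (∀ (b : B) (F : IntermediateField L K), F = IntermediateField.adjoin L {z} →
      ((Algebra.norm F (algebraMap B K b) : F) : K) =
        Polynomial.aeval z (Algebra.norm (Polynomial L) b)) ∧
    (∀ v : Place L K, 0 ≤ v.ord z → ∀ b : B, 0 ≤ v.ord (algebraMap B K b))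

/-- G8.  A nonconstant function has a zero.
Proof.  G7 and G6: `z` is not a unit of `B` (otherwise `1/z` is integral over `L[z]`, so in
`L[z]` (`B ∩ L(z) = L[z]`); or: `B/zB ≠ 0` by Nakayama / `Module.Free` of positive rank), so it
is in a maximal ideal. -/
def T_EXI : Prop := ∀ (L K : Type) [Field L] [CharZero L] [IsAlgClosed L] [Field K]
  [Algebra L K], FF L K → ∀ z : K, Transcendental L z → ∃ v : Place L K, 0 < v.ord z

/-- G9.  The norm modulo `X`, in a Dedekind domain `B`, finite and free over `L[X]`.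
Proof.  `Algebra.norm L[X] b` modulo `X` is the determinant of the multiplication by `b` on the
`L`-vector space `B/XB` (a basis of `B` gives a basis of `B/XB`, the matrix is the reduction).
`X B = ∏ P^(e_P)` over the (finitely many) maximal ideals `P` containing `X`, `e_P = ` the
multiplicity `= -log (P.valuation K X)`; by the Chinese remainder theorem
`B/XB = ∏ B/P^(e_P)`, and `b` acts on each factor; `B/P^e` has the filtration by `P^i/P^(i+1)`,
each of dimension one over `L = B/P` (`L` is algebraically closed and `B/P` is finite over it),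
on which `b` acts as `c P`.  So the determinant is `∏ (c P)^(e_P)`.  (Alternatively `b - c P` is
nilpotent on `B/P^e`, so its characteristic polynomial is `T^(dim)`, and
`dim B/P^e = e`.) -/
def T_NVB : Prop := ∀ (L K B : Type) [Field L] [CharZero L] [IsAlgClosed L] [Field K]
  [CommRing B] [IsDomain B] [IsDedekindDomain B] [Algebra (Polynomial L) B]
  [Module.Finite (Polynomial L) B] [Module.Free (Polynomial L) B] [Algebra L B]
  [IsScalarTower L (Polynomial L) B] [Algebra B K] [IsFractionRing B K],
  ∀ (b : B) (c : IsDedekindDomain.HeightOneSpectrum B → L),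
    (∀ P : IsDedekindDomain.HeightOneSpectrum B,
      algebraMap (Polynomial L) B Polynomial.X ∈ P.asIdeal → b - algebraMap L B (c P) ∈ P.asIdeal) →
    (Algebra.norm (Polynomial L) b).eval 0 =
      ∏ᶠ P : IsDedekindDomain.HeightOneSpectrum B,
        c P ^ (- WithZero.log (P.valuation K
          (algebraMap B K (algebraMap (Polynomial L) B Polynomial.X))))

/-- G10.  The value of a norm.
Proof.  From G6, G7, G9 (and G3, G5).  Take the model `B` of G7.  Write `φ = a / s` with
`a, s ∈ B`, and such that `s` lies in no `P ∋ z`: possible because `v φ = 0` for all these `P`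
(choose `s ∈ B` with `s φ ∈ B`; the ideal of all such `s` is not contained in any of the finitely
many `P ∋ z`, prime avoidance; or `s` from the Chinese remainder theorem).  Then the norm of
`φ` is the quotient of the norms of `a` and `s`; apply G9 to both, with `c P = ` the value at the
place of `P` (for `P ∌ z` the exponent is `0`); `val v φ = val v a / val v s`; the places with
`v z > 0` correspond to the `P ∋ z` by G6.  Compare with `p / q`: `N(a) q = N(s) p` as polynomials
in `z`, evaluate at `0`. -/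
def T_NV : Prop := ∀ (L K : Type) [Field L] [CharZero L] [IsAlgClosed L] [Field K]
  [Algebra L K], FF L K → ∀ z : K, Transcendental L z →
  ∀ F : IntermediateField L K, F = IntermediateField.adjoin L {z} →
  ∀ φ : K, φ ≠ 0 → (∀ v : Place L K, 0 < v.ord z → v.ord φ = 0) →
  ∀ p q : Polynomial L, q.eval 0 ≠ 0 →
    ((Algebra.norm F φ : F) : K) * Polynomial.aeval z q = Polynomial.aeval z p →
    p.eval 0 = q.eval 0 * ∏ᶠ v : Place L K, val v φ ^ (max (v.ord z) 0)

/-- G11.  The order of a norm.
Proof.  From G4, G5, G8, G10.  Both sides are additive in `φ`.  (1) For `φ ` with `v φ = 0` for all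
`v` over `z = 0` (i.e. `v z > 0`) both sides are `0` by G10 (`p(0), q(0)` can be taken nonzero
after cancelling common powers of `X`: if `q(0) ≠ 0` then `p(0) ≠ 0` by G10, and if `q(0) = 0`,
`p(0) ≠ 0` apply G10 to `1/φ`).  (2) `φ = c` constant in G10: the norm is `c^d`,
`d = [K : L(z)]`, so `c^d = c^(∑ max (v z) 0)` for all `c ≠ 0` (take `c = 2`): `∑ max(v z) 0 = d`.
(3) For each `v` with `v z > 0` let `π_v` with `v π_v = 1`, `w π_v = 0` at the other such places
(G4).  `N(π_v)` has order `≥ 1` at `z = 0`: if `p/q` is the norm with `q(0) ≠ 0` (the order is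
`≥ 0` because `π_v` is integral over the local ring `L[z]_(z)`: its valuations at all places
above are `≥ 0`), `p(0) ≠ 0` would give that `N(π_v)`, and then `π_v`, is a unit in the integral
closure; contradiction to `v π_v > 0`.  A way to avoid integral closures: for all but finitely
many `c ∈ L` the function `π_v - c` has order `0` at all places above `0`, and G10 gives
`N(π_v - c)(0) = ∏ (val - c)^e`, which as a polynomial in `c` has the root `0`; and
`N(c - π_v)` is the characteristic polynomial of `π_v` evaluated at `c`; its coefficients are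
regular at `z = 0` since its values for `d + 1` different `c ∈ L` are.
(4) `z = u ∏ π_v^(v z)` with `v u = 0` above `0`; taking orders of norms:
`d = ∑ (v z) ord N(π_v) ≥ ∑ v z = d`, so all `ord N(π_v) = 1`.  (5) A general `φ` is
`u ∏ π_v^(v φ)`. -/
def T_NO : Prop := ∀ (L K : Type) [Field L] [CharZero L] [IsAlgClosed L] [Field K]
  [Algebra L K], FF L K → ∀ z : K, Transcendental L z →
  ∀ F : IntermediateField L K, F = IntermediateField.adjoin L {z} →
  ∀ φ : K, φ ≠ 0 → ∀ p q : Polynomial L, p ≠ 0 → q ≠ 0 →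
    ((Algebra.norm F φ : F) : K) * Polynomial.aeval z q = Polynomial.aeval z p →
    ((p.rootMultiplicity 0 : ℤ) - q.rootMultiplicity 0) =
      ∑ᶠ v : Place L K, if 0 < v.ord z then v.ord φ else 0

/-- G12.  Weil reciprocity.
Proof.  From G2, G3, G5, G10, G11.  By symmetry let `f` be nonconstant (if both are constant,
all orders are `0`); write `h = f`, `φ = g`.  Choose `c ≠ 0` in `L`, different from the values of
`h` at the (finitely many) places in the support of `φ`; `z = 1/(h - c)`, so `h = (c z + 1)/z`;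
all zeros and poles of `h` and all places in the support of `φ` have `v z ≥ 0` and value `≠ ∞` of
`z`.  `M = N_(K/L(z)) φ = p(z)/q(z)` with coprime `p, q ∈ L[X]`.  By G11 for `z - α` (note
`L(z - α) = L(z)`): `ord_α M = ∑_(v(z - α) > 0) v φ =: n_α` for all `α ∈ L`, and G10 for `1/z`
(`v φ = 0` for all `v` with `v z < 0`): `p, q` have the same degree, so `∑ n_α = 0` and
`M = κ ∏ (z - α)^(n_α)`.  `∏ᶠ val v h ^ v φ = ∏_α ((c α + 1)/α)^(n_α)
= ∏ ((α - (-1/c))/(α - 0))^(n_α) = M(-1/c)/M(0)`.  By G10 (for `z + 1/c` and for `z`)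
`M(-1/c) = ∏_(v h > 0) φ(v)^(v h)` and `M(0) = ∏_(v h < 0) φ(v)^(- v h)` (`z + 1/c = z h / c`).
For `φ` constant this says `c^(deg div h) = 1`. -/
def T_WEIL : Prop := ∀ (L K : Type) [Field L] [CharZero L] [IsAlgClosed L] [Field K]
  [Algebra L K], FF L K → ∀ f g : K, f ≠ 0 → g ≠ 0 → Off (dv (L := L) f) g →
  ev f (dv (L := L) g) = ev g (dv (L := L) f)

/-- G13.  Principal divisors have degree `0`, and a function without zeros is constant.
Proof.  Degree: G12 with the constant function `2`: `2^(deg div f) = 1` (`finprod` of powers of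
`val v 2 = 2` is `2^(finsum)`, G5).  The second part: G8 (a function that is not in `L` is
transcendental as `L` is algebraically closed). -/
def T_PR : Prop := ∀ (L K : Type) [Field L] [CharZero L] [IsAlgClosed L] [Field K]
  [Algebra L K], FF L K → ∀ f : K, f ≠ 0 →
  (∑ᶠ v : Place L K, v.ord f = 0) ∧
  ((∀ v : Place L K, v.ord f = 0) → ∃ c : L, c ≠ 0 ∧ f = algebraMap L K c)

/-- G14.  Rules for `val` and `ev`.
Proof.  From G3 and the uniqueness of the value (`a ≠ b` constants cannot both be values:
`const_unique` in FD/Res.lean).  The supports are finite, so the `finprod`s are finite products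
(`finprod_mul_distrib`, `finprod_pow`; the multiplicative support of `val v f ^ A v` is contained
in the support of `A`). -/
def T_EV : Prop := ∀ (L K : Type) [Field L] [CharZero L] [IsAlgClosed L] [Field K]
  [Algebra L K], FF L K →
  (∀ (v : Place L K) (f : K), val v f ≠ 0) ∧
  (∀ (v : Place L K) (f : K) (c : L), c ≠ 0 →
    (f = algebraMap L K c ∨ 0 < v.ord (f - algebraMap L K c)) → val v f = c) ∧
  (∀ (v : Place L K) (f g : K), f ≠ 0 → g ≠ 0 → v.ord f = 0 → v.ord g = 0 →
    val v (f * g) = val v f * val v g) ∧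
  (∀ (f : K) (A : Place L K → ℤ), ev f A ≠ 0) ∧
  (∀ (f : K) (A A' : Place L K → ℤ), (Function.support A).Finite → (Function.support A').Finite →
    ev f (A + A') = ev f A * ev f A') ∧
  (∀ (f : K) (A : Place L K → ℤ) (k : ℤ), (Function.support A).Finite →
    ev f (k • A) = ev f A ^ k) ∧
  (∀ (f g : K) (A : Place L K → ℤ), (Function.support A).Finite → f ≠ 0 → g ≠ 0 → Off A f →
    Off A g → ev (f * g) A = ev f A * ev g A) ∧
  (∀ (f : K) (A : Place L K → ℤ) (k : ℤ), (Function.support A).Finite → f ≠ 0 → Off A f →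
    ev (f ^ k) A = ev f A ^ k) ∧
  (∀ (c : L) (A : Place L K → ℤ), (Function.support A).Finite → c ≠ 0 →
    ev (algebraMap L K c) A = c ^ (∑ᶠ v, A v))

/-- G15.  The moving lemma.
Proof.  G4 and G5 (so that `A + div ψ` has finite support). -/
def T_MOVE : Prop := ∀ (L K : Type) [Field L] [CharZero L] [IsAlgClosed L] [Field K]
  [Algebra L K], FF L K → ∀ (A : Place L K → ℤ), (Function.support A).Finite →
  ∀ S : Set (Place L K), S.Finite → ∃ ψ : K, ψ ≠ 0 ∧
    (Function.support (A + dv (L := L) ψ)).Finite ∧ ∀ v ∈ S, (A + dv (L := L) ψ) v = 0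

/-- G16.  The key lemma.  `div h = N B`, `n = N m`; if `A = div ψ` is principal, `A` and `φ` are
off the support of `h`, and `n A + div φ = 0`, then `h(A)^m φ(B) = 1`.
Proof.  From G12, G13, G14.  `div (φ ψ^n) = 0`, so `φ = c ψ^(-n)` with `c ∈ L` (G13);
`φ(B) = c^(deg B) ψ(B)^(-n) = ψ(B)^(-n)` (`N deg B = deg div h = 0`; `ψ` is off `B` because `A` is
off `h`); `h(A) = h(div ψ) = ψ(div h) = ψ(N B) = ψ(B)^N` by G12; so `h(A)^m = ψ(B)^n`. -/
def T_KEY : Prop := ∀ (L K : Type) [Field L] [CharZero L] [IsAlgClosed L] [Field K]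
  [Algebra L K], FF L K → ∀ (h : K) (N m : ℕ) (B : Place L K → ℤ), h ≠ 0 → 1 ≤ N →
  (∀ v, (N : ℤ) * B v = v.ord h) →
  ∀ (A : Place L K → ℤ) (φ ψ : K), φ ≠ 0 → ψ ≠ 0 → (∀ v, A v = v.ord ψ) → Off A h →
  Off (dv (L := L) h) φ → (∀ v, (N * m : ℤ) * A v + v.ord φ = 0) →
  ev h A ^ m * ev φ B = 1

/-! ## E: constant field extensions -/

/-- E1.  Places of `L'(C)` over `L(C)`.
Proof.  Let `w` be a place of `L'(C)` that is not trivial on `L(C)` (embedded by `mapFun j`).
Then `w ∘ mapFun j = e • v` for a place `v` of `L(C)` over `L` and `e ≥ 1` (`e` generates the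
image).  Claim: for `c_1, ..., c_r ∈ L'` linearly independent over `L` (via `j`) and
`f_1, ..., f_r ∈ L(C)` not all zero, `w (∑ c_i f_i) = e min v(f_i)`.  Dividing by the `f_i` of
least order we may assume that the minimum is `0`; `f_i = a_i + ` (positive order) with
`a_i ∈ L` (G3), not all `a_i = 0`; `∑ c_i f_i = ∑ c_i a_i + ` (positive order at `w`) and
`∑ c_i j(a_i) ≠ 0` by independence.  Every element of `L'(C)` is a quotient of two such sums
(`Curve.exists_ratio` over `L'`; the coefficients of a polynomial over `L'` are combinations of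
finitely many linearly independent elements of `L'`).  So all orders of `w` are divisible by
`e`, `e = 1`, and `w` is determined by `v`. -/
def T_EXT1 : Prop := ∀ (C : Curve) (L L' : Type) [Field L] [CharZero L] [IsAlgClosed L]
  [Field L'] [CharZero L'] [IsAlgClosed L'] (j : L →+* L'),
  (∀ w : C.Pt L', (∃ f : C.FunField L, w.ord (C.mapFun j f) = 1) ∨
    ∀ f : C.FunField L, w.ord (C.mapFun j f) = 0) ∧
  ∀ w w' : C.Pt L', (∃ f : C.FunField L, w.ord (C.mapFun j f) = 1) →
    (∀ f : C.FunField L, w.ord (C.mapFun j f) = w'.ord (C.mapFun j f)) → w = w'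

/-- E2.  Every place of `L(C)` extends to `L'(C)`.
Proof.  Let `O` be the ring of `v`, `t` a uniformiser, `R ⊂ L'(C)` the ring generated by `L'` and
`mapFun j O`, i.e. the set of sums `∑ c_i f_i`, `c_i ∈ L'`, `f_i ∈ O`; one can take the `c_i`
linearly independent over `L`.  (a) If `c_i` are independent over `L` and `∑ c_i f_i = 0` in
`L'(C)` with `f_i ∈ L(C)`, then all `f_i = 0` (linear disjointness; clear denominators, so
`f_i` are classes of polynomials `P_i` over `L`, and `F ∣ ∑ c_i P_i` over `L'`; extend the `c_i`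
to a basis of `L'` over `L`; compare coefficients: `F` divides every `P_i`, see
`dvd_of_map_dvd` in FD/Defs.lean for the argument).  (b) `R/tR = L'`: the map `∑ c_i f_i ↦ ∑ c_i
f_i(v)` is well defined by (a), and its kernel is `t R`.  So `t` is a prime element of the domain
`R`, (c) `⋂ t^k R = 0` by (a) and because `⋂ t^k O = 0`.  Hence every nonzero `r ∈ R` is
`t^k u`, `u ∉ t R`, the order `k` is multiplicative on `R`, and extends to the fraction field
`L'(C)` of `R`; it is trivial on `L'`, equal to `v` on `L(C)`.  (Alternatively: Dedekind domains,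
lying over and E1.) -/
def T_EXT2 : Prop := ∀ (C : Curve) (L L' : Type) [Field L] [CharZero L] [IsAlgClosed L]
  [Field L'] [CharZero L'] [IsAlgClosed L'] (j : L →+* L') (v : C.Pt L),
  ∃ w : C.Pt L', ∀ f : C.FunField L, w.ord (C.mapFun j f) = v.ord f

/-- E3.  Push-forward of divisors and values.
Proof.  From E1, E2, G3, G14.  `w ↦ C.restrict j w _` is a bijection from the places `w` that are
nontrivial on `L(C)` to the places of `L(C)`.  (1) `push j (div f) = div (mapFun j f)`.
(2) degrees and finiteness of supports.  (3) If `w` restricts to `v` then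
`val w (mapFun j f) = j (val v f)` (the value of `f` at `v`, if `v.ord f = 0`; otherwise both
are `1`, as `w.ord (mapFun j f) = v.ord f ≠ 0`; `val` of `0` is `1`); reindex the `finprod`. -/
def T_PUSHX : Prop := ∀ (C : Curve) (L L' : Type) [Field L] [CharZero L] [IsAlgClosed L]
  [Field L'] [CharZero L'] [IsAlgClosed L'] (j : L →+* L'),
  (∀ f : C.FunField L, f ≠ 0 → C.push j (dv (L := L) f) = dv (L := L') (C.mapFun j f)) ∧
  (∀ (A : C.Pt L → ℤ) (d : ℤ), Curve.IsDivOfDegree A d → Curve.IsDivOfDegree (C.push j A) d) ∧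
  (∀ (A : C.Pt L → ℤ) (f : C.FunField L), (Function.support A).Finite → f ≠ 0 →
    ev (C.mapFun j f) (C.push j A) = j (ev f A)) ∧
  (∀ (A : C.Pt L → ℤ) (f : C.FunField L), Off A f → Off (C.push j A) (C.mapFun j f))

/-! ## F: Galois theory -/

/-- F1.  A divisor over `ℚ̄` is defined over a number field.
Proof.  It suffices to treat one place `P` (`A` is a finite combination of such; the field `E`
of a finite set is the compositum).  Let `z ∈ ℚ̄(C)` be nonconstant with `P z > 0` (take
`exists_ord_one`).  By G5 the places with `v z > 0` are finitely many, `P = v_1, v_2, ..., v_r`; by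
G4 there is `f` with `P f = 1`, `v_i f = 0` for `i ≥ 2`.  So `P` is the only place with `v z > 0`
and `v f > 0`.  If `ρ ∈ Gal` fixes `z` and `f`, then it fixes `P` (`push ρ` of `single P`).  `z`
and `f` are quotients of polynomials in `x, y` with coefficients in a number field `E`
(`Curve.exists_ratio`), so they are fixed by all `ρ` which are trivial on `E`.  If `σ, τ` agree on
`E`, apply this to `ρ = σ⁻¹ τ` (`Crit.push_push` in FD/Crit.lean). -/
def T_FOD : Prop := ∀ (C : Curve) (A : C.Pt Curve.Qbar → ℤ), (Function.support A).Finite →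
  ∃ E : IntermediateField ℚ Curve.Qbar, FiniteDimensional ℚ E ∧
    ∀ σ τ : Curve.Qbar ≃ₐ[ℚ] Curve.Qbar, (∀ z ∈ E, σ z = τ z) →
      C.push (σ : Curve.Qbar →+* Curve.Qbar) A = C.push (τ : Curve.Qbar →+* Curve.Qbar) A

/-- F2.  Hilbert 90 for continuous cocycles on the Galois group of `ℚ`.
Proof.  Enlarge `E` to be Galois over `ℚ` (normal closure).  If `τ` is trivial on `E`, then
`b τ = b 1 = 1`, `b (σ τ) = b σ`, and `b (τ σ) = τ (b σ)`; `τ σ` and `σ` agree on the normal
extension `E`, so `τ (b σ) = b σ`: `b σ ∈ E` (infinite Galois theory: `Qbar/E` is Galois).  So `b`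
comes from a cocycle of the finite group `Gal(E/ℚ)` (restriction is surjective) with values in
`Eˣ`; apply `groupCohomology.isMulCoboundary₁_of_isMulCocycle₁_of_aut_to_units`. -/
def T_H90 : Prop := ∀ b : (Curve.Qbar ≃ₐ[ℚ] Curve.Qbar) → Curve.Qbar, (∀ σ, b σ ≠ 0) →
  (∀ σ τ, b (σ * τ) = b σ * σ (b τ)) →
  (∃ E : IntermediateField ℚ Curve.Qbar, FiniteDimensional ℚ E ∧
    ∀ σ τ : Curve.Qbar ≃ₐ[ℚ] Curve.Qbar, (∀ z ∈ E, σ z = τ z) → b σ = b τ) →
  ∃ w : Curve.Qbar, w ≠ 0 ∧ ∀ σ, b σ = σ w / w

/-! ## GC: the global class -/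

/-- The function `f` on `C` over `ℚ̄` is defined over `ℚ`. -/
def Inv (C : Curve) (f : C.FunField Curve.Qbar) : Prop :=
  ∀ σ : Curve.Qbar ≃ₐ[ℚ] Curve.Qbar, C.mapFun (σ : Curve.Qbar →+* Curve.Qbar) f = f

/-- The choices for a covering `X`, off the supports of two functions `h` and `u`. -/
structure Choice (C : Curve) (n : ℕ) (X : C.Covering n) (h u : C.FunField Curve.Qbar) where
  D : C.Pt Curve.Qbar → ℤ
  ξ : (Curve.Qbar ≃ₐ[ℚ] Curve.Qbar) → C.Pt Curve.Qbar → ℤ
  φ : (Curve.Qbar ≃ₐ[ℚ] Curve.Qbar) → C.FunField Curve.Qbar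
  hD : Curve.IsDivOfDegree D 1
  hDX : Curve.IsPrin (D - X.D)
  hξ : ∀ σ, Curve.IsDivOfDegree (ξ σ) 0
  hξX : ∀ σ, Curve.IsPrin (ξ σ - X.ξ σ)
  hφ : ∀ σ, φ σ ≠ 0
  rel : ∀ σ : Curve.Qbar ≃ₐ[ℚ] Curve.Qbar,
    C.push (σ : Curve.Qbar →+* Curve.Qbar) D - D = n • ξ σ + dv (L := Curve.Qbar) (φ σ)
  offD : Off D h ∧ Off D u
  offξ : ∀ σ, Off (ξ σ) h ∧ Off (ξ σ) u
  offφ : ∀ σ, Off (dv (L := Curve.Qbar) h) (φ σ) ∧ Off (dv (L := Curve.Qbar) u) (φ σ)

/-- GC1.  The choices exist.
Proof.  From G5, G15, G1, E3 (degree of a principal divisor: G13).  Move `X.D` and all `X.ξ σ` off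
the finite set `S = supp h ∪ supp u`.  `S` is stable under the Galois group since `h`, `u` are
invariant, so `push σ D` is off `S` as well (E3 (4) with `mapFun σ h = h`).  `push σ D - D ~
push σ X.D - X.D ~ n X.ξ σ ~ n ξ σ`: principal, `= div φ_σ`, and `div φ_σ = push σ D - D - n ξ σ` is
off `S`. -/
def T_CHO : Prop := ∀ (C : Curve) (n : ℕ) (X : C.Covering n) (h u : C.FunField Curve.Qbar),
  h ≠ 0 → u ≠ 0 → Inv C h → Inv C u → Nonempty (Choice C n X h u)

/-- The cocycle `b_σ = h(ξ(σ))^m φ_σ(B)`. -/
noncomputable def bb {C : Curve} {n : ℕ} {X : C.Covering n} {h u : C.FunField Curve.Qbar}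
    (c : Choice C n X h u) (m : ℕ) (B : C.Pt Curve.Qbar → ℤ)
    (σ : Curve.Qbar ≃ₐ[ℚ] Curve.Qbar) : Curve.Qbar :=
  ev h (c.ξ σ) ^ m * ev (c.φ σ) B

/-- GC2.  `b` is a continuous cocycle and `b_σ^N = σ(h(D))/h(D)`.
Proof.  From G12, G14, G16, G1, E3, F1.  `B` is Galois invariant (`N B = div h`, `h` invariant).
* `b_σ^N = h(n ξ σ) φ_σ(div h) = h(n ξ σ) h(div φ_σ) = h(push σ D - D) = σ(h(D))/h(D)` by G12 and
  E3 (3).
* Cocycle: apply G16 to `A = ξ(σ τ) - ξ σ - push σ (ξ τ)` (principal: it is equivalent to the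
  same expression for `X.ξ`, and `push σ` of a principal divisor is principal, E3 (1)) and
  `φ = φ_(στ) / (φ_σ · mapFun σ φ_τ)`: `n A + div φ = (στ D - D) - (σ D - D) - σ(τ D - D) = 0`
  (`push (στ) D = push σ (push τ D)`), and `ev h (push σ (ξ τ)) = σ (ev h (ξ τ))`,
  `ev (mapFun σ φ_τ) B = σ (ev φ_τ B)`, because `mapFun σ h = h`, `push σ B = B`.
* Continuity: let `E` be the compositum of the field of `X.continuous` and the field of F1 for
  `D`; if `σ, τ` agree on `E` apply G16 to `A = ξ σ - ξ τ`, `φ = φ_σ/φ_τ`. -/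
def T_COC : Prop := ∀ (C : Curve) (n N m : ℕ) (X : C.Covering n) (h u : C.FunField Curve.Qbar)
  (B : C.Pt Curve.Qbar → ℤ) (c : Choice C n X h u), h ≠ 0 → Inv C h → 1 ≤ N → n = N * m →
  (∀ v, (N : ℤ) * B v = v.ord h) →
  (∀ σ, bb c m B σ ≠ 0) ∧
  (∀ σ, bb c m B σ ^ N = σ (ev h c.D) / ev h c.D) ∧
  (∀ σ τ, bb c m B (σ * τ) = bb c m B σ * σ (bb c m B τ)) ∧
  ∃ E : IntermediateField ℚ Curve.Qbar, FiniteDimensional ℚ E ∧
    ∀ σ τ : Curve.Qbar ≃ₐ[ℚ] Curve.Qbar, (∀ z ∈ E, σ z = τ z) → bb c m B σ = bb c m B τ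

/-- GC3.  The local computation.  Let `h_k = h u^(N k)`, `B_k = B + k div u`.
Proof.  From G12, G13, G14, G15, G16, G1, E3.  Write `K̄ = AlgebraicClosure K`, `D' = push j c.D`,
`h' = mapFun j h_k`, `B' = push j B_k`, so `N B' = div h'`.  Choose `a' = a + div ψ₀` off `h'` (G15)
and let `φ` with `single P - n a' - D' = div φ` (it exists: `single P - n a - push j X.D` is
principal, and `c.D - X.D` is principal, so `push j` of it is).  `φ` is off `h'` because `P`
(hypothesis `P.ord h' = 0`), `a'` and `D'` are.  By G14, G12: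
`val P h' = ev h' (n a' + D' + div φ) = ev h' a'^n · j(z y^(N k)) · ev φ B'^N`, `z = ev h c.D`,
`y = ev u c.D`; with `z = δ w^N`: `val P h' = δ e^N`, `e = j(w y^k) · ev h' a'^m · ev φ B'`.
`e` is in `K`: for `σ ∈ Gal(K̄/K)` let `τ` be its restriction to `ℚ̄` along `j`
(`j ∘ τ = σ ∘ j`; it exists since `ℚ̄` is normal over `ℚ`).  Then
`σ(e)/e = j(τ w/w) j(τ y/y)^k · ev h' (σ a' - a')^m · ev (σφ/φ) B'` and `τ w/w = bb τ`,
`τ y/y = ev u (n ξ τ + div φ_τ) = ev u (ξ τ)^n · ev φ_τ (div u)` (G12), so
`bb τ (τ y/y)^k = ev h_k (ξ τ)^m · ev φ_τ B_k` and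
`σ(e)/e = ev h' (σ a' - a' + push j (ξ τ))^m · ev ((σφ/φ) · mapFun j φ_τ) B' = 1` by G16, since
`A = push σ a' - a' + push j (ξ τ)` is principal (twist fixed) and
`n A + div((σφ/φ) mapFun j φ_τ) = σ(single P) - single P = 0` (`P` is rational:
`Crit.push_single`; `push σ (push j D) = push j (push τ D)`).  So `e` is fixed by `Gal(K̄/K)`,
`e ∈ K` (characteristic zero; see `Res_.rat_of_fixed` in FD/Res.lean). -/
def T_LOCX : Prop := ∀ (C : Curve) (n N m : ℕ) (X : C.Covering n) (h u : C.FunField Curve.Qbar)
  (B : C.Pt Curve.Qbar → ℤ) (c : Choice C n X h u) (w : Curve.Qbar) (δ : ℚ), h ≠ 0 → u ≠ 0 →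
  Inv C h → Inv C u → 1 ≤ N → n = N * m → (∀ v, (N : ℤ) * B v = v.ord h) →
  w ≠ 0 → (∀ σ, bb c m B σ = σ w / w) → ev h c.D = algebraMap ℚ Curve.Qbar δ * w ^ N →
  ∀ (K : Type) [Field K] [CharZero K] (j : Curve.Qbar →+* AlgebraicClosure K)
    (P : C.Pt (AlgebraicClosure K)) (a : C.Pt (AlgebraicClosure K) → ℤ),
    Curve.IsRational K P → Curve.IsDivOfDegree a 0 →
    Curve.IsPrin (Curve.single P - n • a - C.push j X.D) → Curve.IsTwistFixed X.ξ K j a →
    ∀ k : ℤ, P.ord (C.mapFun j (h * u ^ (N * k))) = 0 →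
      ∃ e : K, e ≠ 0 ∧ val P (C.mapFun j (h * u ^ (N * k))) =
        algebraMap K (AlgebraicClosure K) ((δ : K) * e ^ N)

/-- GC4.  The global class.
Proof.  From GC1, GC2, F2, GC3.  `w` from F2 for `b = bb c m B`; `δ = ev h c.D / w^N` is fixed by
all `σ` (GC2), hence rational. -/
def T_GC : Prop := ∀ (C : Curve) (n N : ℕ) (X : C.Covering n) (h u : C.FunField Curve.Qbar),
  h ≠ 0 → u ≠ 0 → Inv C h → Inv C u → 1 ≤ N → N ∣ n → (∀ v : C.Pt Curve.Qbar, (N : ℤ) ∣ v.ord h) →
  ∃ δ : ℚ, δ ≠ 0 ∧ ∀ (K : Type) [Field K] [CharZero K] (j : Curve.Qbar →+* AlgebraicClosure K)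
    (P : C.Pt (AlgebraicClosure K)) (a : C.Pt (AlgebraicClosure K) → ℤ),
    Curve.IsRational K P → Curve.IsDivOfDegree a 0 →
    Curve.IsPrin (Curve.single P - n • a - C.push j X.D) → Curve.IsTwistFixed X.ξ K j a →
    ∀ k : ℤ, P.ord (C.mapFun j (h * u ^ (N * k))) = 0 →
      ∃ e : K, e ≠ 0 ∧ val P (C.mapFun j (h * u ^ (N * k))) =
        algebraMap K (AlgebraicClosure K) ((δ : K) * e ^ N)

end Pool.Agent.FDX
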