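import Pool.Agent.FDX.Targets
import Pool.Agent.FD.Res

/-!
# FDX, part 2: the arithmetic of the arrangement curves, prime by prime, and the assembly

`A` is the arrangement of FD (`∏ f_i(y + h_i(x)) = c`), `C` its curve, `e t` (`t : Fin R`) the
host classes, `f_(e t) = f0 P * hh` with `f0 P ∣ hh - 1`, `d_k = dd P k`, `c = ∏ l_a`.  For a host
class `i` and `b : Fin m` let `h = (g_i² - d_b)/(g_i² - d_none)`, a function over `ℚ` with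
`div h = N_i (T_(i,√d_b) + T_(i,-√d_b) - T_(i,√d_none) - T_(i,-√d_none))`.  By `T_GC` there is
`δ_(t,b) ∈ ℚ` such that the value of `h` at the local point `w_p` is `δ_(t,b)` times an
`N_i`-th power for every `p`.  The rest is FD/Side.lean and FD/ArithB.lean, where one rational
point is replaced by the local points `w_p`.
-/

open MvPolynomial

namespace Pool.Agent.FDX

open Pool.Agent.FD

/-- `h_(i,b) = (g_i² - d_b)/(g_i² - d_none)` on `C` over `L`. -/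
noncomputable def hf {ι : Type} [Fintype ι] [DecidableEq ι] (A : Arr ι) (C : Curve) {m : ℕ}
    (P : Fin m → ℕ) (i : ι) (b : Fin m) (L : Type) [Field L] [CharZero L] [IsAlgClosed L] :
    C.FunField L :=
  ((A.g i (C.xF L) (C.yF L)) ^ 2 - ((dd P (some b) : ℤ) : C.FunField L)) /
    ((A.g i (C.xF L) (C.yF L)) ^ 2 - ((dd P none : ℤ) : C.FunField L))

/-- A1.  The function `h`.
Proof.  `T_PRIN` of FD/Targets.lean: over `L` let `θ² = d_k`, `θ ≠ 0`; `f0 P ∣ f_i` gives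
`f_i(θ) = f_i(-θ) = 0` and `v.ord (g_i² - d_k) = v.ord (g_i - θ) + v.ord (g_i + θ)
= N_i (Tpt θ v + Tpt (-θ) v) - 2 ∑_j w_ij Tdiv_j v` for every `v` (the factors are not `0`
because `g_i - θ` has order `N_i > 0` at the place of `T_TPL`; see `g_sub_ne`, `isPrin` in
FD/SelM.lean).  The second term does not depend on `k`.  `mapFun j` fixes `x`, `y`, integers
(`Curve.mapFun_xF`, `Res_.map_g`). -/
def T_HDIV : Prop := ∀ (ι : Type) [Fintype ι] [DecidableEq ι] (A : Arr ι) (C : Curve),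
  C.F = A.F → ∀ (m : ℕ) (P : Fin m → ℕ), GoodP P → ∀ i : ι, f0 P ∣ A.f i → ∀ b : Fin m,
  (∀ (L : Type) [Field L] [CharZero L] [IsAlgClosed L], hf A C P i b L ≠ 0 ∧ C.xF L ≠ 0 ∧
    ∀ v : C.Pt L, (A.N i : ℤ) ∣ v.ord (hf A C P i b L)) ∧
  ∀ (L L' : Type) [Field L] [CharZero L] [IsAlgClosed L] [Field L'] [CharZero L']
    [IsAlgClosed L'] (j : L →+* L'), C.mapFun j (hf A C P i b L) = hf A C P i b L'

/-- A2.  Rational points of `C` over `K` (as `T_RES` in FD, which is the case `K = ℚ`).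
Proof.  As `p_RES` and `core` in FD/Res.lean: replace `ℚ` by `K`, `∃ r : ℚ, (r : L) = θ` by
`∃ r : K, algebraMap K L r = θ`; `rat_of_fixed` is already general. -/
def T_RESK : Prop := ∀ (ι : Type) [Fintype ι] [DecidableEq ι] (A : Arr ι) (C : Curve),
  C.F = A.F → ∀ (K : Type) [Field K] [CharZero K] (w : C.Pt (AlgebraicClosure K)),
  Curve.IsRational K w →
  (∃ i, ∃ θ : K, Polynomial.aeval θ (A.f i) = 0 ∧
    w.ord (C.xF (AlgebraicClosure K)) < 0 ∧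
    Res_.Sm w.toDV (A.g i (C.xF (AlgebraicClosure K)) (C.yF (AlgebraicClosure K)) -
      algebraMap (AlgebraicClosure K) _ (algebraMap K (AlgebraicClosure K) θ)) ∧
    ∀ j, j ≠ i → w.ord (A.g j (C.xF (AlgebraicClosure K)) (C.yF (AlgebraicClosure K))) < 0) ∨
  ∃ α β : K, A.Eqn α β ∧
    Res_.Sm w.toDV (C.xF (AlgebraicClosure K) -
      algebraMap (AlgebraicClosure K) _ (algebraMap K (AlgebraicClosure K) α)) ∧
    Res_.Sm w.toDV (C.yF (AlgebraicClosure K) -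
      algebraMap (AlgebraicClosure K) _ (algebraMap K (AlgebraicClosure K) β))

/-- A3.  The value of `h` at an affine point.
Proof.  `g_i - γ` is small at `w` (`Res_.aeval_sub_Sm`), `γ = g_i(α, β)`; `f_i(γ) ≠ 0` because the
product over all classes is `c ≠ 0`, so `f0(γ) ≠ 0`, and `γ² - d_k ≠ 0` for all `k`
(`f0 = ∏ (X² - d_k)`).  So `g_i² - d_k` has order `0` and value `γ² - d_k`.  Use `T_EV` (the
second and third part). -/
def T_VALA : Prop := ∀ (ι : Type) [Fintype ι] [DecidableEq ι] (A : Arr ι) (C : Curve),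
  C.F = A.F → ∀ (m : ℕ) (P : Fin m → ℕ) (K : Type) [Field K] [CharZero K]
  (w : C.Pt (AlgebraicClosure K)) (α β : K), A.Eqn α β →
  Res_.Sm w.toDV (C.xF (AlgebraicClosure K) -
    algebraMap (AlgebraicClosure K) _ (algebraMap K (AlgebraicClosure K) α)) →
  Res_.Sm w.toDV (C.yF (AlgebraicClosure K) -
    algebraMap (AlgebraicClosure K) _ (algebraMap K (AlgebraicClosure K) β)) →
  ∀ i : ι, f0 P ∣ A.f i → ∀ b : Fin m,
    Polynomial.aeval (A.g i α β) (f0 P) ≠ 0 ∧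
    w.ord (hf A C P i b (AlgebraicClosure K)) = 0 ∧
    val w (hf A C P i b (AlgebraicClosure K)) = algebraMap K (AlgebraicClosure K)
      (((A.g i α β) ^ 2 - (dd P (some b) : ℤ)) / ((A.g i α β) ^ 2 - (dd P none : ℤ)))

/-- A4.  The value of `h` at the point `T_(j,θ)`.
Proof.  `w.ord x = -1`: `w` is the place of `T_TPL`.  (1) `w.ord g_i < 0`, so
`(g_i² - d_b)/(g_i² - d_none) - 1 = (d_none - d_b)/(g_i² - d_none)` is small.  (2) As in A3.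
(3) `(g_j² - d_b) q(g_j) ∏_(i ≠ j) f_i(g_i) = c`, so `(g_j² - d_b) x^N = c / (q(g_j) Π)`,
`Π = x^(-N) ∏_(i ≠ j) f_i(g_i) = ∏_(i ≠ j) (f_i(g_i)/x^(m_i w_ij))`, `N = ∑ m_i w_ij`.  `f_i` is
monic of degree `m_i`, `g_i = g_j + (h_i - h_j)(x)`, `h_i - h_j` has leading coefficient `±1` and
degree `w_ij`, so `g_i / x^(w_ij)` has value `±1` and `f_i(g_i)/x^(m_i w_ij)` has value
`(±1)^(m_i)`: `Π` has value `ε = ±1`.  `q(θ) ≠ 0` by separability of `f_j`.  (4) The same. -/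
def T_VALT : Prop := ∀ (ι : Type) [Fintype ι] [DecidableEq ι] (A : Arr ι) (C : Curve),
  C.F = A.F → ∀ (m : ℕ) (P : Fin m → ℕ), GoodP P → ∀ (K : Type) [Field K] [CharZero K]
  (w : C.Pt (AlgebraicClosure K)) (j : ι) (θ : K), Polynomial.aeval θ (A.f j) = 0 →
  w.ord (C.xF (AlgebraicClosure K)) < 0 →
  Res_.Sm w.toDV (A.g j (C.xF (AlgebraicClosure K)) (C.yF (AlgebraicClosure K)) -
    algebraMap (AlgebraicClosure K) _ (algebraMap K (AlgebraicClosure K) θ)) →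
  (∀ i, i ≠ j → w.ord (A.g i (C.xF (AlgebraicClosure K)) (C.yF (AlgebraicClosure K))) < 0) →
  (∀ i, i ≠ j → ∀ b : Fin m, w.ord (hf A C P i b (AlgebraicClosure K)) = 0 ∧
    val w (hf A C P i b (AlgebraicClosure K)) = 1) ∧
  (∀ b : Fin m, θ ^ 2 ≠ ((dd P (some b) : ℤ) : K) → θ ^ 2 ≠ ((dd P none : ℤ) : K) →
    w.ord (hf A C P j b (AlgebraicClosure K)) = 0 ∧
    val w (hf A C P j b (AlgebraicClosure K)) = algebraMap K (AlgebraicClosure K)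
      ((θ ^ 2 - (dd P (some b) : ℤ)) / (θ ^ 2 - (dd P none : ℤ)))) ∧
  (∀ (b : Fin m) (q : Polynomial ℤ), A.f j = (Polynomial.X ^ 2 - Polynomial.C (dd P (some b))) * q →
    θ ^ 2 = ((dd P (some b) : ℤ) : K) →
    w.ord (hf A C P j b (AlgebraicClosure K) *
      C.xF (AlgebraicClosure K) ^ ((A.N j : ℤ) * 1)) = 0 ∧
    ∃ ε : ℤ, (ε = 1 ∨ ε = -1) ∧
    val w (hf A C P j b (AlgebraicClosure K) *
      C.xF (AlgebraicClosure K) ^ ((A.N j : ℤ) * 1)) = algebraMap K (AlgebraicClosure K)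
      (ε * A.c / (Polynomial.aeval θ q * ((dd P (some b) : ℤ) - (dd P none : ℤ))))) ∧
  (∀ (b : Fin m) (q : Polynomial ℤ), A.f j = (Polynomial.X ^ 2 - Polynomial.C (dd P none)) * q →
    θ ^ 2 = ((dd P none : ℤ) : K) →
    w.ord (hf A C P j b (AlgebraicClosure K) *
      C.xF (AlgebraicClosure K) ^ ((A.N j : ℤ) * (-1))) = 0 ∧
    ∃ ε : ℤ, (ε = 1 ∨ ε = -1) ∧
    val w (hf A C P j b (AlgebraicClosure K) *
      C.xF (AlgebraicClosure K) ^ ((A.N j : ℤ) * (-1))) = algebraMap K (AlgebraicClosure K)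
      (ε * Polynomial.aeval θ q * ((dd P none : ℤ) - (dd P (some b) : ℤ)) / A.c))

/-! ## Local arithmetic -/

/-- The properties of the local values `κ_(t,b) ∈ ℚ_p` that are used. -/
def LocOK {m R : ℕ} (N : Fin R → ℕ) (P : Fin m → ℕ) (l : Fin m → ℕ) (p : ℕ) [Fact p.Prime]
    (κ : Fin R → Fin m → ℚ_[p]) : Prop :=
  (∀ t b, κ t b ≠ 0) ∧
  ((∀ a, l a ≠ p) → ∀ t b, ∃ e₀ : ℤ, |e₀| ≤ (Gam P).factorization p ∧
    (N t : ℤ) ∣ (κ t b).valuation - e₀) ∧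
  ∀ a, l a = p → ∃ t₀, ∀ t b,
    (t = t₀ → (N t : ℤ) ∣ (κ t b).valuation - (if a = b then 1 else 0)) ∧
    (t ≠ t₀ → (N t : ℤ) ∣ (κ t b).valuation) ∧
    (t = t₀ → a ≠ b → ∃ z : ℤ_[p], (z : ℚ_[p]) = κ t b ∧
      PadicInt.toZMod z * ((dd P (some a) - dd P none : ℤ) : ZMod p) =
        ((dd P (some a) - dd P (some b) : ℤ) : ZMod p))

/-- The hypotheses on the arrangement (as in `T_ARITH2` of FD). -/
structure Hyp {ι : Type} [Fintype ι] [DecidableEq ι] (A : Arr ι) {m R : ℕ} (e : Fin R → ι)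
    (P : Fin m → ℕ) (l : Fin m → ℕ) : Prop where
  inj : Function.Injective e
  goodP : GoodP P
  goodL : GoodL P (fun t : Fin R => A.N (e t)) l
  two_le : ∀ t : Fin R, 2 ≤ A.N (e t)
  host : ∀ t : Fin R, ∃ hh : Polynomial ℤ, A.f (e t) = f0 P * hh ∧ f0 P ∣ hh - 1 ∧
    ∀ a, ∀ z : ZMod (l a), Polynomial.aeval z hh ≠ 0
  fill : ∀ i : ι, (∀ t, e t ≠ i) → ∀ a, ∀ z : ZMod (l a), Polynomial.aeval z (A.f i) ≠ 0
  c_eq : A.c = ∏ a, (l a : ℤ)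
  lt : R < m

/-- A5.  Affine points over `ℚ_p`.
Proof.  FD/ArithB.lean and FD/Side.lean with `ℚ` replaced by `ℚ_p` (`T_CLASS` and `good_one`,
`good_zero` of FD/Arith.lean are for a general field with a valuation `DV`; take the valuation of
`ℚ_p` as a `DV`, with `ord 0 = 0`).  For a host class `i = e t`, `γ = g_i(α, β)`.  Write
`V_k = γ² - d_k` if `v γ ≥ 0`; if `v γ < 0` then `κ = (1 - d_b γ^(-2))/(1 - d_none γ^(-2))` has
valuation `0` and is `≡ 1` modulo `p`.  Let `v γ ≥ 0`.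
* `p` not among the `l_a`: `N ∣ ∑_k v(V_k)` (`good_zero` and `val_split`); for `k ≠ k'`
  `min(v V_k, v V_k') ≤ v(d_k - d_k') ≤ v(Del)`; `local_comb` of FD/Side.lean gives `e₀` with
  `|e₀| ≤ (m+1) v_p(Del) = v_p(Gam)` and `N ∣ v V_b - v V_none - e₀`.
* `p = l_a`: by `good_one` there is one class `i₀` with `v (f_(i₀)(g_(i₀))) ≡ 1 mod N`, positive,
  all others are `Good`; `i₀` is a host class `e t₀` (`fill`, `root_mod`), and `f0(γ) ≡ 0`,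
  `hh(γ)` a unit; `V_k` is a unit for `k ≠ some a` (`nsq`: otherwise `d_k` is a square modulo
  `l_a`, `eq_some` of FD/Side.lean), so `v V_a ≡ 1 mod N` at `t₀`, and `γ² ≡ d_a` modulo `l_a`:
  `κ_b = V_b/V_none ≡ (d_a - d_b)/(d_a - d_none)` for `b ≠ a`, a `p`-adic integer.  For
  `t ≠ t₀`: `Good`, so either `v γ < 0` (done) or `N ∣ v f_i(γ)`, `= v V_a + 0` or `f0(γ)` is a
  unit: `N ∣ v V_a` and the other `V_k` are units. -/
def T_LOCA : Prop := ∀ (ι : Type) [Fintype ι] [DecidableEq ι] (A : Arr ι) (m R : ℕ)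
  (e : Fin R → ι) (P : Fin m → ℕ) (l : Fin m → ℕ), Hyp A e P l →
  ∀ (p : ℕ) [Fact p.Prime] (α β : ℚ_[p]), A.Eqn α β →
  LocOK (fun t : Fin R => A.N (e t)) P l p (fun t b =>
    ((A.g (e t) α β) ^ 2 - ((dd P (some b) : ℤ) : ℚ_[p])) /
      ((A.g (e t) α β) ^ 2 - ((dd P none : ℤ) : ℚ_[p])))

/-- A6.  The points `T_(j,θ)` over `ℚ_p`.
Proof.  `θ` is a root of a monic integral polynomial, so `v θ ≥ 0`.
* `p` not among the `l_a`, so `v c = 0`.  If `e t ≠ j`: `κ = 1`, `e₀ = 0`.  Let `e t = j`,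
  `f_j = f0 hh`.  If `hh(θ) = 0` then `f0(θ)` is a unit (`hh - 1 = f0 r`), so all `θ² - d_k` are
  units, and `e₀ = 0`.  If `θ² = d_k`, `k ≠ some b, none`: `v κ = v(d_k - d_b) - v(d_k - d_none)`,
  `|.| ≤ v_p(Del) ≤ v_p(Gam)`; `e₀ = v κ`.  If `θ² = d_b`: `q(θ) = ∏_(k ≠ b) (d_b - d_k) hh(θ)`
  (cancel `X² - d_b` in `f_j = f0 hh`), `hh(θ) = 1` as `f0(θ) = 0`; `v κ = - ∑_(k ≠ b) v(d_b - d_k)
  - v(d_b - d_none)`, absolute value `≤ 2 v_p(Del) ≤ v_p(Gam)` (`m + 1 ≥ 3`; all factors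
  `d_b - d_k` occur in `Del`).  `θ² = d_none`: the same.
* `p = l_a`.  `f_j` has the root `θ mod p`, so `j = e t₀` is a host class (`fill`) and
  `hh(θ) ≠ 0` modulo `p`, so `θ² = d_k`, a square modulo `l_a`, `k = some a` (`nsq`).  For
  `e t ≠ j`, `κ = 1`.  For `t = t₀`, `b ≠ a`: `κ = (d_a - d_b)/(d_a - d_none)` with `d_a - d_none` a
  unit (`ndvd`, it divides `Gam`), an integer with the required reduction, and a unit; for
  `b = a`: `v κ = v(c) - v(q(θ)) - v(d_a - d_none) = 1 - 0 - 0`, as `l_a ∤ Gam`. -/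
def T_LOCT : Prop := ∀ (ι : Type) [Fintype ι] [DecidableEq ι] (A : Arr ι) (m R : ℕ)
  (e : Fin R → ι) (P : Fin m → ℕ) (l : Fin m → ℕ), Hyp A e P l →
  ∀ (p : ℕ) [Fact p.Prime] (j : ι) (θ : ℚ_[p]), Polynomial.aeval θ (A.f j) = 0 →
  ∀ κ : Fin R → Fin m → ℚ_[p], (∀ t b, e t ≠ j → κ t b = 1) →
  (∀ t b, e t = j → θ ^ 2 ≠ ((dd P (some b) : ℤ) : ℚ_[p]) → θ ^ 2 ≠ ((dd P none : ℤ) : ℚ_[p]) →
    κ t b = (θ ^ 2 - ((dd P (some b) : ℤ) : ℚ_[p])) / (θ ^ 2 - ((dd P none : ℤ) : ℚ_[p]))) →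
  (∀ t b, e t = j → θ ^ 2 = ((dd P (some b) : ℤ) : ℚ_[p]) → ∃ (q : Polynomial ℤ) (ε : ℤ),
    A.f j = (Polynomial.X ^ 2 - Polynomial.C (dd P (some b))) * q ∧ (ε = 1 ∨ ε = -1) ∧
    κ t b = ε * A.c / (Polynomial.aeval θ q * ((dd P (some b) : ℤ) - (dd P none : ℤ)))) →
  (∀ t b, e t = j → θ ^ 2 = ((dd P none : ℤ) : ℚ_[p]) → ∃ (q : Polynomial ℤ) (ε : ℤ),
    A.f j = (Polynomial.X ^ 2 - Polynomial.C (dd P none)) * q ∧ (ε = 1 ∨ ε = -1) ∧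
    κ t b = ε * Polynomial.aeval θ q * ((dd P none : ℤ) - (dd P (some b) : ℤ)) / A.c) →
  LocOK (fun t : Fin R => A.N (e t)) P l p κ

/-- A7.  The local values.
Proof.  From A2 - A6 and `T_TPL`: by A2 `w` is an affine point (A3, A5, `k = 0`) or `T_(j,θ)`
(A4, A6, `k = 0, 1, -1`; `X² - d_k` divides `f0 P`, so `q` exists). -/
def T_LOCV : Prop := ∀ (ι : Type) [Fintype ι] [DecidableEq ι] (A : Arr ι) (C : Curve),
  C.F = A.F → ∀ (m R : ℕ) (e : Fin R → ι) (P : Fin m → ℕ) (l : Fin m → ℕ), Hyp A e P l →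
  ∀ (p : ℕ) [Fact p.Prime] (w : C.Pt (AlgebraicClosure ℚ_[p])), Curve.IsRational ℚ_[p] w →
  ∃ κ : Fin R → Fin m → ℚ_[p], LocOK (fun t : Fin R => A.N (e t)) P l p κ ∧
    ∀ t b, ∃ k : ℤ,
      w.ord (hf A C P (e t) b (AlgebraicClosure ℚ_[p]) *
        C.xF (AlgebraicClosure ℚ_[p]) ^ ((A.N (e t) : ℤ) * k)) = 0 ∧
      val w (hf A C P (e t) b (AlgebraicClosure ℚ_[p]) *
        C.xF (AlgebraicClosure ℚ_[p]) ^ ((A.N (e t) : ℤ) * k)) =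
        algebraMap ℚ_[p] (AlgebraicClosure ℚ_[p]) (κ t b)

/-- A8.  The global argument (adelic version of `T_SIDE`).
Proof.  As `p_SIDE` in FD/Side.lean.  Suppose `a < b` are in `X`; use `δ b`.  The valuations of
`δ b` are `≡ v_p(l_b) + e(p)` modulo `N` with `|e(p)| ≤ v_p(Gam)` for all `p`, so with `g₁, g₂`
divisors of `Gam` (`exists_fac`) and `exists_ratio`: `δ b = ± l_b (g₁/g₂) (A/B)^N`.  At `l_a`:
`δ b s^N = z`, `z (d_a - d_none) ≡ d_a - d_b`, a unit (`l_a ∤ Gam`), so `z` is a unit, and so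
`y = s A / B` is a unit of `ℤ_p` (`l_b`, `g₁`, `g₂` are units at `l_a`): modulo `l_a`
`(d_a - d_b) g₂ = ± l_b g₁ (d_a - d_none) y^N`, which contradicts `avoid`. -/
def T_SIDEA : Prop := ∀ (m R : ℕ) (P : Fin m → ℕ) (N : Fin R → ℕ) (l : Fin m → ℕ),
  GoodP P → GoodL P N l → ∀ (t : Fin R), 2 ≤ N t → ∀ (X : Finset (Fin m)) (δ : Fin m → ℚ),
  (∀ b, δ b ≠ 0) →
  (∀ p : ℕ, p.Prime → (∀ a, l a ≠ p) → ∀ b, ∃ e₀ : ℤ, |e₀| ≤ (Gam P).factorization p ∧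
    (N t : ℤ) ∣ padicValRat p (δ b) - e₀) →
  (∀ a b, (N t : ℤ) ∣ padicValRat (l a) (δ b) - (if a = b ∧ a ∈ X then 1 else 0)) →
  (∀ a ∈ X, ∀ b, b ≠ a → ∀ [Fact (l a).Prime], ∃ s : ℚ_[l a], s ≠ 0 ∧ ∃ z : ℤ_[l a],
    (z : ℚ_[l a]) = (δ b : ℚ_[l a]) * s ^ (N t) ∧
    PadicInt.toZMod z * ((dd P (some a) - dd P none : ℤ) : ZMod (l a)) =
      ((dd P (some a) - dd P (some b) : ℤ) : ZMod (l a))) →
  X.card ≤ 1

/-- A9.  The Selmer set is empty.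
Proof.  From `T_GC`, A1, A7, A8.  Let `X` be an `n`-covering with points over all `ℚ_p`.  For
each `p` fix an embedding `j_p` (`IsAlgClosed.lift`), the point `w_p` and `a_p` of `HasPointOver`,
and `κ_p` of A7.  For each `t`, `b` let `δ_(t,b)` be the class of `T_GC` for `h = hf A C P (e t) b`,
`u = xF`, `N = N_(e t)`.  Then `κ_p t b = δ_(t,b) s^N`, `s ∈ ℚ_p` (for every `p`).  For `a : Fin m`
let `t₀(a)` be as in `LocOK` at `p = l_a`; `X_t = {a | t₀ a = t}`; A8 gives `|X_t| ≤ 1`, so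
`m = ∑ |X_t| ≤ R < m`.  (`padicValRat p δ = (δ : ℚ_p).valuation`.) -/
def T_EMPTY : Prop := ∀ (ι : Type) [Fintype ι] [DecidableEq ι] (A : Arr ι) (C : Curve),
  C.F = A.F → ∀ (m R : ℕ) (e : Fin R → ι) (P : Fin m → ℕ) (l : Fin m → ℕ), Hyp A e P l →
  ∀ n : ℕ, 1 ≤ n → (∀ t, A.N (e t) ∣ n) → ¬ C.SelNonempty n

/-! ## Assembly -/

/-- B1.  The common part of the two main theorems (`main_auxC` of FD/MainC.lean with one more
conclusion, which is `T_EMPTY`, `e = pos r`).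
Proof.  Copy the proof of `main_auxC`, all its hypotheses are available (see FD/All.lean). -/
def T_AUX : Prop := ∀ (r m ν c Q G : ℕ), 1 ≤ r → m = 2 * r → ν = 4 * (m + 1) + 1 →
  ∀ q : Fin r → ℕ, (∀ i, (q i).Prime) → 2 ≤ Q →
  (∀ N : Fin r → ℕ, (∀ i, G ≤ N i) → (∀ i j : Fin r, i < j → N i + G ≤ N j) →
    (∀ i j, N i ≤ c * N j) →
    ∃ δ : Fin (3 * r + 1) → ℕ, StrictMono δ ∧ δ 0 = 0 ∧ ∀ i : Fin r, NM Q ν δ (pos r i) = N i) →
  ∀ P : Fin m → ℕ, GoodP P → (∀ k, Q + 3 < P k) → (∀ i a, q i ≠ P a) → ∀ k : Fin r → ℕ,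
  (∀ i, G + 2 * r * (Gam P).divisors.card ^ 2 + 2 ≤ q i ^ k i) →
  (∀ i j : Fin r, i < j →
    q i ^ k i + (G + 2 * r * (Gam P).divisors.card ^ 2 + 2) ≤ q j ^ k j) →
  (∀ i j, q i ^ k i ≤ c * q j ^ k j) →
  ∃ C : Curve, ¬ C.HasPoint ℚ ∧
    (∀ n : ℕ, 1 ≤ n → (∃ i, ¬ q i ∣ n) → C.SelNonempty n) ∧
    (∀ n : ℕ, 1 ≤ n → (∀ i, q i ^ k i ∣ n) → ¬ C.SelNonempty n) ∧
    C.F.degreeOf 1 ≤ (3 * r + 1) * (Q + ν + 3) ∧
    ∀ i, C.F.degreeOf 0 ≤ (3 * r + 1) * (Q + ν + 3) * q i ^ k i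

/-- B2.  First main theorem.
Proof.  As `p_MAIN2` in FD/MainB.lean, with `T_AUX` instead of `main_auxB`; `M = ∏ q_i^(k_i)`,
`k_i ≥ 1`. -/
def T_MX2 : Prop := ∀ S : Finset ℕ, S.Nonempty → (∀ p ∈ S, p.Prime) → ∃ C : Curve,
  ¬ C.HasPoint ℚ ∧
  (∀ n : ℕ, 1 ≤ n → (∃ p ∈ S, ¬ p ∣ n) → C.SelNonempty n) ∧
  ∃ M : ℕ, 1 ≤ M ∧ (∀ p : ℕ, p.Prime → (p ∣ M ↔ p ∈ S)) ∧
    ∀ n : ℕ, 1 ≤ n → M ∣ n → ¬ C.SelNonempty n

/-- B3.  Second main theorem.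
Proof.  As `p_MAINC` in FD/MainC.lean, with `T_AUX` instead of `main_auxC`; `k = 1`,
`N = ∏ q_i`. -/
def T_MXC : Prop := ∀ r : ℕ, ∃ K : ℕ, ∀ X : ℕ, K ≤ X → ∃ C : Curve,
  C.F.degreeOf 0 ≤ K * X ∧ C.F.degreeOf 1 ≤ K ∧ ¬ C.HasPoint ℚ ∧
  ∃ N : ℕ, X ^ r ≤ N ∧ (∀ p : ℕ, p.Prime → p ∣ N → X < p) ∧
  ∀ n : ℕ, 1 ≤ n → (C.SelNonempty n ↔ ¬ N ∣ n)

end Pool.Agent.FDX
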